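import Mathlib
import Pool.Agent.MP_0b7119_mp.GDefs
import Pool.Agent.MP_0b7119_mp.Iface
import Pool.Agent.MP_0b7119_mp.JobK1
import Pool.Agent.MP_0b7119_mp.JobD
import Pool.Agent.MP_0b7119_mp.JobD1
import Pool.Agent.MP_0b7119_mp.JobD2
import Pool.Agent.MP_0b7119_mp.Kern
import Pool.Agent.MP_0b7119_mp.Kern2
import Pool.Agent.MP_0b7119_mp.Ops

section

/-! Job A, part 1: the Sobolev inequality `H^{1/2} ⊆ L^{2d/(d-1)}` on the Fourier side. -/

open Set MeasureTheory FourierTransform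
open scoped ENNReal SchwartzMap ContDiff

namespace Pool.Agent.MP_0b7119_mp.G.JA

variable {E S : Type} [NormedAddCommGroup E] [InnerProductSpace ℝ E] [FiniteDimensional ℝ E]
  [MeasurableSpace E] [BorelSpace E] [NormedAddCommGroup S] [InnerProductSpace ℂ S]
  [CompleteSpace S]

/-- A real test function as a complex Schwartz function. -/
noncomputable def toS (φ : E → ℝ) (h₁ : ContDiff ℝ ∞ φ) (h₂ : HasCompactSupport φ) : 𝓢(E, ℂ) :=
  HasCompactSupport.toSchwartzMap (f := fun x => (φ x : ℂ))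
    (h₂.comp_left (g := fun r : ℝ => (r : ℂ)) (by simp)) (Complex.ofRealCLM.contDiff.comp h₁)

omit [MeasurableSpace E] [BorelSpace E] [FiniteDimensional ℝ E] in
@[simp] lemma toS_apply (φ : E → ℝ) (h₁ : ContDiff ℝ ∞ φ) (h₂ : HasCompactSupport φ) (x : E) :
    toS φ h₁ h₂ x = (φ x : ℂ) := rfl

/-- On `L¹ ∩ L²` the `L²` inverse Fourier transform is given by the integral. -/
lemma fourierInv_ae_eq (g : Lp S 2 (volume : Measure E)) (hg : Integrable (g : E → S) volume) :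
    ((𝓕⁻ g : Lp S 2 (volume : Measure E)) : E → S) =ᵐ[volume] 𝓕⁻ (g : E → S) := by
  have hc : Continuous (𝓕⁻ (g : E → S)) := by
    have := VectorFourier.fourierIntegral_continuous (e := Real.fourierChar) (μ := volume)
      (L := -innerₗ E) Real.continuous_fourierChar (by
        simp only [LinearMap.neg_apply, innerₗ_apply_apply]; fun_prop) hg
    exact this
  refine ae_eq_of_integral_contDiff_smul_eq
    ((Lp.memLp _).locallyIntegrable (by norm_num)) hc.locallyIntegrable ?_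
  intro φ h₁ h₂
  have key := Lp.fourierInv_toTemperedDistribution_eq g
  have k2 := congrArg (fun T : 𝓢'(E, S) => T (toS φ h₁ h₂)) key
  simp only [TemperedDistribution.fourierInv_apply, Lp.toTemperedDistribution_apply,
    toS_apply] at k2
  have k3 := VectorFourier.integral_fourierIntegral_smul_eq_flip (e := Real.fourierChar)
    (μ := volume) (ν := volume) (L := -innerₗ E) (f := (toS φ h₁ h₂ : E → ℂ)) (g := (g : E → S))
    Real.continuous_fourierChar (by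
        simp only [LinearMap.neg_apply, innerₗ_apply_apply]; fun_prop)
    (toS φ h₁ h₂).integrable hg
  have hflip : (-innerₗ E).flip = -innerₗ E := by
    ext x y; simp [real_inner_comm]
  rw [hflip] at k3
  have e1 : ∀ x, φ x • (𝓕⁻ g : Lp S 2 (volume : Measure E)) x =
      (φ x : ℂ) • (𝓕⁻ g : Lp S 2 (volume : Measure E)) x := fun x => by simp
  have e2 : ∀ x, φ x • 𝓕⁻ (g : E → S) x = (φ x : ℂ) • 𝓕⁻ (g : E → S) x := fun x => by simp
  simp_rw [e1, e2]
  rw [← k2, SchwartzMap.fourierInv_coe]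
  exact k3

lemma norm_fourierInv_ae_le (g : Lp S 2 (volume : Measure E))
    (hg : Integrable (g : E → S) volume) :
    ∀ᵐ x, ‖(𝓕⁻ g : Lp S 2 (volume : Measure E)) x‖ ≤ ∫ ξ, ‖g ξ‖ := by
  filter_upwards [fourierInv_ae_eq g hg] with x hx
  rw [hx]
  exact VectorFourier.norm_fourierIntegral_le_integral_norm _ _ _ _ _

omit [InnerProductSpace ℝ E] [FiniteDimensional ℝ E] [BorelSpace E] [CompleteSpace S]
  [NormedAddCommGroup E] [InnerProductSpace ℂ S] in
lemma lintegral_sq_eq {μ : Measure E} (F : Lp S 2 μ) :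
    ∫⁻ x, ENNReal.ofReal (‖F x‖ ^ 2) ∂μ = ENNReal.ofReal (‖F‖ ^ 2) := by
  have h := eLpNorm_nnreal_pow_eq_lintegral (μ := μ) (f := (F : E → S)) (p := 2) (by norm_num)
  have h2 : ((2 : NNReal) : ℝ≥0∞) = 2 := rfl
  rw [h2, ← Lp.enorm_def] at h
  simp only [NNReal.coe_ofNat, ENNReal.rpow_ofNat] at h
  rw [ENNReal.ofReal_pow (norm_nonneg _), ofReal_norm, h]
  congr 1; ext x
  rw [ENNReal.ofReal_pow (norm_nonneg _), ofReal_norm]

lemma integrableOn_inv_norm {n : ℕ} (hn : Module.finrank ℝ E = n + 1) (hn0 : n ≠ 0) (A : ℝ) :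
    IntegrableOn (fun ξ : E => ‖ξ‖⁻¹) (Metric.ball 0 A) volume := by
  refine integrableOn_ball_of_norm_le_rpow (C := 1) (α := 1) (by omega) ?_ ?_ ?_
  · rw [hn]; push_cast
    have : (1 : ℝ) ≤ n := by exact_mod_cast Nat.one_le_iff_ne_zero.mpr hn0
    linarith
  · filter_upwards with x
    simp [Real.rpow_neg_one]
  · exact (measurable_norm.inv).aestronglyMeasurable

lemma integral_inv_norm {n : ℕ} (hn : Module.finrank ℝ E = n + 1) {A : ℝ} (hA : 0 < A) :
    ∫ ξ in Metric.ball (0 : E) A, ‖ξ‖⁻¹ = A ^ n * ∫ ξ in Metric.ball (0 : E) 1, ‖ξ‖⁻¹ := by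
  have h := Measure.setIntegral_comp_smul_of_pos (volume : Measure E) (fun ξ : E => ‖ξ‖⁻¹)
    (Metric.ball 0 1) hA
  rw [smul_unitBall_of_pos hA, hn] at h
  simp only [norm_smul, Real.norm_of_nonneg hA.le, mul_inv, integral_const_mul, smul_eq_mul] at h
  have hA' : A ^ (n + 1) ≠ 0 := by positivity
  field_simp at h
  rw [← mul_right_inj' hA.ne']
  simp only [one_div] at h
  rw [← h]; ring

/-- The distribution function estimate at height `s`. -/
lemma meas_lt_le {n : ℕ} (hn : Module.finrank ℝ E = n + 1) (hn0 : n ≠ 0) {K N : ℝ}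
    (hK : ∫ ξ in Metric.ball (0 : E) 1, ‖ξ‖⁻¹ ≤ K) (hK0 : 0 < K) (hN : 0 < N)
    (g : Lp S 2 (volume : Measure E)) (hi : Integrable (fun ξ : E => ‖ξ‖ * ‖g ξ‖ ^ 2) volume)
    (hg : ∫ ξ : E, ‖ξ‖ * ‖g ξ‖ ^ 2 ≤ N ^ 2) {s : ℝ} (hs : 0 < s) :
    ENNReal.ofReal (s ^ 2 / 4) *
        volume {x | s < ‖(𝓕⁻ g : Lp S 2 (volume : Measure E)) x‖} ≤
      ∫⁻ ξ, {ξ : E | s ^ 2 ≤ 4 * K * N ^ 2 * ‖ξ‖ ^ n}.indicator
        (fun ξ => ENNReal.ofReal (‖g ξ‖ ^ 2)) ξ := by
  set H : Set E := {ξ : E | s ^ 2 ≤ 4 * K * N ^ 2 * ‖ξ‖ ^ n} with hH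
  have hHm : MeasurableSet H := measurableSet_le measurable_const (by fun_prop)
  set A : ℝ := (s ^ 2 / (4 * K * N ^ 2)) ^ ((n : ℝ)⁻¹) with hA
  have hA0 : 0 < A := by positivity
  have hAn : A ^ n = s ^ 2 / (4 * K * N ^ 2) := Real.rpow_inv_natCast_pow (by positivity) hn0
  have hsub : Hᶜ ⊆ Metric.ball 0 A := by
    intro ξ hξ
    simp only [hH, mem_compl_iff, mem_ofPred_eq, not_le] at hξ
    rw [mem_ball_zero_iff]
    refine lt_of_pow_lt_pow_left₀ n hA0.le ?_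
    rw [hAn, lt_div_iff₀ (by positivity)]
    linarith
  have ml : MemLp (Hᶜ.indicator (g : E → S)) 2 volume := (Lp.memLp g).indicator hHm.compl
  have mh : MemLp (H.indicator (g : E → S)) 2 volume := (Lp.memLp g).indicator hHm
  set gl := ml.toLp _ with hgl
  set gh := mh.toLp _ with hgh
  have hsum : g = gl + gh := by
    apply Lp.ext
    filter_upwards [Lp.coeFn_add gl gh, ml.coeFn_toLp, mh.coeFn_toLp] with x h1 h2 h3
    rw [h1, Pi.add_apply, h2, h3]
    by_cases hx : x ∈ H <;> simp [hx]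
  -- the low part
  set lam : ℝ := s / (2 * N ^ 2) with hlam
  have hlam0 : 0 < lam := by positivity
  have hI := integrableOn_inv_norm hn hn0 A
  have hdom : Integrable (fun ξ : E => lam / 2 * (‖ξ‖ * ‖g ξ‖ ^ 2) +
      (2 * lam)⁻¹ * (Metric.ball (0 : E) A).indicator (fun ξ => ‖ξ‖⁻¹) ξ) volume :=
    (hi.const_mul _).add
      (((integrable_indicator_iff Metric.isOpen_ball.measurableSet).mpr hI).const_mul _)
  have : Nontrivial E := Module.nontrivial_of_finrank_pos (R := ℝ) (by omega)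
  have hne : ∀ᵐ ξ : E, ξ ≠ 0 := by
    simp [ae_iff]
  have hpt : ∀ᵐ ξ : E, ‖gl ξ‖ ≤ lam / 2 * (‖ξ‖ * ‖g ξ‖ ^ 2) +
      (2 * lam)⁻¹ * (Metric.ball (0 : E) A).indicator (fun ξ => ‖ξ‖⁻¹) ξ := by
    filter_upwards [ml.coeFn_toLp, hne] with ξ h1 h0
    rw [h1]
    have hξ : 0 < ‖ξ‖ := norm_pos_iff.mpr h0
    by_cases hx : ξ ∈ Hᶜ
    · rw [indicator_of_mem hx, indicator_of_mem (hsub hx)]
      have e : lam / 2 * (‖ξ‖ * ‖g ξ‖ ^ 2) + (2 * lam)⁻¹ * ‖ξ‖⁻¹ - ‖g ξ‖ =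
          (lam * ‖ξ‖ * ‖g ξ‖ - 1) ^ 2 / (2 * lam * ‖ξ‖) := by
        field_simp; ring
      have : 0 ≤ (lam * ‖ξ‖ * ‖g ξ‖ - 1) ^ 2 / (2 * lam * ‖ξ‖) := by positivity
      linarith
    · rw [indicator_of_notMem hx, norm_zero]
      have : 0 ≤ (Metric.ball (0 : E) A).indicator (fun ξ => ‖ξ‖⁻¹) ξ :=
        indicator_nonneg (fun _ _ => by positivity) _
      positivity
  have hgli : Integrable (gl : E → S) volume :=
    hdom.mono' (Lp.aestronglyMeasurable gl) hpt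
  have hlow : ∫ ξ, ‖gl ξ‖ ≤ s / 2 := by
    calc ∫ ξ, ‖gl ξ‖ ≤ _ := integral_mono_ae hgli.norm hdom hpt
      _ = lam / 2 * (∫ ξ : E, ‖ξ‖ * ‖g ξ‖ ^ 2) +
          (2 * lam)⁻¹ * (A ^ n * ∫ ξ in Metric.ball (0 : E) 1, ‖ξ‖⁻¹) := by
        rw [integral_add (hi.const_mul _)
          (((integrable_indicator_iff Metric.isOpen_ball.measurableSet).mpr hI).const_mul _),
          integral_const_mul, integral_const_mul,
          integral_indicator Metric.isOpen_ball.measurableSet, integral_inv_norm hn hA0]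
      _ ≤ lam / 2 * N ^ 2 + (2 * lam)⁻¹ * (A ^ n * K) := by gcongr
      _ = s / 2 := by rw [hAn, hlam]; field_simp; ring
  -- the high part
  have hF : (𝓕⁻ g : Lp S 2 (volume : Measure E)) = 𝓕⁻ gl + 𝓕⁻ gh := by
    conv_lhs => rw [hsum]
    exact fourierInv_add _ _
  have hincl : {x | s < ‖(𝓕⁻ g : Lp S 2 (volume : Measure E)) x‖} ≤ᵐ[volume]
      {x | ENNReal.ofReal (s ^ 2 / 4) ≤
        ENNReal.ofReal (‖(𝓕⁻ gh : Lp S 2 (volume : Measure E)) x‖ ^ 2)} := by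
    rw [hF]
    filter_upwards [Lp.coeFn_add (𝓕⁻ gl : Lp S 2 (volume : Measure E)) (𝓕⁻ gh),
      norm_fourierInv_ae_le gl hgli] with x h1 h2 hx
    change s < _ at hx
    rw [h1, Pi.add_apply] at hx
    have h3 := norm_add_le ((𝓕⁻ gl : Lp S 2 (volume : Measure E)) x)
      ((𝓕⁻ gh : Lp S 2 (volume : Measure E)) x)
    change ENNReal.ofReal _ ≤ ENNReal.ofReal _
    apply ENNReal.ofReal_le_ofReal
    have h4 : s / 2 ≤ ‖(𝓕⁻ gh : Lp S 2 (volume : Measure E)) x‖ := by linarith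
    calc s ^ 2 / 4 = (s / 2) ^ 2 := by ring
      _ ≤ _ := by gcongr
  calc _ ≤ ENNReal.ofReal (s ^ 2 / 4) * volume {x | ENNReal.ofReal (s ^ 2 / 4) ≤
        ENNReal.ofReal (‖(𝓕⁻ gh : Lp S 2 (volume : Measure E)) x‖ ^ 2)} := by
        exact mul_le_mul' le_rfl (measure_mono_ae hincl)
    _ ≤ ∫⁻ x, ENNReal.ofReal (‖(𝓕⁻ gh : Lp S 2 (volume : Measure E)) x‖ ^ 2) := by
        apply mul_meas_ge_le_lintegral₀
        exact ((Lp.stronglyMeasurable _).norm.measurable.pow_const 2).ennreal_ofReal.aemeasurable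
    _ = ∫⁻ x, ENNReal.ofReal (‖gh x‖ ^ 2) := by
        rw [lintegral_sq_eq, lintegral_sq_eq]
        congr 2
        exact (Lp.fourierTransformₗᵢ E S).symm.norm_map gh
    _ = _ := by
        apply lintegral_congr_ae
        filter_upwards [mh.coeFn_toLp] with ξ h1
        rw [h1]
        by_cases hx : ξ ∈ H <;> simp [hx]

lemma lintegral_Ioi_indicator {a σ : ℝ} (ha : 0 < a) (hσ : 0 ≤ σ) :
    ∫⁻ s in Ioi (0 : ℝ), {s : ℝ | s ^ 2 ≤ σ ^ 2}.indicator
      (fun s => ENNReal.ofReal (s ^ (a - 1))) s = ENNReal.ofReal (σ ^ a / a) := by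
  have hm : MeasurableSet {s : ℝ | s ^ 2 ≤ σ ^ 2} :=
    measurableSet_le (by fun_prop) measurable_const
  rw [lintegral_indicator hm, Measure.restrict_restrict hm]
  have hset : {s : ℝ | s ^ 2 ≤ σ ^ 2} ∩ Ioi 0 = Ioc 0 σ := by
    ext s
    simp only [mem_inter_iff, mem_ofPred_eq, mem_Ioi, mem_Ioc]
    constructor
    · rintro ⟨h1, h2⟩
      exact ⟨h2, by nlinarith [abs_le_abs (le_refl s) (by linarith : -s ≤ s)]⟩
    · rintro ⟨h1, h2⟩
      exact ⟨by gcongr, h1⟩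
  have hint : IntervalIntegrable (fun s : ℝ => s ^ (a - 1)) volume 0 σ :=
    intervalIntegral.intervalIntegrable_rpow' (by linarith)
  rw [hset, ← ofReal_integral_eq_lintegral_ofReal hint.1, ← intervalIntegral.integral_of_le hσ,
    integral_rpow (Or.inl (by linarith))]
  · simp [Real.zero_rpow ha.ne']
  · filter_upwards [self_mem_ae_restrict measurableSet_Ioc] with s hs
    exact Real.rpow_nonneg hs.1.le _

/-- The critical Sobolev inequality for `H^{1/2}`, exponent `2 + 2/n = 2d/(d-1)`, `d = n+1`. -/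
theorem sobolev {n : ℕ} (hn : Module.finrank ℝ E = n + 1) (hn0 : n ≠ 0) :
    ∃ C : ℝ, 0 < C ∧ ∀ (g : Lp S 2 (volume : Measure E)) (N : ℝ), 0 < N →
      Integrable (fun ξ : E => ‖ξ‖ * ‖g ξ‖ ^ 2) volume → ∫ ξ : E, ‖ξ‖ * ‖g ξ‖ ^ 2 ≤ N ^ 2 →
      ∫⁻ x, ENNReal.ofReal (‖(𝓕⁻ g : Lp S 2 (volume : Measure E)) x‖ ^ (2 + 2 / (n : ℝ))) ≤
        ENNReal.ofReal ((C * N) ^ (2 + 2 / (n : ℝ))) := by
  set K : ℝ := (∫ ξ in Metric.ball (0 : E) 1, ‖ξ‖⁻¹) + 1 with hKdef
  have hK0 : 0 < K := by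
    have : 0 ≤ ∫ ξ in Metric.ball (0 : E) 1, ‖ξ‖⁻¹ := integral_nonneg fun _ => by positivity
    linarith
  have hK : ∫ ξ in Metric.ball (0 : E) 1, ‖ξ‖⁻¹ ≤ K := by linarith
  have hnp : (0 : ℝ) < n := by exact_mod_cast Nat.pos_of_ne_zero hn0
  set a : ℝ := 2 / (n : ℝ) with ha
  have ha0 : 0 < a := by positivity
  set C0 : ℝ := (2 + a) * (4 * (4 * K) ^ ((n : ℝ)⁻¹) / a) with hC0
  have hC00 : 0 < C0 := by positivity
  refine ⟨C0 ^ (2 + a)⁻¹, by positivity, fun g N hN hi hg => ?_⟩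
  set f : Lp S 2 (volume : Measure E) := 𝓕⁻ g with hf
  rw [lintegral_rpow_eq_lintegral_meas_lt_mul volume (f := fun x => ‖f x‖)
    (ae_of_all _ fun _ => norm_nonneg _) (Lp.stronglyMeasurable _).norm.measurable.aemeasurable
    (by positivity)]
  set σ : E → ℝ := fun ξ => Real.sqrt (4 * K * N ^ 2 * ‖ξ‖ ^ n) with hσ
  have hσ2 : ∀ ξ, σ ξ ^ 2 = 4 * K * N ^ 2 * ‖ξ‖ ^ n := fun ξ => Real.sq_sqrt (by positivity)
  have hσa : ∀ ξ, σ ξ ^ a = (4 * K) ^ ((n : ℝ)⁻¹) * N ^ a * ‖ξ‖ := by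
    intro ξ
    have h0 : 0 ≤ σ ξ := Real.sqrt_nonneg _
    have e1 : σ ξ ^ a = (σ ξ ^ 2) ^ ((n : ℝ)⁻¹) := by
      rw [← Real.rpow_natCast_mul h0]; congr 1
    have e2 : N ^ a = (N ^ 2) ^ ((n : ℝ)⁻¹) := by
      rw [← Real.rpow_natCast_mul hN.le]; congr 1
    rw [e1, e2, hσ2, Real.mul_rpow (by positivity) (by positivity),
      Real.mul_rpow (by positivity) (by positivity),
      Real.pow_rpow_inv_natCast (norm_nonneg _) hn0]
  set F : ℝ → E → ℝ≥0∞ := fun s ξ => ENNReal.ofReal (4 * ‖g ξ‖ ^ 2) *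
    {s : ℝ | s ^ 2 ≤ σ ξ ^ 2}.indicator (fun s => ENNReal.ofReal (s ^ (a - 1))) s with hF
  have hgm : Measurable fun ξ => ‖g ξ‖ := (Lp.stronglyMeasurable g).norm.measurable
  have hFm : Measurable (Function.uncurry F) := by
    have h1 : MeasurableSet {z : ℝ × E | z.1 ^ 2 ≤ σ z.2 ^ 2} :=
      measurableSet_le (by fun_prop) (by simp only [hσ]; fun_prop)
    have : Function.uncurry F = fun z : ℝ × E => ENNReal.ofReal (4 * ‖g z.2‖ ^ 2) *
        {z : ℝ × E | z.1 ^ 2 ≤ σ z.2 ^ 2}.indicator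
          (fun z => ENNReal.ofReal (z.1 ^ (a - 1))) z := by
      ext z; rfl
    rw [this]
    refine Measurable.mul ?_ (Measurable.indicator (by fun_prop) h1)
    exact (((hgm.comp measurable_snd).pow_const 2).const_mul 4).ennreal_ofReal
  have step1 : ∫⁻ t in Ioi (0 : ℝ), volume {x | t < ‖f x‖} * ENNReal.ofReal (t ^ (2 + a - 1)) ≤
      ∫⁻ s in Ioi (0 : ℝ), ∫⁻ ξ, F s ξ := by
    refine setLIntegral_mono' measurableSet_Ioi fun s hs => ?_
    have hs0 : 0 < s := hs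
    have h1 := meas_lt_le hn hn0 hK hK0 hN g hi hg hs0
    have e : ENNReal.ofReal (s ^ (2 + a - 1)) =
        ENNReal.ofReal (s ^ 2 / 4) * ENNReal.ofReal (4 * s ^ (a - 1)) := by
      rw [← ENNReal.ofReal_mul (by positivity)]
      congr 1
      rw [show 2 + a - 1 = (2 : ℕ) + (a - 1) by push_cast; ring, Real.rpow_add hs0,
        Real.rpow_natCast]
      ring
    rw [e, ← mul_assoc, mul_comm (volume _)]
    refine (mul_le_mul' h1 le_rfl).trans ?_
    rw [← lintegral_mul_const' _ _ ENNReal.ofReal_ne_top]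
    refine lintegral_mono fun ξ => ?_
    simp only [hF, hσ2]
    by_cases hx : s ^ 2 ≤ 4 * K * N ^ 2 * ‖ξ‖ ^ n
    · rw [indicator_of_mem (by exact hx), indicator_of_mem (by exact hx),
        ← ENNReal.ofReal_mul (by positivity), ← ENNReal.ofReal_mul (by positivity)]
      apply le_of_eq; congr 1; ring
    · rw [indicator_of_notMem (by exact hx)]; simp
  have step2 : ∫⁻ s in Ioi (0 : ℝ), ∫⁻ ξ, F s ξ =
      ENNReal.ofReal (4 * (4 * K) ^ ((n : ℝ)⁻¹) / a * N ^ a * ∫ ξ : E, ‖ξ‖ * ‖g ξ‖ ^ 2) := by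
    rw [lintegral_lintegral_swap hFm.aemeasurable, ← integral_const_mul,
      ofReal_integral_eq_lintegral_ofReal (hi.const_mul _)
        (ae_of_all _ fun ξ => by positivity)]
    refine lintegral_congr fun ξ => ?_
    simp only [hF]
    rw [lintegral_const_mul' _ _ ENNReal.ofReal_ne_top,
      lintegral_Ioi_indicator ha0 (Real.sqrt_nonneg _), ← ENNReal.ofReal_mul (by positivity)]
    congr 1
    change 4 * ‖g ξ‖ ^ 2 * (σ ξ ^ a / a) = _
    rw [hσa]; ring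
  refine (mul_le_mul' le_rfl (step1.trans step2.le)).trans ?_
  rw [← ENNReal.ofReal_mul (by positivity)]
  apply ENNReal.ofReal_le_ofReal
  rw [Real.mul_rpow (by positivity) hN.le, Real.rpow_inv_rpow hC00.le (by positivity),
    show N ^ (2 + a) = N ^ a * N ^ 2 by
      rw [add_comm, Real.rpow_add hN]; norm_num]
  calc _ ≤ (2 + a) * (4 * (4 * K) ^ ((n : ℝ)⁻¹) / a * N ^ a * N ^ 2) := by gcongr
    _ = _ := by rw [hC0]; ring

end Pool.Agent.MP_0b7119_mp.G.JA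

end

section

/-! Job A, part 2: the form bound `∫ V |f|² ≤ C ‖V‖_p ‖f‖²_{H^{1/2}}` and the operator `√V J`. -/

open Set MeasureTheory FourierTransform
open scoped ENNReal SchwartzMap ContDiff

namespace Pool.Agent.MP_0b7119_mp.G.JA

variable {E S : Type} [NormedAddCommGroup E] [InnerProductSpace ℝ E] [FiniteDimensional ℝ E]
  [MeasurableSpace E] [BorelSpace E] [NormedAddCommGroup S] [InnerProductSpace ℂ S]
  [CompleteSpace S]

lemma young_pt {a b p : ℝ} {n : ℕ} (hn0 : n ≠ 0) (hp : (n : ℝ) + 1 ≤ p) (ha : 0 ≤ a)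
    (hb : 0 ≤ b) : a * b ≤ b + a ^ p + b ^ (1 + (n : ℝ)⁻¹) := by
  have h1 : 0 ≤ a ^ p := Real.rpow_nonneg ha _
  have h2 : 0 ≤ b ^ (1 + (n : ℝ)⁻¹) := Real.rpow_nonneg hb _
  have hnp : (0 : ℝ) < n := by exact_mod_cast Nat.pos_of_ne_zero hn0
  rcases le_total a 1 with h | h
  · nlinarith
  rcases le_total a (b ^ ((n : ℝ)⁻¹)) with h' | h'
  · have : b ^ (1 + (n : ℝ)⁻¹) = b * b ^ ((n : ℝ)⁻¹) := by
      rw [Real.rpow_add' hb (by positivity), Real.rpow_one]
    nlinarith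
  · have h3 : b ≤ a ^ n := by
      rw [← Real.rpow_inv_natCast_pow hb hn0]
      exact pow_le_pow_left₀ (Real.rpow_nonneg hb _) h' n
    have h4 : a * a ^ n ≤ a ^ p := by
      rw [← pow_succ', ← Real.rpow_natCast]
      exact Real.rpow_le_rpow_of_exponent_le h (by push_cast; linarith)
    nlinarith

theorem form_bound {n : ℕ} (hn : Module.finrank ℝ E = n + 1) (hn0 : n ≠ 0) {p : ℝ}
    (hp : (n : ℝ) + 1 ≤ p) :
    ∃ C : ℝ, 0 < C ∧ ∀ (c : ℝ) (V : E → ℝ), 0 < c → (∀ x, 0 ≤ V x) →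
      AEStronglyMeasurable V volume →
      eLpNorm V (ENNReal.ofReal p) volume ≤ ENNReal.ofReal c →
      ∀ (g : Lp S 2 (volume : Measure E)) (N : ℝ), 0 < N → ‖g‖ ≤ N →
      Integrable (fun ξ : E => ‖ξ‖ * ‖g ξ‖ ^ 2) volume → ∫ ξ : E, ‖ξ‖ * ‖g ξ‖ ^ 2 ≤ N ^ 2 →
      ∫⁻ x, ENNReal.ofReal (V x * ‖(𝓕⁻ g : Lp S 2 (volume : Measure E)) x‖ ^ 2) ≤
        ENNReal.ofReal (C * c * N ^ 2) := by
  obtain ⟨C, hC, hS⟩ := sobolev (S := S) hn hn0
  refine ⟨1 + 2 * C ^ 2, by positivity, fun c V hc hV0 hVm hV g N hN hgN hi hg => ?_⟩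
  have hnp : (0 : ℝ) < n := by exact_mod_cast Nat.pos_of_ne_zero hn0
  have hp0 : 0 < p := by linarith
  have h1 := hS g N hN hi hg
  set f : Lp S 2 (volume : Measure E) := 𝓕⁻ g with hf
  have hfg : ‖f‖ = ‖g‖ := (Lp.fourierTransformₗᵢ E S).symm.norm_map g
  have hfm : Measurable fun x => ‖f x‖ := (Lp.stronglyMeasurable f).norm.measurable
  have h2 : ∫⁻ x, ENNReal.ofReal (V x ^ p) ≤ ENNReal.ofReal (c ^ p) := by
    rw [eLpNorm_eq_lintegral_rpow_enorm_toReal (by simpa using hp0) ENNReal.ofReal_ne_top,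
      ENNReal.toReal_ofReal hp0.le, one_div] at hV
    have := ENNReal.rpow_le_rpow hV hp0.le
    rw [ENNReal.rpow_inv_rpow hp0.ne', ENNReal.ofReal_rpow_of_pos hc] at this
    refine le_trans (le_of_eq ?_) this
    refine lintegral_congr fun x => ?_
    rw [← ofReal_norm, Real.norm_of_nonneg (hV0 x), ENNReal.ofReal_rpow_of_nonneg (hV0 x) hp0.le]
  set q : ℝ := 2 + 2 / (n : ℝ) with hq
  have hM : 0 < C * N := by positivity
  have hpt : ∀ x, ENNReal.ofReal (V x * ‖f x‖ ^ 2) ≤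
      ENNReal.ofReal c * ENNReal.ofReal (‖f x‖ ^ 2) +
      ENNReal.ofReal (c * (C * N) ^ 2 / c ^ p) * ENNReal.ofReal (V x ^ p) +
      ENNReal.ofReal (c * (C * N) ^ 2 / (C * N) ^ q) * ENNReal.ofReal (‖f x‖ ^ q) := by
    intro x
    have hx := hV0 x
    rw [← ENNReal.ofReal_mul hc.le, ← ENNReal.ofReal_mul (by positivity),
      ← ENNReal.ofReal_mul (by positivity), ← ENNReal.ofReal_add (by positivity) (by positivity),
      ← ENNReal.ofReal_add (by positivity) (by positivity)]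
    apply ENNReal.ofReal_le_ofReal
    have hy := young_pt (a := V x / c) (b := (‖f x‖ / (C * N)) ^ 2) hn0 hp (by positivity)
      (by positivity)
    have e1 : ((‖f x‖ / (C * N)) ^ 2) ^ (1 + (n : ℝ)⁻¹) = ‖f x‖ ^ q / (C * N) ^ q := by
      rw [← Real.rpow_natCast_mul (by positivity), ← Real.div_rpow (norm_nonneg _) hM.le]
      congr 1
      rw [hq]; push_cast; ring
    rw [e1, Real.div_rpow hx hc.le] at hy
    have hy' := mul_le_mul_of_nonneg_left hy (show 0 ≤ c * (C * N) ^ 2 by positivity)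
    calc V x * ‖f x‖ ^ 2 = c * (C * N) ^ 2 * (V x / c * (‖f x‖ / (C * N)) ^ 2) := by field_simp
      _ ≤ _ := hy'
      _ = _ := by field_simp
  refine (lintegral_mono hpt).trans ?_
  have m1 : AEMeasurable (fun x => ENNReal.ofReal c * ENNReal.ofReal (‖f x‖ ^ 2)) volume :=
    (((hfm.pow_const 2).ennreal_ofReal).const_mul _).aemeasurable
  have m2 : AEMeasurable (fun x => ENNReal.ofReal (c * (C * N) ^ 2 / c ^ p) *
      ENNReal.ofReal (V x ^ p)) volume :=
    ((hVm.aemeasurable.pow_const p).ennreal_ofReal).const_mul _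
  rw [lintegral_add_left' (m1.fun_add m2), lintegral_add_left' m1,
    lintegral_const_mul' _ _ ENNReal.ofReal_ne_top, lintegral_const_mul' _ _ ENNReal.ofReal_ne_top,
    lintegral_const_mul' _ _ ENNReal.ofReal_ne_top, lintegral_sq_eq]
  calc _ ≤ ENNReal.ofReal c * ENNReal.ofReal (N ^ 2) +
      ENNReal.ofReal (c * (C * N) ^ 2 / c ^ p) * ENNReal.ofReal (c ^ p) +
      ENNReal.ofReal (c * (C * N) ^ 2 / (C * N) ^ q) * ENNReal.ofReal ((C * N) ^ q) := by
        gcongr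
        rw [hfg]; exact hgN
    _ = _ := by
      rw [← ENNReal.ofReal_mul hc.le, ← ENNReal.ofReal_mul (by positivity),
        ← ENNReal.ofReal_mul (by positivity), ← ENNReal.ofReal_add (by positivity) (by positivity),
        ← ENNReal.ofReal_add (by positivity) (by positivity)]
      congr 1
      field_simp
      ring

omit [InnerProductSpace ℝ E] [FiniteDimensional ℝ E] [BorelSpace E] [CompleteSpace S]
  [NormedAddCommGroup E] [InnerProductSpace ℂ S] in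
lemma memLp_of_lintegral {μ : Measure E} {F : E → S} (hF : AEStronglyMeasurable F μ) {M : ℝ}
    (h : ∫⁻ x, ENNReal.ofReal (‖F x‖ ^ 2) ∂μ ≤ ENNReal.ofReal M) : MemLp F 2 μ := by
  rw [memLp_two_iff_integrable_sq_norm hF]
  exact ⟨hF.norm.pow 2, (hasFiniteIntegral_iff_ofReal (ae_of_all _ fun _ => by positivity)).mpr
    (h.trans_lt ENNReal.ofReal_lt_top)⟩

omit [InnerProductSpace ℝ E] [FiniteDimensional ℝ E] [BorelSpace E] [CompleteSpace S]
  [NormedAddCommGroup E] in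
/-- Multiplication by a function after a bounded operator. -/
lemma exists_mul {μ : Measure E} (a : E → ℝ) (ha : AEStronglyMeasurable a μ)
    (L : Lp S 2 μ →L[ℂ] Lp S 2 μ) {C : ℝ} (hC : 0 ≤ C)
    (hb : ∀ g, ∫⁻ x, ENNReal.ofReal (a x ^ 2 * ‖L g x‖ ^ 2) ∂μ ≤
      ENNReal.ofReal ((C * ‖g‖) ^ 2)) :
    ∃ B : Lp S 2 μ →L[ℂ] Lp S 2 μ, (∀ g, B g =ᵐ[μ] fun x => (a x : ℂ) • L g x) ∧
      ∀ g, ‖B g‖ ≤ C * ‖g‖ := by
  have hb' : ∀ g, ∫⁻ x, ENNReal.ofReal (‖(a x : ℂ) • L g x‖ ^ 2) ∂μ ≤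
      ENNReal.ofReal ((C * ‖g‖) ^ 2) := by
    intro g
    simpa [norm_smul, mul_pow] using hb g
  have hm : ∀ g, MemLp (fun x => (a x : ℂ) • L g x) 2 μ := fun g =>
    memLp_of_lintegral ((Complex.continuous_ofReal.comp_aestronglyMeasurable ha).smul
      (Lp.aestronglyMeasurable _)) (hb' g)
  let B0 : Lp S 2 μ →ₗ[ℂ] Lp S 2 μ :=
    { toFun := fun g => (hm g).toLp _
      map_add' := fun g₁ g₂ => by
        apply Lp.ext
        filter_upwards [(hm (g₁ + g₂)).coeFn_toLp, (hm g₁).coeFn_toLp, (hm g₂).coeFn_toLp,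
          Lp.coeFn_add ((hm g₁).toLp _) ((hm g₂).toLp _), Lp.coeFn_add (L g₁) (L g₂)]
          with x h1 h2 h3 h4 h5
        rw [h1, h4, Pi.add_apply, h2, h3, map_add, h5, Pi.add_apply, smul_add]
      map_smul' := fun z g => by
        apply Lp.ext
        filter_upwards [(hm (z • g)).coeFn_toLp, (hm g).coeFn_toLp,
          Lp.coeFn_smul z ((hm g).toLp _), Lp.coeFn_smul z (L g)] with x h1 h2 h4 h5
        rw [RingHom.id_apply, h1, h4, Pi.smul_apply, h2, map_smul, h5, Pi.smul_apply, smul_comm] }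
  have hB : ∀ g, ‖B0 g‖ ≤ C * ‖g‖ := by
    intro g
    have h1 := lintegral_sq_eq (B0 g)
    have h2 : ∫⁻ x, ENNReal.ofReal (‖B0 g x‖ ^ 2) ∂μ =
        ∫⁻ x, ENNReal.ofReal (‖(a x : ℂ) • L g x‖ ^ 2) ∂μ := by
      apply lintegral_congr_ae
      filter_upwards [(hm g).coeFn_toLp] with x hx
      rw [← hx]; rfl
    have h3 := (h1.symm.trans h2).le.trans (hb' g)
    rw [ENNReal.ofReal_le_ofReal_iff (by positivity)] at h3
    exact le_of_sq_le_sq h3 (by positivity)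
  exact ⟨B0.mkContinuous C hB, fun g => (hm g).coeFn_toLp, hB⟩

/-- The weight `(1 + |ξ|²)^{-1/4}`. -/
noncomputable def uw (ξ : E) : ℝ := (1 + ‖ξ‖ ^ 2) ^ (-(1 / 4) : ℝ)

omit [InnerProductSpace ℝ E] [FiniteDimensional ℝ E] [BorelSpace E] [MeasurableSpace E] in
lemma uw_pos (ξ : E) : 0 < uw ξ := by unfold uw; positivity

omit [InnerProductSpace ℝ E] [FiniteDimensional ℝ E] [BorelSpace E] [MeasurableSpace E] in
lemma uw_sq (ξ : E) : uw ξ ^ 2 = (Real.sqrt (1 + ‖ξ‖ ^ 2))⁻¹ := by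
  unfold uw
  rw [← Real.rpow_mul_natCast (by positivity), Real.sqrt_eq_rpow,
    ← Real.rpow_neg (by positivity)]
  norm_num

omit [InnerProductSpace ℝ E] [FiniteDimensional ℝ E] [BorelSpace E] [MeasurableSpace E] in
lemma uw_sq_le (ξ : E) : uw ξ ^ 2 ≤ 1 ∧ ‖ξ‖ * uw ξ ^ 2 ≤ 1 := by
  rw [uw_sq]
  have h1 : 1 ≤ Real.sqrt (1 + ‖ξ‖ ^ 2) := Real.le_sqrt_of_sq_le (by nlinarith [sq_nonneg ‖ξ‖])
  have h2 : ‖ξ‖ ≤ Real.sqrt (1 + ‖ξ‖ ^ 2) := Real.le_sqrt_of_sq_le (by linarith)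
  exact ⟨inv_le_one_of_one_le₀ h1, by rw [← div_eq_mul_inv, div_le_one (by linarith)]; exact h2⟩

omit [InnerProductSpace ℝ E] [FiniteDimensional ℝ E] [BorelSpace E] [MeasurableSpace E] in
lemma continuous_uw : Continuous (uw : E → ℝ) := by
  unfold uw
  exact Continuous.rpow_const (by fun_prop) fun ξ => Or.inl (by positivity)

/-- The operators `U g = uw • g` and `B g = √V 𝓕⁻ (U g)`. -/
theorem exists_ops {n : ℕ} (hn : Module.finrank ℝ E = n + 1) (hn0 : n ≠ 0) {p : ℝ}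
    (hp : (n : ℝ) + 1 ≤ p) :
    ∃ U : Lp S 2 (volume : Measure E) →L[ℂ] Lp S 2 (volume : Measure E),
      (∀ g, U g =ᵐ[volume] fun ξ => (uw ξ : ℂ) • g ξ) ∧
      ∀ ε : ℝ, 0 < ε → ∃ c : ℝ, 0 < c ∧ ∀ V : E → ℝ, (∀ x, 0 ≤ V x) →
        AEStronglyMeasurable V volume →
        eLpNorm V (ENNReal.ofReal p) volume ≤ ENNReal.ofReal c →
        ∃ B : Lp S 2 (volume : Measure E) →L[ℂ] Lp S 2 (volume : Measure E),
          (∀ g, B g =ᵐ[volume] fun x => (Real.sqrt (V x) : ℂ) •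
            (𝓕⁻ (U g) : Lp S 2 (volume : Measure E)) x) ∧ ∀ g, ‖B g‖ ≤ ε * ‖g‖ := by
  obtain ⟨U, hU, hUn⟩ := exists_mul (μ := (volume : Measure E)) (S := S) uw
    continuous_uw.aestronglyMeasurable (ContinuousLinearMap.id ℂ _) zero_le_one (fun g => by
      rw [one_mul, ← lintegral_sq_eq]
      refine lintegral_mono fun ξ => ENNReal.ofReal_le_ofReal ?_
      exact mul_le_of_le_one_left (by positivity) (uw_sq_le ξ).1)
  refine ⟨U, hU, fun ε hε => ?_⟩
  obtain ⟨C, hC, hform⟩ := form_bound (S := S) hn hn0 hp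
  refine ⟨ε ^ 2 / C, by positivity, fun V hV0 hVm hV => ?_⟩
  obtain ⟨L, hL⟩ : ∃ L : Lp S 2 (volume : Measure E) →L[ℂ] Lp S 2 (volume : Measure E),
      ∀ g, L g = 𝓕⁻ (U g) := ⟨fourierInvCLM ℂ _ ∘L U, fun _ => rfl⟩
  simp only [← hL]
  refine exists_mul (fun x => Real.sqrt (V x))
    (Real.continuous_sqrt.comp_aestronglyMeasurable hVm) L hε.le fun g => ?_
  rcases eq_or_ne g 0 with rfl | hg0
  · rw [map_zero]
    refine le_trans (le_of_eq ?_) zero_le
    rw [← lintegral_zero (μ := (volume : Measure E))]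
    apply lintegral_congr_ae
    filter_upwards [Lp.coeFn_zero S 2 (volume : Measure E)] with x hx
    simp [hx]
  have hN : 0 < ‖g‖ := norm_pos_iff.mpr hg0
  have hi0 : Integrable (fun ξ => ‖g ξ‖ ^ 2) volume :=
    (memLp_two_iff_integrable_sq_norm (Lp.aestronglyMeasurable g)).mp (Lp.memLp g)
  have hpt : ∀ᵐ ξ : E, ‖ξ‖ * ‖U g ξ‖ ^ 2 ≤ ‖g ξ‖ ^ 2 := by
    filter_upwards [hU g] with ξ hξ
    rw [hξ, norm_smul, mul_pow, Complex.norm_real, Real.norm_of_nonneg (uw_pos ξ).le,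
      ← mul_assoc]
    exact mul_le_of_le_one_left (by positivity) (uw_sq_le ξ).2
  have hi : Integrable (fun ξ : E => ‖ξ‖ * ‖U g ξ‖ ^ 2) volume := by
    refine hi0.mono' (continuous_norm.aestronglyMeasurable.mul
      ((Lp.aestronglyMeasurable _).norm.pow 2)) ?_
    filter_upwards [hpt] with ξ hξ
    rwa [Real.norm_of_nonneg (by positivity)]
  have hle : ∫ ξ : E, ‖ξ‖ * ‖U g ξ‖ ^ 2 ≤ ‖g‖ ^ 2 := by
    refine (integral_mono_ae hi hi0 hpt).trans (le_of_eq ?_)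
    have := lintegral_sq_eq g
    rw [← ofReal_integral_eq_lintegral_ofReal hi0 (ae_of_all _ fun _ => by positivity),
      ENNReal.ofReal_eq_ofReal_iff (integral_nonneg fun _ => by positivity) (by positivity)]
      at this
    exact this
  have := hform (ε ^ 2 / C) V (by positivity) hV0 hVm hV (U g) ‖g‖ hN (by simpa using hUn g) hi hle
  simp only [Real.sq_sqrt (hV0 _), hL]
  refine le_trans this (le_of_eq ?_)
  congr 1
  field_simp

end Pool.Agent.MP_0b7119_mp.G.JA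

end

section

/-! Job A, part 3: the symbol of the Dirac operator. -/

open Set MeasureTheory FourierTransform Real
open scoped ENNReal SchwartzMap ContDiff LineDeriv

namespace Pool.Agent.MP_0b7119_mp.G.JA

set_option linter.unusedSectionVars false

variable {E S : Type} [NormedAddCommGroup E] [InnerProductSpace ℝ E] [FiniteDimensional ℝ E]
  [MeasurableSpace E] [BorelSpace E] [NormedAddCommGroup S] [InnerProductSpace ℂ S]
  [CompleteSpace S] {d : ℕ} {α : Fin d → S →L[ℂ] S} {β : S →L[ℂ] S}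

/-- The symbol of `D_m - l`. -/
noncomputable def sym (e : Fin d → E) (α : Fin d → S →L[ℂ] S) (β : S →L[ℂ] S) (m l : ℝ)
    (ξ : E) (y : S) : S :=
  ((2 * π : ℝ) : ℂ) • cl e α ξ y + (m : ℂ) • β y - (l : ℂ) • y

lemma fourier_postcomp (L : S →L[ℂ] S) (f : 𝓢(E, S)) (ξ : E) :
    𝓕 (f.postcompCLM L) ξ = L (𝓕 f ξ) := by
  rw [SchwartzMap.fourier_coe, SchwartzMap.fourier_coe, Real.fourier_eq, Real.fourier_eq,
    ← L.integral_comp_comm ((Real.fourierIntegral_convergent_iff ξ).mpr f.integrable)]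
  congr 1; ext x
  simp [Circle.smul_def]

lemma exists_dirac (e : Fin d → E) (α : Fin d → S →L[ℂ] S) (β : S →L[ℂ] S) (m l : ℝ)
    (φ : 𝓢(E, S)) : ∃ Φ : 𝓢(E, S), (∀ x, Φ x = dirac e α β m φ x - (l : ℂ) • φ x) ∧
      ∀ ξ, 𝓕 Φ ξ = sym e α β m l ξ (𝓕 φ ξ) := by
  refine ⟨∑ j, (-Complex.I) • (∂_{e j} φ).postcompCLM (α j) + (m : ℂ) • φ.postcompCLM β +
    (-(l : ℂ)) • φ, fun x => ?_, fun ξ => ?_⟩
  · simp [dirac, SchwartzMap.lineDerivOp_apply_eq_fderiv, sub_eq_add_neg]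
  · rw [FourierTransform.fourier_add, FourierTransform.fourier_add, FourierTransform.fourier_sum]
    simp only [FourierTransform.fourier_smul, add_apply, sum_apply, smul_apply, fourier_postcomp,
      SchwartzMap.fourier_lineDerivOp_eq]
    unfold sym cl
    rw [sub_eq_add_neg, neg_smul]
    congr 2
    rw [sum_apply, Finset.smul_sum]
    refine Finset.sum_congr rfl fun j _ => ?_
    have : (fun x : E => inner ℝ x (e j)).HasTemperateGrowth := by fun_prop
    rw [SchwartzMap.smulLeftCLM_apply_apply this, map_smul, ← Complex.coe_smul, map_smul,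
      smul_apply, smul_smul, smul_smul, smul_smul, real_inner_comm]
    congr 1
    push_cast
    linear_combination (-2 * π * (inner ℝ (e j) ξ : ℝ) : ℂ) * Complex.I_sq

lemma inner_sym (h : IsDiracRep α β) (e : Fin d → E) (m l : ℝ) (ξ : E) (x y : S) :
    inner ℂ (sym e α β m l ξ x) y = inner ℂ x (sym e α β m l ξ y) := by
  simp only [sym, inner_sub_left, inner_sub_right, inner_add_left, inner_add_right,
    inner_smul_left, inner_smul_right, Complex.conj_ofReal, inner_cl h, inner_β h]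

lemma sym_smul (e : Fin d → E) (m l : ℝ) (ξ : E) (z : ℂ) (x : S) :
    sym e α β m l ξ (z • x) = z • sym e α β m l ξ x := by
  simp only [sym, map_smul, smul_add, smul_sub, smul_comm z]

lemma continuous_sym (e : Fin d → E) (m l : ℝ) :
    Continuous fun z : E × S => sym e α β m l z.1 z.2 := by
  unfold sym
  have := (continuous_cl e α).comp (continuous_fst (X := E) (Y := S))
  have h2 : Continuous fun z : E × S => cl e α z.1 z.2 := this.clm_apply continuous_snd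
  fun_prop

lemma norm_sym_zero (h : IsDiracRep α β) (e : OrthonormalBasis (Fin d) ℝ E) (m : ℝ) (ξ : E)
    (y : S) : ‖sym e α β m 0 ξ y‖ = Real.sqrt (4 * π ^ 2 * ‖ξ‖ ^ 2 + m ^ 2) * ‖y‖ := by
  have h0 : (inner ℂ (cl e α ξ y) (β y)).re = 0 := by
    have h1 : inner ℂ (cl e α ξ y) (β y) = -inner ℂ (β y) (cl e α ξ y) := by
      rw [inner_cl h, cl_β_apply h, inner_neg_right, inner_β h]
    have h2 := congrArg Complex.re h1
    have h3 : (inner ℂ (β y) (cl e α ξ y)).re = (inner ℂ (cl e α ξ y) (β y)).re := by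
      rw [← inner_conj_symm, Complex.conj_re]
    rw [Complex.neg_re, h3] at h2
    linarith
  have h1 : ‖sym e α β m 0 ξ y‖ ^ 2 = (4 * π ^ 2 * ‖ξ‖ ^ 2 + m ^ 2) * ‖y‖ ^ 2 := by
    simp only [sym, Complex.ofReal_zero, zero_smul, sub_zero]
    rw [@norm_add_sq ℂ, norm_smul, norm_smul, norm_cl_apply h, norm_β_apply h, inner_smul_left,
      inner_smul_right, Complex.conj_ofReal]
    simp only [RCLike.re_to_complex, Complex.re_ofReal_mul, h0, Complex.norm_real,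
      Real.norm_eq_abs, mul_pow, sq_abs]
    ring
  rw [← Real.sqrt_sq (norm_nonneg (sym e α β m 0 ξ y)), h1, Real.sqrt_mul (by positivity),
    Real.sqrt_sq (norm_nonneg _)]

/-- The two pointwise inequalities for the symbol. -/
lemma sym_ineq (h : IsDiracRep α β) (e : OrthonormalBasis (Fin d) ℝ E) {m l : ℝ} (hm : 0 < m)
    (hl : l ∈ Ioc (-m) 0) (ξ : E) (y : S) :
    (1 + l / m) * min m 1 * ‖y‖ ≤ uw ξ ^ 2 * ‖sym e α β m l ξ y‖ ∧
    min m 1 * (inner ℂ y (sym e α β m l ξ y)).re ≤ uw ξ ^ 2 * ‖sym e α β m l ξ y‖ ^ 2 ∧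
    ‖sym e α β m l ξ y‖ ≤ (Real.sqrt (4 * π ^ 2 * ‖ξ‖ ^ 2 + m ^ 2) + m) * ‖y‖ := by
  set En := Real.sqrt (4 * π ^ 2 * ‖ξ‖ ^ 2 + m ^ 2) with hEn
  set D := sym e α β m 0 ξ y with hD
  have hDn : ‖D‖ = En * ‖y‖ := norm_sym_zero h e m ξ y
  have hA : sym e α β m l ξ y = D - (l : ℂ) • y := by simp [hD, sym]
  have hEm : m ≤ En := Real.le_sqrt_of_sq_le (by
    have : 0 ≤ 4 * π ^ 2 * ‖ξ‖ ^ 2 := by positivity
    linarith)
  set μ := min m 1 with hμ
  have hμ0 : 0 < μ := lt_min hm one_pos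
  have hμ1 : μ ≤ 1 := min_le_right _ _
  have hμm : μ ≤ m := min_le_left _ _
  set W := Real.sqrt (1 + ‖ξ‖ ^ 2) with hW
  have hW0 : 0 < W := Real.sqrt_pos.mpr (by positivity)
  have hEW : μ * W ≤ En := Real.le_sqrt_of_sq_le (by
    rw [mul_pow, hW, Real.sq_sqrt (by positivity)]
    have h1 : μ ^ 2 ≤ m ^ 2 := by gcongr
    have h2 : μ ^ 2 ≤ 4 * π ^ 2 := by nlinarith [Real.pi_gt_three]
    nlinarith [sq_nonneg ‖ξ‖])
  have hly : ‖(l : ℂ) • y‖ = -l * ‖y‖ := by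
    rw [norm_smul, Complex.norm_real, Real.norm_of_nonpos hl.2]
  have hy := norm_nonneg y
  have hlm : 0 < 1 + l / m := by
    have : -1 < l / m := by rw [lt_div_iff₀ hm]; linarith [hl.1]
    linarith
  rw [uw_sq, ← hW, hA]
  refine ⟨?_, ?_, ?_⟩
  · have h1 := norm_sub_norm_le D ((l : ℂ) • y)
    rw [hDn, hly] at h1
    have h2 : (1 + l / m) * En ≤ En + l := by
      have : l / m * En ≤ l / m * m :=
        mul_le_mul_of_nonpos_left hEm (div_nonpos_of_nonpos_of_nonneg hl.2 hm.le)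
      rw [div_mul_cancel₀ _ hm.ne'] at this
      linarith
    rw [← div_eq_inv_mul, le_div_iff₀ hW0]
    calc (1 + l / m) * μ * ‖y‖ * W = (1 + l / m) * (μ * W) * ‖y‖ := by ring
      _ ≤ (1 + l / m) * En * ‖y‖ := by gcongr
      _ ≤ (En + l) * ‖y‖ := by gcongr
      _ ≤ _ := by linarith
  · set s := (inner ℂ y D).re with hs
    have hsle : s ≤ En * ‖y‖ ^ 2 := by
      have := (Complex.re_le_norm (inner ℂ y D)).trans (norm_inner_le_norm (𝕜 := ℂ) y D)
      rw [hDn] at this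
      nlinarith
    have hyy : (inner ℂ y y).re = ‖y‖ ^ 2 := inner_self_eq_norm_sq (𝕜 := ℂ) y
    have e1 : (inner ℂ y (D - (l : ℂ) • y)).re = s - l * ‖y‖ ^ 2 := by
      rw [inner_sub_right, inner_smul_right, Complex.sub_re, Complex.re_ofReal_mul, hyy]
    have e2 : ‖D - (l : ℂ) • y‖ ^ 2 = En ^ 2 * ‖y‖ ^ 2 - 2 * l * s + l ^ 2 * ‖y‖ ^ 2 := by
      rw [@norm_sub_sq ℂ, hDn, hly, inner_smul_right]
      simp only [RCLike.re_to_complex, Complex.re_ofReal_mul]
      rw [← inner_conj_symm, Complex.conj_re, ← hs]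
      ring
    rw [e1, ← div_eq_inv_mul, le_div_iff₀ hW0]
    rcases le_total (s - l * ‖y‖ ^ 2) 0 with h0 | h0
    · have : μ * (s - l * ‖y‖ ^ 2) * W ≤ 0 :=
        mul_nonpos_of_nonpos_of_nonneg (mul_nonpos_of_nonneg_of_nonpos hμ0.le h0) hW0.le
      exact this.trans (by positivity)
    · calc μ * (s - l * ‖y‖ ^ 2) * W = μ * W * (s - l * ‖y‖ ^ 2) := by ring
        _ ≤ En * (s - l * ‖y‖ ^ 2) := by gcongr
        _ ≤ _ := by
          rw [e2]
          have h1 : 0 ≤ (En + l) * (En * ‖y‖ ^ 2 - s) :=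
            mul_nonneg (by linarith [hl.1]) (by linarith)
          have h2 : 0 ≤ -l * (s - l * ‖y‖ ^ 2) := mul_nonneg (by linarith [hl.2]) h0
          nlinarith
  · have h1 := norm_sub_le D ((l : ℂ) • y)
    rw [hDn, hly] at h1
    nlinarith [hl.1]

end Pool.Agent.MP_0b7119_mp.G.JA

end

section

/-! Job A: small `L^p` potentials have no Dirac eigenvalue in `(-m, 0]`. -/

open Set MeasureTheory FourierTransform Real
open scoped ENNReal SchwartzMap ContDiff LineDeriv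

namespace Pool.Agent.MP_0b7119_mp.G

namespace JA

variable {E S : Type} [NormedAddCommGroup E] [InnerProductSpace ℝ E] [FiniteDimensional ℝ E]
  [MeasurableSpace E] [BorelSpace E] [NormedAddCommGroup S] [InnerProductSpace ℂ S]
  [CompleteSpace S] [FiniteDimensional ℂ S] {d : ℕ} {α : Fin d → S →L[ℂ] S} {β : S →L[ℂ] S}

omit [FiniteDimensional ℂ S] in
lemma locInt_sym (h : IsDiracRep α β) (e : OrthonormalBasis (Fin d) ℝ E) {m l : ℝ} (hm : 0 < m)
    (hl : l ∈ Ioc (-m) 0) (P : Lp S 2 (volume : Measure E)) :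
    LocallyIntegrable (fun ξ => (uw ξ : ℂ) • sym e α β m l ξ (P ξ)) volume := by
  have hc : Continuous fun z : E × S => (uw z.1 : ℂ) • sym e α β m l z.1 z.2 :=
    (Complex.continuous_ofReal.comp (continuous_uw.comp continuous_fst)).smul
      (continuous_sym e m l)
  have hms : AEStronglyMeasurable (fun ξ => (uw ξ : ℂ) • sym e α β m l ξ (P ξ)) volume :=
    hc.comp_aestronglyMeasurable (f := fun ξ => (ξ, P ξ))
      (aestronglyMeasurable_id.prodMk (Lp.aestronglyMeasurable P))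
  rw [locallyIntegrable_iff]
  intro K hK
  obtain ⟨R, hR0, hR⟩ := hK.isBounded.exists_pos_norm_le
  have hP : IntegrableOn (P : E → S) K volume :=
    ((Lp.memLp P).locallyIntegrable (by norm_num)).integrableOn_isCompact hK
  refine Integrable.mono' (hP.norm.const_mul (Real.sqrt (4 * π ^ 2 * R ^ 2 + m ^ 2) + m))
    hms.restrict ?_
  filter_upwards [ae_restrict_mem hK.measurableSet] with ξ hξ
  rw [norm_smul, Complex.norm_real, Real.norm_of_nonneg (uw_pos ξ).le]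
  have h1 := (sym_ineq h e hm hl ξ (P ξ)).2.2
  have h2 : uw ξ ≤ 1 := by nlinarith [(uw_sq_le ξ).1, uw_pos ξ]
  have h3 := hR ξ hξ
  calc _ ≤ 1 * ((Real.sqrt (4 * π ^ 2 * ‖ξ‖ ^ 2 + m ^ 2) + m) * ‖P ξ‖) := by gcongr
    _ ≤ _ := by rw [one_mul]; gcongr

/-- The weak equation on the Fourier side. -/
lemma fourier_side (h : IsDiracRep α β) (e : OrthonormalBasis (Fin d) ℝ E) {m l : ℝ}
    (hm : 0 < m) (hl : l ∈ Ioc (-m) 0) {V : E → ℝ} (hV0 : ∀ x, 0 ≤ V x)
    (U B : Lp S 2 (volume : Measure E) →L[ℂ] Lp S 2 (volume : Measure E))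
    (hU : ∀ g, U g =ᵐ[volume] fun ξ => (uw ξ : ℂ) • g ξ)
    (hB : ∀ g, B g =ᵐ[volume] fun x => (Real.sqrt (V x) : ℂ) •
      (𝓕⁻ (U g) : Lp S 2 (volume : Measure E)) x)
    (Ψ v : Lp S 2 (volume : Measure E))
    (hv : v =ᵐ[volume] fun x => (Real.sqrt (V x) : ℂ) • Ψ x)
    (hw : ∀ φ : 𝓢(E, S),
      ∫ x, inner ℂ (dirac e α β m φ x - ((V x + l : ℝ) : ℂ) • φ x) (Ψ x) = 0) :
    ∀ᵐ ξ, (uw ξ : ℂ) • sym e α β m l ξ ((𝓕 Ψ : Lp S 2 (volume : Measure E)) ξ) =
      ContinuousLinearMap.adjoint B v ξ := by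
  set P : Lp S 2 (volume : Measure E) := 𝓕 Ψ with hP
  set H := ContinuousLinearMap.adjoint B v with hH
  have hF := locInt_sym h e hm hl P
  have hHl : LocallyIntegrable (H : E → S) volume := (Lp.memLp H).locallyIntegrable (by norm_num)
  refine ae_eq_of_integral_contDiff_smul_eq hF hHl fun φ₀ h₁ h₂ => ?_
  refine ext_inner_left ℂ fun y => ?_
  rw [← integral_inner (hF.integrable_smul_left_of_hasCompactSupport h₁.continuous h₂),
    ← integral_inner (hHl.integrable_smul_left_of_hasCompactSupport h₁.continuous h₂)]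
  set g : 𝓢(E, S) := (toS φ₀ h₁ h₂).postcompCLM (ContinuousLinearMap.toSpanSingleton ℂ y)
    with hg
  have hgx : ∀ ξ, g ξ = (φ₀ ξ : ℂ) • y := fun ξ => by simp [hg]
  have hT : (uw : E → ℝ).HasTemperateGrowth :=
    Function.hasTemperateGrowth_one_add_norm_sq_rpow E _
  set G : 𝓢(E, S) := SchwartzMap.smulLeftCLM S uw g with hG
  have hGx : ∀ ξ, G ξ = (uw ξ : ℂ) • g ξ := fun ξ => by
    rw [hG, SchwartzMap.smulLeftCLM_apply_apply hT, Complex.coe_smul]
  set φ : 𝓢(E, S) := 𝓕⁻ G with hφ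
  have hφG : 𝓕 φ = G := fourier_fourierInv_eq G
  have hUg : U (g.toLp 2) = G.toLp 2 := by
    apply Lp.ext
    filter_upwards [hU (g.toLp 2), g.coeFn_toLp 2 volume, G.coeFn_toLp 2 volume] with ξ a b c
    rw [a, b, c, hGx]
  have hBg : B (g.toLp 2) =ᵐ[volume] fun x => (Real.sqrt (V x) : ℂ) • φ x := by
    have := hB (g.toLp 2)
    rw [hUg, SchwartzMap.toLp_fourierInv_eq] at this
    filter_upwards [this, φ.coeFn_toLp 2 volume] with x a b
    rw [a, ← hφ, b]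
  obtain ⟨Φ, hΦ, hΦF⟩ := exists_dirac e α β m l φ
  have key : inner ℂ (Φ.toLp 2) Ψ = inner ℂ (B (g.toLp 2)) v := by
    rw [← sub_eq_zero, L2.inner_def, L2.inner_def,
      ← integral_sub (L2.integrable_inner _ _) (L2.integrable_inner _ _), ← hw φ]
    apply integral_congr_ae
    filter_upwards [hBg, hv, Φ.coeFn_toLp 2 volume] with x a b c
    rw [a, b, c, hΦ]
    simp only [inner_sub_left, inner_smul_left, inner_smul_right, Complex.conj_ofReal]
    rw [← mul_assoc, ← Complex.ofReal_mul, Real.mul_self_sqrt (hV0 x)]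
    push_cast
    ring
  rw [← ContinuousLinearMap.adjoint_inner_right, ← hH, ← Lp.inner_fourier_eq,
    SchwartzMap.toLp_fourier_eq, ← hP, L2.inner_def, L2.inner_def] at key
  calc _ = ∫ ξ, inner ℂ ((𝓕 Φ).toLp 2 volume ξ) (P ξ) := by
        apply integral_congr_ae
        filter_upwards [(𝓕 Φ).coeFn_toLp 2 volume] with ξ a
        rw [a, hΦF, hφG, hGx, hgx, inner_sym h, ← Complex.coe_smul]
        simp only [inner_smul_left, inner_smul_right, Complex.conj_ofReal]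
        ring
    _ = _ := key
    _ = _ := by
        apply integral_congr_ae
        filter_upwards [g.coeFn_toLp 2 volume] with ξ a
        rw [a, hgx, ← Complex.coe_smul (φ₀ ξ) (H ξ)]
        simp only [inner_smul_left, inner_smul_right, Complex.conj_ofReal]

omit [InnerProductSpace ℝ E] [FiniteDimensional ℝ E] [BorelSpace E] [CompleteSpace S]
  [NormedAddCommGroup E] [InnerProductSpace ℂ S] [FiniteDimensional ℂ S] in
lemma integral_sq_eq {μ : Measure E} (g : Lp S 2 μ) : ∫ ξ, ‖g ξ‖ ^ 2 ∂μ = ‖g‖ ^ 2 := by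
  have hi0 : Integrable (fun ξ => ‖g ξ‖ ^ 2) μ :=
    (memLp_two_iff_integrable_sq_norm (Lp.aestronglyMeasurable g)).mp (Lp.memLp g)
  have := lintegral_sq_eq g
  rwa [← ofReal_integral_eq_lintegral_ofReal hi0 (ae_of_all _ fun _ => by positivity),
    ENNReal.ofReal_eq_ofReal_iff (integral_nonneg fun _ => by positivity) (by positivity)]
    at this

end JA

open JA in
theorem stmtA : StmtA := by
  intro E S _ _ _ _ _ _ _ _ _ d e α β h hd m p hm hp
  have hfin : Module.finrank ℝ E = (d - 1) + 1 := by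
    rw [Module.finrank_eq_card_basis e.toBasis, Fintype.card_fin]; omega
  have hp' : ((d - 1 : ℕ) : ℝ) + 1 ≤ p := by
    rw [Nat.cast_sub (by omega)]; push_cast; linarith
  obtain ⟨U, hU, hops⟩ := exists_ops (S := S) hfin (by omega) hp'
  set μ := min m 1 with hμ
  have hμ0 : 0 < μ := lt_min hm one_pos
  have hμ1 : μ ≤ 1 := min_le_right _ _
  obtain ⟨c, hc, hB⟩ := hops (μ / 2) (by positivity)
  refine ⟨c, hc, fun V hV hVc l hl ⟨ψ, hψ, hψ0, hVψ, hw⟩ => hψ0 ?_⟩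
  obtain ⟨B, hB, hBn⟩ := hB V hV.1 hV.2.1 hVc
  set Ψ := hψ.toLp ψ with hΨ
  have hΨψ : Ψ =ᵐ[volume] ψ := hψ.coeFn_toLp
  have hvm : MemLp (fun x => (Real.sqrt (V x) : ℂ) • ψ x) 2 volume := by
    refine (memLp_two_iff_integrable_sq_norm ((Complex.continuous_ofReal.comp_aestronglyMeasurable
      (Real.continuous_sqrt.comp_aestronglyMeasurable hV.2.1)).smul hψ.1)).mpr ?_
    refine hVψ.congr (ae_of_all _ fun x => ?_)
    simp [norm_smul, mul_pow, Real.sq_sqrt (hV.1 x)]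
  set v := hvm.toLp _ with hvdef
  have hv : v =ᵐ[volume] fun x => (Real.sqrt (V x) : ℂ) • Ψ x := by
    filter_upwards [hvm.coeFn_toLp, hΨψ] with x a b
    rw [a, b]
  have hF := fourier_side h e hm hl hV.1 U B hU hB Ψ v hv (fun φ => by
    rw [← hw φ]
    apply integral_congr_ae
    filter_upwards [hΨψ] with x a
    rw [a])
  set P : Lp S 2 (volume : Measure E) := 𝓕 Ψ with hP
  set H := ContinuousLinearMap.adjoint B v with hH
  have hHv : ‖H‖ ≤ μ / 2 * ‖v‖ := by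
    have h1 : ‖H‖ ^ 2 ≤ μ / 2 * ‖v‖ * ‖H‖ := by
      have h2 : (inner ℂ H H).re = ‖H‖ ^ 2 := inner_self_eq_norm_sq (𝕜 := ℂ) H
      rw [← h2]
      nth_rewrite 2 [hH]
      rw [ContinuousLinearMap.adjoint_inner_right]
      calc _ ≤ ‖B H‖ * ‖v‖ := (Complex.re_le_norm _).trans (norm_inner_le_norm (𝕜 := ℂ) _ _)
        _ ≤ μ / 2 * ‖H‖ * ‖v‖ := by gcongr; exact hBn H
        _ = _ := by ring
    rcases (norm_nonneg H).eq_or_lt with h0 | h0
    · rw [← h0]; positivity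
    · rw [sq] at h1; exact le_of_mul_le_mul_right h1 h0
  set κ := (1 + l / m) * μ with hκ
  have hκ0 : 0 < κ := by
    have : -1 < l / m := by rw [lt_div_iff₀ hm]; linarith [hl.1]
    exact mul_pos (by linarith) hμ0
  have hpt : ∀ᵐ ξ, κ * ‖((uw ξ)⁻¹ : ℂ) • P ξ‖ ≤ ‖H ξ‖ ∧
      μ * (inner ℂ (((uw ξ)⁻¹ : ℂ) • P ξ) (H ξ)).re ≤ ‖H ξ‖ ^ 2 := by
    filter_upwards [hF] with ξ a
    obtain ⟨b1, b2, -⟩ := sym_ineq h e hm hl ξ (P ξ)
    have hu := uw_pos ξ
    rw [← a, norm_smul, norm_smul, norm_inv, Complex.norm_real, Real.norm_of_nonneg hu.le]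
    constructor
    · rw [mul_left_comm, ← div_eq_inv_mul, div_le_iff₀ hu]
      refine b1.trans (le_of_eq (by ring))
    · rw [inner_smul_left, inner_smul_right, map_inv₀, Complex.conj_ofReal, ← mul_assoc,
        inv_mul_cancel₀ (by exact_mod_cast hu.ne'), one_mul, mul_pow]
      exact b2
  have hgm : MemLp (fun ξ => ((uw ξ)⁻¹ : ℂ) • P ξ) 2 volume := by
    refine ((Lp.memLp H).norm.const_mul κ⁻¹).of_le ?_ ?_
    · exact ((Complex.continuous_ofReal.comp continuous_uw).inv₀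
        (fun ξ => Complex.ofReal_ne_zero.mpr (uw_pos ξ).ne')).aestronglyMeasurable.smul
        (Lp.aestronglyMeasurable P)
    · filter_upwards [hpt] with ξ a
      rw [Real.norm_of_nonneg (by positivity), ← div_eq_inv_mul, le_div_iff₀ hκ0, mul_comm]
      exact a.1
  set g := hgm.toLp _ with hg
  have hUg : U g = P := by
    apply Lp.ext
    filter_upwards [hU g, hgm.coeFn_toLp] with ξ a b
    rw [a, b, smul_smul, mul_inv_cancel₀ (by exact_mod_cast (uw_pos ξ).ne'), one_smul]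
  have hBg : B g = v := by
    apply Lp.ext
    have := hB g
    rw [hUg, hP, fourierInv_fourier_eq] at this
    exact this.trans hv.symm
  have hvH : μ * ‖v‖ ^ 2 ≤ ‖H‖ ^ 2 := by
    have h2 : (inner ℂ v v).re = ‖v‖ ^ 2 := inner_self_eq_norm_sq (𝕜 := ℂ) v
    rw [← h2]
    nth_rewrite 1 [← hBg]
    rw [← ContinuousLinearMap.adjoint_inner_right, ← hH, L2.inner_def, ← integral_sq_eq]
    have hi := L2.integrable_inner (𝕜 := ℂ) g H
    have h3 := integral_re hi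
    simp only [RCLike.re_to_complex] at h3
    rw [← h3, ← integral_const_mul]
    refine integral_mono_ae (hi.re.const_mul μ)
      ((memLp_two_iff_integrable_sq_norm (Lp.aestronglyMeasurable H)).mp (Lp.memLp H)) ?_
    filter_upwards [hpt, hgm.coeFn_toLp] with ξ a b
    rw [b]; exact a.2
  have hv0 : ‖v‖ = 0 := by
    have h1 : ‖H‖ ^ 2 ≤ (μ / 2 * ‖v‖) ^ 2 := by gcongr
    have h2 : μ * (1 - μ / 4) * ‖v‖ ^ 2 ≤ 0 := by nlinarith
    have h3 : 0 < μ * (1 - μ / 4) := mul_pos hμ0 (by linarith)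
    have h4 : ‖v‖ ^ 2 ≤ 0 := by
      by_contra h5
      exact absurd h2 (not_le.mpr (mul_pos h3 (not_le.mp h5)))
    exact pow_eq_zero_iff (two_ne_zero) |>.mp (le_antisymm h4 (sq_nonneg _))
  have hH0 : H = 0 := by
    rw [hv0, mul_zero] at hHv
    exact norm_le_zero_iff.mp hHv
  have hP0 : P = 0 := by
    apply Lp.ext
    filter_upwards [hpt, Lp.coeFn_zero S 2 (volume : Measure E)] with ξ a b
    have a1 := a.1
    rw [hH0, b, Pi.zero_apply, norm_zero] at a1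
    have a2 : ‖((uw ξ)⁻¹ : ℂ) • P ξ‖ ≤ 0 := by
      by_contra h5
      exact absurd a1 (not_le.mpr (mul_pos hκ0 (not_le.mp h5)))
    rw [norm_le_zero_iff, smul_eq_zero] at a2
    rw [b]
    exact a2.resolve_left (inv_ne_zero (by exact_mod_cast (uw_pos ξ).ne'))
  have hΨ0 : Ψ = 0 := by
    rw [← norm_eq_zero, ← Lp.norm_fourier_eq, ← hP, hP0, norm_zero]
  exact hΨψ.symm.trans (hΨ0 ▸ Lp.coeFn_zero S 2 (volume : Measure E))

end Pool.Agent.MP_0b7119_mp.G

end
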