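import Mathlib

section

/-! One-dimensional Dirac operators `D_m - V = α (-i d/dx) + m β - V` on `L²(ℝ, ℂ²)`. -/

open Set MeasureTheory Matrix
open scoped ENNReal

namespace Pool.Agent.MP_0b7119_mp

/-- `l` is an eigenvalue of `D_m - V`: there is a nonzero, locally absolutely continuous,
square integrable `ψ` with `-i α ψ' + m β ψ - V ψ = l ψ` almost everywhere. -/
def IsEig (α β : Matrix (Fin 2) (Fin 2) ℂ) (m : ℝ) (V : ℝ → ℝ) (l : ℝ) : Prop :=
  ∃ ψ : ℝ → Fin 2 → ℂ, ψ ≠ 0 ∧ MemLp ψ 2 volume ∧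
    (∀ a b, AbsolutelyContinuousOnInterval ψ a b) ∧
    ∀ᵐ x, DifferentiableAt ℝ ψ x ∧
      (-Complex.I) • α *ᵥ deriv ψ x + (m : ℂ) • β *ᵥ ψ x - (V x : ℂ) • ψ x = (l : ℂ) • ψ x

/-- The lowest eigenvalue in the gap `(-m, m)`, and `m` if there is none. -/
noncomputable def lamD (α β : Matrix (Fin 2) (Fin 2) ℂ) (m : ℝ) (V : ℝ → ℝ) : ℝ :=
  sInf ({l | l ∈ Ioo (-m) m ∧ IsEig α β m V l} ∪ {m})

/-- Nonnegative potentials in `L^p`. -/
def Pot (p : ℝ) : Set (ℝ → ℝ) := {V | (∀ x, 0 ≤ V x) ∧ MemLp V (ENNReal.ofReal p) volume}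

/-- The critical norm: the infimum of the `a` such that potentials of norm at most `a` bring the
lowest gap eigenvalue arbitrarily close to `-m`. -/
noncomputable def alphaStar (α β : Matrix (Fin 2) (Fin 2) ℂ) (m p : ℝ) : ℝ≥0∞ :=
  sInf {a | ∀ δ > 0, ∃ V ∈ Pot p, eLpNorm V (ENNReal.ofReal p) volume ≤ a ∧ lamD α β m V < -m + δ}

end Pool.Agent.MP_0b7119_mp

end

section

/-! Locally absolutely continuous real functions together with an a.e. derivative. -/

open Set MeasureTheory Filter Topology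

namespace Pool.Agent.MP_0b7119_mp

theorem ac_comp_lipschitzOn {X Y : Type*} [PseudoMetricSpace X] [PseudoMetricSpace Y] {f : ℝ → X}
    {g : X → Y} {a b : ℝ} {s : Set X} {K : NNReal} (hf : AbsolutelyContinuousOnInterval f a b)
    (hg : LipschitzOnWith K g s) (hs : MapsTo f (uIcc a b) s) :
    AbsolutelyContinuousOnInterval (fun x => g (f x)) a b := by
  rw [absolutelyContinuousOnInterval_iff] at hf ⊢
  intro ε hε
  obtain ⟨δ, hδ, h⟩ := hf (ε / (K + 1)) (by positivity)
  refine ⟨δ, hδ, fun E hE hE2 => ?_⟩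
  have h1 := h E hE hE2
  calc ∑ i ∈ Finset.range E.1, dist (g (f (E.2 i).1)) (g (f (E.2 i).2))
      ≤ ∑ i ∈ Finset.range E.1, K * dist (f (E.2 i).1) (f (E.2 i).2) := by
        apply Finset.sum_le_sum
        intro i hi
        exact hg.dist_le_mul _ (hs (hE.1 i hi).1) _ (hs (hE.1 i hi).2)
    _ = K * ∑ i ∈ Finset.range E.1, dist (f (E.2 i).1) (f (E.2 i).2) := by rw [Finset.mul_sum]
    _ ≤ K * (ε / (K + 1)) := by gcongr
    _ < (K + 1) * (ε / (K + 1)) := by gcongr; linarith
    _ = ε := by field_simp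

theorem ac_comp_contDiff {X Y : Type*} [NormedAddCommGroup X] [NormedSpace ℝ X] [ProperSpace X]
    [NormedAddCommGroup Y] [NormedSpace ℝ Y] {f : ℝ → X} {g : X → Y} {a b : ℝ}
    (hf : AbsolutelyContinuousOnInterval f a b) (hg : ContDiff ℝ 1 g) :
    AbsolutelyContinuousOnInterval (fun x => g (f x)) a b := by
  obtain ⟨C, hC⟩ := hf.exists_bound
  obtain ⟨K, hK⟩ := (hg.contDiffOn (s := Metric.closedBall 0 C)).exists_lipschitzOnWith
    (by decide) (convex_closedBall _ _) (isCompact_closedBall _ _)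
  exact ac_comp_lipschitzOn hf hK (fun x hx => by simpa using hC x hx)

structure ACD (f f' : ℝ → ℝ) : Prop where
  ac : ∀ a b, AbsolutelyContinuousOnInterval f a b
  der : ∀ᵐ x, HasDerivAt f (f' x) x

namespace ACD

variable {f f' g g' : ℝ → ℝ}

theorem continuous (h : ACD f f') : Continuous f := by
  rw [continuous_iff_continuousAt]
  intro x
  have := (h.ac (x - 1) (x + 1)).continuousOn
  rw [uIcc_of_le (by linarith)] at this
  exact this.continuousAt (Icc_mem_nhds (by linarith) (by linarith))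

theorem congr_deriv (h : ACD f f') (e : ∀ᵐ x, f' x = g' x) : ACD f g' :=
  ⟨h.ac, by filter_upwards [h.der, e] with x h1 h2; rwa [← h2]⟩

theorem congr_deriv' (h : ACD f f') (e : ∀ x, f' x = g' x) : ACD f g' :=
  h.congr_deriv (Eventually.of_forall e)

theorem add (h : ACD f f') (k : ACD g g') : ACD (fun x => f x + g x) (fun x => f' x + g' x) :=
  ⟨fun a b => (h.ac a b).add (k.ac a b), by
    filter_upwards [h.der, k.der] with x h1 h2; exact h1.add h2⟩

theorem sub (h : ACD f f') (k : ACD g g') : ACD (fun x => f x - g x) (fun x => f' x - g' x) :=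
  ⟨fun a b => (h.ac a b).sub (k.ac a b), by
    filter_upwards [h.der, k.der] with x h1 h2; exact h1.sub h2⟩

theorem neg (h : ACD f f') : ACD (fun x => -f x) (fun x => -f' x) :=
  ⟨fun a b => (h.ac a b).neg, by filter_upwards [h.der] with x h1; exact h1.neg⟩

theorem mul (h : ACD f f') (k : ACD g g') :
    ACD (fun x => f x * g x) (fun x => f' x * g x + f x * g' x) :=
  ⟨fun a b => (h.ac a b).mul (k.ac a b), by
    filter_upwards [h.der, k.der] with x h1 h2; exact h1.mul h2⟩

theorem const_mul (c : ℝ) (h : ACD f f') : ACD (fun x => c * f x) (fun x => c * f' x) :=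
  ⟨fun a b => (h.ac a b).const_mul c, by filter_upwards [h.der] with x h1; exact h1.const_mul c⟩

theorem of_contDiff (hf : ContDiff ℝ 1 f) (hd : ∀ x, HasDerivAt f (f' x) x) : ACD f f' :=
  ⟨fun _ _ => hf.contDiffOn.absolutelyContinuousOnInterval, Eventually.of_forall hd⟩

theorem of_hasDerivAt (hd : ∀ x, HasDerivAt f (f' x) x) (hc : Continuous f') : ACD f f' := by
  refine of_contDiff ?_ hd
  rw [contDiff_one_iff_deriv]
  refine ⟨fun x => (hd x).differentiableAt, ?_⟩
  have : deriv f = f' := funext fun x => (hd x).deriv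
  rwa [this]

theorem const (c : ℝ) : ACD (fun _ => c) (fun _ => 0) :=
  of_hasDerivAt (fun x => hasDerivAt_const x c) continuous_const

theorem id' : ACD (fun x => x) (fun _ => 1) :=
  of_hasDerivAt (fun x => hasDerivAt_id x) continuous_const

theorem comp (h : ACD f f') {G G' : ℝ → ℝ} (hd : ∀ y, HasDerivAt G (G' y) y)
    (hc : Continuous G') : ACD (fun x => G (f x)) (fun x => G' (f x) * f' x) := by
  have hG : ContDiff ℝ 1 G := by
    rw [contDiff_one_iff_deriv]
    refine ⟨fun x => (hd x).differentiableAt, ?_⟩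
    have : deriv G = G' := funext fun x => (hd x).deriv
    rwa [this]
  exact ⟨fun a b => ac_comp_contDiff (h.ac a b) hG, by
    filter_upwards [h.der] with x h1; exact (hd (f x)).comp x h1⟩

theorem exp (h : ACD f f') : ACD (fun x => Real.exp (f x)) (fun x => Real.exp (f x) * f' x) :=
  h.comp Real.hasDerivAt_exp Real.continuous_exp

theorem sin (h : ACD f f') : ACD (fun x => Real.sin (f x)) (fun x => Real.cos (f x) * f' x) :=
  h.comp Real.hasDerivAt_sin Real.continuous_cos

theorem cos (h : ACD f f') : ACD (fun x => Real.cos (f x)) (fun x => -Real.sin (f x) * f' x) :=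
  h.comp Real.hasDerivAt_cos Real.continuous_sin.neg

theorem primitive {v : ℝ → ℝ} (hv : LocallyIntegrable v volume) (c : ℝ) :
    ACD (fun x => ∫ t in c..x, v t) v := by
  have hi : ∀ a b, IntervalIntegrable v volume a b := fun a b =>
    (hv.integrableOn_isCompact isCompact_uIcc).intervalIntegrable
  refine ⟨fun a b => ?_, ?_⟩
  · have := (hi (min c (min a b)) (max c (max a b))).absolutelyContinuousOnInterval_intervalIntegral
      (c := c) (by
        rw [uIcc_of_le ((min_le_left _ _).trans (le_max_left _ _))]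
        exact ⟨min_le_left _ _, le_max_left _ _⟩)
    refine this.mono ?_
    rw [uIcc_of_le (a := min c (min a b)) ((min_le_left _ _).trans (le_max_left _ _))]
    exact Icc_subset_Icc (min_le_right _ _) (le_max_right _ _)
  · filter_upwards [LocallyIntegrable.ae_hasDerivAt_integral hv] with x hx
    exact hx c

theorem le_of_nonneg (h : ACD f f') {a b : ℝ} (hab : a ≤ b)
    (hp : ∀ᵐ x, x ∈ Icc a b → 0 ≤ f' x) : f a ≤ f b := by
  have h1 := (h.ac a b).integral_deriv_eq_sub
  have h2 : 0 ≤ ∫ x in a..b, deriv f x := by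
    apply intervalIntegral.integral_nonneg_of_ae_restrict hab
    rw [EventuallyLE, ae_restrict_iff' measurableSet_Icc]
    filter_upwards [h.der, hp] with x h1 h2 hx
    rw [h1.deriv]; exact h2 hx
  linarith

theorem eq_of_zero (h : ACD f (fun _ => 0)) (a b : ℝ) : f a = f b := by
  have key : ∀ a b, a ≤ b → f a = f b := fun a b hab => by
    have h1 := h.le_of_nonneg hab (Eventually.of_forall fun _ _ => le_rfl)
    have h2 := h.neg.le_of_nonneg hab (Eventually.of_forall fun _ _ => by simp)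
    linarith
  rcases le_total a b with hab | hab
  · exact key a b hab
  · exact (key b a hab).symm

/-- comparison lemma -/
theorem nonneg_of_ge (h : ACD f f') {a b K : ℝ} (hab : a ≤ b)
    (hp : ∀ᵐ x, x ∈ Icc a b → -(K * |f x|) ≤ f' x) (ha : 0 ≤ f a) : 0 ≤ f b := by
  by_contra hb
  push Not at hb
  set S : Set ℝ := Icc a b ∩ {x | 0 ≤ f x} with hS
  have hSc : IsCompact S := isCompact_Icc.inter_right (isClosed_le continuous_const h.continuous)
  have hSn : S.Nonempty := ⟨a, left_mem_Icc.2 hab, ha⟩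
  obtain ⟨c, hcS, hc⟩ := hSc.exists_isGreatest hSn
  have hle : ∀ x ∈ Icc c b, x ≠ c → f x < 0 := by
    intro x hx hne
    by_contra hh
    push Not at hh
    have := hc ⟨⟨hcS.1.1.trans hx.1, hx.2⟩, hh⟩
    exact hne (le_antisymm this hx.1)
  have h2 : ACD (fun x => f x * Real.exp (-K * x))
      (fun x => f' x * Real.exp (-K * x) + f x * (Real.exp (-K * x) * (-K * 1))) :=
    h.mul ((id'.const_mul (-K)).exp)
  have h3 := h2.le_of_nonneg hcS.1.2 (by
    filter_upwards [hp, (Measure.ae_ne volume c)] with x hx hne hxm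
    have h4 := hx ⟨hcS.1.1.trans hxm.1, hxm.2⟩
    have h5 := hle x hxm hne
    rw [abs_of_neg h5] at h4
    have h6 : 0 < Real.exp (-K * x) := Real.exp_pos _
    nlinarith)
  have h7 : 0 ≤ f c * Real.exp (-K * c) := mul_nonneg hcS.2 (Real.exp_pos _).le
  have h8 : f b * Real.exp (-K * b) < 0 := mul_neg_of_neg_of_pos hb (Real.exp_pos _)
  linarith

theorem reflect (h : ACD f f') : ACD (fun x => f (-x)) (fun x => -f' (-x)) := by
  refine ⟨fun a b => ?_, ?_⟩
  · have h1 := h.ac (-a) (-b)
    rw [absolutelyContinuousOnInterval_iff] at h1 ⊢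
    intro ε hε
    obtain ⟨δ, hδ, h2⟩ := h1 ε hε
    refine ⟨δ, hδ, fun E hE hE2 => ?_⟩
    have := h2 (E.1, fun i => (-(E.2 i).1, -(E.2 i).2)) ?_ (by simpa using hE2)
    · simpa using this
    · refine ⟨fun i hi => ?_, ?_⟩
      · have := hE.1 i hi
        simp only [mem_uIcc] at this ⊢
        constructor
        · rcases this.1 with h | h
          · right; constructor <;> linarith [h.1, h.2]
          · left; constructor <;> linarith [h.1, h.2]
        · rcases this.2 with h | h
          · right; constructor <;> linarith [h.1, h.2]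
          · left; constructor <;> linarith [h.1, h.2]
      · intro i hi j hj hij
        have hd := hE.2 hi hj hij
        simp only [Function.onFun] at hd ⊢
        rw [Set.disjoint_left] at hd ⊢
        intro x hx hx'
        simp only [mem_uIoc] at hx hx' hd
        -- two overlapping half-open intervals overlap after reflection as well
        have key : ∀ (u v w z : ℝ), u < v → w < z → -v < x ∧ x ≤ -u → -z < x ∧ x ≤ -w →
            ∃ y, (u < y ∧ y ≤ v) ∧ (w < y ∧ y ≤ z) := by
          intro u v w z _ _ h1 h2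
          refine ⟨min v z, ⟨lt_min (by linarith) (by linarith), min_le_left _ _⟩,
            ⟨lt_min (by linarith) (by linarith), min_le_right _ _⟩⟩
        rcases hx with hx | hx <;> rcases hx' with hx' | hx'
        · obtain ⟨y, h1, h2⟩ := key (E.2 i).2 (E.2 i).1 (E.2 j).2 (E.2 j).1
            (by linarith [hx.1, hx.2]) (by linarith [hx'.1, hx'.2]) hx hx'
          exact hd (Or.inr h1) (Or.inr h2)
        · obtain ⟨y, h1, h2⟩ := key (E.2 i).2 (E.2 i).1 (E.2 j).1 (E.2 j).2
            (by linarith [hx.1, hx.2]) (by linarith [hx'.1, hx'.2]) hx hx'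
          exact hd (Or.inr h1) (Or.inl h2)
        · obtain ⟨y, h1, h2⟩ := key (E.2 i).1 (E.2 i).2 (E.2 j).2 (E.2 j).1
            (by linarith [hx.1, hx.2]) (by linarith [hx'.1, hx'.2]) hx hx'
          exact hd (Or.inl h1) (Or.inr h2)
        · obtain ⟨y, h1, h2⟩ := key (E.2 i).1 (E.2 i).2 (E.2 j).1 (E.2 j).2
            (by linarith [hx.1, hx.2]) (by linarith [hx'.1, hx'.2]) hx hx'
          exact hd (Or.inl h1) (Or.inl h2)
  · have h1 : ∀ᵐ x, HasDerivAt f (f' (-x)) (-x) :=
      (Measure.measurePreserving_neg (volume : Measure ℝ)).quasiMeasurePreserving.ae h.der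
    filter_upwards [h1] with x hx
    exact HasDerivAt.congr_deriv (hx.comp x (hasDerivAt_neg x)) (by ring)

end ACD

end Pool.Agent.MP_0b7119_mp

end

section

open Set MeasureTheory Matrix Filter Topology

namespace Pool.Agent.MP_0b7119_mp

structure Cliff (α β : Matrix (Fin 2) (Fin 2) ℂ) : Prop where
  hα : α.IsHermitian
  hβ : β.IsHermitian
  αα : α * α = 1
  ββ : β * β = 1
  βα : β * α = -(α * β)

structure Pruefer (m l : ℝ) (V φ ρ : ℝ → ℝ) : Prop where
  hφ : ACD φ (fun x => 2 * (l + V x) - 2 * m * Real.cos (φ x))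
  hρ : ACD ρ (fun x => -2 * m * Real.sin (φ x))
  int : Integrable (fun x => Real.exp (ρ x)) volume

noncomputable def sq (A : Matrix (Fin 2) (Fin 2) ℂ) (v w : Fin 2 → ℂ) : ℂ := star v ⬝ᵥ A *ᵥ w

noncomputable def qf (A : Matrix (Fin 2) (Fin 2) ℂ) (v : Fin 2 → ℂ) : ℝ := (sq A v v).re

theorem sq_eq (A : Matrix (Fin 2) (Fin 2) ℂ) (v w : Fin 2 → ℂ) : sq A v w =
    (starRingEnd ℂ) (v 0) * (A 0 0 * w 0 + A 0 1 * w 1) +
      (starRingEnd ℂ) (v 1) * (A 1 0 * w 0 + A 1 1 * w 1) := by
  simp [sq, dotProduct, mulVec, Fin.sum_univ_two]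

theorem sq_conj {A : Matrix (Fin 2) (Fin 2) ℂ} (hA : A.IsHermitian) (v w : Fin 2 → ℂ) :
    (starRingEnd ℂ) (sq A v w) = sq A w v := by
  have h00 : (starRingEnd ℂ) (A 0 0) = A 0 0 := hA.apply 0 0
  have h01 : (starRingEnd ℂ) (A 0 1) = A 1 0 := hA.apply 1 0
  have h10 : (starRingEnd ℂ) (A 1 0) = A 0 1 := hA.apply 0 1
  have h11 : (starRingEnd ℂ) (A 1 1) = A 1 1 := hA.apply 1 1
  simp only [sq_eq, map_add, map_mul, Complex.conj_conj, h00, h01, h10, h11]
  ring

theorem sq_im {A : Matrix (Fin 2) (Fin 2) ℂ} (hA : A.IsHermitian) (v : Fin 2 → ℂ) :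
    (sq A v v).im = 0 := by
  have := congrArg Complex.im (sq_conj hA v v)
  simp only [Complex.conj_im] at this
  linarith

theorem sq_mul (A B : Matrix (Fin 2) (Fin 2) ℂ) (v w : Fin 2 → ℂ) :
    sq A v (B *ᵥ w) = sq (A * B) v w := by
  unfold sq; rw [mulVec_mulVec]

theorem sq_add (A B : Matrix (Fin 2) (Fin 2) ℂ) (v w : Fin 2 → ℂ) :
    sq (A + B) v w = sq A v w + sq B v w := by
  unfold sq; rw [add_mulVec, dotProduct_add]

theorem sq_smul (c : ℂ) (A : Matrix (Fin 2) (Fin 2) ℂ) (v w : Fin 2 → ℂ) :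
    sq (c • A) v w = c * sq A v w := by
  unfold sq; rw [smul_mulVec, dotProduct_smul, smul_eq_mul]

theorem qf_one (v : Fin 2 → ℂ) : qf 1 v = ‖v 0‖ ^ 2 + ‖v 1‖ ^ 2 := by
  simp only [qf, sq_eq]
  simp [Complex.sq_norm, Complex.normSq_apply]

theorem qf_contDiff (A : Matrix (Fin 2) (Fin 2) ℂ) : ContDiff ℝ 1 (qf A) := by
  have h0 : ContDiff ℝ 1 (fun v : Fin 2 → ℂ => v 0) := contDiff_apply ℝ ℂ 0
  have h1 : ContDiff ℝ 1 (fun v : Fin 2 → ℂ => v 1) := contDiff_apply ℝ ℂ 1
  have c0 : ContDiff ℝ 1 (fun v : Fin 2 → ℂ => (starRingEnd ℂ) (v 0)) :=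
    Complex.conjCLE.contDiff.comp h0
  have c1 : ContDiff ℝ 1 (fun v : Fin 2 → ℂ => (starRingEnd ℂ) (v 1)) :=
    Complex.conjCLE.contDiff.comp h1
  have : qf A = fun v => Complex.reCLM ((starRingEnd ℂ) (v 0) * (A 0 0 * v 0 + A 0 1 * v 1) +
      (starRingEnd ℂ) (v 1) * (A 1 0 * v 0 + A 1 1 * v 1)) := by
    funext v; simp only [qf, sq_eq]; rfl
  rw [this]
  exact Complex.reCLM.contDiff.comp
    ((c0.mul ((contDiff_const.mul h0).add (contDiff_const.mul h1))).add
      (c1.mul ((contDiff_const.mul h0).add (contDiff_const.mul h1))))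

theorem qf_hasDerivAt {A : Matrix (Fin 2) (Fin 2) ℂ} (hA : A.IsHermitian) {ψ : ℝ → Fin 2 → ℂ}
    {ψ' : Fin 2 → ℂ} {x : ℝ} (h : HasDerivAt ψ ψ' x) :
    HasDerivAt (fun x => qf A (ψ x)) (2 * (sq A (ψ x) ψ').re) x := by
  have h0 : HasDerivAt (fun x => ψ x 0) (ψ' 0) x := hasDerivAt_pi.1 h 0
  have h1 : HasDerivAt (fun x => ψ x 1) (ψ' 1) x := hasDerivAt_pi.1 h 1
  have c0 : HasDerivAt (fun x => (starRingEnd ℂ) (ψ x 0)) ((starRingEnd ℂ) (ψ' 0)) x :=
    Complex.conjCLE.toContinuousLinearMap.hasFDerivAt.comp_hasDerivAt x h0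
  have c1 : HasDerivAt (fun x => (starRingEnd ℂ) (ψ x 1)) ((starRingEnd ℂ) (ψ' 1)) x :=
    Complex.conjCLE.toContinuousLinearMap.hasFDerivAt.comp_hasDerivAt x h1
  have h2 := (c0.mul ((h0.const_mul (A 0 0)).add (h1.const_mul (A 0 1)))).add
    (c1.mul ((h0.const_mul (A 1 0)).add (h1.const_mul (A 1 1))))
  have h3 : HasDerivAt (fun x => sq A (ψ x) (ψ x)) (sq A ψ' (ψ x) + sq A (ψ x) ψ') x := by
    simp only [sq_eq]
    refine HasDerivAt.congr_deriv h2 ?_
    simp only [Pi.add_apply]
    ring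
  have h4 := Complex.reCLM.hasFDerivAt.comp_hasDerivAt x h3
  refine HasDerivAt.congr_deriv h4 ?_
  have h5 : (sq A ψ' (ψ x)).re = (sq A (ψ x) ψ').re := by
    rw [← sq_conj hA (ψ x) ψ', Complex.conj_re]
  simp only [Complex.reCLM_apply, Complex.add_re, h5]
  ring

namespace Cliff
variable {α β : Matrix (Fin 2) (Fin 2) ℂ} (C : Cliff α β)
include C

theorem αβα : α * β * α = -β := by
  rw [mul_assoc, C.βα, mul_neg, ← mul_assoc, C.αα, one_mul]

theorem βαβ : β * α * β = -α := by
  rw [C.βα, neg_mul, mul_assoc, C.ββ, mul_one]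

theorem γherm : (Complex.I • (α * β)).IsHermitian := by
  unfold IsHermitian
  rw [conjTranspose_smul, conjTranspose_mul, C.hα.eq, C.hβ.eq, C.βα]
  simp

theorem γγ : (Complex.I • (α * β)) * (Complex.I • (α * β)) = 1 := by
  rw [smul_mul_smul_comm, Complex.I_mul_I, ← mul_assoc, C.αβα, neg_mul, C.ββ]
  simp

theorem βγ : β * (Complex.I • (α * β)) + (Complex.I • (α * β)) * β = 0 := by
  rw [mul_smul_comm, smul_mul_assoc, ← smul_add, ← mul_assoc, C.βαβ, mul_assoc, C.ββ, mul_one]
  simp

theorem cs (v : Fin 2 → ℂ) : qf β v ^ 2 + qf (Complex.I • (α * β)) v ^ 2 ≤ qf 1 v ^ 2 := by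
  set γ := Complex.I • (α * β) with hγ
  set s := qf β v with hs
  set t := qf γ v with ht
  set r := Real.sqrt (s ^ 2 + t ^ 2) with hr
  have hr2 : r ^ 2 = s ^ 2 + t ^ 2 := Real.sq_sqrt (by positivity)
  have hr0 : 0 ≤ r := Real.sqrt_nonneg _
  have hn : 0 ≤ qf 1 v := by rw [qf_one]; positivity
  set P : Matrix (Fin 2) (Fin 2) ℂ := (r : ℂ) • 1 + ((-s : ℝ) : ℂ) • β + ((-t : ℝ) : ℂ) • γ with hP
  have hPh : P.IsHermitian := by
    unfold IsHermitian
    have hγh : γᴴ = γ := C.γherm.eq
    rw [hP, conjTranspose_add, conjTranspose_add, conjTranspose_smul, conjTranspose_smul,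
      conjTranspose_smul, C.hβ.eq, hγh, conjTranspose_one]
    simp
  have hPP : P * P = ((2 * r : ℝ) : ℂ) • P := by
    have h1 : β * β = 1 := C.ββ
    have h2 : γ * γ = 1 := C.γγ
    have h3 : γ * β = -(β * γ) := eq_neg_of_add_eq_zero_right C.βγ
    have h4 : ((r : ℂ)) ^ 2 = (s : ℂ) ^ 2 + (t : ℂ) ^ 2 := by exact_mod_cast hr2
    rw [hP]
    simp only [add_mul, mul_add, smul_mul_assoc, mul_smul_comm, one_mul, mul_one, h1, h2, h3,
      smul_add, smul_smul, smul_neg]
    push_cast
    have h5 : ((r : ℂ) * r) • (1 : Matrix (Fin 2) (Fin 2) ℂ) =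
        ((s : ℂ) * s) • (1 : Matrix (Fin 2) (Fin 2) ℂ) + ((t : ℂ) * t) • 1 := by
      rw [← add_smul]; congr 1; linear_combination h4
    have h6 : (2 * (r : ℂ) * r) • (1 : Matrix (Fin 2) (Fin 2) ℂ) =
        ((r : ℂ) * r) • (1 : Matrix (Fin 2) (Fin 2) ℂ) + ((r : ℂ) * r) • 1 := by
      rw [← add_smul]; congr 1; ring
    rw [h6]
    nth_rewrite 3 [h5]
    module
  have h1 : 0 ≤ (sq (P * P) v v).re := by
    have e : sq (P * P) v v = sq 1 (P *ᵥ v) (P *ᵥ v) := by
      have e1 : sq 1 (P *ᵥ v) (P *ᵥ v) = sq P (P *ᵥ v) v := by rw [sq_mul, one_mul]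
      rw [e1, ← sq_conj hPh, sq_mul]
      have e2 : (P * P).IsHermitian := by
        unfold IsHermitian; rw [conjTranspose_mul, hPh.eq]
      rw [sq_conj e2]
    rw [e]
    have := qf_one (P *ᵥ v)
    unfold qf at this
    rw [this]; positivity
  rw [hPP, sq_smul, hP, sq_add, sq_add, sq_smul, sq_smul, sq_smul] at h1
  simp only [Complex.mul_re, Complex.add_re, Complex.ofReal_re, Complex.ofReal_im, zero_mul,
    sub_zero] at h1
  change 0 ≤ 2 * r * (r * qf 1 v + -s * s + -t * t) at h1
  rcases hr0.eq_or_lt with h0 | h0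
  · rw [← hr2, ← h0]; nlinarith
  · have h2 : 0 ≤ r * qf 1 v + -s * s + -t * t := by
      by_contra hh
      push Not at hh
      nlinarith
    have h3 : r ≤ qf 1 v := by
      by_contra hh
      push Not at hh
      nlinarith
    rw [← hr2]; nlinarith

theorem deriv_eq {m l w : ℝ} {v v' : Fin 2 → ℂ}
    (h : (-Complex.I) • α *ᵥ v' + (m : ℂ) • β *ᵥ v - (w : ℂ) • v = (l : ℂ) • v) :
    v' = (Complex.I • (α * (((l + w : ℝ) : ℂ) • 1 + ((-m : ℝ) : ℂ) • β))) *ᵥ v := by
  have h1 : (-Complex.I) • α *ᵥ v' = (((l + w : ℝ) : ℂ) • (1 : Matrix (Fin 2) (Fin 2) ℂ) +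
      ((-m : ℝ) : ℂ) • β) *ᵥ v := by
    rw [add_mulVec, smul_mulVec, smul_mulVec, one_mulVec]
    push_cast
    rw [add_smul, ← h]
    module
  rw [smul_mulVec, ← mulVec_mulVec, ← h1, mulVec_smul, mulVec_mulVec, C.αα, one_mulVec, smul_smul]
  simp

end Cliff

theorem not_integrable_of_ge {n : ℝ → ℝ} {c a : ℝ} (hc : 0 < c) (h : ∀ x ≥ a, c ≤ n x) :
    ¬ Integrable n volume := by
  intro hi
  have h1 : IntegrableOn (fun _ : ℝ => c) (Ici a) volume := by
    refine Integrable.mono' hi.integrableOn aestronglyMeasurable_const ?_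
    rw [ae_restrict_iff' measurableSet_Ici]
    exact Eventually.of_forall fun x hx => by
      rw [Real.norm_eq_abs, abs_of_pos hc]; exact h x hx
  rw [integrableOn_const_iff] at h1
  rcases h1 with h1 | h1
  · simp at h1; exact hc.ne' h1
  · simp at h1

theorem eig_to_pruefer {α β : Matrix (Fin 2) (Fin 2) ℂ} (C : Cliff α β) {m l : ℝ} {V : ℝ → ℝ}
    (hV : LocallyIntegrable V volume) (h : IsEig α β m V l) (x₀ : ℝ) :
    ∃ φ ρ, Pruefer m l V φ ρ ∧ φ x₀ ∈ Icc (-Real.pi) Real.pi := by
  obtain ⟨ψ, hne, hL, hac, hd⟩ := h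
  set γ := Complex.I • (α * β) with hγ
  set n : ℝ → ℝ := fun x => qf 1 (ψ x) with hn
  set b : ℝ → ℝ := fun x => qf β (ψ x) with hb
  set j : ℝ → ℝ := fun x => qf γ (ψ x) with hj
  have hd' : ∀ᵐ x, HasDerivAt ψ ((Complex.I • (α * (((l + V x : ℝ) : ℂ) • 1 +
      ((-m : ℝ) : ℂ) • β))) *ᵥ ψ x) x := by
    filter_upwards [hd] with x hx
    rw [← C.deriv_eq hx.2]
    exact hx.1.hasDerivAt
  have hnD : ACD n (fun x => -2 * m * j x) := by
    refine ⟨fun a b => ac_comp_contDiff (hac a b) (qf_contDiff 1), ?_⟩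
    filter_upwards [hd'] with x hx
    refine (qf_hasDerivAt isHermitian_one hx).congr_deriv ?_
    have e : (1 : Matrix (Fin 2) (Fin 2) ℂ) * (Complex.I • (α * (((l + V x : ℝ) : ℂ) • 1 +
        ((-m : ℝ) : ℂ) • β))) = (Complex.I * ((l + V x : ℝ) : ℂ)) • α + ((-m : ℝ) : ℂ) • γ := by
      rw [hγ]
      simp only [one_mul, mul_add, mul_smul_comm, mul_one, smul_add, smul_smul]
      module
    rw [sq_mul, e, sq_add, sq_smul, sq_smul]
    have := sq_im C.hα (ψ x)
    simp only [Complex.add_re, Complex.mul_re, Complex.mul_im, Complex.I_re, Complex.I_im,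
      Complex.ofReal_re, Complex.ofReal_im, this, hj, qf]
    ring
  have hbD : ACD b (fun x => -2 * (l + V x) * j x) := by
    refine ⟨fun a b => ac_comp_contDiff (hac a b) (qf_contDiff β), ?_⟩
    filter_upwards [hd'] with x hx
    refine (qf_hasDerivAt C.hβ hx).congr_deriv ?_
    have e : β * (Complex.I • (α * (((l + V x : ℝ) : ℂ) • 1 + ((-m : ℝ) : ℂ) • β))) =
        ((-(l + V x) : ℝ) : ℂ) • γ + (Complex.I * (m : ℂ)) • α := by
      rw [hγ]
      simp only [mul_add, mul_smul_comm, mul_one, smul_add, smul_smul, ← mul_assoc, C.βαβ]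
      rw [C.βα]
      push_cast
      module
    rw [sq_mul, e, sq_add, sq_smul _ γ, sq_smul _ α]
    have := sq_im C.hα (ψ x)
    simp only [Complex.add_re, Complex.mul_re, Complex.mul_im, Complex.I_re, Complex.I_im,
      Complex.ofReal_re, Complex.ofReal_im, this, hj, qf]
    ring
  have hjD : ACD j (fun x => 2 * (l + V x) * b x - 2 * m * n x) := by
    refine ⟨fun a b => ac_comp_contDiff (hac a b) (qf_contDiff γ), ?_⟩
    filter_upwards [hd'] with x hx
    refine (qf_hasDerivAt C.γherm hx).congr_deriv ?_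
    have e : γ * (Complex.I • (α * (((l + V x : ℝ) : ℂ) • 1 + ((-m : ℝ) : ℂ) • β))) =
        ((l + V x : ℝ) : ℂ) • β + ((-m : ℝ) : ℂ) • 1 := by
      have e1 : γ * (Complex.I • α) = β := by
        rw [hγ, smul_mul_smul_comm, Complex.I_mul_I, C.αβα]; simp
      rw [← smul_mul_assoc, ← mul_assoc, e1]
      simp only [mul_add, mul_smul_comm, mul_one, C.ββ]
    rw [sq_mul, e, sq_add, sq_smul, sq_smul]
    simp only [Complex.add_re, Complex.mul_re, Complex.ofReal_re, Complex.ofReal_im, hb, hn, qf]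
    ring
  have hn0 : ∀ x, 0 ≤ n x := fun x => by simp only [hn, qf_one]; positivity
  have hnint : Integrable n volume := by
    have h0 : MemLp (fun x => ψ x 0) 2 volume := memLp_pi_iff.1 hL 0
    have h1 : MemLp (fun x => ψ x 1) 2 volume := memLp_pi_iff.1 hL 1
    have i0 := (memLp_two_iff_integrable_sq_norm h0.1).1 h0
    have i1 := (memLp_two_iff_integrable_sq_norm h1.1).1 h1
    have : n = fun x => ‖ψ x 0‖ ^ 2 + ‖ψ x 1‖ ^ 2 := funext fun x => qf_one _
    rw [this]
    exact i0.add i1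
  have hC : ACD (fun x => n x * n x - (b x * b x + j x * j x)) (fun _ => 0) :=
    ((hnD.mul hnD).sub ((hbD.mul hbD).add (hjD.mul hjD))).congr_deriv' (fun x => by ring)
  have hfz : ∀ x, n x * n x = b x * b x + j x * j x := by
    intro x
    have h1 : b x ^ 2 + j x ^ 2 ≤ n x ^ 2 := C.cs (ψ x)
    by_contra hne
    have h2 : 0 < n x * n x - (b x * b x + j x * j x) := by
      rcases (show b x * b x + j x * j x ≤ n x * n x by nlinarith).eq_or_lt with h | h
      · exact absurd h.symm hne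
      · linarith
    refine not_integrable_of_ge (Real.sqrt_pos.2 h2) (a := 0) (fun y _ => ?_) hnint
    apply Real.sqrt_le_iff.2 ⟨hn0 y, ?_⟩
    have := hC.eq_of_zero x y
    nlinarith [mul_self_nonneg (b y), mul_self_nonneg (j y)]
  have hjn : ∀ x, |j x| ≤ n x := fun x =>
    abs_le_of_sq_le_sq' (by nlinarith [hfz x, mul_self_nonneg (b x)]) (hn0 x) |> abs_le.2
  -- positivity of n
  have hzero : ∀ (N J : ℝ → ℝ) (c : ℝ), ACD N (fun x => c * J x) → (∀ x, |J x| ≤ N x) →
      ∀ x y, x ≤ y → N x = 0 → N y = 0 := by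
    intro N J c hN hJ x y hxy hx
    have h1 := hN.neg.nonneg_of_ge (K := |c|) hxy (Eventually.of_forall fun z _ => by
      have h2 : c * J z ≤ |c| * |-N z| := by
        rw [abs_neg]
        calc c * J z ≤ |c * J z| := le_abs_self _
          _ = |c| * |J z| := abs_mul _ _
          _ ≤ |c| * |N z| :=
            mul_le_mul_of_nonneg_left ((hJ z).trans (le_abs_self _)) (abs_nonneg _)
      linarith) (by simp [hx])
    have := (abs_nonneg _).trans (hJ y)
    linarith
  have hnpos : ∀ x, 0 < n x := by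
    intro x
    rcases (hn0 x).eq_or_lt with h0 | h0
    · exfalso
      apply hne
      funext y
      have hy : n y = 0 := by
        rcases le_total x y with hxy | hxy
        · exact hzero n j (-2 * m) hnD hjn x y hxy h0.symm
        · have := hzero (fun z => n (-z)) (fun z => j (-z)) (2 * m)
            (hnD.reflect.congr_deriv' (fun z => by ring)) (fun z => hjn _) (-x) (-y)
            (by linarith) (by simpa using h0.symm)
          simpa using this
      simp only [hn, qf_one] at hy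
      have h1 : ‖ψ y 0‖ = 0 := by nlinarith [norm_nonneg (ψ y 0), sq_nonneg ‖ψ y 1‖]
      have h2 : ‖ψ y 1‖ = 0 := by nlinarith [norm_nonneg (ψ y 1), sq_nonneg ‖ψ y 0‖]
      funext i
      fin_cases i
      · simpa using h1
      · simpa using h2
    · exact h0
  have hjc : Continuous fun x => -2 * m * (j x / n x) :=
    continuous_const.mul (hjD.continuous.div hnD.continuous (fun x => (hnpos x).ne'))
  have hbc : Continuous fun x => 2 * m * (b x / n x) :=
    continuous_const.mul (hbD.continuous.div hnD.continuous (fun x => (hnpos x).ne'))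
  set ρ : ℝ → ℝ := fun x => Real.log (n x₀) + ∫ t in x₀..x, -2 * m * (j t / n t) with hρ
  have hρD : ACD ρ (fun x => -2 * m * (j x / n x)) :=
    ((ACD.const _).add (ACD.primitive hjc.locallyIntegrable x₀)).congr_deriv' (fun x => by ring)
  have hexp : ∀ x, n x * Real.exp (-ρ x) = 1 := by
    have h1 : ACD (fun x => n x * Real.exp (-ρ x)) (fun _ => 0) :=
      (hnD.mul hρD.neg.exp).congr_deriv' (fun x => by
        have := (hnpos x).ne'
        field_simp
        ring)
    intro x
    rw [h1.eq_of_zero x x₀]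
    simp only [hρ, intervalIntegral.integral_same, add_zero]
    rw [Real.exp_neg, Real.exp_log (hnpos x₀), mul_inv_cancel₀ (hnpos x₀).ne']
  have hexp' : ∀ x, Real.exp (ρ x) = n x := fun x => by
    have := hexp x
    rw [Real.exp_neg] at this
    have h2 := Real.exp_pos (ρ x)
    field_simp at this
    exact this.symm
  set z : ℂ := ⟨b x₀, j x₀⟩ with hz
  have hzn : ‖z‖ = n x₀ := by
    rw [Complex.norm_eq_sqrt_sq_add_sq]
    simp only [hz]
    rw [show b x₀ ^ 2 + j x₀ ^ 2 = n x₀ ^ 2 by nlinarith [hfz x₀]]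
    exact Real.sqrt_sq (hn0 x₀)
  have hz0 : z ≠ 0 := by
    intro h0; rw [h0, norm_zero] at hzn; exact (hnpos x₀).ne hzn
  have hloc : LocallyIntegrable (fun t => 2 * (l + V t) - 2 * m * (b t / n t)) volume := by
    refine LocallyIntegrable.sub ?_ hbc.locallyIntegrable
    have h1 : LocallyIntegrable (fun t => l + V t) volume :=
      (continuous_const.locallyIntegrable).add hV
    exact h1.smul (2 : ℝ)
  set φ : ℝ → ℝ := fun x => Complex.arg z + ∫ t in x₀..x, (2 * (l + V t) - 2 * m * (b t / n t))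
    with hφ
  have hφD : ACD φ (fun x => 2 * (l + V x) - 2 * m * (b x / n x)) :=
    ((ACD.const _).add (ACD.primitive hloc x₀)).congr_deriv' (fun x => by ring)
  have hφ0 : φ x₀ = Complex.arg z := by simp [hφ]
  have hinv : ∀ x, Real.exp (-ρ x) = (n x)⁻¹ := fun x => by rw [Real.exp_neg, hexp']
  have hr : ∀ x, (b x * Real.cos (φ x) + j x * Real.sin (φ x)) * Real.exp (-ρ x) = 1 := by
    have h1 : ACD (fun x => (b x * Real.cos (φ x) + j x * Real.sin (φ x)) * Real.exp (-ρ x))
        (fun _ => 0) :=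
      (((hbD.mul hφD.cos).add (hjD.mul hφD.sin)).mul hρD.neg.exp).congr_deriv' (fun x => by
        have h2 := (hnpos x).ne'
        have h3 := hfz x
        rw [hinv]
        field_simp
        linear_combination (-2 * m * Real.sin (φ x)) * h3)
    intro x
    rw [h1.eq_of_zero x x₀, hinv, hφ0, Complex.cos_arg hz0, Complex.sin_arg, hzn]
    have h2 := (hnpos x₀).ne'
    have h3 := hfz x₀
    simp only [hz]
    field_simp
    linarith
  have hy : ∀ x, (j x * Real.cos (φ x) - b x * Real.sin (φ x)) * Real.exp (-ρ x) = 0 := by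
    have h1 : ACD (fun x => (j x * Real.cos (φ x) - b x * Real.sin (φ x)) * Real.exp (-ρ x))
        (fun _ => 0) :=
      (((hjD.mul hφD.cos).sub (hbD.mul hφD.sin)).mul hρD.neg.exp).congr_deriv' (fun x => by
        have h2 := (hnpos x).ne'
        have h3 := hfz x
        rw [hinv]
        field_simp
        linear_combination (-2 * m * Real.cos (φ x)) * h3)
    intro x
    rw [h1.eq_of_zero x x₀, hinv, hφ0, Complex.cos_arg hz0, Complex.sin_arg, hzn]
    have h2 := (hnpos x₀).ne'
    simp only [hz]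
    field_simp
    ring
  have hcs : ∀ x, b x / n x = Real.cos (φ x) ∧ j x / n x = Real.sin (φ x) := by
    intro x
    have h1 := hr x
    have h2 := hy x
    have h3 := (hnpos x).ne'
    rw [hinv] at h1 h2
    have h4 : b x * Real.cos (φ x) + j x * Real.sin (φ x) = n x := by
      field_simp at h1; linarith
    have h5 : j x * Real.cos (φ x) - b x * Real.sin (φ x) = 0 := by
      rcases mul_eq_zero.1 h2 with h | h
      · exact h
      · exact absurd h (inv_ne_zero h3)
    have h6 := Real.sin_sq_add_cos_sq (φ x)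
    constructor
    · rw [div_eq_iff h3]
      linear_combination (Real.cos (φ x)) * h4 - (Real.sin (φ x)) * h5 - (b x) * h6
    · rw [div_eq_iff h3]
      linear_combination (Real.sin (φ x)) * h4 + (Real.cos (φ x)) * h5 - (j x) * h6
  refine ⟨φ, ρ, ⟨hφD.congr_deriv' (fun x => by rw [(hcs x).1]),
    hρD.congr_deriv' (fun x => by rw [(hcs x).2]), ?_⟩, ?_⟩
  · simp only [hexp']; exact hnint
  · rw [hφ0]; exact ⟨(Complex.neg_pi_lt_arg z).le, Complex.arg_le_pi z⟩

end Pool.Agent.MP_0b7119_mp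

end

section

open Set MeasureTheory Matrix Filter Topology

namespace Pool.Agent.MP_0b7119_mp

theorem Cliff.exists_vec {α β : Matrix (Fin 2) (Fin 2) ℂ} (C : Cliff α β) :
    ∃ e : Fin 2 → ℂ, e ≠ 0 ∧ β *ᵥ e = e := by
  by_contra h
  push Not at h
  have h1 : ∀ w : Fin 2 → ℂ, (1 + β) *ᵥ w = 0 := by
    intro w
    by_contra hw
    apply h _ hw
    rw [mulVec_mulVec, mul_add, mul_one, C.ββ, add_comm]
  have h2 : (1 + β : Matrix (Fin 2) (Fin 2) ℂ) = 0 := by
    ext i j
    have := congrFun (h1 (Pi.single j 1)) i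
    simpa using this
  have h3 : β = -1 := eq_neg_of_add_eq_zero_right h2
  have h4 := C.βα
  rw [h3] at h4
  simp only [neg_mul, one_mul, mul_neg, mul_one, neg_neg] at h4
  have h5 : α = 0 := by
    have h7 : (2 : ℂ) • α = 0 := by
      rw [two_smul]
      nth_rewrite 1 [← h4]
      exact neg_add_cancel α
    exact (smul_eq_zero.1 h7).resolve_left two_ne_zero
  have h6 := C.αα
  rw [h5, zero_mul] at h6
  exact zero_ne_one h6

theorem pruefer_to_eig {α β : Matrix (Fin 2) (Fin 2) ℂ} (C : Cliff α β) {m l : ℝ}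
    {V φ ρ : ℝ → ℝ} (P : Pruefer m l V φ ρ) : IsEig α β m V l := by
  obtain ⟨e, he0, he⟩ := C.exists_vec
  set f : Fin 2 → ℂ := Complex.I • α *ᵥ e with hf
  have hβf : β *ᵥ f = -f := by
    rw [hf, mulVec_smul, mulVec_mulVec, C.βα, neg_mulVec, ← mulVec_mulVec, he, smul_neg]
  have hαf : α *ᵥ f = Complex.I • e := by
    rw [hf, mulVec_smul, mulVec_mulVec, C.αα, one_mulVec]
  have hαe : α *ᵥ e = (-Complex.I) • f := by
    rw [hf, smul_smul]; simp
  have hf0 : f ≠ 0 := by
    intro h0
    rw [h0, mulVec_zero] at hαf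
    exact he0 ((smul_eq_zero.1 hαf.symm).resolve_left Complex.I_ne_zero)
  set r : ℝ → ℝ := fun x => Real.exp ((1 / 2) * ρ x) with hr
  set u : ℝ → ℝ := fun x => r x * Real.cos ((1 / 2) * φ x) with hu
  set v : ℝ → ℝ := fun x => r x * Real.sin ((1 / 2) * φ x) with hv
  have trig : ∀ y : ℝ, Real.cos y = Real.cos ((1 / 2) * y) ^ 2 - Real.sin ((1 / 2) * y) ^ 2 ∧
      Real.sin y = 2 * Real.sin ((1 / 2) * y) * Real.cos ((1 / 2) * y) := by
    intro y
    have h1 := Real.cos_two_mul' ((1 / 2) * y)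
    have h2 := Real.sin_two_mul ((1 / 2) * y)
    rw [show 2 * ((1 / 2) * y) = y by ring] at h1 h2
    exact ⟨h1, h2⟩
  have huD : ACD u (fun x => -(l + V x + m) * v x) :=
    ((P.hρ.const_mul (1 / 2)).exp.mul (P.hφ.const_mul (1 / 2)).cos).congr_deriv' (fun x => by
      simp only [hv, hr]
      rw [(trig (φ x)).1, (trig (φ x)).2]
      have := Real.sin_sq_add_cos_sq ((1 / 2) * φ x)
      linear_combination (-m * Real.exp ((1 / 2) * ρ x) * Real.sin ((1 / 2) * φ x)) * this)
  have hvD : ACD v (fun x => (l + V x - m) * u x) :=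
    ((P.hρ.const_mul (1 / 2)).exp.mul (P.hφ.const_mul (1 / 2)).sin).congr_deriv' (fun x => by
      simp only [hu, hr]
      rw [(trig (φ x)).1, (trig (φ x)).2]
      have := Real.sin_sq_add_cos_sq ((1 / 2) * φ x)
      linear_combination (-m * Real.exp ((1 / 2) * ρ x) * Real.cos ((1 / 2) * φ x)) * this)
  have hrc : Continuous r := (P.hρ.const_mul (1 / 2)).exp.continuous
  refine ⟨fun x => u x • e + v x • f, ?_, ?_, ?_, ?_⟩
  · intro h0
    have h1 : u 0 • e + v 0 • f = 0 := congrFun h0 0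
    have h2 : β *ᵥ (u 0 • e + v 0 • f) = 0 := by rw [h1, mulVec_zero]
    rw [mulVec_add, mulVec_smul, mulVec_smul, he, hβf] at h2
    have h3 : (2 * u 0) • e = 0 := by
      have : (2 * u 0) • e = (u 0 • e + v 0 • f) + (u 0 • e + v 0 • -f) := by module
      rw [this, h1, h2, add_zero]
    have h4 : u 0 = 0 := by
      rcases smul_eq_zero.1 h3 with h | h
      · linarith
      · exact absurd h he0
    rw [h4, zero_smul, zero_add] at h1
    have h5 : v 0 = 0 := (smul_eq_zero.1 h1).resolve_right hf0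
    have h6 : 0 < r 0 := Real.exp_pos _
    have h7 := Real.sin_sq_add_cos_sq ((1 / 2) * φ 0)
    simp only [hu, hv] at h4 h5
    have h8 := (mul_eq_zero.1 h4).resolve_left h6.ne'
    have h9 := (mul_eq_zero.1 h5).resolve_left h6.ne'
    rw [h8, h9] at h7
    norm_num at h7
  · have h1 : MemLp r 2 volume := by
      rw [memLp_two_iff_integrable_sq hrc.aestronglyMeasurable]
      have : (fun x => r x ^ 2) = fun x => Real.exp (ρ x) := by
        funext x
        simp only [hr]
        rw [← Real.exp_nat_mul]; congr 1; push_cast; ring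
      rw [this]; exact P.int
    have hc : Continuous fun x => u x • e + v x • f :=
      (huD.continuous.smul continuous_const).add (hvD.continuous.smul continuous_const)
    refine (h1.const_mul (‖e‖ + ‖f‖)).mono' hc.aestronglyMeasurable
      (Eventually.of_forall fun x => ?_)
    have h0 : 0 < r x := Real.exp_pos _
    have h2 : |u x| ≤ r x := by
      simp only [hu]; rw [abs_mul, abs_of_pos h0]
      exact mul_le_of_le_one_right h0.le (Real.abs_cos_le_one _)
    have h3 : |v x| ≤ r x := by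
      simp only [hv]; rw [abs_mul, abs_of_pos h0]
      exact mul_le_of_le_one_right h0.le (Real.abs_sin_le_one _)
    calc ‖u x • e + v x • f‖ ≤ ‖u x • e‖ + ‖v x • f‖ := norm_add_le _ _
      _ = |u x| * ‖e‖ + |v x| * ‖f‖ := by rw [norm_smul, norm_smul]; rfl
      _ ≤ r x * ‖e‖ + r x * ‖f‖ := by gcongr
      _ = (‖e‖ + ‖f‖) * r x := by ring
  · intro a b
    exact (ac_comp_contDiff (g := fun s : ℝ => s • e) (huD.ac a b) (by fun_prop)).add
      (ac_comp_contDiff (g := fun s : ℝ => s • f) (hvD.ac a b) (by fun_prop))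
  · filter_upwards [huD.der, hvD.der] with x h1 h2
    have h3 : HasDerivAt (fun x => u x • e + v x • f)
        ((-(l + V x + m) * v x) • e + ((l + V x - m) * u x) • f) x :=
      (h1.smul_const e).add (h2.smul_const f)
    refine ⟨h3.differentiableAt, ?_⟩
    rw [h3.deriv]
    simp only [mulVec_add, mulVec_smul, he, hβf, hαe, hαf]
    funext i
    simp only [Pi.add_apply, Pi.sub_apply, Pi.smul_apply, Pi.neg_apply, smul_eq_mul,
      Complex.real_smul]
    push_cast
    have hI := Complex.I_mul_I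
    linear_combination (-((l : ℂ) + V x + m) * v x * f i - ((l : ℂ) + V x - m) * u x * e i) * hI

/-- `V ≤ η + η^(1-p) V^p` -/
theorem young_aux {V η p : ℝ} (hV : 0 ≤ V) (hη : 0 < η) (hp : 1 ≤ p) :
    V ≤ η + η ^ (1 - p) * V ^ p := by
  rcases le_total V η with h | h
  · have : 0 ≤ η ^ (1 - p) * V ^ p := by positivity
    linarith
  · have hV' : 0 < V := hη.trans_le h
    have h1 : η ^ (p - 1) ≤ V ^ (p - 1) := Real.rpow_le_rpow hη.le h (by linarith)
    have h2 : V ^ p = V ^ (p - 1) * V := by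
      rw [← Real.rpow_add_one hV'.ne']; congr 1; ring
    have h3 : η ^ (1 - p) * η ^ (p - 1) = 1 := by
      rw [← Real.rpow_add hη]; simp
    have h4 : 0 < η ^ (1 - p) := by positivity
    have h5 : η ^ (1 - p) * (η ^ (p - 1) * V) ≤ η ^ (1 - p) * (V ^ (p - 1) * V) := by gcongr
    rw [← mul_assoc, h3, one_mul, ← h2] at h5
    linarith

namespace Pruefer
variable {m l : ℝ} {V φ ρ : ℝ → ℝ}

theorem reflect (P : Pruefer m l V φ ρ) :
    Pruefer m l (fun x => V (-x)) (fun x => -φ (-x)) (fun x => ρ (-x)) :=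
  ⟨P.hφ.reflect.neg.congr_deriv' (fun x => by simp), P.hρ.reflect.congr_deriv' (fun x => by simp),
    P.int.comp_neg⟩

theorem no_down (P : Pruefer m l V φ ρ) (hm : 0 < m) (hl : -m ≤ l) (hV : ∀ x, 0 ≤ V x) {a b : ℝ}
    (hab : a ≤ b) (ha : -Real.pi ≤ φ a) : -Real.pi ≤ φ b := by
  have h1 := (P.hφ.add (ACD.const Real.pi)).nonneg_of_ge (K := 2 * m) hab
    (Eventually.of_forall fun x _ => by
      have h2 := Real.abs_cos_sub_cos_le (φ x) (-Real.pi)
      rw [Real.cos_neg, Real.cos_pi, sub_neg_eq_add (φ x)] at h2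
      have h3 := (abs_le.1 h2).2
      have := hV x
      nlinarith) (by linarith)
  linarith

theorem reach (P : Pruefer m l V φ ρ) (hm : 0 < m) (hl : -m ≤ l) (hV : ∀ x, 0 ≤ V x) {p : ℝ}
    (hp : 1 ≤ p) (hVp : Integrable (fun x => V x ^ p) volume) {c : ℝ} (hc : c ∈ Ioo 0 Real.pi)
    (hcl : l < m * Real.cos c) {x₀ : ℝ} (h0 : -Real.pi ≤ φ x₀) : ∃ x ≥ x₀, c ≤ φ x := by
  by_contra hcon
  push Not at hcon
  set γ := 2 * (m * Real.cos c - l) with hγ
  have hγ0 : 0 < γ := by linarith
  set A := 4 * m / γ with hA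
  set η := γ / 4 with hη
  have hA0 : 0 < A := by positivity
  have hη0 : 0 < η := by positivity
  set k : ℝ → ℝ := fun y => max (Real.sin y) 0 with hk
  have hkc : Continuous k := by fun_prop
  set F : ℝ → ℝ := fun y => ∫ t in (0 : ℝ)..y, k t with hF
  have hFd : ∀ y, HasDerivAt F (k y) y := fun y =>
    (hkc.integral_hasStrictDerivAt 0 y).hasDerivAt
  have hFb : ∀ y ∈ Icc (-Real.pi) Real.pi, |F y| ≤ Real.pi := by
    intro y hy
    have h1 : ‖∫ t in (0 : ℝ)..y, k t‖ ≤ 1 * |y - 0| := by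
      apply intervalIntegral.norm_integral_le_of_norm_le_const
      intro t _
      rw [Real.norm_eq_abs, abs_of_nonneg (le_max_right _ _)]
      exact max_le (Real.sin_le_one _) zero_le_one
    rw [one_mul, sub_zero] at h1
    exact h1.trans (abs_le.2 hy)
  set B := 2 * A * η ^ (1 - p) with hB
  have hB0 : 0 < B := by positivity
  have hG := (P.hρ.sub ((P.hφ.comp hFd hkc).const_mul A)).add
    ((ACD.primitive hVp.locallyIntegrable x₀).const_mul B)
  have hrange : ∀ x ≥ x₀, φ x ∈ Icc (-Real.pi) Real.pi := fun x hx =>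
    ⟨P.no_down hm hl hV hx h0, (hcon x hx).le.trans hc.2.le⟩
  refine not_integrable_of_ge (c := Real.exp (ρ x₀ - 2 * A * Real.pi - B * ∫ t, V t ^ p))
    (a := x₀) (Real.exp_pos _) (fun x hx => ?_) P.int
  apply Real.exp_le_exp.2
  have h1 := hG.le_of_nonneg hx (Eventually.of_forall fun z hz => by
    have hVz := hV z
    have hVp0 : 0 ≤ V z ^ p := by positivity
    rcases le_total (Real.sin (φ z)) 0 with hs | hs
    · have : k (φ z) = 0 := max_eq_right hs
      rw [this]
      have : 0 ≤ B * V z ^ p := by positivity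
      nlinarith
    · have e : k (φ z) = Real.sin (φ z) := max_eq_left hs
      rw [e]
      rcases hs.eq_or_lt with hs | hs
      · rw [← hs]
        have : 0 ≤ B * V z ^ p := by positivity
        nlinarith
      · have h2 : 0 < φ z := by
          by_contra hh
          push Not at hh
          have := Real.sin_nonpos_of_nonpos_of_neg_pi_le hh (hrange z hz.1).1
          linarith
        have h3 : Real.cos c ≤ Real.cos (φ z) :=
          Real.cos_le_cos_of_nonneg_of_le_pi h2.le hc.2.le (hcon z hz.1).le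
        have h4 := young_aux hVz hη0 hp
        have h5 : 2 * (l + V z) - 2 * m * Real.cos (φ z) ≤ 2 * η + 2 * (η ^ (1 - p) * V z ^ p) - γ := by
          nlinarith
        have h6 : A * (Real.sin (φ z) * (2 * (l + V z) - 2 * m * Real.cos (φ z))) ≤
            A * (Real.sin (φ z) * (2 * η + 2 * (η ^ (1 - p) * V z ^ p) - γ)) := by gcongr
        have h7 : A * (2 * η - γ) = -2 * m := by
          rw [hA, hη]; field_simp; ring
        have h8 : Real.sin (φ z) * (B * V z ^ p) ≤ 1 * (B * V z ^ p) := by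
          gcongr; exact Real.sin_le_one _
        have h9 : A * (Real.sin (φ z) * (2 * η + 2 * (η ^ (1 - p) * V z ^ p) - γ)) =
            Real.sin (φ z) * (A * (2 * η - γ)) + Real.sin (φ z) * (B * V z ^ p) := by
          rw [hB]; ring
        rw [h7] at h9
        linarith)
  simp only [intervalIntegral.integral_same, mul_zero, add_zero] at h1
  have h2 := abs_le.1 (hFb _ (hrange x hx))
  have h3 := abs_le.1 (hFb _ (hrange x₀ le_rfl))
  have h4 : ∫ t in x₀..x, V t ^ p ≤ ∫ t, V t ^ p := by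
    rw [intervalIntegral.integral_of_le hx]
    exact setIntegral_le_integral hVp (Eventually.of_forall fun t => by
      have := hV t
      positivity)
  have h5 : B * ∫ t in x₀..x, V t ^ p ≤ B * ∫ t, V t ^ p := by gcongr
  nlinarith [h2.1, h2.2, h3.1, h3.2]

theorem end_right (P : Pruefer m l V φ ρ) (hm : 0 < m) (hl : -m ≤ l) (hV : ∀ x, 0 ≤ V x) {p : ℝ}
    (hp : 1 ≤ p) (hVp : Integrable (fun x => V x ^ p) volume) {c : ℝ} (hc : c ∈ Ioo 0 Real.pi)
    (hcl : l < m * Real.cos c) {b : ℝ} (h0 : -Real.pi ≤ φ b) (hb : ∀ x > b, V x = 0) :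
    c ≤ φ b := by
  by_contra hcon
  push Not at hcon
  obtain ⟨x, hx, hcx⟩ := P.reach hm hl hV hp hVp hc hcl h0
  set c' := max (φ b) 0 with hc'
  have h1 : c' < c := max_lt hcon hc.1
  have h2 : Real.cos c ≤ Real.cos c' :=
    Real.cos_le_cos_of_nonneg_of_le_pi (le_max_right _ _) hc.2.le h1.le
  have h3 := ((ACD.const c').sub P.hφ).nonneg_of_ge (K := 2 * m) hx (by
    filter_upwards [Measure.ae_ne volume b] with z hz hzm
    rw [hb z (lt_of_le_of_ne hzm.1 (Ne.symm hz))]
    have h4 := (abs_le.1 (Real.abs_cos_sub_cos_le c' (φ z))).2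
    nlinarith) (by simp [hc'])
  linarith

end Pruefer

end Pool.Agent.MP_0b7119_mp

end

section

open Set MeasureTheory Matrix Filter Topology

namespace Pool.Agent.MP_0b7119_mp

noncomputable def GG (m y : ℝ) : ℝ := m * (Real.cos y - Real.cos 3)

noncomputable def hh (m p y : ℝ) : ℝ :=
  max (GG m y) 0 ^ (p - 1) * min 1 (max (GG m y) 0 / GG m 2)

noncomputable def HH (m p y : ℝ) : ℝ := ∫ t in (0 : ℝ)..y, hh m p t

noncomputable def cp (p : ℝ) : ℝ := sSup ((fun τ : ℝ => (τ - 1) / τ ^ p) '' Ioi 1)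

theorem three_lt_pi : (3 : ℝ) < Real.pi := Real.pi_gt_three

theorem pi_div_two_lt_two : Real.pi / 2 < 2 := by linarith [Real.pi_lt_four]

theorem cos_lt {x y : ℝ} (hx : 0 ≤ x) (hxy : x < y) (hy : y ≤ Real.pi) : Real.cos y < Real.cos x :=
  Real.cos_lt_cos_of_nonneg_of_le_pi hx hy hxy

theorem cos3_gt : -1 < Real.cos 3 := by
  have := cos_lt (x := 3) (y := Real.pi) (by norm_num) three_lt_pi le_rfl
  rwa [Real.cos_pi] at this

theorem GG_two_pos {m : ℝ} (hm : 0 < m) : 0 < GG m 2 :=
  mul_pos hm (sub_pos.2 (cos_lt (by norm_num) (by norm_num) three_lt_pi.le))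

theorem GG_ge {m : ℝ} (hm : 0 < m) {y : ℝ} (hy : y ∈ Icc (-2 : ℝ) 2) : GG m 2 ≤ GG m y := by
  have h1 : Real.cos 2 ≤ Real.cos |y| :=
    Real.cos_le_cos_of_nonneg_of_le_pi (abs_nonneg _) (by linarith [three_lt_pi]) (abs_le.2 hy)
  rw [Real.cos_abs] at h1
  unfold GG
  nlinarith

theorem GG_cont (m : ℝ) : Continuous (GG m) := by unfold GG; fun_prop

theorem hh_cont (m : ℝ) {p : ℝ} (hp : 1 ≤ p) : Continuous (hh m p) := by
  have h1 : Continuous fun y => max (GG m y) 0 := (GG_cont m).max continuous_const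
  unfold hh
  exact (h1.rpow_const (fun _ => Or.inr (by linarith))).mul
    (continuous_const.min (h1.div_const _))

theorem hh_nonneg {m : ℝ} (hm : 0 < m) (p y : ℝ) : 0 ≤ hh m p y := by
  have := GG_two_pos hm
  have h1 : 0 ≤ max (GG m y) 0 := le_max_right _ _
  unfold hh
  exact mul_nonneg (Real.rpow_nonneg h1 _) (le_min zero_le_one (by positivity))

theorem HH_hasDerivAt (m : ℝ) {p : ℝ} (hp : 1 ≤ p) (y : ℝ) : HasDerivAt (HH m p) (hh m p y) y :=
  ((hh_cont m hp).integral_hasStrictDerivAt 0 y).hasDerivAt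

theorem HH_sub (m : ℝ) {p : ℝ} (hp : 1 ≤ p) (x y : ℝ) :
    HH m p y - HH m p x = ∫ t in x..y, hh m p t :=
  intervalIntegral.integral_interval_sub_left ((hh_cont m hp).intervalIntegrable _ _)
    ((hh_cont m hp).intervalIntegrable _ _)

theorem HH_mono {m : ℝ} (hm : 0 < m) {p : ℝ} (hp : 1 ≤ p) {x y : ℝ} (hxy : x ≤ y) :
    HH m p x ≤ HH m p y := by
  have h1 := HH_sub m hp x y
  have h2 : 0 ≤ ∫ t in x..y, hh m p t :=
    intervalIntegral.integral_nonneg hxy (fun t _ => hh_nonneg hm p t)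
  linarith

theorem HH_lt {m : ℝ} (hm : 0 < m) {p : ℝ} (hp : 1 ≤ p) : HH m p 2 < HH m p 3 := by
  have h1 := HH_sub m hp 2 3
  have h2 : 0 < ∫ t in (2 : ℝ)..3, hh m p t := by
    apply intervalIntegral.intervalIntegral_pos_of_pos_on ((hh_cont m hp).intervalIntegrable _ _)
      _ (by norm_num)
    intro t ht
    have h3 : 0 < GG m t :=
      mul_pos hm (sub_pos.2 (cos_lt (by linarith [ht.1]) ht.2 three_lt_pi.le))
    have h4 := GG_two_pos hm
    unfold hh
    rw [max_eq_left h3.le]
    exact mul_pos (Real.rpow_pos_of_pos h3 _) (lt_min one_pos (by positivity))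
  linarith

theorem cp_bdd {p : ℝ} (hp : 1 ≤ p) : BddAbove ((fun τ : ℝ => (τ - 1) / τ ^ p) '' Ioi 1) := by
  refine ⟨1, ?_⟩
  rintro _ ⟨τ, hτ, rfl⟩
  have h1 : (1 : ℝ) < τ := hτ
  have h2 : τ ^ (1 : ℝ) ≤ τ ^ p := Real.rpow_le_rpow_of_exponent_le h1.le hp
  rw [Real.rpow_one] at h2
  show (τ - 1) / τ ^ p ≤ 1
  rw [div_le_one (by linarith)]
  linarith

theorem le_cp {p : ℝ} (hp : 1 ≤ p) {τ : ℝ} (hτ : 1 < τ) : (τ - 1) / τ ^ p ≤ cp p :=
  le_csSup (cp_bdd hp) ⟨τ, hτ, rfl⟩

theorem cp_pos {p : ℝ} (hp : 1 ≤ p) : 0 < cp p := by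
  have := le_cp hp (τ := 2) (by norm_num)
  have h2 : (0 : ℝ) < (2 - 1) / 2 ^ p := by positivity
  linarith

theorem young_hh {m : ℝ} (hm : 0 < m) {p : ℝ} (hp : 1 ≤ p) {V l y : ℝ} (hV : 0 ≤ V)
    (hl : l ≤ m * Real.cos 3) :
    hh m p y * (2 * (l + V) - 2 * m * Real.cos y) ≤ 2 * cp p * V ^ p := by
  have hc := cp_pos hp
  have h0 : 0 ≤ 2 * cp p * V ^ p := by positivity
  have hg2 := GG_two_pos hm
  rcases le_or_gt (GG m y) 0 with hg | hg
  · have : hh m p y = 0 := by unfold hh; rw [max_eq_right hg]; simp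
    rw [this, zero_mul]; exact h0
  · have h1 : 2 * (l + V) - 2 * m * Real.cos y ≤ 2 * (V - GG m y) := by unfold GG; linarith
    have h2 := hh_nonneg hm p y
    refine (mul_le_mul_of_nonneg_left h1 h2).trans ?_
    rcases le_or_gt V (GG m y) with h3 | h3
    · nlinarith
    · have h4 : hh m p y ≤ GG m y ^ (p - 1) := by
        unfold hh
        rw [max_eq_left hg.le]
        exact mul_le_of_le_one_right (Real.rpow_nonneg hg.le _) (min_le_left _ _)
      have h5 : 1 < V / GG m y := (one_lt_div hg).2 h3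
      have h6 := le_cp hp h5
      rw [Real.div_rpow hV hg.le, div_le_iff₀ (by
        have : 0 < V := hg.trans h3
        positivity)] at h6
      have h7 : GG m y ^ p = GG m y ^ (p - 1) * GG m y := by
        rw [← Real.rpow_add_one hg.ne']; congr 1; ring
      have h8 : 0 < GG m y ^ (p - 1) := Real.rpow_pos_of_pos hg _
      have h9 : GG m y ^ (p - 1) * (V - GG m y) ≤ cp p * V ^ p := by
        have e1 : GG m y ^ (p - 1) * (V - GG m y) = GG m y ^ p * (V / GG m y - 1) := by
          rw [h7]; field_simp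
        have e2 : cp p * V ^ p = GG m y ^ p * (cp p * (V ^ p / GG m y ^ p)) := by
          have : 0 < GG m y ^ p := Real.rpow_pos_of_pos hg _
          field_simp
        rw [e1, e2]
        exact mul_le_mul_of_nonneg_left h6 (Real.rpow_nonneg hg.le _)
      have h10 : hh m p y * (2 * (V - GG m y)) ≤ GG m y ^ (p - 1) * (2 * (V - GG m y)) :=
        mul_le_mul_of_nonneg_right h4 (by linarith)
      linarith

theorem keller {m l p : ℝ} {V φ ρ : ℝ → ℝ} (P : Pruefer m l V φ ρ) (hm : 0 < m) (hl : -m ≤ l)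
    (hl' : l < m * Real.cos 3) (hV : ∀ x, 0 ≤ V x) (hp : 1 ≤ p)
    (hVp : Integrable (fun x => V x ^ p) volume) (h0 : φ 0 ∈ Icc (-Real.pi) Real.pi) :
    HH m p 3 - HH m p (-3) ≤ 2 * cp p * ∫ x, V x ^ p := by
  have h3 : (3 : ℝ) ∈ Ioo 0 Real.pi := ⟨by norm_num, three_lt_pi⟩
  obtain ⟨y, hy, hy3⟩ := P.reach hm hl hV hp hVp h3 hl' h0.1
  obtain ⟨x, hx, hx3⟩ := P.reflect.reach hm hl (fun x => hV _) hp hVp.comp_neg h3 hl'
    (x₀ := 0) (by simpa using h0.2)
  have hW := ((ACD.primitive hVp.locallyIntegrable (-x)).const_mul (2 * cp p)).sub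
    (P.hφ.comp (HH_hasDerivAt m hp) (hh_cont m hp))
  have hxy : -x ≤ y := by linarith
  have h1 := hW.le_of_nonneg hxy (Eventually.of_forall fun z _ => by
    have := young_hh hm hp (hV z) hl'.le (y := φ z)
    linarith)
  simp only [intervalIntegral.integral_same, mul_zero] at h1
  have h2 : ∫ t in (-x)..y, V t ^ p ≤ ∫ t, V t ^ p := by
    rw [intervalIntegral.integral_of_le hxy]
    exact setIntegral_le_integral hVp (Eventually.of_forall fun t => by
      have := hV t
      positivity)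
  have h4 := HH_mono hm hp hy3
  have h5 : HH m p (φ (-x)) ≤ HH m p (-3) := HH_mono hm hp (by linarith)
  have h6 := cp_pos hp
  nlinarith

theorem gap {α β : Matrix (Fin 2) (Fin 2) ℂ} (C : Cliff α β) {m p a b : ℝ} {V Θ S : ℝ → ℝ}
    (hm : 0 < m) (hp : 1 ≤ p) (hab : a ≤ b) (hV : ∀ x, 0 ≤ V x)
    (hVl : LocallyIntegrable V volume) (hVp : Integrable (fun x => V x ^ p) volume)
    (hVs : ∀ x, x ∉ Icc a b → V x = 0)
    (hΘ : ACD Θ (fun x => 2 * (m * Real.cos 2 + V x) - 2 * m * Real.cos (Θ x) + S x))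
    (hS : Continuous S) (hS0 : ∀ x, 0 ≤ S x) (hSp : 0 < ∫ x in a..b, S x)
    (ha : Θ a = -2) (hb : Θ b = 2) :
    ∃ l' > m * Real.cos 2, l' ≤ m ∧ ∀ l ∈ Ioo (-m) m, IsEig α β m V l → l' ≤ l := by
  set K := 2 * m with hK
  have hK0 : 0 < K := by positivity
  set L := b - a with hL
  set s := ∫ x in a..b, S x with hs
  set δ := min 1 (Real.exp (-K * L) * s / (2 * (2 * Real.exp (2 * K * L) + 1))) with hδ
  have hδ0 : 0 < δ := lt_min one_pos (by positivity)
  have hδ1 : δ ≤ 1 := min_le_left _ _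
  have hδ2 : δ * (2 * (2 * Real.exp (2 * K * L) + 1)) ≤ Real.exp (-K * L) * s := by
    rw [← le_div_iff₀ (by positivity)]; exact min_le_right _ _
  have hc : 2 - δ ∈ Ioo 0 Real.pi := ⟨by linarith, by linarith [three_lt_pi]⟩
  refine ⟨m * Real.cos (2 - δ), ?_, ?_, ?_⟩
  · exact mul_lt_mul_of_pos_left (cos_lt hc.1.le (by linarith) (by linarith [three_lt_pi])) hm
  · exact mul_le_of_le_one_right hm.le (Real.cos_le_one _)
  intro l hl hE
  by_contra hcon
  push Not at hcon
  obtain ⟨φ, ρ, P, h0⟩ := eig_to_pruefer C hVl hE a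
  have h1 : -Real.pi ≤ φ b := P.no_down hm hl.1.le hV hab h0.1
  have h2 : 2 - δ ≤ φ b := P.end_right hm hl.1.le hV hp hVp hc hcon h1
    (fun x hx => hVs x (fun h => absurd h.2 (not_le.2 hx)))
  have h3 := P.reflect.end_right hm hl.1.le (fun x => hV _) hp hVp.comp_neg hc hcon (b := -a)
    (by simpa using h0.2) (fun x hx => hVs _ (fun h => by linarith [h.1]))
  simp only [neg_neg] at h3
  have hcos : Real.cos (2 - δ) - Real.cos 2 ≤ δ := by
    have := (abs_le.1 (Real.abs_cos_sub_cos_le (2 - δ) 2)).2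
    rw [show 2 - δ - 2 = -δ by ring, abs_neg, abs_of_pos hδ0] at this
    exact this
  have e1 : ACD (fun x => Real.exp (2 * K * (x - a))) _ :=
    ((ACD.id'.sub (ACD.const a)).const_mul (2 * K)).exp
  have e2 : ACD (fun x => Real.exp (-K * (x - a))) _ :=
    ((ACD.id'.sub (ACD.const a)).const_mul (-K)).exp
  have hE' := (e1.const_mul (2 * δ)).sub (e2.mul (ACD.primitive hS.locallyIntegrable a))
  have hu := (hE'.sub (P.hφ.sub hΘ)).nonneg_of_ge (K := K) hab (Eventually.of_forall fun x hx => by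
    set E1 := Real.exp (2 * K * (x - a)) with hE1
    set E2 := Real.exp (-K * (x - a)) with hE2
    set I := ∫ t in a..x, S t with hI
    have hxa : 0 ≤ x - a := by linarith [hx.1]
    have g1 : 1 ≤ E1 := Real.one_le_exp (by positivity)
    have g2 : E2 ≤ 1 := Real.exp_le_one_iff.2 (by nlinarith)
    have g3 : 0 < E2 := Real.exp_pos _
    have g4 : 0 ≤ I := intervalIntegral.integral_nonneg hx.1 (fun t _ => hS0 t)
    have g5 := (abs_le.1 (Real.abs_cos_sub_cos_le (Θ x) (φ x))).2
    have g6 : |Θ x - φ x| ≤ |2 * δ * E1 - E2 * I - (φ x - Θ x)| + (2 * δ * E1 + E2 * I) := by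
      have g7 : 0 ≤ 2 * δ * E1 := by positivity
      have g8 : 0 ≤ E2 * I := by positivity
      have g9 := le_abs_self (2 * δ * E1 - E2 * I - (φ x - Θ x))
      have g10 := neg_abs_le (2 * δ * E1 - E2 * I - (φ x - Θ x))
      rw [abs_le]; constructor <;> linarith
    have g11 : K * (Real.cos (Θ x) - Real.cos (φ x)) ≤
        K * (|2 * δ * E1 - E2 * I - (φ x - Θ x)| + (2 * δ * E1 + E2 * I)) :=
      mul_le_mul_of_nonneg_left (g5.trans g6) hK0.le
    have g12 : E2 * S x ≤ S x := mul_le_of_le_one_left (hS0 x) g2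
    have g13 : K * δ ≤ K * δ * E1 := le_mul_of_one_le_right (by positivity) g1
    have g14 : 2 * l - 2 * (m * Real.cos 2) ≤ K * δ := by nlinarith
    have g15 : 0 ≤ K * δ * E1 := by positivity
    nlinarith) (by
      simp only [sub_self, mul_zero, Real.exp_zero, intervalIntegral.integral_same, ha]
      linarith)
  rw [hb] at hu
  have g : 0 < δ * Real.exp (2 * K * L) := by positivity
  simp only [← hL, ← hs] at hu
  nlinarith

end Pool.Agent.MP_0b7119_mp

end

section

open Set MeasureTheory Matrix Filter Topology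

namespace Pool.Agent.MP_0b7119_mp

theorem exists_theta {Ψ : ℝ → ℝ} {C : ℝ} (hc : Continuous Ψ) (hpos : ∀ y, 0 < Ψ y)
    (hC : ∀ y, Ψ y ≤ C) : ∃ θ : ℝ → ℝ, StrictMono θ ∧ Function.Surjective θ ∧
      ∀ x, HasDerivAt θ (Ψ (θ x)) x := by
  have hC0 : 0 < C := (hpos 0).trans_le (hC 0)
  have hic : Continuous fun y => (Ψ y)⁻¹ := hc.inv₀ (fun y => (hpos y).ne')
  set X : ℝ → ℝ := fun y => ∫ t in (0 : ℝ)..y, (Ψ t)⁻¹ with hX
  have hXd : ∀ y, HasDerivAt X (Ψ y)⁻¹ y := fun y =>
    (hic.integral_hasStrictDerivAt 0 y).hasDerivAt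
  have hXm : StrictMono X := strictMono_of_deriv_pos fun y => by
    rw [(hXd y).deriv]; exact inv_pos.2 (hpos y)
  have hXc : Continuous X := continuous_iff_continuousAt.2 fun y => (hXd y).continuousAt
  have hmono : Monotone fun y => X y - C⁻¹ * y := by
    have hd : ∀ y, HasDerivAt (fun y => X y - C⁻¹ * y) ((Ψ y)⁻¹ - C⁻¹ * 1) y := fun y =>
      (hXd y).sub ((hasDerivAt_id y).const_mul _)
    apply monotone_of_deriv_nonneg (fun y => (hd y).differentiableAt)
    intro y
    rw [(hd y).deriv]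
    have := inv_anti₀ (hpos y) (hC y)
    linarith
  have hX0 : X 0 = 0 := by simp [hX]
  have hsurj : Function.Surjective X := by
    apply hXc.surjective
    · refine tendsto_atTop_mono' atTop (f₁ := fun y => C⁻¹ * y) ?_
        (tendsto_id.const_mul_atTop (inv_pos.2 hC0))
      filter_upwards [eventually_ge_atTop 0] with y hy
      have := hmono hy
      simp only [hX0] at this
      linarith
    · refine tendsto_atBot_mono' atBot (f₂ := X) (f₁ := fun y => C⁻¹ * y) ?_
        (tendsto_id.const_mul_atBot (inv_pos.2 hC0))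
      filter_upwards [eventually_le_atBot 0] with y hy
      have := hmono hy
      simp only [hX0] at this
      linarith
  let e := hXm.orderIsoOfSurjective X hsurj
  refine ⟨e.symm, e.symm.strictMono, e.symm.surjective, fun x => ?_⟩
  have := HasDerivAt.of_local_left_inverse (f := X) (g := e.symm) (a := x)
    e.symm.continuous.continuousAt (hXd _) (inv_ne_zero (hpos _).ne')
    (Eventually.of_forall fun y => e.apply_symm_apply y)
  rwa [inv_inv] at this

theorem integrable_of_bdd {f : ℝ → ℝ} {a b B : ℝ} (hf : Measurable f) (hB : ∀ x, |f x| ≤ B)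
    (hs : ∀ x, x ∉ Icc a b → f x = 0) : Integrable f volume := by
  have h1 : IntegrableOn f (Icc a b) volume :=
    Measure.integrableOn_of_bounded (M := B) (by simp) hf.aestronglyMeasurable
      (Eventually.of_forall fun x => hB x)
  exact h1.integrable_of_forall_notMem_eq_zero hs

/-- the base potential together with its Pruefer data -/
theorem exists_base {m p : ℝ} (hm : 0 < m) (hp : 1 ≤ p) :
    ∃ (M φ ρ : ℝ → ℝ) (a a' b g B : ℝ), a < a' ∧ a' ≤ b ∧ 0 < g ∧ Measurable M ∧
      (∀ x, 0 ≤ M x) ∧ (∀ x, M x ≤ B) ∧ (∀ x, x ∉ Icc a b → M x = 0) ∧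
      (∀ x ∈ Icc a b, g ≤ M x) ∧ Pruefer m (m * Real.cos 2) M φ ρ ∧ φ a = -2 ∧ φ b = 2 ∧
      (∀ x ∈ Icc a a', Real.cos (φ x) ≤ 0) ∧ (∀ x ∈ Ioo a a', Real.cos (φ x) < 0) ∧
      2 * cp p * ∫ x, M x ^ p < HH m p 3 - HH m p (-3) := by
  have hg := GG_two_pos hm
  have hcp := cp_pos hp
  set I := HH m p 2 - HH m p (-2) with hI
  set J := HH m p 3 - HH m p (-3) with hJ
  have hI0 : 0 ≤ I := sub_nonneg.2 (HH_mono hm hp (by norm_num))
  have hIJ : I < J := by
    have h1 := HH_lt hm hp
    have h2 : HH m p (-3) ≤ HH m p (-2) := HH_mono hm hp (by norm_num)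
    linarith
  have hJ0 : 0 < J := hI0.trans_lt hIJ
  have hlt : cp p * (I / J) < cp p := mul_lt_of_lt_one_right hcp ((div_lt_one hJ0).2 hIJ)
  obtain ⟨_, ⟨τ, hτ, rfl⟩, hτ2⟩ := exists_lt_of_lt_csSup
    (s := (fun τ : ℝ => (τ - 1) / τ ^ p) '' Ioi 1) ⟨_, 2, by norm_num, rfl⟩ hlt
  have hτ1 : (1 : ℝ) < τ := hτ
  have hτp : 0 < τ ^ p := by positivity
  set Ψ : ℝ → ℝ := fun y => 2 * (τ - 1) * max (GG m y) 0 + 2 * GG m 2 with hΨ
  have hGle : ∀ y, GG m y ≤ 2 * m := fun y => by
    unfold GG
    nlinarith [Real.cos_le_one y, cos3_gt]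
  obtain ⟨θ, hθm, hθs, hθd⟩ := exists_theta (Ψ := Ψ) (C := 2 * (τ - 1) * (2 * m) + 2 * GG m 2)
    (by have := GG_cont m; fun_prop)
    (fun y => by
      have : 0 ≤ 2 * (τ - 1) * max (GG m y) 0 :=
        mul_nonneg (by linarith) (le_max_right _ _)
      simp only [hΨ]; linarith)
    (fun y => by
      have : 2 * (τ - 1) * max (GG m y) 0 ≤ 2 * (τ - 1) * (2 * m) :=
        mul_le_mul_of_nonneg_left (max_le (hGle y) (by linarith)) (by linarith)
      simp only [hΨ]; linarith)
  have hθc : Continuous θ := continuous_iff_continuousAt.2 fun x => (hθd x).continuousAt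
  obtain ⟨a, ha⟩ := hθs (-2)
  obtain ⟨a', ha'⟩ := hθs (-(Real.pi / 2))
  obtain ⟨b, hb⟩ := hθs 2
  have haa' : a < a' := hθm.lt_iff_lt.1 (by rw [ha, ha']; linarith [pi_div_two_lt_two])
  have ha'b : a' ≤ b := hθm.le_iff_le.1 (by rw [ha', hb]; linarith [Real.pi_pos])
  have hab : a ≤ b := haa'.le.trans ha'b
  have hθin : ∀ x ∈ Icc a b, θ x ∈ Icc (-2 : ℝ) 2 := fun x hx =>
    ⟨ha ▸ hθm.monotone hx.1, hb ▸ hθm.monotone hx.2⟩
  set M : ℝ → ℝ := (Icc a b).indicator fun x => τ * GG m (θ x) with hM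
  have hMin : ∀ x ∈ Icc a b, M x = τ * GG m (θ x) := fun x hx => indicator_of_mem hx _
  have hMout : ∀ x, x ∉ Icc a b → M x = 0 := fun x hx => indicator_of_notMem hx _
  have hMg : ∀ x ∈ Icc a b, GG m 2 ≤ M x := fun x hx => by
    rw [hMin x hx]
    have := GG_ge hm (hθin x hx)
    nlinarith
  have hM0 : ∀ x, 0 ≤ M x := fun x => by
    by_cases hx : x ∈ Icc a b
    · exact hg.le.trans (hMg x hx)
    · rw [hMout x hx]
  have hMB : ∀ x, M x ≤ τ * (2 * m) := fun x => by
    by_cases hx : x ∈ Icc a b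
    · rw [hMin x hx]; exact mul_le_mul_of_nonneg_left (hGle _) (by linarith)
    · rw [hMout x hx]; positivity
  have hMm : Measurable M :=
    (continuous_const.mul ((GG_cont m).comp hθc)).measurable.indicator measurableSet_Icc
  set φ : ℝ → ℝ := fun x => max (-2) (min (θ x) 2) with hφ
  have hφin : ∀ x ∈ Icc a b, φ x = θ x := fun x hx => by
    simp only [hφ]; rw [min_eq_left (hθin x hx).2, max_eq_right (hθin x hx).1]
  have hφl : ∀ x ≤ a, φ x = -2 := fun x hx => by
    have : θ x ≤ -2 := ha ▸ hθm.monotone hx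
    simp only [hφ]; rw [min_eq_left (by linarith), max_eq_left this]
  have hφr : ∀ x ≥ b, φ x = 2 := fun x hx => by
    have : 2 ≤ θ x := hb ▸ hθm.monotone hx
    simp only [hφ]; rw [min_eq_right this, max_eq_right (by norm_num)]
  have hθA : ACD θ (fun x => Ψ (θ x)) := ACD.of_hasDerivAt hθd (by
    have := GG_cont m
    fun_prop)
  have hφD : ACD φ (fun x => 2 * (m * Real.cos 2 + M x) - 2 * m * Real.cos (φ x)) := by
    refine ⟨fun c d => ?_, ?_⟩
    · have hl : LipschitzWith 1 (fun y : ℝ => max (-2) (min y 2)) :=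
        (LipschitzWith.id.min_const 2).const_max (-2)
      exact ac_comp_lipschitzOn (g := fun y : ℝ => max (-2) (min y 2)) (hθA.ac c d)
        (hl.lipschitzOnWith (s := univ)) (mapsTo_univ _ _)
    · filter_upwards [Measure.ae_ne volume a, Measure.ae_ne volume b] with x hxa hxb
      rcases lt_or_gt_of_ne hxa with h1 | h1
      · rw [hMout x (fun h => absurd h.1 (not_le.2 h1)), hφl x h1.le, Real.cos_neg]
        refine ((hasDerivAt_const x (-2 : ℝ)).congr_of_eventuallyEq ?_).congr_deriv (by ring)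
        filter_upwards [Iio_mem_nhds h1] with y hy
        exact hφl y (le_of_lt hy)
      rcases lt_or_gt_of_ne hxb with h2 | h2
      · have hx : x ∈ Icc a b := ⟨h1.le, h2.le⟩
        rw [hMin x hx, hφin x hx]
        refine ((hθd x).congr_of_eventuallyEq ?_).congr_deriv ?_
        · filter_upwards [Icc_mem_nhds h1 h2] with y hy
          exact hφin y hy
        · have := GG_ge hm (hθin x hx)
          simp only [hΨ]
          rw [max_eq_left (by linarith)]
          unfold GG; ring
      · rw [hMout x (fun h => absurd h.2 (not_le.2 h2)), hφr x h2.le]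
        refine ((hasDerivAt_const x (2 : ℝ)).congr_of_eventuallyEq ?_).congr_deriv (by ring)
        filter_upwards [Ioi_mem_nhds h2] with y hy
        exact hφr y (le_of_lt hy)
  have hsc : Continuous fun x => -2 * m * Real.sin (φ x) := by
    have := hφD.continuous
    fun_prop
  set ρ : ℝ → ℝ := fun x => ∫ t in (0 : ℝ)..x, -2 * m * Real.sin (φ t) with hρ
  have hρD : ACD ρ (fun x => -2 * m * Real.sin (φ x)) := ACD.primitive hsc.locallyIntegrable 0
  set κ := 2 * m * Real.sin 2 with hκ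
  have hκ0 : 0 < κ := by
    have := Real.sin_pos_of_pos_of_lt_pi (x := 2) (by norm_num) (by linarith [three_lt_pi])
    positivity
  have hec : Continuous fun x => Real.exp (ρ x) := hρD.exp.continuous
  have hint : Integrable (fun x => Real.exp (ρ x)) volume := by
    have i1 : IntegrableOn (fun x => Real.exp (ρ x)) (Iic a) volume := by
      refine Integrable.mono' ((integrableOn_exp_mul_Iic hκ0 a).const_mul
        (Real.exp (ρ a - κ * a))) hec.aestronglyMeasurable ?_
      rw [ae_restrict_iff' measurableSet_Iic]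
      refine Eventually.of_forall fun x hx => ?_
      rw [Real.norm_eq_abs, abs_of_pos (Real.exp_pos _), ← Real.exp_add]
      apply Real.exp_le_exp.2
      have := (hρD.sub (ACD.id'.const_mul κ)).le_of_nonneg hx (Eventually.of_forall fun z hz => by
        rw [hφl z hz.2, Real.sin_neg]; linarith)
      linarith
    have i2 : IntegrableOn (fun x => Real.exp (ρ x)) (Icc a b) volume :=
      hec.continuousOn.integrableOn_Icc
    have i3 : IntegrableOn (fun x => Real.exp (ρ x)) (Ioi b) volume := by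
      refine Integrable.mono' ((integrableOn_exp_mul_Ioi (neg_lt_zero.2 hκ0) b).const_mul
        (Real.exp (ρ b + κ * b))) hec.aestronglyMeasurable ?_
      rw [ae_restrict_iff' measurableSet_Ioi]
      refine Eventually.of_forall fun x hx => ?_
      rw [Real.norm_eq_abs, abs_of_pos (Real.exp_pos _), ← Real.exp_add]
      apply Real.exp_le_exp.2
      have := (hρD.neg.sub (ACD.id'.const_mul κ)).le_of_nonneg (le_of_lt hx)
        (Eventually.of_forall fun z hz => by rw [hφr z hz.1]; linarith)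
      linarith
    rw [← integrableOn_univ]
    refine ((i1.union i2).union i3).mono_set fun x _ => ?_
    rcases le_or_gt x a with h | h
    · exact Or.inl (Or.inl h)
    rcases le_or_gt x b with h' | h'
    · exact Or.inl (Or.inr ⟨h.le, h'⟩)
    · exact Or.inr h'
  have hcos : ∀ x ∈ Icc a a', θ x ∈ Icc (-2) (-(Real.pi / 2)) := fun x hx =>
    ⟨ha ▸ hθm.monotone hx.1, ha' ▸ hθm.monotone hx.2⟩
  refine ⟨M, φ, ρ, a, a', b, GG m 2, τ * (2 * m), haa', ha'b, hg, hMm, hM0, hMB, hMout, hMg,
    ⟨hφD, hρD, hint⟩, hφl a le_rfl, hφr b le_rfl, fun x hx => ?_, fun x hx => ?_, ?_⟩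
  · rw [hφin x ⟨hx.1, hx.2.trans ha'b⟩, ← Real.cos_neg]
    have := hcos x hx
    exact Real.cos_nonpos_of_pi_div_two_le_of_le (by linarith [this.2])
      (by linarith [this.1, three_lt_pi, Real.pi_pos])
  · rw [hφin x ⟨hx.1.le, hx.2.le.trans ha'b⟩, ← Real.cos_neg]
    have h1 := hcos x ⟨hx.1.le, hx.2.le⟩
    have h2 : θ x < -(Real.pi / 2) := ha' ▸ hθm hx.2
    exact Real.cos_neg_of_pi_div_two_lt_of_lt (by linarith)
      (by linarith [h1.1, three_lt_pi, Real.pi_pos])
  · have hMp : Integrable (fun x => M x ^ p) volume := by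
      refine integrable_of_bdd (a := a) (b := b) (B := (τ * (2 * m)) ^ p)
        (hMm.pow_const p) (fun x => ?_) (fun x hx => ?_)
      · rw [abs_of_nonneg (Real.rpow_nonneg (hM0 x) _)]
        exact Real.rpow_le_rpow (hM0 x) (hMB x) (by linarith)
      · rw [hMout x hx, Real.zero_rpow (by linarith)]
    have e1 : ∫ x, M x ^ p = ∫ x in a..b, M x ^ p := by
      rw [intervalIntegral.integral_of_le hab, ← integral_Icc_eq_integral_Ioc]
      exact (setIntegral_eq_integral_of_forall_compl_eq_zero (fun x hx => by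
        rw [hMout x hx, Real.zero_rpow (by linarith)])).symm
    have hW := ((hφD.comp (HH_hasDerivAt m hp) (hh_cont m hp)).const_mul
      (τ ^ p / (2 * (τ - 1)))).sub (ACD.primitive hMp.locallyIntegrable a)
    have h1 := hW.le_of_nonneg hab (Eventually.of_forall fun x hx => by
      rw [hMin x hx, hφin x hx]
      have h2 := GG_ge hm (hθin x hx)
      have h3 : 0 < GG m (θ x) := hg.trans_le h2
      have h4 : hh m p (θ x) = GG m (θ x) ^ (p - 1) := by
        unfold hh
        rw [max_eq_left h3.le, min_eq_left ((one_le_div hg).2 h2), mul_one]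
      have h5 : (τ * GG m (θ x)) ^ p = τ ^ p * (GG m (θ x) ^ (p - 1) * GG m (θ x)) := by
        rw [Real.mul_rpow (by linarith) h3.le, ← Real.rpow_add_one h3.ne']
        congr 2; ring
      have h6 : 2 * (τ - 1) * GG m (θ x) ≤
          2 * (m * Real.cos 2 + τ * GG m (θ x)) - 2 * m * Real.cos (θ x) := by
        have : 2 * (m * Real.cos 2 + τ * GG m (θ x)) - 2 * m * Real.cos (θ x) =
          2 * (τ - 1) * GG m (θ x) + 2 * GG m 2 := by unfold GG; ring
        linarith
      have h7 : 0 < GG m (θ x) ^ (p - 1) := Real.rpow_pos_of_pos h3 _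
      have h8 : 0 < τ - 1 := by linarith
      have h9 : τ ^ p / (2 * (τ - 1)) * (GG m (θ x) ^ (p - 1) * (2 * (τ - 1) * GG m (θ x))) ≤
          τ ^ p / (2 * (τ - 1)) * (GG m (θ x) ^ (p - 1) *
            (2 * (m * Real.cos 2 + τ * GG m (θ x)) - 2 * m * Real.cos (θ x))) := by gcongr
      have h10 : τ ^ p / (2 * (τ - 1)) * (GG m (θ x) ^ (p - 1) * (2 * (τ - 1) * GG m (θ x))) =
          τ ^ p * (GG m (θ x) ^ (p - 1) * GG m (θ x)) := by field_simp
      rw [h4, h5]
      linarith)
    simp only [intervalIntegral.integral_same, hφl a le_rfl, hφr b le_rfl] at h1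
    rw [e1]
    have h8 : 0 < τ - 1 := by linarith
    have h2 : ∫ x in a..b, M x ^ p ≤ τ ^ p / (2 * (τ - 1)) * I := by rw [hI]; linarith
    have h3 : cp p * I * τ ^ p < J * (τ - 1) := by
      have h4 : cp p * (I / J) < (τ - 1) / τ ^ p := hτ2
      rw [← mul_div_assoc, div_lt_div_iff₀ hJ0 hτp] at h4
      linarith
    have h5 : 2 * cp p * (τ ^ p / (2 * (τ - 1)) * I) < J := by
      have : 2 * cp p * (τ ^ p / (2 * (τ - 1)) * I) = cp p * I * τ ^ p / (τ - 1) := by
        field_simp
      rw [this, div_lt_iff₀ h8]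
      exact h3
    have h6 : 2 * cp p * ∫ x in a..b, M x ^ p ≤ 2 * cp p * (τ ^ p / (2 * (τ - 1)) * I) := by
      gcongr
    linarith

end Pool.Agent.MP_0b7119_mp

end

section

/-! One-dimensional calculus tools for job B: integrals of derivatives over the line and the
du Bois-Reymond lemma. -/

open Set MeasureTheory Filter Topology
open scoped ContDiff

namespace Pool.Agent.MP_0b7119_mp

namespace ACD

variable {f f' : ℝ → ℝ}

theorem sub_eq_integral (h : ACD f f') (a b : ℝ) : ∫ x in a..b, f' x = f b - f a := by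
  rw [← (h.ac a b).integral_deriv_eq_sub]
  apply intervalIntegral.integral_congr_ae
  filter_upwards [h.der] with x hx _
  exact hx.deriv.symm

theorem tendsto_atTop_zero (h : ACD f f') (hf : Integrable f) (hf' : Integrable f') :
    Tendsto f atTop (𝓝 0) := by
  have h1 : Tendsto (fun b => ∫ x in (0 : ℝ)..b, f' x) atTop (𝓝 (∫ x in Ioi (0 : ℝ), f' x)) :=
    intervalIntegral_tendsto_integral_Ioi 0 hf'.integrableOn tendsto_id
  have h2 : Tendsto f atTop (𝓝 ((∫ x in Ioi (0 : ℝ), f' x) + f 0)) := by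
    refine (h1.add_const (f 0)).congr fun b => ?_
    rw [h.sub_eq_integral]; ring
  have h3 : (∫ x in Ioi (0 : ℝ), f' x) + f 0 = 0 := by
    refine IntegrableAtFilter.eq_zero_of_tendsto (μ := volume) (hf.integrableAtFilter atTop) ?_ h2
    intro s hs
    rcases mem_atTop_sets.1 hs with ⟨b, hb⟩
    rw [← top_le_iff, ← Real.volume_Ici (a := b)]
    exact measure_mono hb
  rwa [h3] at h2

theorem tendsto_atBot_zero (h : ACD f f') (hf : Integrable f) (hf' : Integrable f') :
    Tendsto f atBot (𝓝 0) := by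
  have h1 := h.reflect.tendsto_atTop_zero hf.comp_neg hf'.comp_neg.neg
  have h2 := h1.comp tendsto_neg_atBot_atTop
  refine h2.congr fun x => ?_
  simp

theorem integral_eq_zero (h : ACD f f') (hf : Integrable f) (hf' : Integrable f') :
    ∫ x, f' x = 0 := by
  have h1 : Tendsto (fun b : ℝ => ∫ x in (-b)..b, f' x) atTop (𝓝 (∫ x, f' x)) :=
    intervalIntegral_tendsto_integral hf' tendsto_neg_atTop_atBot tendsto_id
  have h2 : Tendsto (fun b : ℝ => ∫ x in (-b)..b, f' x) atTop (𝓝 (0 - 0)) := by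
    refine ((h.tendsto_atTop_zero hf hf').sub
      ((h.tendsto_atBot_zero hf hf').comp tendsto_neg_atTop_atBot)).congr fun b => ?_
    rw [h.sub_eq_integral]; rfl
  simpa using tendsto_nhds_unique h1 h2

theorem bdd (h : ACD f f') (hf : Integrable f) (hf' : Integrable f') (x : ℝ) :
    |f x| ≤ ∫ x, |f' x| := by
  have h1 : Tendsto (fun b => |f b - f x|) atTop (𝓝 |0 - f x|) :=
    ((h.tendsto_atTop_zero hf hf').sub_const _).abs
  rw [zero_sub, abs_neg] at h1
  refine le_of_tendsto h1 ?_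
  filter_upwards [eventually_ge_atTop x] with b hb
  rw [← h.sub_eq_integral]
  refine (intervalIntegral.abs_integral_le_integral_abs hb).trans ?_
  rw [intervalIntegral.integral_of_le hb]
  exact setIntegral_le_integral hf'.abs (Eventually.of_forall fun _ => abs_nonneg _)

end ACD

section vec

variable {S : Type*} [NormedAddCommGroup S] [NormedSpace ℝ S]

/-- Vector valued version of `ACD`. -/
structure ACV (f f' : ℝ → S) : Prop where
  ac : ∀ a b, AbsolutelyContinuousOnInterval f a b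
  der : ∀ᵐ x, HasDerivAt f (f' x) x

theorem ac_of_dist_le {X Y : Type*} [PseudoMetricSpace X] [PseudoMetricSpace Y] {f : ℝ → X}
    {g : ℝ → Y} {a b : ℝ} (hf : AbsolutelyContinuousOnInterval f a b)
    (h : ∀ x y, dist (g x) (g y) ≤ dist (f x) (f y)) : AbsolutelyContinuousOnInterval g a b := by
  rw [absolutelyContinuousOnInterval_iff] at hf ⊢
  intro ε hε
  obtain ⟨δ, hδ, h1⟩ := hf ε hε
  exact ⟨δ, hδ, fun E hE hE2 => (Finset.sum_le_sum fun i _ => h _ _).trans_lt (h1 E hE hE2)⟩

theorem ac_clm {T : Type*} [NormedAddCommGroup T] [NormedSpace ℝ T] {f : ℝ → S} {a b : ℝ}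
    (hf : AbsolutelyContinuousOnInterval f a b) (L : S →L[ℝ] T) :
    AbsolutelyContinuousOnInterval (fun x => L (f x)) a b :=
  ac_comp_lipschitzOn (s := univ) hf L.lipschitz.lipschitzOnWith (mapsTo_univ _ _)

theorem ac_prod {T : Type*} [NormedAddCommGroup T] [NormedSpace ℝ T] {f : ℝ → S} {g : ℝ → T}
    {a b : ℝ} (hf : AbsolutelyContinuousOnInterval f a b)
    (hg : AbsolutelyContinuousOnInterval g a b) :
    AbsolutelyContinuousOnInterval (fun x => (f x, g x)) a b := by
  have := (ac_clm hf (ContinuousLinearMap.inl ℝ S T)).add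
    (ac_clm hg (ContinuousLinearMap.inr ℝ S T))
  refine ac_of_dist_le this fun x y => le_of_eq ?_
  simp

theorem ACV.continuous {f f' : ℝ → S} (h : ACV f f') : Continuous f := by
  rw [continuous_iff_continuousAt]
  intro x
  have := (h.ac (x - 1) (x + 1)).continuousOn
  rw [uIcc_of_le (by linarith)] at this
  exact this.continuousAt (Icc_mem_nhds (by linarith) (by linarith))

theorem ACV.clm {T : Type*} [NormedAddCommGroup T] [NormedSpace ℝ T] {f f' : ℝ → S}
    (h : ACV f f') (L : S →L[ℝ] T) : ACV (fun x => L (f x)) (fun x => L (f' x)) :=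
  ⟨fun a b => ac_clm (h.ac a b) L, by
    filter_upwards [h.der] with x hx
    exact L.hasFDerivAt.comp_hasDerivAt x hx⟩

theorem ACV.toACD {f f' : ℝ → ℝ} (h : ACV f f') : ACD f f' := ⟨h.ac, h.der⟩

theorem ACV.const_add {f f' : ℝ → S} (h : ACV f f') (c : S) : ACV (fun x => c + f x) f' :=
  ⟨fun a b => ac_of_dist_le (h.ac a b) fun x y => by simp, by
    filter_upwards [h.der] with x hx
    exact hx.const_add c⟩

theorem ACV.of_contDiff {f : ℝ → S} (hf : ContDiff ℝ 1 f) : ACV f (deriv f) :=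
  ⟨fun _ _ => hf.contDiffOn.absolutelyContinuousOnInterval,
    Eventually.of_forall fun x => (hf.differentiable (by decide) x).hasDerivAt⟩

variable [CompleteSpace S]

theorem ACV.primitive {u : ℝ → S} (hu : LocallyIntegrable u volume) :
    ACV (fun x => ∫ t in (0 : ℝ)..x, u t) u := by
  have hi : ∀ a b, IntervalIntegrable u volume a b := fun a b =>
    (hu.integrableOn_isCompact isCompact_uIcc).intervalIntegrable
  have hn : LocallyIntegrable (fun x => ‖u x‖) volume := fun x => (hu x).norm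
  refine ⟨fun a b => ac_of_dist_le ((ACD.primitive hn 0).ac a b) fun x y => ?_, ?_⟩
  · rw [dist_eq_norm, Real.dist_eq, intervalIntegral.integral_interval_sub_left (hi _ _) (hi _ _),
      intervalIntegral.integral_interval_sub_left (hi _ _).norm (hi _ _).norm]
    exact intervalIntegral.norm_integral_le_abs_integral_norm
  · filter_upwards [LocallyIntegrable.ae_hasDerivAt_integral hu] with x hx
    exact hx 0

omit [CompleteSpace S] in
theorem integrable_test_smul {ζ : ℝ → ℝ} (hζ : Continuous ζ) (hc : HasCompactSupport ζ)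
    {u : ℝ → S} (hu : LocallyIntegrable u volume) : Integrable (fun x => ζ x • u x) :=
  hu.integrable_smul_left_of_hasCompactSupport hζ hc

theorem ACV.integral_test {G u : ℝ → S} (h : ACV G u) (hu : LocallyIntegrable u volume)
    {ζ : ℝ → ℝ} (hζ : ContDiff ℝ ∞ ζ) (hc : HasCompactSupport ζ) :
    ∫ x, (deriv ζ x • G x + ζ x • u x) = 0 := by
  have hG : LocallyIntegrable G volume := h.continuous.locallyIntegrable
  have hζ' : Continuous (deriv ζ) := hζ.continuous_deriv (by decide)
  have i1 := integrable_test_smul hζ' hc.deriv hG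
  have i2 := integrable_test_smul hζ.continuous hc hu
  have i3 := integrable_test_smul hζ.continuous hc hG
  apply SeparatingDual.eq_zero_of_forall_dual_eq_zero (R := ℝ)
  intro L
  have i4 : Integrable (fun x => deriv ζ x • G x + ζ x • u x) := i1.add i2
  rw [← L.integral_comp_comm i4]
  have h1 := ((ACV.of_contDiff (hζ.of_le (by decide))).toACD).mul (h.clm L).toACD
  have h2 := h1.integral_eq_zero (by simpa using L.integrable_comp i3)
    (by simpa using L.integrable_comp i4)
  simpa using h2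

theorem exists_primitive_test {k : ℝ → ℝ} (hk : ContDiff ℝ ∞ k) (hc : HasCompactSupport k)
    (h0 : ∫ x, k x = 0) : ∃ ζ : ℝ → ℝ, ContDiff ℝ ∞ ζ ∧ HasCompactSupport ζ ∧ deriv ζ = k := by
  obtain ⟨R, hR⟩ := hc.isCompact.isBounded.subset_ball (0 : ℝ)
  have hs : Function.support k ⊆ Ioo (-R) R := by
    refine (subset_tsupport k).trans (hR.trans ?_)
    rw [Real.ball_eq_Ioo]; simp
  have hd : ∀ x, HasDerivAt (fun x => ∫ t in (-R)..x, k t) (k x) x := fun x =>
    (hk.continuous.integral_hasStrictDerivAt _ _).hasDerivAt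
  have hd' : deriv (fun x => ∫ t in (-R)..x, k t) = k := funext fun x => (hd x).deriv
  refine ⟨fun x => ∫ t in (-R)..x, k t, ?_, ?_, hd'⟩
  · rw [contDiff_infty_iff_deriv, hd']
    exact ⟨fun x => (hd x).differentiableAt, hk⟩
  · refine HasCompactSupport.intro (isCompact_Icc (a := -R) (b := R)) fun x hx => ?_
    rw [mem_Icc, not_and_or, not_le, not_le] at hx
    rcases hx with hx | hx
    · apply intervalIntegral.integral_zero_ae
      refine Eventually.of_forall fun t ht => ?_
      by_contra hne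
      have h1 := hs hne
      rw [uIoc_of_ge hx.le] at ht
      linarith [h1.1, ht.2]
    · rw [intervalIntegral.integral_eq_integral_of_support_subset, h0]
      intro t ht
      have h1 := hs ht
      exact ⟨h1.1, by linarith [h1.2]⟩

/-- du Bois-Reymond: a locally integrable function with a locally integrable weak derivative
has an absolutely continuous representative. -/
theorem duBois {f u : ℝ → S} (hf : LocallyIntegrable f volume) (hu : LocallyIntegrable u volume)
    (h : ∀ ζ : ℝ → ℝ, ContDiff ℝ ∞ ζ → HasCompactSupport ζ →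
      ∫ x, (deriv ζ x • f x + ζ x • u x) = 0) :
    ∃ g : ℝ → S, ACV g u ∧ f =ᵐ[volume] g := by
  set G : ℝ → S := fun x => ∫ t in (0 : ℝ)..x, u t with hGdef
  have hG : ACV G u := ACV.primitive hu
  have hGl : LocallyIntegrable G volume := hG.continuous.locallyIntegrable
  have hw : LocallyIntegrable (fun x => f x - G x) volume := hf.sub hGl
  have key : ∀ ζ : ℝ → ℝ, ContDiff ℝ ∞ ζ → HasCompactSupport ζ →
      ∫ x, deriv ζ x • (f x - G x) = 0 := by
    intro ζ hζ hc
    have hζ' : Continuous (deriv ζ) := hζ.continuous_deriv (by decide)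
    have i1 := integrable_test_smul hζ' hc.deriv hGl
    have i2 := integrable_test_smul hζ.continuous hc hu
    have i3 := integrable_test_smul hζ' hc.deriv hf
    have e := integral_sub (i3.add i2) (i1.add i2)
    simp only [Pi.add_apply] at e
    rw [h ζ hζ hc, hG.integral_test hu hζ hc, sub_zero] at e
    rw [← e]
    congr 1
    funext x
    rw [smul_sub]; abel
  let b : ContDiffBump (0 : ℝ) := ⟨1, 2, by norm_num, by norm_num⟩
  have hρ : ContDiff ℝ ∞ (b.normed volume) := b.contDiff_normed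
  have hρc : HasCompactSupport (b.normed volume) := b.hasCompactSupport_normed
  have hρ1 : ∫ x, b.normed volume x = 1 := b.integral_normed
  set c : S := ∫ x, b.normed volume x • (f x - G x) with hc
  refine ⟨fun x => c + G x, hG.const_add c, ?_⟩
  have main : ∀ᵐ x, f x - G x = c := by
    refine ae_eq_of_integral_contDiff_smul_eq hw (locallyIntegrable_const c) fun g hg hgc => ?_
    have ig : Integrable g := hg.continuous.integrable_of_hasCompactSupport hgc
    have iρ : Integrable (b.normed volume) := hρ.continuous.integrable_of_hasCompactSupport hρc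
    obtain ⟨ζ, h1, h2, h3⟩ := exists_primitive_test
      (k := fun x => g x - (∫ y, g y) * b.normed volume x) (hg.sub (contDiff_const.mul hρ))
      (hgc.sub hρc.mul_left) (by
        rw [integral_sub ig (iρ.const_mul _), integral_const_mul, hρ1]; ring)
    have h4 := key ζ h1 h2
    rw [h3] at h4
    simp only [sub_smul, mul_smul] at h4
    have i5 : Integrable (fun x => (∫ y, g y) • b.normed volume x • (f x - G x)) :=
      (integrable_test_smul hρ.continuous hρc hw).smul (∫ y, g y)
    rw [integral_sub (integrable_test_smul hg.continuous hgc hw) i5, integral_smul, ← hc] at h4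
    rw [integral_smul_const]
    exact sub_eq_zero.1 h4
  filter_upwards [main] with x hx
  rw [← hx]; abel

end vec

end Pool.Agent.MP_0b7119_mp

end
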