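import Pool.Agent.MP_0b7119_mp.GDefs
import Pool.Agent.MP_0b7119_mp.Iface
import Pool.Agent.MP_0b7119_mp.JobK1
import Pool.Agent.MP_0b7119_mp.JobD
import Pool.Agent.MP_0b7119_mp.JobD1
import Pool.Agent.MP_0b7119_mp.JobD2
import Pool.Agent.Mg.F0b7119.Gad7bfa
import Pool.Agent.Mg.F0b7119.G94e728

/-! Job B: the one-dimensional theorem for the distributional definitions. -/

open Set MeasureTheory Filter Topology
open scoped ENNReal SchwartzMap ContDiff

namespace Pool.Agent.MP_0b7119_mp.G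

section line

variable {S : Type} [NormedAddCommGroup S] [InnerProductSpace ℂ S] [CompleteSpace S]
  [FiniteDimensional ℂ S]

/-- The derivative prescribed by the eigenvalue equation. -/
noncomputable def rhs (A B : S →L[ℂ] S) (m c : ℝ) (v : S) : S :=
  Complex.I • A ((c : ℂ) • v - (m : ℂ) • B v)

omit [FiniteDimensional ℂ S] in
theorem sa_inner {A : S →L[ℂ] S} (hA : IsSelfAdjoint A) (v w : S) :
    inner ℂ (A v) w = inner ℂ v (A w) :=
  hA.isSymmetric v w

omit [CompleteSpace S] [FiniteDimensional ℂ S] in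
theorem invol {A : S →L[ℂ] S} (hAA : A * A = 1) (v : S) : A (A v) = v := by
  have := congrArg (fun T : S →L[ℂ] S => T v) hAA
  simpa using this

omit [FiniteDimensional ℂ S] in
theorem integrand_eq {A B : S →L[ℂ] S} (hA : IsSelfAdjoint A) (hB : IsSelfAdjoint B)
    (hAA : A * A = 1) (m c : ℝ) (φ φ' ψ : S) :
    inner ℂ (A ((-Complex.I) • φ') + (m : ℂ) • B φ - (c : ℂ) • φ) ψ =
      Complex.I * (inner ℂ φ (A (rhs A B m c ψ)) + inner ℂ φ' (A ψ)) := by
  simp only [rhs, map_smul, invol hAA, inner_sub_left, inner_add_left, inner_smul_left,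
    inner_smul_right, inner_sub_right, sa_inner hA, sa_inner hB, map_neg, Complex.conj_I,
    Complex.conj_ofReal]
  linear_combination (-(c : ℂ) * inner ℂ φ ψ + m * inner ℂ φ (B ψ)) * Complex.I_mul_I

omit [CompleteSpace S] in
theorem acv_inner {f f' g g' : ℝ → S} (hf : ACV f f') (hg : ACV g g') (L : ℂ →L[ℝ] ℝ) :
    ACD (fun x => L (inner ℂ (f x) (g x)))
      (fun x => L (inner ℂ (f x) (g' x) + inner ℂ (f' x) (g x))) := by
  have : ProperSpace S := FiniteDimensional.proper ℂ S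
  refine ⟨fun a b => ?_, ?_⟩
  · have h1 : ContDiff ℝ 1 (fun p : S × S => inner ℂ p.1 p.2) := contDiff_inner
    have h2 := ac_comp_contDiff (ac_prod (hf.ac a b) (hg.ac a b)) h1
    exact ac_clm h2 L
  · filter_upwards [hf.der, hg.der] with x h1 h2
    exact L.hasFDerivAt.comp_hasDerivAt x (h1.inner ℂ h2)

omit [CompleteSpace S] [FiniteDimensional ℂ S] in
theorem integrable_inner_two {f g : ℝ → S} (hf : MemLp f 2 volume) (hg : MemLp g 2 volume) :
    Integrable fun x => inner ℂ (f x) (g x) := by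
  refine (hf.norm.integrable_mul hg.norm).mono' (hf.1.inner hg.1)
    (Eventually.of_forall fun x => ?_)
  exact norm_inner_le_norm _ _

omit [CompleteSpace S] [FiniteDimensional ℂ S] in
theorem locInt_clm (T : S →L[ℂ] S) {f : ℝ → S} (hf : LocallyIntegrable f volume) :
    LocallyIntegrable (fun x => T (f x)) volume := by
  rw [← locallyIntegrableOn_univ] at hf ⊢
  exact T.locallyIntegrableOn_comp hf

theorem strong_bdd {A B : S →L[ℂ] S} (hA : IsSelfAdjoint A) {m l : ℝ} {V : ℝ → ℝ} {ψ : ℝ → S}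
    (h2 : MemLp ψ 2 volume) (h : ACV ψ fun x => rhs A B m (V x + l) (ψ x)) :
    ∃ C, ∀ x, ‖ψ x‖ ^ 2 ≤ C := by
  have h1 := acv_inner h h Complex.reCLM
  have e1 : ∀ x, Complex.reCLM (inner ℂ (ψ x) (ψ x)) = ‖ψ x‖ ^ 2 := fun x => by
    simpa using inner_self_eq_norm_sq (𝕜 := ℂ) (ψ x)
  let D : S →L[ℂ] S := (-(m : ℂ) * Complex.I) • (A * B)
  have e2 : ∀ (c : ℝ) (v : S), Complex.reCLM (inner ℂ v (rhs A B m c v) +
      inner ℂ (rhs A B m c v) v) = 2 * (inner ℂ v (D v)).re := by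
    intro c v
    have r1 : (inner ℂ v (A v)).im = 0 := by
      have h3 : (starRingEnd ℂ) (inner ℂ v (A v)) = inner ℂ v (A v) := by
        rw [inner_conj_symm, sa_inner hA]
      exact Complex.conj_eq_iff_im.1 h3
    have r2 : (inner ℂ (rhs A B m c v) v).re = (inner ℂ v (rhs A B m c v)).re := by
      exact inner_re_symm (𝕜 := ℂ) _ _
    simp only [Complex.reCLM_apply, Complex.add_re, r2]
    simp only [rhs, D, map_sub, map_smul, inner_smul_right, inner_sub_right,
      smul_apply, mul_apply_eq_comp]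
    simp [r1]
    ring
  have i1 : Integrable (fun x => ‖ψ x‖ ^ 2) := (memLp_two_iff_integrable_sq_norm h2.1).1 h2
  have h3 : ACD (fun x => ‖ψ x‖ ^ 2) (fun x => 2 * (inner ℂ (ψ x) (D (ψ x))).re) := by
    simpa only [e1, e2] using h1
  have i2 : Integrable (fun x => 2 * (inner ℂ (ψ x) (D (ψ x))).re) := by
    have := (integrable_inner_two h2 (D.comp_memLp' h2)).re.const_mul 2
    simpa using this
  exact ⟨_, fun x => (le_abs_self _).trans (h3.bdd i1 i2 x)⟩

/-- The weak eigenvalue equation on the line. -/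
def Weak (A B : S →L[ℂ] S) (m : ℝ) (V : ℝ → ℝ) (l : ℝ) (ψ : ℝ → S) : Prop :=
  ∀ φ : 𝓢(ℝ, S), ∫ x, inner ℂ (A ((-Complex.I) • deriv φ x) + (m : ℂ) • B (φ x) -
    ((V x + l : ℝ) : ℂ) • φ x) (ψ x) = 0

theorem weak_of_strong {A B : S →L[ℂ] S} (hA : IsSelfAdjoint A) (hB : IsSelfAdjoint B)
    (hAA : A * A = 1) {m l : ℝ} {V : ℝ → ℝ} {ψ : ℝ → S}
    (h2 : MemLp ψ 2 volume) (h : ACV ψ fun x => rhs A B m (V x + l) (ψ x)) :
    Weak A B m V l ψ := by
  intro φ
  simp only [integrand_eq hA hB hAA]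
  rw [integral_const_mul]
  apply mul_eq_zero_of_right
  by_cases hi : Integrable fun x => inner ℂ (φ x) (A (rhs A B m (V x + l) (ψ x))) +
    inner ℂ (deriv φ x) (A (ψ x))
  swap
  · exact integral_undef hi
  have hφ : ACV (φ : ℝ → S) (deriv φ) := ACV.of_contDiff (φ.smooth 1)
  have hψ := h.clm (A.restrictScalars ℝ)
  have i1 : Integrable fun x => inner ℂ (φ x) (A (ψ x)) :=
    integrable_inner_two (φ.memLp 2 volume) (A.comp_memLp' h2)
  apply SeparatingDual.eq_zero_of_forall_dual_eq_zero (R := ℝ)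
  intro L
  rw [← L.integral_comp_comm hi]
  exact (acv_inner hφ hψ L).integral_eq_zero (L.integrable_comp i1) (L.integrable_comp hi)

omit [FiniteDimensional ℂ S] in
theorem strong_of_weak {A B : S →L[ℂ] S} (hA : IsSelfAdjoint A) (hB : IsSelfAdjoint B)
    (hAA : A * A = 1) {m l : ℝ} {V : ℝ → ℝ} {ψ : ℝ → S} (hV : LocallyIntegrable V volume)
    (hV0 : ∀ x, 0 ≤ V x) (h2 : MemLp ψ 2 volume)
    (hi : Integrable (fun x => V x * ‖ψ x‖ ^ 2) volume) (h : Weak A B m V l ψ) :
    ∃ g : ℝ → S, (ACV g fun x => rhs A B m (V x + l) (g x)) ∧ ψ =ᵐ[volume] g := by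
  have hψ : LocallyIntegrable ψ volume := h2.locallyIntegrable (by norm_num)
  have hVψ : LocallyIntegrable (fun x => (V x : ℂ) • ψ x) volume := by
    refine (hV.add hi.locallyIntegrable).mono ?_ (Eventually.of_forall fun x => ?_)
    · exact (Complex.continuous_ofReal.comp_aestronglyMeasurable
        hV.aestronglyMeasurable).smul h2.1
    · have h0 := hV0 x
      have h1 := norm_nonneg (ψ x)
      simp only [Pi.add_apply, norm_smul, Complex.norm_real, Real.norm_eq_abs]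
      rw [abs_of_nonneg h0, abs_of_nonneg (by positivity)]
      nlinarith [mul_nonneg h0 (sq_nonneg (‖ψ x‖ - 1)), mul_nonneg h0 h1]
  have hu : LocallyIntegrable (fun x => rhs A B m (V x + l) (ψ x)) volume := by
    have e : (fun x => rhs A B m (V x + l) (ψ x)) = fun x =>
        (Complex.I • A) ((V x : ℂ) • ψ x) +
          (Complex.I • A * ((l : ℂ) • 1 - (m : ℂ) • B)) (ψ x) := by
      funext x
      simp only [rhs, Complex.ofReal_add, add_smul, map_sub, map_add, map_smul, smul_sub, smul_add,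
        smul_apply, mul_apply_eq_comp,
        sub_apply, one_apply_eq_self]
      module
    rw [e]
    exact (locInt_clm _ hVψ).add (locInt_clm _ hψ)
  obtain ⟨g, hg, hψg⟩ := duBois hψ hu (by
    intro ζ hζ hc
    have hζ' : Continuous (deriv ζ) := hζ.continuous_deriv (by decide)
    have i1 := integrable_test_smul hζ' hc.deriv hψ
    have i2 := integrable_test_smul hζ.continuous hc hu
    have i3 : Integrable fun x => deriv ζ x • ψ x + ζ x • rhs A B m (V x + l) (ψ x) := i1.add i2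
    apply ext_inner_left ℂ
    intro v
    rw [← integral_inner i3, inner_zero_right]
    have h3 := h (HasCompactSupport.toSchwartzMap (f := fun x => ζ x • A v) hc.smul_right
      (hζ.smul contDiff_const))
    simp only [integrand_eq hA hB hAA] at h3
    rw [integral_const_mul, mul_eq_zero] at h3
    rw [← h3.resolve_left Complex.I_ne_zero]
    congr 1
    funext x
    have hd : deriv (fun x => ζ x • A v) x = deriv ζ x • A v :=
      ((hζ.differentiable (by decide) x).hasDerivAt.smul_const _).deriv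
    change _ = inner ℂ (ζ x • A v) _ + inner ℂ (deriv (fun x => ζ x • A v) x) _
    rw [hd]
    simp only [← Complex.coe_smul, inner_add_right, inner_smul_left, inner_smul_right,
      Complex.conj_ofReal, sa_inner hA, invol hAA]
    ring)
  refine ⟨g, ⟨hg.ac, ?_⟩, hψg⟩
  filter_upwards [hg.der, hψg] with x h1 h3
  rwa [← h3]

/-- The strong form of the eigenvalue problem on the line. -/
def Strong (A B : S →L[ℂ] S) (m : ℝ) (V : ℝ → ℝ) (l : ℝ) : Prop :=
  ∃ ψ : ℝ → S, ψ ≠ 0 ∧ MemLp ψ 2 volume ∧ ACV ψ fun x => rhs A B m (V x + l) (ψ x)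

theorem isEig_iff_strong {α : Fin 1 → S →L[ℂ] S} {β : S →L[ℂ] S} (hA : IsSelfAdjoint (α 0))
    (hB : IsSelfAdjoint β) (hAA : α 0 * α 0 = 1) {m l p : ℝ} (hp : 1 ≤ p) {V : ℝ → ℝ}
    (hV : V ∈ MP_0b7119_mp.Pot p) :
    IsEig (fun _ : Fin 1 => (1 : ℝ)) α β m V l ↔ Strong (α 0) β m V l := by
  obtain ⟨f1, f2, -⟩ := pot_facts hp hV
  have e : ∀ ψ : ℝ → S, (∀ φ : 𝓢(ℝ, S), ∫ x, inner ℂ (dirac (fun _ : Fin 1 => (1 : ℝ)) α β m φ x -
      ((V x + l : ℝ) : ℂ) • φ x) (ψ x) = 0) ↔ Weak (α 0) β m V l ψ := by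
    intro ψ
    simp only [Weak, dirac, Fin.sum_univ_one, fderiv_apply_one_eq_deriv]
  constructor
  · rintro ⟨ψ, h1, h2, h3, h4⟩
    obtain ⟨g, hg, hψg⟩ := strong_of_weak hA hB hAA f1 hV.1 h1 h3 ((e ψ).1 h4)
    refine ⟨g, ?_, h1.ae_eq hψg, hg⟩
    rintro rfl
    exact h2 hψg
  · rintro ⟨ψ, h1, h2, h3⟩
    refine ⟨ψ, h2, fun h => h1 ?_, ?_, (e ψ).2 (weak_of_strong hA hB hAA h2 h3)⟩
    · exact (Continuous.ae_eq_iff_eq volume h3.continuous continuous_const).1 h
    · obtain ⟨C, hC⟩ := strong_bdd hA h2 h3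
      have i1 : Integrable (fun x => ‖ψ x‖ ^ 2) := (memLp_two_iff_integrable_sq_norm h2.1).1 h2
      refine (i1.add (f2.mul_const C)).mono' (f1.aestronglyMeasurable.mul i1.1)
        (Eventually.of_forall fun x => ?_)
      have h0 := hV.1 x
      have h4 : V x ≤ 1 + V x ^ p := by
        rcases le_total (V x) 1 with h | h
        · linarith [Real.rpow_nonneg h0 p]
        · have := Real.rpow_le_rpow_of_exponent_le h hp
          rw [Real.rpow_one] at this
          linarith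
      have h5 := hC x
      have h6 := Real.rpow_nonneg h0 p
      have h7 := sq_nonneg ‖ψ x‖
      rw [Real.norm_eq_abs, abs_of_nonneg (by positivity), Pi.add_apply]
      nlinarith [mul_le_mul_of_nonneg_right h4 h7, mul_le_mul_of_nonneg_left h5 h6]

open Matrix in
omit [CompleteSpace S] [FiniteDimensional ℂ S] in
theorem strong_iff_old {A B : S →L[ℂ] S} (hAA : A * A = 1) (T : S ≃L[ℂ] (Fin 2 → ℂ))
    {a b : Matrix (Fin 2) (Fin 2) ℂ} (ha : ∀ v, T (A v) = a *ᵥ T v) (hb : ∀ v, T (B v) = b *ᵥ T v)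
    {m l : ℝ} {V : ℝ → ℝ} : Strong A B m V l ↔ MP_0b7119_mp.IsEig a b m V l := by
  have alg : ∀ (c : ℝ) (v w : S), (-Complex.I) • a *ᵥ T w + (m : ℂ) • b *ᵥ T v - (c : ℂ) • T v =
      (l : ℂ) • T v ↔ w = rhs A B m (c + l) v := by
    intro c v w
    rw [← ha, ← hb, ← map_smul T, ← map_smul T, ← map_smul T, ← map_smul T, ← map_add T,
      ← map_sub T, T.injective.eq_iff, rhs]
    constructor
    · intro h
      have h1 : ((c + l : ℝ) : ℂ) • v - (m : ℂ) • B v = (-Complex.I) • A w := by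
        rw [Complex.ofReal_add, add_smul, ← h]; abel
      rw [h1, map_smul, invol hAA, smul_smul]
      simp
    · rintro rfl
      rw [map_smul, invol hAA, smul_smul]
      simp [add_smul]
  let T1 : S →L[ℝ] (Fin 2 → ℂ) := (T : S →L[ℂ] (Fin 2 → ℂ)).restrictScalars ℝ
  let T2 : (Fin 2 → ℂ) →L[ℝ] S := (T.symm : (Fin 2 → ℂ) →L[ℂ] S).restrictScalars ℝ
  constructor
  · rintro ⟨ψ, h1, h2, h3⟩
    have h4 := h3.clm T1
    refine ⟨fun x => T1 (ψ x), fun h => h1 ?_, T1.comp_memLp' h2, h4.ac, ?_⟩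
    · funext x
      exact T.injective (by simpa [T1] using congrFun h x)
    · filter_upwards [h4.der] with x hx
      refine ⟨hx.differentiableAt, ?_⟩
      rw [hx.deriv]
      exact (alg _ _ _).2 rfl
  · rintro ⟨ψ, h1, h2, h3, h4⟩
    refine ⟨fun x => T2 (ψ x), fun h => h1 ?_, T2.comp_memLp' h2, fun a b => ac_clm (h3 a b) T2, ?_⟩
    · funext x
      exact T.symm.injective (by simpa [T2] using congrFun h x)
    · filter_upwards [h4] with x hx
      have h5 := T2.hasFDerivAt.comp_hasDerivAt x hx.1.hasDerivAt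
      have h6 := (alg (V x) (T2 (ψ x)) (T2 (deriv ψ x))).1 (by simpa [T2] using hx.2)
      rw [← h6]
      exact h5

end line

section iso

variable {E E' S : Type} [NormedAddCommGroup E] [InnerProductSpace ℝ E] [FiniteDimensional ℝ E]
  [MeasurableSpace E] [BorelSpace E] [NormedAddCommGroup E'] [InnerProductSpace ℝ E']
  [FiniteDimensional ℝ E'] [MeasurableSpace E'] [BorelSpace E'] [NormedAddCommGroup S]
  [InnerProductSpace ℂ S] [CompleteSpace S] {d : ℕ}

omit [CompleteSpace S] in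
theorem isEig_comp (ι : E' ≃ₗᵢ[ℝ] E) {e : Fin d → E} {e' : Fin d → E'} (he : ∀ j, ι (e' j) = e j)
    {α : Fin d → S →L[ℂ] S} {β : S →L[ℂ] S} {m l : ℝ} {V : E → ℝ} (h : IsEig e α β m V l) :
    IsEig e' α β m (V ∘ ι) l := by
  obtain ⟨ψ, h1, h2, h3, h4⟩ := h
  have mp := ι.measurePreserving
  have me : MeasurableEmbedding ι := ι.toHomeomorph.measurableEmbedding
  refine ⟨ψ ∘ ι, h1.comp_measurePreserving mp, fun h => h2 ?_, ?_, fun φ => ?_⟩
  · have := ι.symm.measurePreserving.quasiMeasurePreserving.ae_eq_comp h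
    filter_upwards [this] with x hx
    simpa using hx
  · exact (mp.integrable_comp_emb me).2 h3
  · have h5 := h4 (SchwartzMap.compCLMOfContinuousLinearEquiv ℂ ι.symm.toContinuousLinearEquiv φ)
    rw [← mp.integral_comp me] at h5
    rw [← h5]
    congr 1
    funext x
    have hd : ∀ j, fderiv ℝ (φ ∘ ι.symm.toContinuousLinearEquiv) (ι x) (e j) =
        fderiv ℝ φ x (e' j) := by
      intro j
      rw [ContinuousLinearEquiv.comp_right_fderiv, ← he]
      simp
    simp only [dirac, SchwartzMap.compCLMOfContinuousLinearEquiv_apply, hd]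
    simp

theorem pot_comp (ι : E' ≃ₗᵢ[ℝ] E) {p : ℝ} {V : E → ℝ} (hV : V ∈ Pot E p) :
    V ∘ ι ∈ Pot E' p ∧
      eLpNorm (V ∘ ι) (ENNReal.ofReal p) volume = eLpNorm V (ENNReal.ofReal p) volume :=
  ⟨⟨fun _ => hV.1 _, hV.2.comp_measurePreserving ι.measurePreserving⟩,
    eLpNorm_comp_measurePreserving hV.2.1 ι.measurePreserving⟩

end iso

theorem stmtB : StmtB := by
  intro E S _ _ _ _ _ _ _ _ _ e α β hD hS m p hm hp
  let ι : ℝ ≃ₗᵢ[ℝ] E := (OrthonormalBasis.singleton (Fin 1) ℝ).equiv e (Equiv.refl _)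
  have hι : ∀ j : Fin 1, ι 1 = e j := fun j => by
    have := (OrthonormalBasis.singleton (Fin 1) ℝ).equiv_apply_basis e (Equiv.refl _) j
    simpa [OrthonormalBasis.singleton_apply] using this
  have hι' : ∀ j : Fin 1, ι.symm (e j) = 1 := fun j => by rw [← hι j]; simp
  let bS : OrthonormalBasis (Fin 2) ℂ S := (stdOrthonormalBasis ℂ S).reindex (finCongr hS)
  let Φ := LinearMap.toMatrixOrthonormal bS
  let M : (S →L[ℂ] S) → Matrix (Fin 2) (Fin 2) ℂ := fun A => Φ (A : S →ₗ[ℂ] S)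
  have Mmul : ∀ A B, M (A * B) = M A * M B := fun A B => by
    simp only [M, ← map_mul]; rfl
  have Mone : M 1 = 1 := by simp only [M, ← map_one Φ]; rfl
  have Mneg : ∀ A, M (-A) = -M A := fun A => by simp only [M, ← map_neg]; rfl
  have Msa : ∀ A, IsSelfAdjoint A → (M A).IsHermitian := fun A hA =>
    (LinearMap.isHermitian_toMatrix_iff bS).2 hA.isSymmetric
  have hAA : α 0 * α 0 = 1 := by
    have h := hD.αα 0 0
    rw [if_pos rfl, ← one_add_one_eq_two, ← two_smul ℂ, ← two_smul ℂ] at h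
    exact smul_right_injective _ (two_ne_zero (α := ℂ)) h
  have C : Cliff (M (α 0)) (M β) := ⟨Msa _ (hD.sa_α 0), Msa _ hD.sa_β, by rw [← Mmul, hAA, Mone],
    by rw [← Mmul, hD.ββ, Mone],
    by rw [← Mmul, ← Mmul, ← Mneg, eq_neg_of_add_eq_zero_right (hD.αβ 0)]⟩
  let T : S ≃L[ℂ] (Fin 2 → ℂ) := bS.toBasis.equivFunL
  have hT : ∀ (A : S →L[ℂ] S) v, T (A v) = Matrix.mulVec (M A) (T v) := fun A v =>
    (LinearMap.toMatrix_mulVec_repr bS.toBasis bS.toBasis (A : S →ₗ[ℂ] S) v).symm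
  have eig : ∀ V ∈ MP_0b7119_mp.Pot p, ∀ l, IsEig e α β m (V ∘ ι.symm) l ↔
      MP_0b7119_mp.IsEig (M (α 0)) (M β) m V l := by
    intro V hV l
    rw [← strong_iff_old hAA T (hT _) (hT _),
      ← isEig_iff_strong (hD.sa_α 0) hD.sa_β hAA hp hV]
    refine ⟨fun h => ?_, fun h => isEig_comp ι.symm hι' h⟩
    have h1 := isEig_comp ι (e' := fun _ : Fin 1 => (1 : ℝ)) hι h
    have h2 : (V ∘ ι.symm) ∘ ι = V := by funext x; simp
    rwa [h2] at h1
  have lam : ∀ V ∈ MP_0b7119_mp.Pot p, lamD e α β m (V ∘ ι.symm) =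
      MP_0b7119_mp.lamD (M (α 0)) (M β) m V := by
    intro V hV
    simp only [lamD, MP_0b7119_mp.lamD, eig V hV]
  have ast : alphaStar e α β m p = MP_0b7119_mp.alphaStar (M (α 0)) (M β) m p := by
    unfold alphaStar MP_0b7119_mp.alphaStar
    congr 1
    ext a
    refine forall₂_congr fun δ _ => ⟨?_, ?_⟩
    · rintro ⟨V, hV, h1, h2⟩
      obtain ⟨h3, h4⟩ := pot_comp ι hV
      refine ⟨V ∘ ι, h3, h4.le.trans h1, ?_⟩
      have h5 : (V ∘ ι) ∘ ι.symm = V := by funext x; simp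
      rwa [← lam _ h3, h5]
    · rintro ⟨V, hV, h1, h2⟩
      obtain ⟨h3, h4⟩ := pot_comp ι.symm (V := V) hV
      exact ⟨V ∘ ι.symm, h3, h4.le.trans h1, by rwa [lam _ hV]⟩
  obtain ⟨V, hV, W, hW, h1, h2, t, ht, h3⟩ := main C hm hp
  obtain ⟨hV1, hV2⟩ := pot_comp ι.symm (V := V) hV
  obtain ⟨hW1, hW2⟩ := pot_comp ι.symm (V := W) hW
  refine ⟨V ∘ ι.symm, hV1, W ∘ ι.symm, hW1, by rwa [hV2, ast], by rwa [hW2, ast], t, ht, ?_⟩
  have hU : t • V + (1 - t) • W ∈ MP_0b7119_mp.Pot p := by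
    refine ⟨fun x => ?_, (hV.2.const_smul t).add (hW.2.const_smul (1 - t))⟩
    have := mul_nonneg ht.1.le (hV.1 x)
    have := mul_nonneg (sub_nonneg.2 ht.2.le) (hW.1 x)
    simp only [Pi.add_apply, Pi.smul_apply, smul_eq_mul]
    linarith
  have h4 : t • (V ∘ ι.symm) + (1 - t) • (W ∘ ι.symm) = (t • V + (1 - t) • W) ∘ ι.symm := rfl
  rwa [h4, lam _ hU, lam _ hV, lam _ hW]

end Pool.Agent.MP_0b7119_mp.G
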