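import Pool.Agent.Mg.F0b7119.Gca62a9

/-! The core estimate: the midpoint potential binds more strongly. -/

open Set MeasureTheory Real
open scoped ENNReal

namespace Pool.Agent.MP_0b7119_mp.G

set_option linter.unusedSectionVars false

variable {E S : Type} [NormedAddCommGroup E] [InnerProductSpace ℝ E] [FiniteDimensional ℝ E]
  [MeasurableSpace E] [BorelSpace E] [NormedAddCommGroup S] [InnerProductSpace ℂ S]
  [CompleteSpace S] [FiniteDimensional ℂ S] {d : ℕ} {α : Fin d → S →L[ℂ] S} {β : S →L[ℂ] S}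

/-- All the kernel estimates used by the core lemma. -/
structure Setup (m γ₀ c c₂ C₃ C₄ C₅ ι : ℝ) (l : ℝ) (g q V₀ V₁ : E → ℝ) (N P : Set E)
    (τ ζ lam ρ s p lip ω₀ : ℝ) : Prop where
  n₀ : Nice V₀
  n₁ : Nice V₁
  hl : 0 ≤ l
  hlm : l ≤ m
  gap : m - l ≤ ζ
  lam0 : 0 < lam
  lam1 : lam ≤ 1
  τ0 : 0 < τ
  aγ₀ : Adm V₀ g γ₀
  aγ₁ : Adm V₁ g ζ
  aη₀ : Adm V₀ (fun z => q z * ‖z‖) ζ
  aτq : Adm V₁ (fun z => q z * ‖z‖) τ
  aτa : Adm V₁ (fun z => a0 c z * ‖z‖) τ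
  aη₂ : Adm V₁ (fun z => |q z - a0 c z| * ‖z‖) ζ
  hω₀ : ∫ y, V₀ y ≤ ω₀
  hω₀' : ω₀ * lam ≤ C₅
  hω₁ : ∫ y, V₁ y ≤ ζ
  lip0 : 0 ≤ lip
  hlip : ∀ x, ‖x‖ < ρ → ∀ y, V₀ y ≠ 0 → |g (x - y) - g (0 - y)| ≤ lip
  hlip' : lip * ω₀ ≤ ζ
  mN : MeasurableSet N
  eN : ∀ z, -z ∈ N ↔ z ∈ N
  near : Adm (fun y => V₀ y + V₁ y) (N.indicator fun z => 2 * m * g z + q z * ‖z‖) (1 / 2)
  far : ∀ z, z ∉ N → 2 * m * g z + q z * ‖z‖ ≤ C₃ * lam
  low : ∀ x, (V₀ x + V₁ x ≠ 0 ∨ x = 0) → ∀ᵐ y, V₀ y + V₁ y ≠ 0 → c₂ * lam ≤ g (x - y)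
  up : ∀ y, V₀ y ≠ 0 → g (0 - y) ≤ C₄ * lam
  ρ0 : 0 < ρ
  supp : ∀ y, V₁ y ≠ 0 → ‖y‖ < ρ
  mP : MeasurableSet P
  Pρ : P ⊆ Metric.ball 0 ρ
  s0 : 0 < s
  P1 : ∀ x ∈ P, V₀ x + V₁ x = s ∧ V₀ (-x) + V₁ (-x) = 0 ∧ -x ∉ P
  P2 : ∀ x, x ∉ P → -x ∉ P → V₀ (-x) + V₁ (-x) = V₀ x + V₁ x
  p0 : 0 < p
  hp : volume.real P ≤ p
  cub : Icub V₁ P ≤ -(ι * τ ^ 2 * p)

lemma core (h : IsDiracRep α β) (e : OrthonormalBasis (Fin d) ℝ E) {ξ₀ : S} (hξ : β ξ₀ = ξ₀)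
    (hξ1 : ‖ξ₀‖ = 1) {m γ₀ c c₂ C₃ C₄ C₅ ι : ℝ} (hm : 0 < m) (hγ : 0 < γ₀) (hc : 0 < c)
    (hc₂ : 0 < c₂) (hC₃ : 0 < C₃) (hC₄ : 0 < C₄) (hC₅ : 0 < C₅) (hι : 0 < ι) :
    ∃ τs > 0, ∃ σ > 0, ∀ (l : ℝ) (r : E → S →L[ℂ] S) (g q V₀ V₁ : E → ℝ) (N P : Set E)
      (τ ζ lam ρ s p lip ω₀ : ℝ), Ker e α β m l r g q → StronglyMeasurable r →
      Integrable g → Integrable (fun z => q z * ‖z‖) → (∀ z, g (-z) = g z) →
      (∀ z, q (-z) = q z) → (∀ z ξ, β (r (-z) ξ) = r z (β ξ)) →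
      Setup m γ₀ c c₂ C₃ C₄ C₅ ι l g q V₀ V₁ N P τ ζ lam ρ s p lip ω₀ →
      τ ≤ τs → ζ ≤ σ * τ ^ 2 → (∃ ψ, Sol r (fun y => V₀ y + V₁ y) ψ) →
      (∀ f : E → S, Test f → Qf r (fun y => V₀ y + V₁ y) f ≤ Nf (fun y => V₀ y + V₁ y) f) →
      ∃ f : E → S, Test f ∧ Nf (fun x => 1 / 2 * (V₀ x + V₁ x) + 1 / 2 * (V₀ (-x) + V₁ (-x))) f <
        Qf r (fun x => 1 / 2 * (V₀ x + V₁ x) + 1 / 2 * (V₀ (-x) + V₁ (-x))) f := by
  set cξ := m * c₂ / (4 * C₃) with hcξ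
  have hcξ0 : 0 < cξ := by positivity
  set A := m * (γ₀ + 1) * (2 * γ₀ + 6) + 2 with hA
  have hA0 : 0 < A := by positivity
  set C' := m * c₂ + 2 * C₃ * C₄ * (C₅ + 1) * A / c₂ + m * γ₀ * (γ₀ + 3) with hC'
  have hC'0 : 0 < C' := by positivity
  set Cη := γ₀ + 4 * m + 2 with hCη
  have hCη0 : 0 < Cη := by positivity
  set T := c ^ 2 * cξ ^ 2 * ι with hT
  have hT0 : 0 < T := by positivity
  refine ⟨min 1 (min (cξ / C') (T / 400)), by positivity, min (1 / Cη) (T / (40 * Cη)),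
    by positivity, ?_⟩
  rintro l r g q V₀ V₁ N P τ ζ lam ρ s p lip ω₀ hk hrm hgi hqi hge hqe hrβ H hτ hζ ⟨ψ₀, hψ₀⟩ hmax
  have hτ0 := H.τ0
  have hτ1 : τ ≤ 1 := hτ.trans (min_le_left _ _)
  have hτ2 : τ * C' ≤ cξ := by
    rw [← le_div_iff₀ hC'0]; exact hτ.trans ((min_le_right _ _).trans (min_le_left _ _))
  have hτ3 : τ ≤ T / 400 := hτ.trans ((min_le_right _ _).trans (min_le_right _ _))
  have hζ0 : 0 ≤ ζ := by linarith [H.gap, H.hlm]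
  have hζ1 : Cη * ζ ≤ τ ^ 2 := by
    have := hζ.trans (mul_le_mul_of_nonneg_right (min_le_left _ _) (sq_nonneg τ))
    rw [one_div, ← div_eq_inv_mul, le_div_iff₀ hCη0] at this
    linarith
  have hζ2 : Cη * ζ ≤ T / 40 * τ ^ 2 := by
    have := hζ.trans (mul_le_mul_of_nonneg_right (min_le_right _ _) (sq_nonneg τ))
    calc Cη * ζ ≤ Cη * (T / (40 * Cη) * τ ^ 2) := by gcongr
      _ = _ := by field_simp
  have hζτ : ζ ≤ τ := by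
    have e1 : ζ ≤ Cη * ζ := le_mul_of_one_le_left hζ0 (by rw [hCη]; linarith)
    nlinarith
  set V : E → ℝ := fun y => V₀ y + V₁ y with hV
  have hVn : Nice V := H.n₀.add H.n₁
  have hlam := H.lam0
  have hr : ∀ z, ‖r z‖ ≤ 2 * m * g z + q z * ‖z‖ := fun z => by
    refine ContinuousLinearMap.opNorm_le_bound _ (add_nonneg (mul_nonneg (by positivity)
      (hk.gnm.nonneg z)) (mul_nonneg (hk.qnm.nonneg z) (norm_nonneg z))) fun ξ => ?_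
    rw [hk.app]
    refine (norm_add_le _ _).trans ?_
    rw [norm_smul, norm_smul, norm_mul, Complex.norm_I, one_mul, Complex.norm_real,
      Complex.norm_real, Real.norm_of_nonneg (hk.gnm.nonneg z),
      Real.norm_of_nonneg (hk.qnm.nonneg z), norm_cl_apply h]
    have e1 := norm_add_le ((m : ℂ) • β ξ) ((l : ℂ) • ξ)
    rw [norm_smul, norm_smul, Complex.norm_real, Complex.norm_real, norm_β_apply h,
      Real.norm_of_nonneg H.hl, Real.norm_of_nonneg hm.le] at e1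
    have e2 : ‖(m : ℂ) • β ξ + (l : ℂ) • ξ‖ ≤ 2 * m * ‖ξ‖ := by
      nlinarith [H.hlm, norm_nonneg ξ]
    nlinarith [mul_le_mul_of_nonneg_left e2 (hk.gnm.nonneg z)]
  have hϱi : Integrable (fun z => 2 * m * g z + q z * ‖z‖) := (hgi.const_mul _).add hqi
  have hri : Integrable r := hϱi.mono' hrm.aestronglyMeasurable (Filter.Eventually.of_forall hr)
  obtain ⟨ψ, hψ, hfix, hb, x₀, hx₀⟩ := bounded_sol hrm (ϱ := fun z => 2 * m * g z + q z * ‖z‖)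
    ((hk.gnm.meas.const_mul _).add (hk.qnm.meas.mul measurable_norm)) hϱi
    (fun z => by rw [hge, hqe, norm_neg]) hr hVn H.mN H.eN H.near (by positivity) H.far hψ₀
  set n₁ := ∫ y, V y * ‖ψ y‖ with hn₁
  set M := 2 * (C₃ * lam) * n₁ with hM
  have hM0 : 0 < M := (norm_pos_iff.2 hx₀).trans_le (hb x₀)
  have hn0 : 0 < n₁ := (mul_pos_iff_of_pos_left (by positivity)).1 hM0
  have aγ : Adm V g (γ₀ + 1) := (H.aγ₀.add_left H.aγ₁).mono (by linarith)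
  have aη : Adm V (fun z => q z * ‖z‖) (2 * τ) := (H.aη₀.add_left H.aτq).mono (by linarith)
  have hκ : ∀ x, ‖ψ x - β (ψ x)‖ ≤ (2 * γ₀ + 6) * τ * M := fun x => by
    refine (lower_le h e hk hVn.nm aγ aη H.hlm hψ hfix hb x).trans ?_
    have : (m - l) * (γ₀ + 1) ≤ τ * (γ₀ + 1) := by gcongr; linarith [H.gap]
    gcongr
    linarith
  have hω : ∫ y, V y ≤ ω₀ + 1 := by
    rw [hV, integral_add H.n₀.integrable H.n₁.integrable]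
    linarith [H.hω₀, H.hω₁]
  have hω0 : 0 ≤ ω₀ := le_trans (integral_nonneg H.n₀.nonneg) H.hω₀
  have al := align h e hk hVn aγ aη hm H.hl hψ hfix hb (by positivity) hκ hmax hξ hξ1 hω
    (gmin := c₂ * lam) (by positivity) (fun x hx => H.low x (Or.inl hx))
  have fg := field_ge hk.gnm H.n₀ H.n₁ H.aγ₀ hψ hb hξ1 H.hω₁ (gmin := c₂ * lam)
    (gfar := C₄ * lam) (by positivity) (by positivity) (by
      filter_upwards [H.low 0 (Or.inr rfl)] with y hy hy0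
      refine hy fun h0 => hy0 ?_
      linarith [H.n₀.nonneg y, H.n₁.nonneg y]) H.up
  rw [← hn₁] at al fg
  set Ψ := ‖∫ y, ((V₀ y + V₁ y : ℝ) : ℂ) • ψ y‖ with hΨ
  have hΨ0 : 0 ≤ Ψ := norm_nonneg _
  have hΨn : n₁ - Ψ ≤ 2 * C₃ * (ω₀ + 1) * A * τ * M / (m * c₂) := by
    rw [le_div_iff₀ (by positivity)]
    have e1 : m * (c₂ * lam) * (n₁ * (n₁ - Ψ)) ≤ (ω₀ + 1) * (M ^ 2 * (A * τ)) := by
      refine le_trans ?_ (al.trans (le_of_eq (by rw [hA]; ring)))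
      by_cases h1 : Ψ ≤ n₁
      · gcongr
        nlinarith
      · have e2 : 0 ≤ (ω₀ + 1) * (M ^ 2 * (A * τ)) := by positivity
        exfalso
        apply h1
        refine norm_integral_le_of_norm_le (hVn.integrable_mul hψ.norm.aestronglyMeasurable
          (M := M) fun y => by rw [abs_of_nonneg (norm_nonneg _)]; exact hb y)
          (Filter.Eventually.of_forall fun y => ?_)
        rw [norm_smul, Complex.norm_real, Real.norm_of_nonneg (hVn.nonneg y)]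
    have e2 : (ω₀ + 1) * (M ^ 2 * (A * τ)) =
        (lam * n₁) * (2 * C₃ * (ω₀ + 1) * A * τ * M) := by
      rw [sq]; nth_rewrite 1 [hM]; ring
    rw [e2] at e1
    refine le_of_mul_le_mul_left ?_ (mul_pos hlam hn0)
    linarith
  set Φ₀ := Gop g V₀ ψ 0 with hΦ₀
  have hΦ : (2 * cξ - (m * c₂ + 2 * C₃ * C₄ * (C₅ + 1) * A / c₂) * τ) * M ≤ m * ‖Φ₀‖ := by
    have e1 : m * (c₂ * lam * n₁) = 2 * cξ * M := by
      rw [hM, hcξ]; field_simp; ring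
    have e2 : m * (c₂ * lam * (ζ * M)) ≤ m * c₂ * τ * M := by
      have : lam * ζ ≤ 1 * τ := mul_le_mul H.lam1 hζτ hζ0 zero_le_one
      calc _ = m * c₂ * (lam * ζ) * M := by ring
        _ ≤ m * c₂ * (1 * τ) * M := by gcongr
        _ = _ := by ring
    have e3 : m * (C₄ * lam * (n₁ - Ψ)) ≤ 2 * C₃ * C₄ * (C₅ + 1) * A / c₂ * τ * M := by
      have e4 : (ω₀ + 1) * lam ≤ C₅ + 1 := by linarith [H.hω₀', H.lam1]
      calc _ ≤ m * (C₄ * lam * (2 * C₃ * (ω₀ + 1) * A * τ * M / (m * c₂))) := by gcongr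
        _ = 2 * C₃ * C₄ * ((ω₀ + 1) * lam) * A / c₂ * τ * M := by field_simp
        _ ≤ _ := by gcongr
    nlinarith [mul_le_mul_of_nonneg_left fg hm.le]
  set ξ := (((m + l) / 2 : ℝ) : ℂ) • (Φ₀ + β Φ₀) with hξ'
  have hβξ : β ξ = ξ := by
    rw [hξ', map_smul, map_add, β_β h, add_comm (β Φ₀)]
  have hX : cξ * M ≤ ‖ξ‖ := by
    have G0 := Gop_bound hk.gnm H.n₀.nm H.aγ₀ hψ hM0.le (fun y _ => hb y) 0
    have G1 := Gop_bound hk.gnm H.n₀.nm H.aγ₀ (f := fun y => ψ y - β (ψ y))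
      (hψ.sub (sm_β (β := β) hψ)) (by positivity) (fun y _ => hκ y) 0
    rw [← Gop_sub_β G0.1, ← hΦ₀] at G1
    have e1 : 2 * ‖Φ₀‖ ≤ ‖Φ₀ + β Φ₀‖ + ‖Φ₀ - β Φ₀‖ := by
      have := norm_add_le (Φ₀ + β Φ₀) (Φ₀ - β Φ₀)
      rwa [show Φ₀ + β Φ₀ + (Φ₀ - β Φ₀) = (2 : ℂ) • Φ₀ by module, norm_smul,
        Complex.norm_ofNat] at this
    rw [hξ', norm_smul, Complex.norm_real, Real.norm_of_nonneg (by linarith [H.hl])]
    have e2 : m / 2 * ‖Φ₀ + β Φ₀‖ ≤ (m + l) / 2 * ‖Φ₀ + β Φ₀‖ := by gcongr; linarith [H.hl]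
    have e3 := mul_le_mul_of_nonneg_right hτ2 hM0.le
    have e4 := mul_le_mul_of_nonneg_left (e1.trans (add_le_add le_rfl G1.2)) hm.le
    rw [hC'] at e3
    nlinarith
  have fo : ∀ x, ‖x‖ < ρ → ‖ψ x - ξ - Complex.I • Kop e α (a0 c) V₁ ψ x‖ ≤ Cη * ζ * M := by
    intro x hx
    refine (first_order h e hk (nm_a0 hc.le) H.n₀ H.n₁.nm H.aγ₀ H.aγ₁ H.aη₀ H.aτq H.aτa H.aη₂
      H.hω₀ H.hl H.hlm hψ hfix hb H.lip0 (H.hlip x hx)).trans ?_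
    have e1 : (m - l) * γ₀ ≤ ζ * γ₀ := by gcongr; exact H.gap
    have e2 : 2 * m * (lip * ω₀) ≤ 2 * m * ζ := by gcongr; exact H.hlip'
    gcongr
    rw [hCη]
    linarith
  have so := second_order h e hc H.n₁.nm H.aτa hτ1 (by positivity) hζ1 H.ρ0 H.supp hψ hb hβξ fo
    H.mP H.Pρ
  refine criterion h hrm hri hrβ hVn H.mP H.Pρ H.s0 H.P1 H.P2 hψ hfix hb (lt_of_lt_of_le ?_ so)
  have hp0 := H.p0
  have e1 : T * τ ^ 2 * p * M ^ 2 ≤ -(c ^ 2 * ‖ξ‖ ^ 2 * Icub V₁ P) := by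
    calc T * τ ^ 2 * p * M ^ 2 = c ^ 2 * (cξ * M) ^ 2 * (ι * τ ^ 2 * p) := by rw [hT]; ring
      _ ≤ c ^ 2 * ‖ξ‖ ^ 2 * (-Icub V₁ P) := by gcongr; linarith [H.cub]
      _ = _ := by ring
  have e2 : volume.real P * ((188 * τ ^ 3 + 18 * (Cη * ζ)) * M ^ 2) ≤
      p * ((188 * (T / 400 * τ ^ 2) + 18 * (T / 40 * τ ^ 2)) * M ^ 2) := by
    have : τ ^ 3 ≤ T / 400 * τ ^ 2 := by rw [pow_succ']; gcongr
    gcongr
    exact H.hp
  have e3 : 0 < T * τ ^ 2 * p * M ^ 2 := by positivity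
  nlinarith

end Pool.Agent.MP_0b7119_mp.G
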