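import Pool.Agent.MP_0b7119_mp.GDefs
import Pool.Agent.MP_0b7119_mp.Iface
import Pool.Agent.MP_0b7119_mp.JobK1
import Pool.Agent.MP_0b7119_mp.JobD
import Pool.Agent.MP_0b7119_mp.JobD1
import Pool.Agent.MP_0b7119_mp.JobD2
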