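import Pool.Agent.Mg.F0b7119.Ga1dd8a

/-! Choice of the three length scales. -/

open Set MeasureTheory Real
open scoped ENNReal

namespace Pool.Agent.MP_0b7119_mp.G

set_option linter.unusedSectionVars false

variable {E : Type} [NormedAddCommGroup E] [InnerProductSpace ℝ E] [FiniteDimensional ℝ E]
  [MeasurableSpace E] [BorelSpace E]

/-- The shallow well on an annulus. -/
noncomputable def well (v L : ℝ) : E → ℝ :=
  (Metric.ball (0 : E) (2 * L) \ Metric.ball 0 L).indicator fun _ => v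

lemma well_neg (v L : ℝ) (y : E) : well v L (-y) = well v L y := by
  simp only [well, indicator, mem_diff, mem_ball_zero_iff, norm_neg]

lemma well_ne {v L : ℝ} {y : E} (h : well v L y ≠ 0) : L ≤ ‖y‖ ∧ ‖y‖ < 2 * L := by
  have := mem_of_indicator_ne_zero h
  simp only [mem_diff, mem_ball_zero_iff, not_lt] at this
  exact ⟨this.2, this.1⟩

lemma loc_well {v L : ℝ} (hv : 0 ≤ v) (hL : 0 < L) : Loc (well v L : E → ℝ) v (2 * L) := by
  refine ⟨measurable_const.indicator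
    (Metric.isOpen_ball.measurableSet.diff Metric.isOpen_ball.measurableSet),
    fun y => indicator_nonneg (fun _ _ => hv) y, fun y => indicator_le_self' (fun _ _ => hv) y,
    fun y hy => ?_, by linarith⟩
  by_contra h
  linarith [(well_ne h).2]

lemma integral_well (hn : 2 ≤ Module.finrank ℝ E) {v L : ℝ} (hv : 0 ≤ v) (hL : 0 < L) :
    v * (cB E * L ^ (Module.finrank ℝ E : ℝ)) ≤ ∫ y : E, well v L y := by
  have h2 := two_le_cast hn
  unfold well
  rw [integral_indicator (Metric.isOpen_ball.measurableSet.diff Metric.isOpen_ball.measurableSet),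
    setIntegral_const, smul_eq_mul, mul_comm, measureReal_diff
      (Metric.ball_subset_ball (by linarith)) Metric.isOpen_ball.measurableSet
      measure_ball_lt_top.ne, real_ball (by linarith), real_ball hL,
    Real.mul_rpow (by norm_num) hL.le]
  have h3 : (2 : ℝ) ≤ 2 ^ (Module.finrank ℝ E : ℝ) := by
    calc (2 : ℝ) = 2 ^ (1 : ℝ) := (Real.rpow_one 2).symm
      _ ≤ _ := Real.rpow_le_rpow_of_exponent_le (by norm_num) (by linarith)
  have h4 : 0 ≤ cB E * L ^ (Module.finrank ℝ E : ℝ) := by have := cB_pos (E := E); positivity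
  nlinarith [mul_le_mul_of_nonneg_right h3 h4]

lemma Icub_smul (A : ℝ) (U : E → ℝ) (P : Set E) :
    Icub (fun x => A * U x) P = A ^ 2 * Icub U P := by
  have h1 : ∀ x, Fld (fun x => A * U x) x = A • Fld U x := fun x => by
    unfold Fld
    rw [← integral_smul]
    simp only [mul_smul]
  have h2 : ∀ x, Trc (fun x => A * U x) x = A ^ 2 * Trc U x := fun x => by
    unfold Trc
    rw [← integral_const_mul]
    simp only [h1, real_inner_smul_right]
    congr 1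
    ext y
    ring
  unfold Icub
  rw [← integral_const_mul]
  simp only [h1, h2, real_inner_smul_right, real_inner_smul_left, norm_smul, mul_pow,
    Real.norm_eq_abs, sq_abs]
  congr 1
  ext x
  ring

/-- The data produced by the choice of scales. -/
structure Config (m p cA γ₀ c₂ C₃ C₄ C₅ ι τs σ : ℝ) (V₀ V₁ : E → ℝ) (b₁ b₂ : ℝ) : Prop where
  b0 : 0 < b₁
  b12 : b₁ ≤ b₂
  bm : b₂ < m ^ 2
  n₀ : Nice V₀
  n₁ : Nice V₁
  mem : MemLp (fun y => V₀ y + V₁ y) (ENNReal.ofReal p) volume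
  norm : eLpNorm (fun y => V₀ y + V₁ y) (ENNReal.ofReal p) volume ≤ ENNReal.ofReal cA
  schur : ∀ b, b₂ ≤ b → Adm (fun y => V₀ y + V₁ y) (fun z => 2 * m * gk b z + qk b z * ‖z‖) (1 / 2)
  bind : ∃ g₁, 0 ≤ g₁ ∧ 1 < m * g₁ * ∫ y, (V₀ y + V₁ y) ∧
    ∀ x, V₀ x + V₁ x ≠ 0 → ∀ᵐ y, V₀ y + V₁ y ≠ 0 → g₁ ≤ gk b₁ (x - y)
  setup : ∀ l, 0 ≤ l → l ≤ m → b₁ ≤ m ^ 2 - l ^ 2 → m ^ 2 - l ^ 2 ≤ b₂ →
    ∃ (N P : Set E) (τ ζ lam ρ s p lip ω₀ : ℝ), Setup m γ₀ (cq E) c₂ C₃ C₄ C₅ ι l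
      (gk (m ^ 2 - l ^ 2)) (qk (m ^ 2 - l ^ 2)) V₀ V₁ N P τ ζ lam ρ s p lip ω₀ ∧
      τ ≤ τs ∧ ζ ≤ σ * τ ^ 2

lemma exists_config (hC : StmtC) (hn : 2 ≤ Module.finrank ℝ E) {m p cA : ℝ} (hm : 0 < m)
    (hp : (Module.finrank ℝ E : ℝ) ≤ p) (hcA : 0 < cA) :
    ∃ γ₀ > 0, ∃ c₂ > 0, ∃ C₃ > 0, ∃ C₄ > 0, ∃ C₅ > 0, ∃ ι > 0, ∀ τs > 0, ∀ σ > 0,
      ∃ (V₀ V₁ : E → ℝ) (b₁ b₂ : ℝ), Config m p cA γ₀ c₂ C₃ C₄ C₅ ι τs σ V₀ V₁ b₁ b₂ := by
  obtain ⟨B, P, s, R₀, ι₀, hBm, hB01, hBe, hBs, hPm, hPR, hBP, hs0, hs1, hι₀, hI⟩ := hC E hn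
  have h2 := two_le_cast hn
  set n : ℝ := (Module.finrank ℝ E : ℝ) with hn'
  obtain ⟨R, hR⟩ : ∃ t : ℝ, t = max R₀ 1 := ⟨_, rfl⟩
  have hR1 : 1 ≤ R := hR ▸ le_max_right _ _
  have hR2 : R₀ ≤ R := hR ▸ le_max_left _ _
  clear hR
  have hR0 : 0 < R := by linarith
  have hcB := cB_pos (E := E)
  have hq := cq_pos hn
  have hH := cH_pos (E := E)
  have hJ := cJ_pos (E := E) (σ := 1 / 2) (by linarith)
  have hI1 := cI_nonneg (E := E) (n - 1)
  have hI2 := cI_nonneg (E := E) (n - 2)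
  have hp0 : 0 < p := by linarith
  obtain ⟨c₁, hc₁⟩ : ∃ t : ℝ, t = rexp (-2 * 1 - 4) * (8 * π) ^ (-n / 2) := ⟨_, rfl⟩
  have hc₁0 : 0 < c₁ := by rw [hc₁]; positivity
  obtain ⟨c₀, hc₀⟩ : ∃ t : ℝ, t = 2 / (c₁ * cB E) := ⟨_, rfl⟩
  have hc₀0 : 0 < c₀ := by rw [hc₀]; positivity
  obtain ⟨K, hK⟩ : ∃ t : ℝ, t = 16 * c₀ + 1 := ⟨_, rfl⟩
  have hK1 : 1 ≤ K := by linarith
  obtain ⟨D, hD⟩ : ∃ t : ℝ, t = 2 * m * cJ E (1 / 2) + cq E := ⟨_, rfl⟩
  have hD0 : 0 < D := by rw [hD]; positivity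
  obtain ⟨δ, hδ⟩ : ∃ t : ℝ, t = m / (4 * D * c₀ * (cI E (n - 1) + 1)) := ⟨_, rfl⟩
  have hδ0 : 0 < δ := by rw [hδ]; positivity
  obtain ⟨Cτ, hCτ⟩ : ∃ t : ℝ, t = cq E * (2 * (cI E (n - 1) + cB E) * R) := ⟨_, rfl⟩
  have hCτ0 : 0 < Cτ := by rw [hCτ]; positivity
  obtain ⟨θ, hθ⟩ : ∃ t : ℝ, t = n / (2 * p) := ⟨_, rfl⟩
  have hθ0 : 0 < θ := by rw [hθ]; positivity
  have hθ1 : θ ≤ 1 / 2 := by rw [hθ, div_le_div_iff₀ (by positivity) two_pos]; linarith
  obtain ⟨a, ha⟩ : ∃ t : ℝ, t = θ / 12 := ⟨_, rfl⟩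
  have ha0 : 0 < a := by rw [ha]; positivity
  have hJa := cJ_pos (E := E) (σ := a) (by linarith)
  have hIa := cI_nonneg (E := E) (n + 2 * a - 2)
  obtain ⟨Z₁, hZ₁⟩ : ∃ t : ℝ, t = K / m := ⟨_, rfl⟩
  obtain ⟨Z₂, hZ₂⟩ : ∃ t : ℝ, t = cJ E a * (2 * (cI E (n + 2 * a - 2) + cB E) * R ^ (2 - 2 * a)) := ⟨_, rfl⟩
  obtain ⟨Z₃, hZ₃⟩ : ∃ t : ℝ, t = c₀ / m * cH E := ⟨_, rfl⟩
  obtain ⟨Z₄, hZ₄⟩ : ∃ t : ℝ, t = √K * cJ E (1 / 2) * (2 * (cI E (n - 2) + cB E) * R ^ 2) := ⟨_, rfl⟩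
  obtain ⟨Z₅, hZ₅⟩ : ∃ t : ℝ, t = 2 * (cB E * R ^ n) := ⟨_, rfl⟩
  obtain ⟨Z₆, hZ₆⟩ : ∃ t : ℝ, t = 3 * R * cq E * (c₀ / m * (cB E * 4 ^ n)) := ⟨_, rfl⟩
  have z1 : 0 < Z₁ := by rw [hZ₁]; positivity
  have z2 : 0 < Z₂ := by rw [hZ₂]; positivity
  have z3 : 0 < Z₃ := by rw [hZ₃]; positivity
  have z4 : 0 < Z₄ := by rw [hZ₄]; positivity
  have z5 : 0 < Z₅ := by rw [hZ₅]; positivity
  have z6 : 0 < Z₆ := by rw [hZ₆]; positivity
  obtain ⟨Z, hZ⟩ : ∃ t : ℝ, t = Z₁ + Z₂ + Z₃ + Z₄ + Z₅ + Z₆ := ⟨_, rfl⟩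
  have y1 : Z₁ ≤ Z := by linarith
  have y2 : Z₂ ≤ Z := by linarith
  have y3 : Z₃ ≤ Z := by linarith
  have y4 : Z₄ ≤ Z := by linarith
  have y5 : Z₅ ≤ Z := by linarith
  have y6 : Z₆ ≤ Z := by linarith
  clear hZ
  refine ⟨c₀ / m, by positivity, rexp (-2 * K - 4) * (8 * π) ^ (-n / 2), by positivity,
    D * δ ^ (-(n - 1)), by positivity, cJ E (1 / 2), hJ, c₀ / m * (cB E * 2 ^ n), by positivity,
    ι₀ / (Cτ ^ 2 * (cB E * R ^ n)), by positivity, fun τs hτs σ hσ => ?_⟩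
  obtain ⟨ε, ⟨⟨⟨⟨⟨⟨⟨⟨E1, E2⟩, E3⟩, E4⟩, E5⟩, E6⟩, E7⟩, E8⟩, E9⟩, hε⟩ :=
    ((((((((((ev_small (C := 1) (η := 1) one_pos one_pos).and
    (ev_small (C := R) (η := 1 / 2) one_pos (by norm_num))).and
    (ev_small (C := K) (η := m ^ 2 / 2) (s := 4) (by norm_num) (by positivity))).and
    (ev_small (C := Cτ) (η := min τs (1 / 16)) (s := 1 - θ) (by linarith) (by positivity))).and
    (ev_small (C := Z) (η := σ * Cτ ^ 2) (s := θ / 2) (by positivity) (by positivity))).and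
    (ev_small (C := 2 * m * Z) (η := 1 / 16) (s := 2 - 3 * θ / 2) (by linarith) (by norm_num))).and
    (ev_small (C := Z) (η := 1 / 8) (s := 2 - 3 * θ / 2) (by linarith) (by norm_num))).and
    (ev_small (C := c₀ / m * (cB E ^ (1 / p) * 2)) (η := cA / 2) (s := 2) two_pos
      (by positivity))).and
    (ev_small (C := 2 * (cB E * R ^ n) ^ (1 / p)) (η := cA / 2) (s := θ) hθ0
      (by positivity))).and self_mem_nhdsWithin).exists
  have hε0 : 0 < ε := hε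
  rw [Real.rpow_one] at E1 E2
  have hε1 : ε ≤ 1 := by linarith
  obtain ⟨u, hu⟩ : ∃ t : ℝ, t = ε ^ (2 - 3 * θ / 2) := ⟨_, rfl⟩
  rw [← hu] at E6 E7
  have hu0 : 0 < u := by rw [hu]; positivity
  have hpow : ∀ t : ℝ, 2 - 3 * θ / 2 ≤ t → ε ^ t ≤ u := fun t ht =>
    hu ▸ Real.rpow_le_rpow_of_exponent_ge hε0 hε1 ht
  obtain ⟨L, hL⟩ : ∃ t : ℝ, t = ε ^ (-2 : ℝ) := ⟨_, rfl⟩
  have hL1 : 1 ≤ L := hL ▸ Real.one_le_rpow_of_pos_of_le_one_of_nonpos hε0 hε1 (by norm_num)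
  have hL0 : 0 < L := by linarith
  have hLi : 1 / L = ε ^ (2 : ℝ) := by rw [hL, Real.rpow_neg hε0.le]; simp
  have hLi2 : 1 / L ^ 2 = ε ^ (4 : ℝ) := by
    rw [← one_div_pow, hLi, ← Real.rpow_natCast, ← Real.rpow_mul hε0.le]; norm_num
  obtain ⟨A, hA⟩ : ∃ t : ℝ, t = ε ^ (-θ) := ⟨_, rfl⟩
  have hA0 : 0 < A := by rw [hA]; positivity
  obtain ⟨v, hv⟩ : ∃ t : ℝ, t = c₀ / (m * L ^ 2) := ⟨_, rfl⟩
  have hv0 : 0 < v := by rw [hv]; positivity
  obtain ⟨ρ, hρ⟩ : ∃ t : ℝ, t = ε * R := ⟨_, rfl⟩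
  have hρ0 : 0 < ρ := by rw [hρ]; positivity
  have hρL : ρ ≤ L / 2 := by rw [hρ]; linarith
  obtain ⟨U, hU⟩ : ∃ t : E → ℝ, t = fun x => B (ε⁻¹ • x) + P.indicator (fun _ => s) (ε⁻¹ • x) := ⟨_, rfl⟩
  obtain ⟨V₁, hV₁⟩ : ∃ t : E → ℝ, t = fun x => A * U x := ⟨_, rfl⟩
  have hnorm : ∀ x : E, ‖ε⁻¹ • x‖ = ‖x‖ / ε := fun x => by
    rw [norm_smul, Real.norm_of_nonneg (by positivity)]; field_simp
  have hPρ : ∀ x : E, ε⁻¹ • x ∈ P → ‖x‖ < ρ := fun x hx => by
    have := hPR hx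
    rw [mem_ball_zero_iff, hnorm, div_lt_iff₀ hε0] at this
    have e : R₀ * ε ≤ R * ε := by gcongr
    linarith
  have l₁ : Loc V₁ (2 * A) ρ := by
    rw [hV₁, hU]
    refine ⟨((hBm.comp (measurable_const_smul _)).add ((measurable_const.indicator hPm).comp
      (measurable_const_smul _))).const_mul A, fun y => mul_nonneg hA0.le (add_nonneg (hB01 _).1
      (indicator_nonneg (fun _ _ => hs0.le) _)), fun y => ?_, fun y hy => ?_, hρ0⟩
    · have e1 : P.indicator (fun _ => s) (ε⁻¹ • y) ≤ s := indicator_le_self' (fun _ _ => hs0.le) _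
      have e2 := (hB01 (ε⁻¹ • y)).2
      beta_reduce
      nlinarith
    · beta_reduce
      rw [hBs _ (by
        rw [hnorm, le_div_iff₀ hε0]
        have e : R₀ * ε ≤ R * ε := by gcongr
        linarith), indicator_of_notMem (fun h => by linarith [hPρ y h])]
      simp
  have l₀ : Loc (well v L : E → ℝ) v (2 * L) := loc_well hv0.le hL0
  obtain ⟨τ, hτ⟩ : ∃ t : ℝ, t = Cτ * ε ^ (1 - θ) := ⟨_, rfl⟩
  have hτe : cq E * (2 * A * (cI E (n - 1) + cB E) * ρ) = τ := by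
    rw [hτ, hCτ, hA, hρ, sub_eq_neg_add 1 θ, Real.rpow_add_one hε0.ne']; ring
  rw [← hτ] at E4
  have hτ16 : τ ≤ 1 / 16 := E4.trans (min_le_right _ _)
  obtain ⟨ζ, hζ⟩ : ∃ t : ℝ, t = Z * u := ⟨_, rfl⟩
  have hZu : ∀ {c : ℝ}, c ≤ Z → c * u ≤ ζ := fun hc => hζ ▸ mul_le_mul_of_nonneg_right hc hu0.le
  have mg : ∀ b, 1 / L ^ 2 ≤ b → Adm V₁ (gk b) ζ := fun b hb => by
    have hb0 : 0 < b := lt_of_lt_of_le (by positivity) hb
    refine (micro_g hn l₁ hb0 ha0 (by linarith)).mono (le_trans ?_ (hZu y2))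
    have e1 : b ^ (-a) ≤ ε ^ (-(4 * a)) := by
      calc b ^ (-a) ≤ (1 / L ^ 2) ^ (-a) :=
            Real.rpow_le_rpow_of_nonpos (by positivity) hb (by linarith)
        _ = _ := by rw [hLi2, ← Real.rpow_mul hε0.le]; congr 1; ring
    have e2 : u = ε ^ (-(4 * a)) * A * ε ^ (2 - 2 * a) := by
      rw [hA, ← Real.rpow_add hε0, ← Real.rpow_add hε0, hu]; congr 1; rw [ha]; ring
    rw [hρ, Real.mul_rpow hε0.le hR0.le, e2, hZ₂]
    calc _ ≤ ε ^ (-(4 * a)) * cJ E a * (2 * A * (cI E (n + 2 * a - 2) + cB E) *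
          (ε ^ (2 - 2 * a) * R ^ (2 - 2 * a))) := by gcongr
      _ = _ := by ring
  have mq : ∀ b, 0 ≤ b → Adm V₁ (fun z => qk b z * ‖z‖) τ := fun b hb =>
    (micro_q hn l₁ hb).mono hτe.le
  have mϱ : ∀ b, 1 / L ^ 2 ≤ b → Adm V₁ (fun z => 2 * m * gk b z + qk b z * ‖z‖) (1 / 8) :=
    fun b hb => (((mg b hb).const_mul (by positivity)).add_right
      (mq b (le_trans (by positivity) hb))).mono (by rw [hζ]; linarith)
  have Mq : ∀ b, 1 / L ^ 2 ≤ b → Adm (well v L : E → ℝ) (fun z => qk b z * ‖z‖) ζ := fun b hb => by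
    have hb0 : 0 < b := lt_of_lt_of_le (by positivity) hb
    refine (macro_q l₀ hb0).mono (le_trans ?_ (hZu y3))
    have e1 : 1 / L ≤ √b := by
      rw [Real.le_sqrt (by positivity) hb0.le, one_div_pow]; exact hb
    calc v * (cH E / √b) ≤ v * (cH E / (1 / L)) := by gcongr
      _ = Z₃ * (1 / L) := by rw [hv, hZ₃]; field_simp
      _ ≤ _ := by rw [hLi]; gcongr; exact hpow 2 (by linarith)
  have hsupp : ∀ x : E, well v L x + V₁ x ≠ 0 → ‖x‖ ≤ 2 * L := fun x hx => by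
    by_contra h
    rw [l₀.supp x (by linarith), l₁.supp x (by linarith), add_zero] at hx
    exact hx rfl
  have hlow : ∀ b K', 0 < b → b * L ^ 2 ≤ K' → ∀ x : E, (well v L x + V₁ x ≠ 0 ∨ x = 0) →
      ∀ᵐ y, well v L y + V₁ y ≠ 0 →
        rexp (-2 * K' - 4) * (8 * π) ^ (-n / 2) * L ^ (-(n - 2)) ≤ gk b (x - y) := by
    intro b K' hb hK' x hx
    filter_upwards [ae_sub_ne hn x] with y hy hy0
    refine gk_ge hn hb hL0 hK' hy ((norm_sub_le _ _).trans ?_)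
    have e1 := hsupp y hy0
    rcases hx with hx | hx
    · linarith [hsupp x hx]
    · rw [hx, norm_zero]; linarith
  have hb12 : 1 / L ^ 2 ≤ K / L ^ 2 := by gcongr
  refine ⟨well v L, V₁, 1 / L ^ 2, K / L ^ 2, by positivity, hb12, ?_, l₀.nice, l₁.nice,
    (l₀.memLp hp0).add (l₁.memLp hp0), ?_, fun b hb => ?_, ?_, fun l hl hlm hb1 hb2 => ?_⟩
  · rw [div_eq_mul_one_div, hLi2]
    linarith only [sq_pos_of_pos hm, E3]
  · refine (eLpNorm_add_le l₀.meas.aestronglyMeasurable l₁.meas.aestronglyMeasurable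
      (ENNReal.one_le_ofReal.2 (by linarith))).trans
      ((add_le_add (l₀.eLpNorm_le hp0) (l₁.eLpNorm_le hp0)).trans ?_)
    rw [← ENNReal.ofReal_add (by positivity) (by positivity)]
    refine ENNReal.ofReal_le_ofReal ?_
    have e1 : v * (cB E * (2 * L) ^ n) ^ (1 / p) ≤ cA / 2 := by
      refine le_trans ?_ E8
      rw [Real.mul_rpow hcB.le (by positivity), ← Real.rpow_mul (by positivity), ← hLi]
      have e2 : (2 * L) ^ (n * (1 / p)) ≤ 2 * L := by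
        calc _ ≤ (2 * L) ^ (1 : ℝ) := Real.rpow_le_rpow_of_exponent_le (by linarith) (by
              rw [mul_one_div, div_le_one hp0]; exact hp)
          _ = _ := Real.rpow_one _
      calc _ ≤ v * (cB E ^ (1 / p) * (2 * L)) := by gcongr
        _ = _ := by rw [hv]; field_simp
    have e2 : 2 * A * (cB E * ρ ^ n) ^ (1 / p) ≤ cA / 2 := by
      refine le_trans (le_of_eq ?_) E9
      have e3 : ε ^ θ = A * (ε ^ n) ^ (1 / p) := by
        rw [hA, ← Real.rpow_mul hε0.le, ← Real.rpow_add hε0]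
        congr 1
        rw [hθ]; field_simp; ring
      rw [hρ, Real.mul_rpow hε0.le hR0.le, e3, mul_left_comm (cB E),
        Real.mul_rpow (by positivity) (by positivity)]
      ring
    linarith
  · have hb1 := hb12.trans hb
    have hb0 : 0 < b := lt_of_lt_of_le (by positivity) hb1
    refine ((((macro_g l₀ hb0).const_mul (by positivity)).add_right (Mq b hb1)).add_left
      (mϱ b hb1)).mono ?_
    have e1 : 2 * m * (v / b) ≤ 1 / 8 := by
      calc 2 * m * (v / b) ≤ 2 * m * (v / (K / L ^ 2)) := by gcongr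
        _ = 2 * c₀ / K := by rw [hv]; field_simp
        _ ≤ 1 / 8 := by rw [div_le_div_iff₀ (by positivity) (by norm_num)]; linarith
    linarith
  · refine ⟨c₁ * L ^ (-(n - 2)), by positivity, ?_, fun x hx =>
      hc₁ ▸ hlow (1 / L ^ 2) 1 (by positivity) (le_of_eq (by field_simp)) x (Or.inl hx)⟩
    rw [integral_add l₀.nice.integrable l₁.nice.integrable]
    have e1 := integral_well hn hv0.le hL0 (E := E)
    have e2 : 0 ≤ ∫ y, V₁ y := integral_nonneg l₁.nonneg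
    have e3 : m * (c₁ * L ^ (-(n - 2))) * (v * (cB E * L ^ n)) = 2 := by
      rw [hv, hc₀, neg_sub, Real.rpow_sub hL0, Real.rpow_two]
      field_simp
    have e4 : 0 < m * (c₁ * L ^ (-(n - 2))) := by positivity
    nlinarith only [mul_le_mul_of_nonneg_left e1 e4.le, mul_nonneg e4.le e2, e3]
  · set b := m ^ 2 - l ^ 2 with hb
    have hb0 : 0 < b := lt_of_lt_of_le (by positivity) hb1
    refine ⟨Metric.ball 0 (δ * L), {x | ε⁻¹ • x ∈ P}, τ, ζ, L ^ (-(n - 2)), ρ, A * s,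
      cB E * ρ ^ n, 3 * L * ρ * (cq E * (L / 2) ^ (-n)), v * (cB E * (2 * L) ^ n),
      ⟨l₀.nice, l₁.nice, hl, hlm, ?_, by positivity,
        Real.rpow_le_one_of_one_le_of_nonpos hL1 (by linarith), by rw [hτ]; positivity,
        (macro_g l₀ hb0).mono ?_, mg b hb1, Mq b hb1, mq b hb0.le, (micro_a hn l₁).mono hτe.le,
        (micro_diff hn l₁ hb0.le).mono ?_,
        integral_le_of_supp l₀.pos l₀.meas l₀.nonneg l₀.le l₀.supp, le_of_eq ?_,
        (integral_le_of_supp l₁.pos l₁.meas l₁.nonneg l₁.le l₁.supp).trans ?_, by positivity,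
        fun x hx y hy => g_lip hn hb0 hL0 hρL hx (well_ne hy).1 (well_ne hy).2, ?_,
        Metric.isOpen_ball.measurableSet, fun z => by simp, ?_,
        fun z hz => hD ▸ rho_far hn hm hL1 hb1 hδ0 hz,
        hlow b K hb0 (by rwa [le_div_iff₀ (by positivity)] at hb2),
        fun y hy => g_up hn hL0 hb1 (well_ne hy).1, hρ0, fun y hy => ?_,
        measurable_const_smul _ hPm, fun x hx => mem_ball_zero_iff.2 (hPρ x hx), by positivity,
        fun x hx => ?_, fun x hx hx' => ?_, by positivity, ?_, ?_⟩,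
      E4.trans (min_le_left _ _), ?_⟩
    · refine le_trans ?_ (hZu y1)
      have e1 : (m - l) * m ≤ K * ε ^ (4 : ℝ) := by
        rw [← hLi2, mul_one_div]
        refine le_trans ?_ hb2
        rw [hb]
        nlinarith only [hl, hlm]
      calc m - l ≤ K * ε ^ (4 : ℝ) / m := by rwa [le_div_iff₀ hm]
        _ = Z₁ * ε ^ (4 : ℝ) := by rw [hZ₁]; ring
        _ ≤ _ := by gcongr; exact hpow 4 (by linarith)
    · calc v / b ≤ v / (1 / L ^ 2) := by gcongr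
        _ = _ := by rw [hv]; field_simp
    · refine le_trans ?_ (hZu y4)
      have e1 : √b ≤ √K := Real.sqrt_le_sqrt (hb2.trans (div_le_self (by linarith)
        (one_le_pow₀ hL1)))
      have e2 : A * ε ^ 2 ≤ u := by
        rw [hA, ← Real.rpow_two, ← Real.rpow_add hε0]; exact hpow _ (by linarith)
      calc _ ≤ √K * cJ E (1 / 2) * (2 * A * (cI E (n - 2) + cB E) * ρ ^ 2) := by gcongr
        _ = Z₄ * (A * ε ^ 2) := by rw [hZ₄, hρ]; ring
        _ ≤ _ := by gcongr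
    · rw [hv, Real.mul_rpow (by norm_num) hL0.le, neg_sub, Real.rpow_sub hL0, Real.rpow_two]
      field_simp
    · refine le_trans ?_ (hZu y5)
      have e2 : A * ε ^ n ≤ u := by
        rw [hA, ← Real.rpow_add hε0]; exact hpow _ (by linarith)
      calc _ = Z₅ * (A * ε ^ n) := by rw [hZ₅, hρ, Real.mul_rpow hε0.le hR0.le]; ring
        _ ≤ _ := by gcongr
    · refine le_trans ?_ (hZu y6)
      have e1 : (2 * L) ^ n = 4 ^ n * (L / 2) ^ n := by
        rw [← Real.mul_rpow (by norm_num) (by positivity)]; congr 1; ring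
      have e2 : 0 < (L / 2) ^ n := by positivity
      calc _ = Z₆ * (ε * (1 / L)) := by
            rw [e1, Real.rpow_neg (by positivity), hZ₆, hv, hρ]; field_simp
        _ ≤ Z₆ * (1 * u) := by rw [hLi]; gcongr; exact hpow 2 (by linarith)
        _ = _ := by ring
    · refine ((macro_near hn l₀ hm hL1 hb1 hδ0).add_left ((mϱ b hb1).of_le l₁.meas l₁.nonneg
        ((((measurable_gk b).const_mul _).add ((measurable_qk b).mul measurable_norm)).indicator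
          Metric.isOpen_ball.measurableSet) (fun z => indicator_nonneg (fun z _ => ?_) z)
        fun x => Filter.Eventually.of_forall fun y => indicator_le_self' (fun z _ => ?_) _)).mono ?_
      · have := gk_nonneg b z
        have := qk_nonneg b z
        positivity
      · have := gk_nonneg b z
        have := qk_nonneg b z
        positivity
      · have e1 : D * L * (v * (cI E (n - 1) * (δ * L))) ≤ 1 / 4 := by
          calc _ ≤ D * L * (v * ((cI E (n - 1) + 1) * (δ * L))) := by gcongr; linarith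
            _ = _ := by rw [hv, hδ]; field_simp
        rw [← hD]
        linarith
    · by_contra h
      exact hy (l₁.supp y (not_lt.1 h))
    · have hx' : ε⁻¹ • x ∈ P := hx
      have e0 : well v L x = 0 := by
        by_contra h
        linarith [(well_ne h).1, hPρ x hx']
      have e1 : -(ε⁻¹ • x) ∉ P := (hBP _ hx').2
      refine ⟨?_, ?_, by simpa using e1⟩
      · simp only [hV₁, hU]
        rw [e0, (hBP _ hx').1, indicator_of_mem hx']; ring
      · simp only [hV₁, hU]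
        rw [well_neg, e0, smul_neg, hBe, (hBP _ hx').1, indicator_of_notMem e1]; ring
    · have e1 : ε⁻¹ • x ∉ P := hx
      have e2 : -(ε⁻¹ • x) ∉ P := by simpa using hx'
      simp only [hV₁, hU]
      rw [well_neg, smul_neg, hBe, indicator_of_notMem e1, indicator_of_notMem e2]
    · rw [← real_ball hρ0]
      exact measureReal_mono (fun x hx => mem_ball_zero_iff.2 (hPρ x hx)) measure_ball_lt_top.ne
    · rw [hV₁, Icub_smul, hU]
      refine (mul_le_mul_of_nonneg_left (hI ε hε0) (sq_nonneg A)).trans (le_of_eq ?_)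
      rw [hτ, hρ, Real.mul_rpow hε0.le hR0.le, sub_eq_neg_add 1 θ, Real.rpow_add_one hε0.ne', ← hA,
        hn', Real.rpow_natCast ε]
      field_simp
      ring
    · have e1 : u = ε ^ (θ / 2) * (ε ^ (1 - θ)) ^ 2 := by
        rw [← Real.rpow_two, ← Real.rpow_mul hε0.le, ← Real.rpow_add hε0, hu]
        congr 1; ring
      rw [hζ, e1, hτ, mul_pow, ← mul_assoc, ← mul_assoc]
      gcongr

end Pool.Agent.MP_0b7119_mp.G
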