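import Pool.Agent.MP_0b7119_mp.GDefs
import Pool.Agent.MP_0b7119_mp.Iface
import Pool.Agent.MP_0b7119_mp.JobK1
import Pool.Agent.MP_0b7119_mp.JobD
import Pool.Agent.MP_0b7119_mp.JobD1
import Pool.Agent.MP_0b7119_mp.JobD2

section

/-! Job C, part 1: the Newton field of bounded densities and the trilinear form. -/

open Set MeasureTheory Module
open scoped ENNReal RealInnerProductSpace

namespace Pool.Agent.MP_0b7119_mp.G.C

variable {E : Type} [NormedAddCommGroup E] [InnerProductSpace ℝ E] [FiniteDimensional ℝ E]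
  [MeasurableSpace E] [BorelSpace E]

omit [FiniteDimensional ℝ E] [MeasurableSpace E] [BorelSpace E] in
lemma kN_neg (z : E) : kN (-z) = -kN z := by simp [kN]

omit [FiniteDimensional ℝ E] [MeasurableSpace E] [BorelSpace E] in
lemma kN_smul {t : ℝ} (ht : 0 < t) (z : E) :
    kN (t • z) = (t * (t ^ finrank ℝ E)⁻¹) • kN z := by
  simp only [kN, norm_smul, Real.norm_eq_abs, abs_of_pos ht, mul_pow, smul_smul, mul_inv]
  congr 1; ring

lemma measurable_kN : Measurable (kN : E → E) := by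
  unfold kN
  exact ((measurable_norm.pow_const _).inv).smul measurable_id

omit [FiniteDimensional ℝ E] [MeasurableSpace E] [BorelSpace E] in
lemma norm_kN (z : E) : ‖kN z‖ = (‖z‖ ^ finrank ℝ E)⁻¹ * ‖z‖ := by
  simp [kN, norm_smul]

/-- The singular part of the kernel norm. -/
noncomputable def hN (z : E) : ℝ := (Metric.ball (0 : E) 1).indicator (fun z => ‖kN z‖) z

omit [FiniteDimensional ℝ E] [MeasurableSpace E] [BorelSpace E] in
lemma hN_nonneg (z : E) : 0 ≤ hN z := indicator_nonneg (fun _ _ => norm_nonneg _) z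

lemma integrable_hN (hd : 2 ≤ finrank ℝ E) : Integrable (hN : E → ℝ) volume := by
  unfold hN
  rw [integrable_indicator_iff Metric.isOpen_ball.measurableSet]
  refine integrableOn_ball_of_norm_le_rpow (C := 1) (α := (finrank ℝ E : ℝ) - 1) (by omega)
    (by linarith) (Filter.Eventually.of_forall fun z => ?_)
    measurable_kN.norm.aestronglyMeasurable
  rw [norm_norm, norm_kN, one_mul]
  rcases eq_or_lt_of_le (norm_nonneg z) with h | h
  · rw [← h, mul_zero]; exact Real.rpow_nonneg le_rfl _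
  · rw [neg_sub, Real.rpow_sub h, Real.rpow_one, Real.rpow_natCast, div_eq_inv_mul]

omit [FiniteDimensional ℝ E] [MeasurableSpace E] [BorelSpace E] in
lemma norm_kN_le (hd : 2 ≤ finrank ℝ E) (z : E) : ‖kN z‖ ≤ hN z + 1 := by
  unfold hN
  by_cases hz : z ∈ Metric.ball (0 : E) 1
  · rw [indicator_of_mem hz]; linarith
  · rw [indicator_of_notMem hz, zero_add, norm_kN]
    have h1 : 1 ≤ ‖z‖ := by simpa using hz
    have h2 : ‖z‖ ≤ ‖z‖ ^ finrank ℝ E := by
      calc ‖z‖ = ‖z‖ ^ 1 := (pow_one _).symm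
        _ ≤ _ := pow_le_pow_right₀ h1 (by omega)
    rw [inv_mul_le_iff₀ (by positivity)]; linarith

/-- Bounded measurable densities with bounded support. -/
structure Nb (A : E → ℝ) : Prop where
  meas : Measurable A
  bdd : ∃ C, ∀ x, |A x| ≤ C
  supp : ∃ R, ∀ x, R ≤ ‖x‖ → A x = 0

lemma Nb.integrable {A : E → ℝ} (h : Nb A) : Integrable A volume := by
  obtain ⟨C, hC⟩ := h.bdd
  obtain ⟨R, hR⟩ := h.supp
  have h1 : Integrable ((Metric.ball (0 : E) R).indicator fun _ => C) volume := by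
    rw [integrable_indicator_iff Metric.isOpen_ball.measurableSet]
    exact integrableOn_const (measure_ball_lt_top.ne)
  refine h1.mono' h.meas.aestronglyMeasurable (Filter.Eventually.of_forall fun x => ?_)
  by_cases hx : x ∈ Metric.ball (0 : E) R
  · rw [indicator_of_mem hx]; exact hC x
  · rw [indicator_of_notMem hx, hR x (by simpa using hx)]; simp

omit [InnerProductSpace ℝ E] [FiniteDimensional ℝ E] [BorelSpace E] in
lemma Nb.add {A C : E → ℝ} (hA : Nb A) (hC : Nb C) : Nb (fun x => A x + C x) := by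
  obtain ⟨a, ha⟩ := hA.bdd
  obtain ⟨c, hc⟩ := hC.bdd
  obtain ⟨R, hR⟩ := hA.supp
  obtain ⟨S, hS⟩ := hC.supp
  refine ⟨hA.meas.add hC.meas, ⟨a + c, fun x => (abs_add_le _ _).trans (add_le_add (ha x) (hc x))⟩,
    ⟨max R S, fun x hx => ?_⟩⟩
  rw [hR x ((le_max_left _ _).trans hx), hS x ((le_max_right _ _).trans hx), add_zero]

omit [InnerProductSpace ℝ E] [FiniteDimensional ℝ E] [BorelSpace E] in
lemma Nb.const_mul {A : E → ℝ} (hA : Nb A) (c : ℝ) : Nb (fun x => c * A x) := by
  obtain ⟨a, ha⟩ := hA.bdd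
  obtain ⟨R, hR⟩ := hA.supp
  refine ⟨hA.meas.const_mul c, ⟨|c| * a, fun x => ?_⟩, ⟨R, fun x hx => by rw [hR x hx, mul_zero]⟩⟩
  rw [abs_mul]; exact mul_le_mul_of_nonneg_left (ha x) (abs_nonneg c)

omit [InnerProductSpace ℝ E] [FiniteDimensional ℝ E] in
lemma Nb.refl {A : E → ℝ} (hA : Nb A) : Nb (fun x => A (-x)) := by
  obtain ⟨a, ha⟩ := hA.bdd
  obtain ⟨R, hR⟩ := hA.supp
  exact ⟨hA.meas.comp measurable_neg, ⟨a, fun x => ha _⟩, ⟨R, fun x hx => hR _ (by simpa)⟩⟩

omit [InnerProductSpace ℝ E] [FiniteDimensional ℝ E] [BorelSpace E] in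
lemma Nb.sub {A C : E → ℝ} (hA : Nb A) (hC : Nb C) : Nb (fun x => A x - C x) := by
  have := hA.add (hC.const_mul (-1))
  simpa [sub_eq_add_neg] using this

omit [InnerProductSpace ℝ E] [FiniteDimensional ℝ E] [BorelSpace E] in
lemma nb_indicator {S : Set E} (hS : MeasurableSet S) {R : ℝ} (hR : S ⊆ Metric.ball 0 R) :
    Nb (S.indicator fun _ => (1 : ℝ)) := by
  refine ⟨measurable_const.indicator hS, ⟨1, fun x => ?_⟩, ⟨R, fun x hx => ?_⟩⟩
  · by_cases h : x ∈ S <;> simp [h]
  · refine indicator_of_notMem (fun h => ?_) _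
    have := hR h
    simp only [Metric.mem_ball, dist_zero_right] at this
    linarith

omit [FiniteDimensional ℝ E] [MeasurableSpace E] [BorelSpace E] in
lemma Nb.dom (hd : 2 ≤ finrank ℝ E) {A : E → ℝ} {C : ℝ} (hC : ∀ x, |A x| ≤ C) (x y : E) :
    ‖A y • kN (x - y)‖ ≤ C * hN (x - y) + |A y| := by
  rw [norm_smul, Real.norm_eq_abs]
  have h1 := norm_kN_le hd (x - y)
  have h2 := hN_nonneg (x - y)
  have h3 := hC y
  have h4 := abs_nonneg (A y)
  nlinarith

lemma Nb.integrable_fld (hd : 2 ≤ finrank ℝ E) {A : E → ℝ} (hA : Nb A) (x : E) :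
    Integrable (fun y => A y • kN (x - y)) volume := by
  obtain ⟨C, hC⟩ := hA.bdd
  refine Integrable.mono' ((((integrable_hN hd).comp_sub_left x).const_mul C).add
    hA.integrable.abs) ?_ (Filter.Eventually.of_forall fun y => Nb.dom hd hC x y)
  exact (hA.meas.smul (measurable_kN.comp (measurable_const.sub measurable_id))).aestronglyMeasurable

lemma Nb.fld_bdd (hd : 2 ≤ finrank ℝ E) {A : E → ℝ} (hA : Nb A) :
    ∃ M, 0 ≤ M ∧ ∀ x, ‖Fld A x‖ ≤ M := by
  obtain ⟨C, hC⟩ := hA.bdd
  refine ⟨max 0 (C * (∫ z : E, hN z) + ∫ y, |A y|), le_max_left _ _, fun x => le_max_of_le_right ?_⟩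
  have h1 := (((integrable_hN hd).comp_sub_left x).const_mul C)
  refine (norm_integral_le_of_norm_le (h1.add hA.integrable.abs)
    (Filter.Eventually.of_forall fun y => Nb.dom hd hC x y)).trans (le_of_eq ?_)
  have := integral_add h1 hA.integrable.abs
  simp only [Pi.add_apply]
  rw [this, integral_const_mul, integral_sub_left_eq_self (hN : E → ℝ) volume x]

lemma Nb.fld_meas {A : E → ℝ} (hA : Nb A) : Measurable (Fld A) := by
  have : StronglyMeasurable (fun p : E × E => A p.2 • kN (p.1 - p.2)) :=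
    ((hA.meas.comp measurable_snd).smul
      (measurable_kN.comp (measurable_fst.sub measurable_snd))).stronglyMeasurable
  exact (this.integral_prod_right' (ν := volume)).measurable

lemma fld_refl (A : E → ℝ) (x : E) : Fld (fun y => A (-y)) x = -Fld A (-x) := by
  unfold Fld
  rw [← integral_neg, ← integral_neg_eq_self]
  congr 1; ext y
  simp only [neg_neg]
  rw [← smul_neg, ← kN_neg]; congr 2; abel

lemma fld_add (hd : 2 ≤ finrank ℝ E) {A C : E → ℝ} (hA : Nb A) (hC : Nb C) (x : E) :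
    Fld (fun y => A y + C y) x = Fld A x + Fld C x := by
  unfold Fld
  rw [← integral_add (hA.integrable_fld hd x) (hC.integrable_fld hd x)]
  simp only [add_smul]

lemma fld_const_mul (c : ℝ) (A : E → ℝ) (x : E) :
    Fld (fun y => c * A y) x = c • Fld A x := by
  unfold Fld
  rw [← integral_smul]
  simp only [mul_smul]

lemma fld_sub (hd : 2 ≤ finrank ℝ E) {A C : E → ℝ} (hA : Nb A) (hC : Nb C) (x : E) :
    Fld (fun y => A y - C y) x = Fld A x - Fld C x := by
  unfold Fld
  rw [← integral_sub (hA.integrable_fld hd x) (hC.integrable_fld hd x)]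
  simp only [sub_smul]

/-- A bounded measurable function times a density is integrable. -/
lemma Nb.integrable_mul {A g : E → ℝ} (hA : Nb A) (hg : Measurable g) {M : ℝ}
    (hM : ∀ x, |g x| ≤ M) : Integrable (fun x => A x * g x) volume := by
  refine Integrable.mono' (hA.integrable.abs.mul_const M) (hA.meas.mul hg).aestronglyMeasurable
    (Filter.Eventually.of_forall fun x => ?_)
  rw [Real.norm_eq_abs, abs_mul]
  exact mul_le_mul_of_nonneg_left (hM x) (abs_nonneg _)

/-- The trilinear form. -/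
noncomputable def Lam (A C D : E → ℝ) : ℝ := ∫ x, A x * ⟪Fld C x, Fld D x⟫

/-- The bilinear trace term. -/
noncomputable def TT (A C : E → ℝ) (x : E) : ℝ := ∫ y, A y * ⟪kN (x - y), Fld C y⟫

lemma integrable_lam (hd : 2 ≤ finrank ℝ E) {A C D : E → ℝ} (hA : Nb A) (hC : Nb C) (hD : Nb D) :
    Integrable (fun x => A x * ⟪Fld C x, Fld D x⟫) volume := by
  obtain ⟨M, hM0, hM⟩ := hC.fld_bdd hd
  obtain ⟨N, -, hN⟩ := hD.fld_bdd hd
  refine hA.integrable_mul (hC.fld_meas.inner hD.fld_meas) (M := M * N) fun x => ?_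
  exact (abs_real_inner_le_norm _ _).trans (mul_le_mul (hM x) (hN x) (norm_nonneg _) hM0)

lemma integrable_prod (hd : 2 ≤ finrank ℝ E) {A C D : E → ℝ} (hA : Nb A) (hC : Nb C)
    (hD : Nb D) :
    Integrable (fun p : E × E => A p.1 * (C p.2 * ⟪kN (p.1 - p.2), Fld D p.2⟫))
      (volume.prod volume) := by
  obtain ⟨M, hM0, hM⟩ := hD.fld_bdd hd
  obtain ⟨a, ha⟩ := hA.bdd
  have h1 := hC.integrable.abs.convolution_integrand (ContinuousLinearMap.mul ℝ ℝ)
    (integrable_hN hd)
  have h2 := hA.integrable.abs.mul_prod hC.integrable.abs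
  refine Integrable.mono' (((h1.const_mul a).add h2).mul_const M) ?_
    (Filter.Eventually.of_forall fun p => ?_)
  · exact ((hA.meas.comp measurable_fst).mul ((hC.meas.comp measurable_snd).mul
      ((measurable_kN.comp (measurable_fst.sub measurable_snd)).inner
        (hD.fld_meas.comp measurable_snd)))).aestronglyMeasurable
  · simp only [Real.norm_eq_abs, abs_mul, Pi.add_apply, ContinuousLinearMap.mul_apply']
    have e1 : |⟪kN (p.1 - p.2), Fld D p.2⟫| ≤ (hN (p.1 - p.2) + 1) * M :=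
      (abs_real_inner_le_norm _ _).trans (mul_le_mul (norm_kN_le hd _) (hM _) (norm_nonneg _)
        (by linarith [hN_nonneg (p.1 - p.2)]))
    have e2 := ha p.1
    have e3 := abs_nonneg (A p.1)
    have e4 := abs_nonneg (C p.2)
    have e5 := hN_nonneg (p.1 - p.2)
    calc |A p.1| * (|C p.2| * |⟪kN (p.1 - p.2), Fld D p.2⟫|)
        ≤ |A p.1| * (|C p.2| * ((hN (p.1 - p.2) + 1) * M)) := by gcongr
      _ = (|A p.1| * (|C p.2| * hN (p.1 - p.2)) + |A p.1| * |C p.2|) * M := by ring
      _ ≤ (a * (|C p.2| * hN (p.1 - p.2)) + |A p.1| * |C p.2|) * M := by gcongr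

lemma integrable_tt (hd : 2 ≤ finrank ℝ E) {A C D : E → ℝ} (hA : Nb A) (hC : Nb C)
    (hD : Nb D) : Integrable (fun x => A x * TT C D x) volume := by
  have := (integrable_prod hd hA hC hD).integral_prod_left
  refine this.congr (Filter.Eventually.of_forall fun x => ?_)
  simp only [TT]
  rw [integral_const_mul]

lemma integral_tt (hd : 2 ≤ finrank ℝ E) {A C D : E → ℝ} (hA : Nb A) (hC : Nb C)
    (hD : Nb D) : ∫ x, A x * TT C D x = -Lam C A D := by
  have h := integral_integral_swap (f := fun x y : E => A x * (C y * ⟪kN (x - y), Fld D y⟫))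
    (integrable_prod hd hA hC hD)
  have h1 : ∫ x, A x * TT C D x = ∫ x, ∫ y, A x * (C y * ⟪kN (x - y), Fld D y⟫) := by
    congr 1; ext x; simp only [TT]; rw [integral_const_mul]
  rw [h1, h, Lam, ← integral_neg]
  congr 1; ext y
  have h2 : Fld A y = ∫ x, A x • kN (y - x) := rfl
  rw [h2, real_inner_comm, ← integral_inner (hA.integrable_fld hd y), ← integral_const_mul,
    ← integral_neg]
  congr 1; ext x
  rw [inner_smul_right, ← neg_sub x y, kN_neg, inner_neg_right, real_inner_comm]; ring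

lemma lam_refl (A C D : E → ℝ) :
    Lam (fun x => A (-x)) (fun x => C (-x)) (fun x => D (-x)) = Lam A C D := by
  unfold Lam
  rw [← integral_neg_eq_self (fun x => A x * ⟪Fld C x, Fld D x⟫)]
  congr 1; ext x
  rw [fld_refl, fld_refl, inner_neg_neg]

lemma lam_comm (A C D : E → ℝ) : Lam A C D = Lam A D C := by
  unfold Lam; simp only [real_inner_comm]

lemma lam_add₁ (hd : 2 ≤ finrank ℝ E) {A A' C D : E → ℝ} (hA : Nb A) (hA' : Nb A') (hC : Nb C)
    (hD : Nb D) (c : ℝ) : Lam (fun x => A x + c * A' x) C D = Lam A C D + c * Lam A' C D := by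
  unfold Lam
  rw [← integral_const_mul, ← integral_add (integrable_lam hd hA hC hD)
    ((integrable_lam hd hA' hC hD).const_mul c)]
  congr 1; ext x; ring

lemma lam_add₃ (hd : 2 ≤ finrank ℝ E) {A C D D' : E → ℝ} (hA : Nb A) (hC : Nb C)
    (hD : Nb D) (hD' : Nb D') (c : ℝ) :
    Lam A C (fun x => D x + c * D' x) = Lam A C D + c * Lam A C D' := by
  unfold Lam
  rw [← integral_const_mul, ← integral_add (integrable_lam hd hA hC hD)
    ((integrable_lam hd hA hC hD').const_mul c)]
  congr 1; ext x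
  rw [fld_add hd hD (hD'.const_mul c), fld_const_mul, inner_add_right, inner_smul_right]; ring

lemma lam_add₂ (hd : 2 ≤ finrank ℝ E) {A C C' D : E → ℝ} (hA : Nb A) (hC : Nb C)
    (hC' : Nb C') (hD : Nb D) (c : ℝ) :
    Lam A (fun x => C x + c * C' x) D = Lam A C D + c * Lam A C' D := by
  rw [lam_comm, lam_add₃ hd hA hD hC hC', lam_comm A D, lam_comm A D]

lemma lam_neg₁ (A C D : E → ℝ) : Lam (fun x => -A x) C D = -Lam A C D := by
  unfold Lam; rw [← integral_neg]; simp

lemma lam_neg₃ (A C D : E → ℝ) : Lam A C (fun x => -D x) = -Lam A C D := by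
  unfold Lam; rw [← integral_neg]
  congr 1; ext x
  have := fld_const_mul (-1) D x
  simp only [neg_mul, one_mul, neg_smul, one_smul] at this
  rw [this, inner_neg_right]; ring

lemma lam_neg₂ (A C D : E → ℝ) : Lam A (fun x => -C x) D = -Lam A C D := by
  rw [lam_comm, lam_neg₃, lam_comm]

end Pool.Agent.MP_0b7119_mp.G.C

end

section

/-! Job C, part 2: scaling and expansion of the cubic functional. -/

open Set MeasureTheory Module
open scoped ENNReal RealInnerProductSpace

namespace Pool.Agent.MP_0b7119_mp.G.C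

variable {E : Type} [NormedAddCommGroup E] [InnerProductSpace ℝ E] [FiniteDimensional ℝ E]
  [MeasurableSpace E] [BorelSpace E]

omit [FiniteDimensional ℝ E] [MeasurableSpace E] [BorelSpace E] in
lemma kN_sub_scale {ε : ℝ} (hε : 0 < ε) (x y : E) :
    kN (x - y) = (ε * (ε ^ finrank ℝ E)⁻¹) • kN (ε⁻¹ • x - ε⁻¹ • y) := by
  rw [← kN_smul hε, smul_sub, smul_inv_smul₀ hε.ne', smul_inv_smul₀ hε.ne']

lemma fld_scale (U : E → ℝ) {ε : ℝ} (hε : 0 < ε) (x : E) :
    Fld (fun y => U (ε⁻¹ • y)) x = ε • Fld U (ε⁻¹ • x) := by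
  unfold Fld
  have h := Measure.integral_comp_inv_smul_of_nonneg volume
    (fun w : E => U w • ((ε * (ε ^ finrank ℝ E)⁻¹) • kN (ε⁻¹ • x - w))) hε.le
  have h1 : ∀ y : E, U (ε⁻¹ • y) • kN (x - y) =
      U (ε⁻¹ • y) • ((ε * (ε ^ finrank ℝ E)⁻¹) • kN (ε⁻¹ • x - ε⁻¹ • y)) := fun y => by
    rw [← kN_sub_scale hε]
  simp only [h1]
  rw [h]
  simp only [smul_comm (U _) (ε * (ε ^ finrank ℝ E)⁻¹)]
  rw [integral_smul, smul_smul]
  congr 1
  field_simp

lemma trc_scale (U : E → ℝ) {ε : ℝ} (hε : 0 < ε) (x : E) :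
    Trc (fun y => U (ε⁻¹ • y)) x = ε ^ 2 * Trc U (ε⁻¹ • x) := by
  unfold Trc
  have h := Measure.integral_comp_inv_smul_of_nonneg volume
    (fun w : E => (ε * (ε ^ finrank ℝ E)⁻¹ * ε) * (U w * ⟪kN (ε⁻¹ • x - w), Fld U w⟫)) hε.le
  have h1 : ∀ y : E, U (ε⁻¹ • y) * ⟪kN (x - y), Fld (fun y => U (ε⁻¹ • y)) y⟫ =
      (ε * (ε ^ finrank ℝ E)⁻¹ * ε) *
        (U (ε⁻¹ • y) * ⟪kN (ε⁻¹ • x - ε⁻¹ • y), Fld U (ε⁻¹ • y)⟫) := fun y => by
    rw [fld_scale U hε, kN_sub_scale hε x y, inner_smul_left, inner_smul_right]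
    simp only [conj_trivial]; ring
  simp only [h1]
  rw [h, integral_const_mul, smul_eq_mul, ← mul_assoc]
  congr 1
  field_simp

lemma icub_scale (U : E → ℝ) {P : Set E} (hP : MeasurableSet P) {ε : ℝ} (hε : 0 < ε) :
    Icub (fun y => U (ε⁻¹ • y)) {x | ε⁻¹ • x ∈ P} = ε ^ (finrank ℝ E + 2) * Icub U P := by
  unfold Icub
  have hP' : MeasurableSet {x : E | ε⁻¹ • x ∈ P} := (measurable_const_smul ε⁻¹) hP
  rw [← integral_indicator hP', ← integral_indicator hP]
  have h := Measure.integral_comp_inv_smul_of_nonneg volume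
    (fun w : E => ε ^ 2 * P.indicator (fun x =>
      ‖Fld U x‖ ^ 2 + ⟪Fld U x, Fld U (-x)⟫ - Trc U x + Trc U (-x)) w) hε.le
  rw [pow_add, mul_assoc, ← integral_const_mul, ← smul_eq_mul, ← h]
  congr 1; ext x
  by_cases hx : ε⁻¹ • x ∈ P
  · rw [indicator_of_mem hx, indicator_of_mem (show x ∈ {x : E | ε⁻¹ • x ∈ P} from hx)]
    simp only [fld_scale U hε, trc_scale U hε, smul_neg, norm_smul, inner_smul_left,
      inner_smul_right, conj_trivial, Real.norm_eq_abs, abs_of_pos hε]
    ring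
  · rw [indicator_of_notMem hx, indicator_of_notMem (show x ∉ {x : E | ε⁻¹ • x ∈ P} from hx),
      mul_zero]

lemma icub_eq (hd : 2 ≤ finrank ℝ E) {U : E → ℝ} (hU : Nb U) {P : Set E}
    (hP : MeasurableSet P) {χ : E → ℝ} (hχ : χ = P.indicator fun _ => 1) (hn : Nb χ) :
    Icub U P = Lam χ U U - Lam χ U (fun x => U (-x)) + Lam U χ U -
      Lam U (fun x => χ (-x)) U := by
  have i1 := integrable_lam hd hn hU hU
  have i2 := integrable_lam hd hn hU hU.refl
  have i3 := integrable_tt hd hn hU hU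
  have i4 := (integrable_tt hd hn.refl hU hU).comp_neg
  have e3 := integral_tt hd hn hU hU
  have e4 := integral_tt hd hn.refl hU hU
  rw [← integral_neg_eq_self] at e4
  have : Icub U P = ∫ x, (((χ x * ⟪Fld U x, Fld U x⟫ - χ x * ⟪Fld U x, Fld (fun x => U (-x)) x⟫)
      - χ x * TT U U x) + χ (- -x) * TT U U (-x)) := by
    unfold Icub
    rw [← integral_indicator hP]
    congr 1; ext x
    by_cases hx : x ∈ P
    · rw [indicator_of_mem hx, neg_neg, hχ, indicator_of_mem hx, fld_refl, inner_neg_right,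
        real_inner_self_eq_norm_sq]
      simp only [TT, Trc]; ring
    · rw [indicator_of_notMem hx, neg_neg, hχ, indicator_of_notMem hx]; ring
  have i12 : Integrable (fun x => χ x * ⟪Fld U x, Fld U x⟫ -
      χ x * ⟪Fld U x, Fld (fun x => U (-x)) x⟫) volume := i1.sub i2
  have i123 : Integrable (fun x => χ x * ⟪Fld U x, Fld U x⟫ -
      χ x * ⟪Fld U x, Fld (fun x => U (-x)) x⟫ - χ x * TT U U x) volume := i12.sub i3
  rw [this, integral_add i123 i4, integral_sub i12 i3, integral_sub i1 i2, e3, e4]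
  simp only [Lam]; ring

/-- Expansion in the small parameter `s`. -/
lemma icub_expand (hd : 2 ≤ finrank ℝ E) {B : E → ℝ} (hB : Nb B) (hBe : ∀ x, B (-x) = B x)
    {P : Set E} (hP : MeasurableSet P) {χ W : E → ℝ} (hχ : χ = P.indicator fun _ => 1)
    (hn : Nb χ) (hW : W = fun x => χ x - χ (-x)) (s : ℝ) :
    Icub (fun x => B x + s * χ x) P =
      s * (Lam W B W + 1 / 2 * Lam B W W) + s ^ 2 * (2 * Lam χ χ W) := by
  have hW' : Nb W := hW ▸ hn.sub hn.refl
  have hU : Nb (fun x => B x + s * χ x) := hB.add (hn.const_mul s)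
  have hBr : (fun x => B (-x)) = B := funext hBe
  have hWr : (fun x => W (-x)) = fun x => -W x := by ext x; simp [hW]
  have hc : (fun x => χ (-x)) = fun x => χ x + (-1) * W x := by ext x; simp [hW]
  rw [icub_eq hd hU hP hχ hn]
  have u1 : (fun x => B (-x) + s * χ (-x)) = fun x => (B x + s * χ x) + (-s) * W x := by
    ext x; rw [hBe, hW]; ring
  rw [u1, hc, lam_add₃ hd hn hU hU hW', lam_add₂ hd hU hn hW' hU, lam_add₂ hd hn hB hn hW',
    lam_add₁ hd hB hn hW' hU, lam_add₃ hd hB hW' hB hn, lam_add₃ hd hn hW' hB hn]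
  have r1 : Lam B W B = 0 := by
    have := lam_refl B W B
    rw [hBr, hWr, lam_neg₂] at this; linarith
  have r2 : Lam W B W = 2 * Lam χ B W := by
    have := lam_refl χ B W
    rw [hBr, hWr, lam_neg₃, hc, lam_add₁ hd hn hW' hB hW'] at this; linarith
  have r3 : Lam B W W = 2 * Lam B W χ := by
    have := lam_refl B W χ
    rw [hBr, hWr, lam_neg₂, hc, lam_add₃ hd hB hW' hn hW'] at this; linarith
  rw [r1, r2, r3, lam_comm χ W B, lam_comm χ W χ]
  ring

end Pool.Agent.MP_0b7119_mp.G.C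

end

section

/-! Job C, part 3: the far field of an odd density. -/

open Set MeasureTheory Module Filter Topology
open scoped ENNReal RealInnerProductSpace

namespace Pool.Agent.MP_0b7119_mp.G.C

variable {E : Type} [NormedAddCommGroup E] [InnerProductSpace ℝ E] [FiniteDimensional ℝ E]
  [MeasurableSpace E] [BorelSpace E]

/-- The derivative of the Newton kernel at a unit vector. -/
noncomputable def DN (v : E) : E →L[ℝ] E :=
  ContinuousLinearMap.id ℝ E - (finrank ℝ E : ℝ) • (innerSL ℝ v).smulRight v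

omit [FiniteDimensional ℝ E] [MeasurableSpace E] [BorelSpace E] in
lemma DN_apply (v z : E) : DN v z = z - ((finrank ℝ E : ℝ) * ⟪v, z⟫) • v := by
  simp [DN, mul_smul]

omit [FiniteDimensional ℝ E] [MeasurableSpace E] [BorelSpace E] in
lemma hasStrict_kN {v : E} (hv : ‖v‖ = 1) : HasStrictFDerivAt kN (DN v) v := by
  have h1 : HasStrictFDerivAt (fun z : E => (‖z‖ ^ 2) ^ (-(finrank ℝ E : ℝ) / 2)) _ v :=
    (hasStrictFDerivAt_norm_sq v).rpow_const (p := -(finrank ℝ E : ℝ) / 2) (Or.inl (by simp [hv]))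
  have h2 := h1.smul (hasStrictFDerivAt_id v)
  have h3 : (kN : E → E) = fun z => (‖z‖ ^ 2) ^ (-(finrank ℝ E : ℝ) / 2) • z := by
    ext z
    unfold kN
    congr 1
    rw [← Real.rpow_natCast ‖z‖ 2, ← Real.rpow_mul (norm_nonneg _), ← Real.rpow_natCast,
      ← Real.rpow_neg (norm_nonneg _)]
    congr 1; push_cast; ring
  rw [h3]
  refine h2.congr_fderiv ?_
  ext z
  rw [DN_apply]
  simp only [hv, id, add_apply, smul_apply,
    ContinuousLinearMap.smulRight_apply, ContinuousLinearMap.id_apply, one_pow, Real.one_rpow,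
    one_smul, mul_one, smul_eq_mul, innerSL_apply_apply, nsmul_eq_mul, Nat.cast_ofNat]
  rw [sub_eq_add_neg, ← neg_smul]; congr 2; ring

omit [FiniteDimensional ℝ E] [MeasurableSpace E] [BorelSpace E] in
lemma far_kernel {v : E} (hv : ‖v‖ = 1) {ε : ℝ} (hε : 0 < ε) :
    ∃ r, 0 < r ∧ ∀ t, 0 < t → ∀ y x : E, ‖y - t • v‖ < t * r → ‖x‖ ≤ t * r →
      ‖kN (y - x) - kN y + (t ^ finrank ℝ E)⁻¹ • DN v x‖ ≤ ε * (t ^ finrank ℝ E)⁻¹ * ‖x‖ := by
  have h := (hasStrictFDerivAt_iff_isLittleO.1 (hasStrict_kN hv)).def hε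
  rw [nhds_prod_eq] at h
  obtain ⟨s, hs, s', hs', hss⟩ := Filter.mem_prod_iff.1 h
  obtain ⟨ρ, hρ, hb⟩ := Metric.mem_nhds_iff.1 (Filter.inter_mem hs hs')
  refine ⟨ρ / 2, by positivity, fun t ht y x hy hx => ?_⟩
  have hb1 : ‖t⁻¹ • y - v‖ < ρ / 2 := by
    have : t⁻¹ • y - v = t⁻¹ • (y - t • v) := by rw [smul_sub, inv_smul_smul₀ ht.ne']
    rw [this, norm_smul, Real.norm_eq_abs, abs_of_pos (inv_pos.2 ht), inv_mul_lt_iff₀ ht]
    exact hy
  have hb2 : ‖t⁻¹ • x‖ ≤ ρ / 2 := by
    rw [norm_smul, Real.norm_eq_abs, abs_of_pos (inv_pos.2 ht), inv_mul_le_iff₀ ht]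
    exact hx
  have ha : t⁻¹ • y - t⁻¹ • x ∈ Metric.ball v ρ := by
    rw [mem_ball_iff_norm]
    have : t⁻¹ • y - t⁻¹ • x - v = (t⁻¹ • y - v) - t⁻¹ • x := by abel
    rw [this]
    linarith [norm_sub_le (t⁻¹ • y - v) (t⁻¹ • x)]
  have hb' : t⁻¹ • y ∈ Metric.ball v ρ := by
    rw [mem_ball_iff_norm]; linarith
  have key := hss (Set.mk_mem_prod (hb ha).1 (hb hb').2)
  simp only [mem_setOf_eq] at key
  have e1 : t⁻¹ • y - t⁻¹ • x - t⁻¹ • y = -(t⁻¹ • x) := by abel
  rw [e1, map_neg, norm_neg, map_smul, sub_neg_eq_add, norm_smul, Real.norm_eq_abs,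
    abs_of_pos (inv_pos.2 ht)] at key
  have e2 : kN y = (t * (t ^ finrank ℝ E)⁻¹) • kN (t⁻¹ • y) := by
    rw [← kN_smul ht, smul_inv_smul₀ ht.ne']
  have e3 : kN (y - x) - kN y + (t ^ finrank ℝ E)⁻¹ • DN v x = (t * (t ^ finrank ℝ E)⁻¹) •
      (kN (t⁻¹ • y - t⁻¹ • x) - kN (t⁻¹ • y) + t⁻¹ • DN v x) := by
    rw [kN_sub_scale ht y x, e2, smul_add, smul_sub, smul_smul]
    congr 2; field_simp
  rw [e3, norm_smul, Real.norm_eq_abs, abs_of_pos (by positivity)]
  calc t * (t ^ finrank ℝ E)⁻¹ * _ ≤ t * (t ^ finrank ℝ E)⁻¹ * (ε * (t⁻¹ * ‖x‖)) := by gcongr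
    _ = _ := by field_simp

lemma integral_odd {F : Type} [NormedAddCommGroup F] [NormedSpace ℝ F] {f : E → F}
    (hf : ∀ x, f (-x) = -f x) : ∫ x, f x = 0 := by
  have h := integral_neg_eq_self f volume
  simp only [hf, integral_neg] at h
  have : (2 : ℝ) • ∫ x, f x = 0 := by rw [two_smul]; nth_rewrite 1 [← h]; simp
  simpa using this

lemma fld_even {W : E → ℝ} (hW : ∀ x, W (-x) = -W x) (x : E) : Fld W (-x) = Fld W x := by
  have h1 := fld_refl W x
  have h2 := fld_const_mul (-1) W x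
  simp only [hW] at h1
  simp only [neg_mul, one_mul, neg_smul, one_smul] at h2
  rw [h2] at h1
  exact (neg_inj.1 h1).symm

lemma fld_odd {A : E → ℝ} (hA : ∀ x, A (-x) = A x) (x : E) : Fld A (-x) = -Fld A x := by
  have h1 := fld_refl A x
  simp only [hA] at h1
  rw [h1, neg_neg]

lemma tt_even {W : E → ℝ} (hW : ∀ x, W (-x) = -W x) (y : E) : TT W W (-y) = TT W W y := by
  unfold TT
  rw [← integral_neg_eq_self]
  congr 1; ext x
  have : -y - -x = -(y - x) := by abel
  rw [hW, fld_even hW, this, kN_neg, inner_neg_left]; ring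

/-- The density of the first order coefficient. -/
noncomputable def Phi (W : E → ℝ) (y : E) : ℝ := 1 / 2 * ⟪Fld W y, Fld W y⟫ - TT W W y

/-- The quadrupole coefficient. -/
noncomputable def qq (W : E → ℝ) (v : E) : ℝ := ∫ x, W x * ⟪DN v x, Fld W x⟫

omit [FiniteDimensional ℝ E] in
lemma Nb.mul_inner {A : E → ℝ} (hA : Nb A) (v : E) : Nb (fun x => A x * ⟪v, x⟫) := by
  obtain ⟨a, ha⟩ := hA.bdd
  obtain ⟨R, hR⟩ := hA.supp
  refine ⟨hA.meas.mul (continuous_const.inner continuous_id).measurable,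
    ⟨a * (‖v‖ * |R|), fun x => ?_⟩, ⟨R, fun x hx => by rw [hR x hx, zero_mul]⟩⟩
  have h0 : 0 ≤ a := (abs_nonneg _).trans (ha 0)
  by_cases hx : R ≤ ‖x‖
  · rw [hR x hx, zero_mul, abs_zero]; positivity
  · rw [abs_mul]
    refine mul_le_mul (ha x) ((abs_real_inner_le_norm _ _).trans ?_) (abs_nonneg _) h0
    exact mul_le_mul_of_nonneg_left ((not_le.1 hx).le.trans (le_abs_self R)) (norm_nonneg _)

lemma Nb.integrable_of_bound {F : Type} [NormedAddCommGroup F] [NormedSpace ℝ F]
    {A : E → ℝ} (hA : Nb A) {g : E → F} (hg : AEStronglyMeasurable g volume) {M : ℝ}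
    (hM : ∀ x, A x ≠ 0 → ‖g x‖ ≤ M) :
    Integrable (fun x => A x • g x) volume ∧ ‖∫ x, A x • g x‖ ≤ M * ∫ x, |A x| := by
  have hb : ∀ x, ‖A x • g x‖ ≤ M * |A x| := fun x => by
    by_cases h : A x = 0
    · simp [h]
    · rw [norm_smul, Real.norm_eq_abs, mul_comm]
      exact mul_le_mul_of_nonneg_right (hM x h) (abs_nonneg _)
  refine ⟨Integrable.mono' (hA.integrable.abs.const_mul M)
    (hA.meas.aestronglyMeasurable.smul hg) (Eventually.of_forall hb), ?_⟩
  rw [← integral_const_mul]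
  exact norm_integral_le_of_norm_le (hA.integrable.abs.const_mul M) (Eventually.of_forall hb)

lemma far_neg (hd : 2 ≤ finrank ℝ E) {W : E → ℝ} (hW : Nb W) (ho : ∀ x, W (-x) = -W x)
    {v : E} (hv : ‖v‖ = 1) (hq : qq W v < 0) :
    ∃ r T, 0 < r ∧ ∀ t, T ≤ t → ∀ y : E, ‖y - t • v‖ < t * r → Phi W y < 0 := by
  obtain ⟨M, hM0, hM⟩ := hW.fld_bdd hd
  obtain ⟨R0, hR0⟩ := hW.supp
  set R := max R0 1 with hR
  have hR1 : 0 < R := lt_max_of_lt_right one_pos
  have hsupp : ∀ x, W x ≠ 0 → ‖x‖ ≤ R := fun x hx => by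
    by_contra h
    exact hx (hR0 x ((le_max_left _ _).trans (not_le.1 h).le))
  set L := ∫ x, |W x| with hL
  have hL0 : 0 ≤ L := integral_nonneg fun x => abs_nonneg _
  set c := -qq W v with hc
  have hc0 : 0 < c := by linarith
  set ε := c / (2 * (R * M * L + 1)) with hε
  have hε0 : 0 < ε := by positivity
  obtain ⟨r, hr, hk⟩ := far_kernel hv hε0
  set C1 := (ε * R + ‖DN v‖ * R) * L with hC1
  have hC10 : 0 ≤ C1 := by positivity
  refine ⟨r, max (R / r) (max 1 (C1 ^ 2 / c + 1)), hr, fun t ht y hy => ?_⟩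
  have ht1 : 1 ≤ t := (le_max_left _ _).trans ((le_max_right _ _).trans ht)
  have ht0 : 0 < t := by linarith
  have ht2 : R ≤ t * r := by
    have := (le_max_left _ _).trans ht
    rwa [div_le_iff₀ hr] at this
  have ht3 : C1 ^ 2 / c + 1 ≤ t := (le_max_right _ _).trans ((le_max_right _ _).trans ht)
  set τ := (t ^ finrank ℝ E)⁻¹ with hτ
  have hτ0 : 0 < τ := by positivity
  have hτt : τ * t ≤ 1 := by
    rw [hτ, inv_mul_le_iff₀ (by positivity), mul_one]
    calc t = t ^ 1 := (pow_one _).symm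
      _ ≤ _ := pow_le_pow_right₀ ht1 (by omega)
  set g : E → E := fun x => kN (y - x) - kN y + τ • DN v x with hg
  have hgm : Measurable g :=
    ((measurable_kN.comp (measurable_const.sub measurable_id)).sub measurable_const).add
      ((DN v).continuous.measurable.const_smul τ)
  have hgb : ∀ x, W x ≠ 0 → ‖g x‖ ≤ ε * τ * R := fun x hx =>
    (hk t ht0 y x hy ((hsupp x hx).trans ht2)).trans
      (mul_le_mul_of_nonneg_left (hsupp x hx) (by positivity))
  have hDb : ∀ x, W x ≠ 0 → ‖DN v x‖ ≤ ‖DN v‖ * R := fun x hx =>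
    ((DN v).le_opNorm x).trans (mul_le_mul_of_nonneg_left (hsupp x hx) (norm_nonneg _))
  -- the field
  have hF : ‖Fld W y‖ ≤ τ * C1 := by
    have h1 := hW.integrable_of_bound (g := fun x => kN (y - x) - kN y)
      ((measurable_kN.comp (measurable_const.sub measurable_id)).sub
        measurable_const).aestronglyMeasurable (M := τ * (ε * R + ‖DN v‖ * R)) (fun x hx => by
        have e : kN (y - x) - kN y = g x - τ • DN v x := by simp [hg]
        rw [e]
        refine (norm_sub_le _ _).trans ?_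
        rw [norm_smul, Real.norm_eq_abs, abs_of_pos hτ0]
        have := hgb x hx
        have := mul_le_mul_of_nonneg_left (hDb x hx) hτ0.le
        nlinarith)
    have h2 : ∫ x, W x • (kN (y - x) - kN y) = Fld W y := by
      simp only [smul_sub]
      rw [integral_sub (hW.integrable_fld hd y) (hW.integrable.smul_const _), integral_smul_const,
        integral_odd ho, zero_smul, sub_zero, Fld]
    rw [← h2]
    refine h1.2.trans (le_of_eq ?_)
    rw [hC1]; ring
  -- the trace term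
  have i1 := hW.integrable_of_bound (g := fun x => ⟪g x, Fld W x⟫)
    (hgm.inner hW.fld_meas).aestronglyMeasurable (M := ε * τ * R * M) (fun x hx =>
      (norm_inner_le_norm _ _).trans (mul_le_mul (hgb x hx) (hM x) (norm_nonneg _)
        (by positivity)))
  have i2 := hW.integrable_of_bound (g := fun x => ⟪DN v x, Fld W x⟫)
    ((DN v).continuous.measurable.inner hW.fld_meas).aestronglyMeasurable (M := ‖DN v‖ * R * M)
    (fun x hx => (norm_inner_le_norm _ _).trans (mul_le_mul (hDb x hx) (hM x) (norm_nonneg _)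
        (by positivity)))
  have i3 := hW.integrable_of_bound (g := fun x => ⟪kN y, Fld W x⟫)
    (measurable_const.inner hW.fld_meas).aestronglyMeasurable (M := ‖kN y‖ * M)
    (fun x hx => (norm_inner_le_norm _ _).trans (mul_le_mul_of_nonneg_left (hM x)
      (norm_nonneg _)))
  simp only [smul_eq_mul] at i1 i2 i3
  have hT : TT W W y = (∫ x, W x * ⟪g x, Fld W x⟫) - τ * qq W v := by
    have z : ∫ x, W x * ⟪kN y, Fld W x⟫ = 0 :=
      integral_odd fun x => by rw [ho, fld_even ho]; ring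
    have i12 : Integrable (fun x => W x * ⟪g x, Fld W x⟫ - τ * (W x * ⟪DN v x, Fld W x⟫))
      volume := i1.1.sub (i2.1.const_mul τ)
    rw [qq, ← integral_const_mul, ← integral_sub i1.1 (i2.1.const_mul τ), ← add_zero (integral _ _),
      ← z, ← integral_add i12 i3.1, TT]
    congr 1; ext x
    simp only [hg, inner_add_left, inner_sub_left, inner_smul_left, conj_trivial]; ring
  have b1 : |∫ x, W x * ⟪g x, Fld W x⟫| ≤ τ * (c / 2) := by
    refine i1.2.trans ?_
    have : ε * (R * M * L) ≤ c / 2 := by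
      rw [hε, div_mul_eq_mul_div, div_le_div_iff₀ (by positivity) (by positivity)]
      nlinarith [mul_nonneg (mul_nonneg hR1.le hM0) hL0]
    nlinarith
  have b2 : ⟪Fld W y, Fld W y⟫ < τ * c := by
    rw [real_inner_self_eq_norm_sq]
    have h1 : ‖Fld W y‖ ^ 2 ≤ (τ * C1) ^ 2 := by gcongr
    have h2 : C1 ^ 2 < c * t := by
      have : C1 ^ 2 / c < t := by linarith
      rwa [div_lt_iff₀ hc0, mul_comm] at this
    have h3 : τ * C1 ^ 2 < c := by
      calc τ * C1 ^ 2 < τ * (c * t) := by gcongr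
        _ = c * (τ * t) := by ring
        _ ≤ c * 1 := by gcongr
        _ = c := mul_one c
    calc _ ≤ (τ * C1) ^ 2 := h1
      _ = τ * (τ * C1 ^ 2) := by ring
      _ < τ * c := by gcongr
  rw [Phi, hT]
  have := neg_abs_le (∫ x, W x * ⟪g x, Fld W x⟫)
  have e : qq W v = -c := by rw [hc, neg_neg]
  rw [e]
  nlinarith

end Pool.Agent.MP_0b7119_mp.G.C

end

section

/-! Job C: a configuration with negative cubic functional (far field of an anisotropic dipole). -/

open Set MeasureTheory Module Filter Topology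
open scoped ENNReal RealInnerProductSpace

namespace Pool.Agent.MP_0b7119_mp.G.C

variable {E : Type} [NormedAddCommGroup E] [InnerProductSpace ℝ E] [FiniteDimensional ℝ E]
  [MeasurableSpace E] [BorelSpace E]

lemma pos_of_ball {f : E → ℝ} (hf : Integrable f volume) (h0 : ∀ x, 0 ≤ f x) {c : E} {r : ℝ}
    (hr : 0 < r) (hp : ∀ x ∈ Metric.ball c r, 0 < f x) : 0 < ∫ x, f x := by
  rw [integral_pos_iff_support_of_nonneg h0 hf]
  exact (Metric.measure_ball_pos volume c hr).trans_le
    (measure_mono fun x hx => (hp x hx).ne')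

/-- Directional second moments. -/
noncomputable def mu (v : E) (A C : E → ℝ) : ℝ := ∫ x, A x * ⟪v, x⟫ * ⟪v, Fld C x⟫

lemma integrable_mu (hd : 2 ≤ finrank ℝ E) (v : E) {A C : E → ℝ} (hA : Nb A) (hC : Nb C) :
    Integrable (fun x => A x * ⟪v, x⟫ * ⟪v, Fld C x⟫) volume := by
  obtain ⟨M, hM0, hM⟩ := hC.fld_bdd hd
  refine (hA.mul_inner v).integrable_mul (measurable_const.inner hC.fld_meas) (M := ‖v‖ * M)
    fun x => ?_
  exact (abs_real_inner_le_norm _ _).trans (mul_le_mul_of_nonneg_left (hM x) (norm_nonneg _))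

lemma mu_refl (v : E) (A C : E → ℝ) : mu v (fun x => A (-x)) (fun x => C (-x)) = mu v A C := by
  unfold mu
  rw [← integral_neg_eq_self (fun x => A x * ⟪v, x⟫ * ⟪v, Fld C x⟫)]
  congr 1; ext x
  rw [fld_refl, inner_neg_right, inner_neg_right]; ring

lemma mu_sub (hd : 2 ≤ finrank ℝ E) (v : E) {A : E → ℝ} (hA : Nb A) :
    mu v (fun x => A x - A (-x)) (fun x => A x - A (-x)) =
      2 * mu v A A - 2 * mu v A (fun x => A (-x)) := by
  have r1 := mu_refl v A A
  have r2 := mu_refl v A (fun x => A (-x))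
  simp only [neg_neg] at r2
  have i1 := integrable_mu hd v hA hA
  have i2 := integrable_mu hd v hA hA.refl
  have i3 := integrable_mu hd v hA.refl hA
  have i4 := integrable_mu hd v hA.refl hA.refl
  have i12 : Integrable (fun x => A x * ⟪v, x⟫ * ⟪v, Fld A x⟫ -
    A x * ⟪v, x⟫ * ⟪v, Fld (fun x => A (-x)) x⟫) volume := i1.sub i2
  have i34 : Integrable (fun x => A (-x) * ⟪v, x⟫ * ⟪v, Fld A x⟫ -
    A (-x) * ⟪v, x⟫ * ⟪v, Fld (fun x => A (-x)) x⟫) volume := i3.sub i4
  have : mu v (fun x => A x - A (-x)) (fun x => A x - A (-x)) =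
      (mu v A A - mu v A (fun x => A (-x))) -
        (mu v (fun x => A (-x)) A - mu v (fun x => A (-x)) (fun x => A (-x))) := by
    unfold mu
    rw [← integral_sub i1 i2, ← integral_sub i3 i4, ← integral_sub i12 i34]
    congr 1; ext x
    rw [fld_sub hd hA hA.refl, inner_sub_right]; ring
  rw [this, r1]
  have r3 : mu v (fun x => A (-x)) A = mu v A (fun x => A (-x)) := r2
  rw [r3]; ring

lemma mu_shift (hd : 2 ≤ finrank ℝ E) (v a : E) {A : E → ℝ} (hA : Nb A)
    (he : ∀ x, A (-x) = A x) :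
    mu v (fun x => A (x - a)) (fun x => A (x - a)) = mu v A A := by
  have hF : ∀ x, Fld (fun y => A (y - a)) (x + a) = Fld A x := fun x => by
    unfold Fld
    rw [← integral_add_right_eq_self _ a]
    congr 1; ext y
    simp only [add_sub_cancel_right, add_sub_add_right_eq_sub]
  obtain ⟨M, hM0, hM⟩ := hA.fld_bdd hd
  have i2 : Integrable (fun x => A x * ⟪v, Fld A x⟫) volume :=
    hA.integrable_mul (measurable_const.inner hA.fld_meas) (M := ‖v‖ * M) fun x =>
      (abs_real_inner_le_norm _ _).trans (mul_le_mul_of_nonneg_left (hM x) (norm_nonneg _))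
  have z : ∫ x, ⟪v, a⟫ * (A x * ⟪v, Fld A x⟫) = 0 :=
    integral_odd fun x => by rw [he, fld_odd he, inner_neg_right]; ring
  unfold mu
  rw [← integral_add_right_eq_self _ a, ← add_zero (∫ x, A x * ⟪v, x⟫ * ⟪v, Fld A x⟫), ← z,
    ← integral_add (integrable_mu hd v hA hA) (i2.const_mul _)]
  congr 1; ext x
  simp only [add_sub_cancel_right, hF, inner_add_right]; ring

/-- Indicator of a unit ball. -/
noncomputable def chi (a : E) : E → ℝ := (Metric.ball a 1).indicator fun _ => 1

omit [InnerProductSpace ℝ E] [FiniteDimensional ℝ E] in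
lemma nb_chi (a : E) : Nb (chi a) :=
  nb_indicator Metric.isOpen_ball.measurableSet (R := 1 + ‖a‖)
    (Metric.ball_subset_ball' (by simp))

omit [InnerProductSpace ℝ E] [FiniteDimensional ℝ E] [MeasurableSpace E] [BorelSpace E] in
lemma chi_eq (a : E) : chi a = fun x => chi 0 (x - a) := by
  ext x
  simp [chi, indicator, dist_eq_norm]

omit [InnerProductSpace ℝ E] [FiniteDimensional ℝ E] [MeasurableSpace E] [BorelSpace E] in
lemma chi_even (x : E) : chi 0 (-x) = chi 0 x := by
  simp [chi, indicator]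

lemma mu_cross (hd : 2 ≤ finrank ℝ E) {u w : E} (hu : ‖u‖ = 1) (hw : ‖w‖ = 1)
    (huw : ⟪w, u⟫ = 0) :
    mu w (chi ((3 : ℝ) • u)) (fun x => chi ((3 : ℝ) • u) (-x)) <
      mu u (chi ((3 : ℝ) • u)) (fun x => chi ((3 : ℝ) • u) (-x)) := by
  set a := (3 : ℝ) • u with ha
  have hn := nb_chi a
  have hco : ∀ x ∈ Metric.ball a 1, 2 < ⟪u, x⟫ ∧ |⟪w, x⟫| < 1 := fun x hx => by
    rw [mem_ball_iff_norm] at hx
    have h1 := abs_real_inner_le_norm u (x - a)
    have h2 := abs_real_inner_le_norm w (x - a)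
    rw [inner_sub_right, ha, inner_smul_right, real_inner_self_eq_norm_sq, hu] at h1
    rw [inner_sub_right, ha, inner_smul_right, huw, hw] at h2
    rw [← ha] at h1 h2
    have := neg_abs_le (⟪u, x⟫ - 3 * 1 ^ 2)
    constructor
    · linarith
    · simp only [mul_zero, sub_zero] at h2; linarith
  have hG : ∀ x ∈ Metric.ball a 1, 0 < ⟪u, x⟫ * ⟪u, Fld (fun x => chi a (-x)) x⟫ -
      ⟪w, x⟫ * ⟪w, Fld (fun x => chi a (-x)) x⟫ := fun x hx => by
    have e : ⟪u, x⟫ * ⟪u, Fld (fun x => chi a (-x)) x⟫ -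
        ⟪w, x⟫ * ⟪w, Fld (fun x => chi a (-x)) x⟫ =
        ⟪⟪u, x⟫ • u - ⟪w, x⟫ • w, Fld (fun x => chi a (-x)) x⟫ := by
      simp only [inner_sub_left, inner_smul_left, conj_trivial]
    have hi := hn.refl.integrable_fld hd x
    rw [e, Fld, ← integral_inner hi]
    have key : ∀ y, -y ∈ Metric.ball a 1 →
        0 < ⟪⟪u, x⟫ • u - ⟪w, x⟫ • w, chi a (-y) • kN (x - y)⟫ := fun y hy => by
      obtain ⟨x1, x2⟩ := hco x hx
      obtain ⟨y1, y2⟩ := hco _ hy
      rw [inner_neg_right] at y1 y2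
      rw [abs_neg] at y2
      have hne : x - y ≠ 0 := fun h => by
        rw [sub_eq_zero] at h; rw [h] at x1; linarith
      rw [chi, indicator_of_mem hy, one_smul, kN, inner_smul_right]
      refine mul_pos (inv_pos.2 (pow_pos (norm_pos_iff.2 hne) _)) ?_
      simp only [inner_sub_left, inner_smul_left, conj_trivial, inner_sub_right]
      obtain ⟨x3, x4⟩ := abs_lt.1 x2
      obtain ⟨y3, y4⟩ := abs_lt.1 y2
      nlinarith
    refine pos_of_ball (hi.const_inner _) (fun y => ?_) (c := -a) one_pos fun y hy => key y ?_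
    · by_cases hy : -y ∈ Metric.ball a 1
      · exact (key y hy).le
      · rw [chi, indicator_of_notMem hy]; simp
    · rw [mem_ball_iff_norm] at hy ⊢
      have : -y - a = -(y - -a) := by abel
      rwa [this, norm_neg]
  have i1 := integrable_mu hd u hn hn.refl
  have i2 := integrable_mu hd w hn hn.refl
  rw [← sub_pos, mu, mu, ← integral_sub i1 i2]
  refine pos_of_ball (i1.sub i2) (fun x => ?_) (c := a) one_pos fun x hx => ?_
  · by_cases hx : x ∈ Metric.ball a 1
    · have := hG x hx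
      rw [show chi a x = 1 from indicator_of_mem hx _]; linarith
    · rw [show chi a x = 0 from indicator_of_notMem hx _]; simp
  · have := hG x hx
    rw [show chi a x = 1 from indicator_of_mem hx _]; linarith

lemma qq_eq (hd : 2 ≤ finrank ℝ E) {W : E → ℝ} (hW : Nb W)
    (b : OrthonormalBasis (Fin (finrank ℝ E)) ℝ E) (v : E) :
    qq W v = ∑ j, mu (b j) W W - finrank ℝ E * mu v W W := by
  unfold qq mu
  rw [← integral_finset_sum _ fun j _ => integrable_mu hd (b j) hW hW, ← integral_const_mul,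
    ← integral_sub (integrable_finset_sum _ fun j _ => integrable_mu hd (b j) hW hW)
      ((integrable_mu hd v hW hW).const_mul _)]
  congr 1; ext x
  rw [DN_apply, inner_sub_left, inner_smul_left, ← b.sum_inner_mul_inner x (Fld W x), mul_sub,
    Finset.mul_sum]
  simp only [conj_trivial, real_inner_comm x]
  congr 1
  · exact Finset.sum_congr rfl fun j _ => by ring
  · ring

lemma exists_qq_neg (hd : 2 ≤ finrank ℝ E) : ∃ a v : E, ‖a‖ = 3 ∧ ‖v‖ = 1 ∧
    qq (fun x => chi a x - chi a (-x)) v < 0 := by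
  set b := stdOrthonormalBasis ℝ E
  by_contra hcon
  push Not at hcon
  set i : Fin (finrank ℝ E) := ⟨0, by omega⟩
  set j : Fin (finrank ℝ E) := ⟨1, by omega⟩
  have hij : i ≠ j := by simp [i, j, Fin.ext_iff]
  have key : ∀ a : E, ‖a‖ = 3 →
      mu (b i) (chi 0) (chi 0) - mu (b i) (chi a) (fun x => chi a (-x)) =
      mu (b j) (chi 0) (chi 0) - mu (b j) (chi a) (fun x => chi a (-x)) := fun a ha => by
    have hW : Nb (fun x => chi a x - chi a (-x)) := (nb_chi a).sub (nb_chi a).refl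
    have hs : ∑ k, qq (fun x => chi a x - chi a (-x)) (b k) = 0 := by
      simp only [qq_eq hd hW b, Finset.sum_sub_distrib, Finset.sum_const, Finset.card_univ,
        Fintype.card_fin, nsmul_eq_mul, ← Finset.mul_sum, sub_self]
    have hz := (Finset.sum_eq_zero_iff_of_nonneg
      fun k _ => hcon a (b k) ha (b.orthonormal.1 k)).1 hs
    have h1 := hz i (Finset.mem_univ _)
    have h2 := hz j (Finset.mem_univ _)
    rw [qq_eq hd hW b, mu_sub hd _ (nb_chi a)] at h1 h2
    have s1 := mu_shift hd (b i) a (nb_chi 0) chi_even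
    have s2 := mu_shift hd (b j) a (nb_chi 0) chi_even
    rw [← chi_eq] at s1 s2
    rw [s1] at h1
    rw [s2] at h2
    have hp : (0 : ℝ) < finrank ℝ E := by exact_mod_cast (by omega : 0 < finrank ℝ E)
    have := mul_left_cancel₀ hp.ne' ((sub_eq_zero.1 h1).symm.trans (sub_eq_zero.1 h2))
    linarith
  have n3 : ∀ k, ‖(3 : ℝ) • b k‖ = 3 := fun k => by
    rw [norm_smul, b.orthonormal.1 k]; norm_num
  have k1 := key _ (n3 i)
  have k2 := key _ (n3 j)
  have c1 := mu_cross hd (b.orthonormal.1 i) (b.orthonormal.1 j) (b.orthonormal.2 hij.symm)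
  have c2 := mu_cross hd (b.orthonormal.1 j) (b.orthonormal.1 i) (b.orthonormal.2 hij)
  linarith

end Pool.Agent.MP_0b7119_mp.G.C

namespace Pool.Agent.MP_0b7119_mp.G

open C

theorem stmtC : StmtC := by
  intro E _ _ _ _ _ hd
  obtain ⟨a, v, ha, hv, hq⟩ := exists_qq_neg hd
  set W : E → ℝ := fun x => chi a x - chi a (-x) with hWdef
  have hW : Nb W := (nb_chi a).sub (nb_chi a).refl
  have ho : ∀ x, W (-x) = -W x := fun x => by simp [hWdef]
  obtain ⟨r0, T, hr0, hfar⟩ := far_neg hd hW ho hv hq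
  set t := max T 10 with ht
  have ht10 : 10 ≤ t := le_max_right _ _
  set r := min r0 (1 / 2) with hr
  have hr1 : 0 < r := lt_min hr0 (by norm_num)
  have hr2 : t * r ≤ t * r0 := mul_le_mul_of_nonneg_left (min_le_left _ _) (by linarith)
  have hr3 : t * r ≤ t * (1 / 2) := mul_le_mul_of_nonneg_left (min_le_right _ _) (by linarith)
  set S : Set E := Metric.ball (t • v) (t * r) ∪ Metric.ball (-(t • v)) (t * r) with hS
  have hSm : MeasurableSet S :=
    Metric.isOpen_ball.measurableSet.union Metric.isOpen_ball.measurableSet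
  have htv : ‖t • v‖ = t := by
    rw [norm_smul, hv, mul_one, Real.norm_eq_abs, abs_of_pos (by linarith)]
  have hmem : ∀ y, y ∈ S ↔ ‖y - t • v‖ < t * r ∨ ‖-y - t • v‖ < t * r := fun y => by
    have : -y - t • v = -(y - -(t • v)) := by abel
    rw [hS, mem_union, mem_ball_iff_norm, mem_ball_iff_norm, this, norm_neg]
  have hnorm : ∀ y ∈ S, 5 ≤ ‖y‖ ∧ ‖y‖ < 2 * t := fun y hy => by
    rcases (hmem y).1 hy with h | h
    · have h1 := norm_sub_norm_le y (t • v)
      have h2 := norm_sub_norm_le (t • v) y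
      rw [norm_sub_rev] at h2
      constructor <;> linarith
    · have h1 := norm_sub_norm_le (-y) (t • v)
      have h2 := norm_sub_norm_le (t • v) (-y)
      rw [norm_sub_rev] at h2
      rw [norm_neg] at h1 h2
      constructor <;> linarith
  have hPhi : ∀ y ∈ S, Phi W y < 0 := fun y hy => by
    rcases (hmem y).1 hy with h | h
    · exact hfar t (le_max_left _ _) y (h.trans_le hr2)
    · have := hfar t (le_max_left _ _) (-y) (h.trans_le hr2)
      rwa [Phi, fld_even ho, tt_even ho] at this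
  set B : E → ℝ := S.indicator fun _ => 1 with hBdef
  have hSb : S ⊆ Metric.ball 0 (2 * t) := fun y hy => by simpa using (hnorm y hy).2
  have hB : Nb B := nb_indicator hSm hSb
  have hBe : ∀ x, B (-x) = B x := fun x => by
    have : -x ∈ S ↔ x ∈ S := by rw [hmem, hmem, neg_neg, or_comm]
    by_cases h : x ∈ S
    · rw [hBdef, indicator_of_mem h, indicator_of_mem (this.2 h)]
    · rw [hBdef, indicator_of_notMem h, indicator_of_notMem (fun h' => h (this.1 h'))]
  set J := Lam W B W + 1 / 2 * Lam B W W with hJ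
  have hJ0 : J < 0 := by
    have i1 := integrable_tt hd hB hW hW
    have i2 := (integrable_lam hd hB hW hW).const_mul (1 / 2)
    have e : -J = ∫ y, (B y * TT W W y - 1 / 2 * (B y * inner ℝ (Fld W y) (Fld W y))) := by
      rw [integral_sub i1 i2, integral_tt hd hB hW hW, integral_const_mul, hJ, Lam, Lam]; ring
    have : 0 < -J := by
      rw [e]
      refine pos_of_ball (i1.sub i2) (fun y => ?_) (c := t • v) (r := t * r) (by positivity)
        fun y hy => ?_
      · by_cases hy : y ∈ S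
        · have := hPhi y hy
          rw [show B y = 1 from indicator_of_mem hy _]; unfold Phi at this; linarith
        · rw [show B y = 0 from indicator_of_notMem hy _]; simp
      · have hy' : y ∈ S := Or.inl hy
        have := hPhi y hy'
        rw [show B y = 1 from indicator_of_mem hy' _]; unfold Phi at this; linarith
    linarith
  set K := 2 * Lam (chi a) (chi a) W with hK
  set s := min 1 (-J / (|K| + 1)) with hs
  have hs0 : 0 < s := lt_min one_pos (div_pos (by linarith) (by positivity))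
  have hneg : s * J + s ^ 2 * K < 0 := by
    have h1 : s * (|K| + 1) ≤ -J := by
      rw [← le_div_iff₀ (by positivity)]; exact min_le_right _ _
    have h2 := le_abs_self K
    have h3 : J + s * K < 0 := by nlinarith
    nlinarith
  have hP : ∀ x ∈ Metric.ball a 1, ‖x‖ < 4 := fun x hx => by
    rw [mem_ball_iff_norm] at hx
    linarith [norm_sub_norm_le x a]
  refine ⟨B, Metric.ball a 1, s, 2 * t, -(s * J + s ^ 2 * K), hB.meas, fun x => ?_, hBe,
    fun x hx => ?_, Metric.isOpen_ball.measurableSet, fun x hx => ?_, fun x hx => ⟨?_, fun h => ?_⟩,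
    hs0, min_le_left _ _, by linarith, fun ε hε => ?_⟩
  · by_cases h : x ∈ S <;> simp [hBdef, h]
  · exact indicator_of_notMem (fun h => by linarith [(hnorm x h).2]) _
  · have := hP x hx
    simp only [Metric.mem_ball, dist_zero_right]; linarith
  · exact indicator_of_notMem (fun h => by linarith [(hnorm x h).1, hP x hx]) _
  · rw [mem_ball_iff_norm] at hx h
    have e : (2 : ℝ) • a = -((x - a) + (-x - a)) := by rw [two_smul]; abel
    have h1 := norm_add_le (x - a) (-x - a)
    have h2 : ‖(2 : ℝ) • a‖ = 6 := by rw [norm_smul, ha]; norm_num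
    rw [e, norm_neg] at h2
    linarith
  · have h1 := icub_scale (fun x => B x + s * chi a x) (P := Metric.ball a 1)
      Metric.isOpen_ball.measurableSet hε
    rw [icub_expand hd hB hBe (χ := chi a) Metric.isOpen_ball.measurableSet rfl (nb_chi a)
      hWdef s] at h1
    have e : (fun x => B (ε⁻¹ • x) + (Metric.ball a 1).indicator (fun _ => s) (ε⁻¹ • x)) =
        fun y => B (ε⁻¹ • y) + s * chi a (ε⁻¹ • y) := by
      ext x
      by_cases h : ε⁻¹ • x ∈ Metric.ball a 1 <;> simp [chi, indicator, h]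
    rw [e, h1, neg_neg, mul_comm]

end Pool.Agent.MP_0b7119_mp.G

end
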