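import Pool.Agent.MP_0b7119_mp.GDefs
import Pool.Agent.MP_0b7119_mp.Iface
import Pool.Agent.MP_0b7119_mp.JobK1
import Pool.Agent.MP_0b7119_mp.JobD
import Pool.Agent.MP_0b7119_mp.JobD1
import Pool.Agent.MP_0b7119_mp.JobD2
import Pool.Agent.MP_0b7119_mp.Kern
import Pool.Agent.MP_0b7119_mp.Kern2
import Pool.Agent.MP_0b7119_mp.Ops

section

/-! The ground state is almost aligned with a fixed upper spinor. -/

open Set MeasureTheory Real
open scoped ENNReal

namespace Pool.Agent.MP_0b7119_mp.G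

set_option linter.unusedSectionVars false

variable {E S : Type} [NormedAddCommGroup E] [InnerProductSpace ℝ E] [FiniteDimensional ℝ E]
  [MeasurableSpace E] [BorelSpace E] [NormedAddCommGroup S] [InnerProductSpace ℂ S]
  [CompleteSpace S] [FiniteDimensional ℂ S] {d : ℕ} {α : Fin d → S →L[ℂ] S} {β : S →L[ℂ] S}

/-- Scalar kernel operator. -/
noncomputable def Gop (g V : E → ℝ) (f : E → S) (x : E) : S :=
  ∫ y, ((V y * g (x - y) : ℝ) : ℂ) • f y

/-- Clifford kernel operator. -/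
noncomputable def Kop (e : Fin d → E) (α : Fin d → S →L[ℂ] S) (q V : E → ℝ) (f : E → S) (x : E) :
    S :=
  ∫ y, ((V y * q (x - y) : ℝ) : ℂ) • cl e α (x - y) (f y)

/-- Nonnegative measurable functions. -/
structure NM (a : E → ℝ) : Prop where
  meas : Measurable a
  nonneg : ∀ z, 0 ≤ a z

lemma Nice.nm {V : E → ℝ} (h : Nice V) : NM V := ⟨h.meas, h.nonneg⟩

lemma sm_G {g V : E → ℝ} (hg : Measurable g) (hV : Measurable V) {f : E → S}
    (hf : StronglyMeasurable f) :
    StronglyMeasurable (fun p : E × E => ((V p.2 * g (p.1 - p.2) : ℝ) : ℂ) • f p.2) :=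
  (Complex.continuous_ofReal.measurable.comp ((hV.comp measurable_snd).mul
    (hg.comp (measurable_fst.sub measurable_snd)))).stronglyMeasurable.smul
    (hf.comp_measurable measurable_snd)

lemma sm_K (e : Fin d → E) (α : Fin d → S →L[ℂ] S) {q V : E → ℝ} (hq : Measurable q)
    (hV : Measurable V) {f : E → S} (hf : StronglyMeasurable f) :
    StronglyMeasurable
      (fun p : E × E => ((V p.2 * q (p.1 - p.2) : ℝ) : ℂ) • cl e α (p.1 - p.2) (f p.2)) :=
  (Complex.continuous_ofReal.measurable.comp ((hV.comp measurable_snd).mul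
    (hq.comp (measurable_fst.sub measurable_snd)))).stronglyMeasurable.smul
    ((isBoundedBilinearMap_apply (𝕜 := ℂ) (E := S) (F := S)).continuous.comp_stronglyMeasurable
      ((((continuous_cl e α).comp (continuous_fst.sub continuous_snd)).stronglyMeasurable).prodMk
        (hf.comp_measurable measurable_snd)))

lemma sm_Gop {g V : E → ℝ} (hg : Measurable g) (hV : Measurable V) {f : E → S}
    (hf : StronglyMeasurable f) : StronglyMeasurable (Gop g V f) :=
  (sm_G hg hV hf).integral_prod_right'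

lemma sm_Kop (e : Fin d → E) (α : Fin d → S →L[ℂ] S) {q V : E → ℝ} (hq : Measurable q)
    (hV : Measurable V) {f : E → S} (hf : StronglyMeasurable f) :
    StronglyMeasurable (Kop e α q V f) :=
  (sm_K e α hq hV hf).integral_prod_right'

lemma Gop_bound {g V : E → ℝ} (hg : NM g) (hV : NM V) {γ M : ℝ} (hA : Adm V g γ) {f : E → S}
    (hf : StronglyMeasurable f) (hM : 0 ≤ M) (hb : ∀ y, V y ≠ 0 → ‖f y‖ ≤ M) (x : E) :
    Integrable (fun y => ((V y * g (x - y) : ℝ) : ℂ) • f y) ∧ ‖Gop g V f x‖ ≤ γ * M := by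
  refine hA.bound x ((sm_G hg.meas hV.meas hf).comp_measurable
    (measurable_prodMk_left (x := x))).aestronglyMeasurable hM
    (Filter.Eventually.of_forall fun y => ?_)
  have h0 := mul_nonneg (hV.nonneg y) (hg.nonneg (x - y))
  rw [norm_smul, Complex.norm_real, Real.norm_of_nonneg h0]
  by_cases hy : V y = 0
  · simp [hy]
  · exact mul_le_mul_of_nonneg_left (hb y hy) h0

lemma Kop_bound (h : IsDiracRep α β) (e : OrthonormalBasis (Fin d) ℝ E) {q V : E → ℝ} (hq : NM q)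
    (hV : NM V) {η M : ℝ} (hA : Adm V (fun z => q z * ‖z‖) η) {f : E → S}
    (hf : StronglyMeasurable f) (hM : 0 ≤ M) (hb : ∀ y, V y ≠ 0 → ‖f y‖ ≤ M) (x : E) :
    Integrable (fun y => ((V y * q (x - y) : ℝ) : ℂ) • cl e α (x - y) (f y)) ∧
      ‖Kop e α q V f x‖ ≤ η * M := by
  refine hA.bound x ((sm_K e α hq.meas hV.meas hf).comp_measurable
    (measurable_prodMk_left (x := x))).aestronglyMeasurable hM
    (Filter.Eventually.of_forall fun y => ?_)
  have h0 := mul_nonneg (hV.nonneg y) (hq.nonneg (x - y))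
  rw [norm_smul, Complex.norm_real, Real.norm_of_nonneg h0, norm_cl_apply h]
  by_cases hy : V y = 0
  · simp [hy]
  · calc _ ≤ V y * q (x - y) * (‖x - y‖ * M) := by gcongr; exact hb y hy
      _ = _ := by ring

/-- The shape of the resolvent kernel. -/
structure Ker (e : Fin d → E) (α : Fin d → S →L[ℂ] S) (β : S →L[ℂ] S) (m l : ℝ)
    (r : E → S →L[ℂ] S) (g q : E → ℝ) : Prop where
  gnm : NM g
  qnm : NM q
  app : ∀ z ξ, r z ξ = (g z : ℂ) • ((m : ℂ) • β ξ + (l : ℂ) • ξ) +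
    (Complex.I * (q z : ℂ)) • cl e α z ξ

lemma ker_rk (e : Fin d → E) (α : Fin d → S →L[ℂ] S) (β : S →L[ℂ] S) (m l : ℝ) :
    Ker e α β m l (rk e α β m l) (gk (m ^ 2 - l ^ 2)) (qk (m ^ 2 - l ^ 2)) :=
  ⟨⟨measurable_gk _, gk_nonneg _⟩, ⟨measurable_qk _, qk_nonneg _⟩, rk_apply e α β m l⟩

lemma Rop_eq {e : Fin d → E} {m l : ℝ} {r : E → S →L[ℂ] S} {g q V : E → ℝ}
    (hk : Ker e α β m l r g q) {f : E → S} {x : E}
    (h1 : Integrable (fun y => ((V y * g (x - y) : ℝ) : ℂ) • f y))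
    (h2 : Integrable (fun y => ((V y * q (x - y) : ℝ) : ℂ) • cl e α (x - y) (f y))) :
    Rop r V f x = (m : ℂ) • β (Gop g V f x) + (l : ℂ) • Gop g V f x +
      Complex.I • Kop e α q V f x := by
  unfold Rop Gop Kop
  have h3 := β.integrable_comp h1
  have h5 : Integrable (fun y => (m : ℂ) • β (((V y * g (x - y) : ℝ) : ℂ) • f y)) :=
    h3.smul (m : ℂ)
  have h6 : Integrable (fun y => (l : ℂ) • (((V y * g (x - y) : ℝ) : ℂ) • f y)) := h1.smul (l : ℂ)
  have h7 : Integrable (fun y =>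
      Complex.I • (((V y * q (x - y) : ℝ) : ℂ) • cl e α (x - y) (f y))) := h2.smul Complex.I
  have h4 : Integrable (fun y => (m : ℂ) • β (((V y * g (x - y) : ℝ) : ℂ) • f y) +
      (l : ℂ) • (((V y * g (x - y) : ℝ) : ℂ) • f y)) := h5.add h6
  rw [← β.integral_comp_comm h1, ← integral_smul, ← integral_smul, ← integral_smul,
    ← integral_add h5 h6, ← integral_add h4 h7]
  refine integral_congr_ae (Filter.Eventually.of_forall fun y => ?_)
  simp only [hk.app, map_smul]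
  push_cast
  module

lemma Gop_sub_β {g V : E → ℝ} {f : E → S} {x : E}
    (h1 : Integrable (fun y => ((V y * g (x - y) : ℝ) : ℂ) • f y)) :
    Gop g V f x - β (Gop g V f x) = Gop g V (fun y => f y - β (f y)) x := by
  unfold Gop
  rw [← β.integral_comp_comm h1, ← integral_sub h1 (β.integrable_comp h1)]
  simp only [map_smul, smul_sub]

lemma re_inner_le (x y : S) : (inner ℂ x y).re ≤ ‖x‖ * ‖y‖ := re_inner_le_norm (𝕜 := ℂ) x y

lemma abs_re_inner_le (x y : S) : |(inner ℂ x y).re| ≤ ‖x‖ * ‖y‖ :=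
  (Complex.abs_re_le_norm _).trans (norm_inner_le_norm x y)

lemma re_inner_self (x : S) : (inner ℂ x x).re = ‖x‖ ^ 2 := inner_self_eq_norm_sq (𝕜 := ℂ) x

lemma re_inner_integral {f : E → S} (hf : Integrable f) (ξ : S) :
    (inner ℂ ξ (∫ y, f y)).re = ∫ y, (inner ℂ ξ (f y)).re := by
  rw [← integral_inner hf]
  exact (integral_re (hf.const_inner (𝕜 := ℂ) ξ)).symm

lemma re_inner_real_smul (c : ℝ) (x y : S) : (inner ℂ x ((c : ℂ) • y)).re = c * (inner ℂ x y).re := by
  rw [inner_smul_right, Complex.re_ofReal_mul]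

lemma re_inner_real_smul_left (c : ℝ) (x y : S) :
    (inner ℂ ((c : ℂ) • x) y).re = c * (inner ℂ x y).re := by
  rw [inner_smul_left, Complex.conj_ofReal, Complex.re_ofReal_mul]

lemma sm_β {f : E → S} (hf : StronglyMeasurable f) : StronglyMeasurable (fun y => β (f y)) :=
  β.continuous.comp_stronglyMeasurable hf

lemma sm_re_inner {f g : E → S} (hf : StronglyMeasurable f) (hg : StronglyMeasurable g) :
    StronglyMeasurable (fun y => (inner ℂ (f y) (g y)).re) :=
  Complex.continuous_re.comp_stronglyMeasurable (hf.inner hg)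

/-- The lower component of a fixed point is small. -/
lemma lower_le (h : IsDiracRep α β) (e : OrthonormalBasis (Fin d) ℝ E) {m l : ℝ}
    {r : E → S →L[ℂ] S} {g q V : E → ℝ} (hk : Ker e α β m l r g q) (hV : NM V) {γ η M : ℝ}
    (hγ : Adm V g γ) (hη : Adm V (fun z => q z * ‖z‖) η) (hl : l ≤ m) {ψ : E → S}
    (hψ : StronglyMeasurable ψ) (hfix : ∀ x, ψ x = Rop r V ψ x) (hM : ∀ x, ‖ψ x‖ ≤ M) (x : E) :
    ‖ψ x - β (ψ x)‖ ≤ (2 * (m - l) * γ + 2 * η) * M := by
  have hM0 : 0 ≤ M := (norm_nonneg _).trans (hM x)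
  obtain ⟨i1, b1⟩ := Gop_bound hk.gnm hV hγ hψ hM0 (fun y _ => hM y) x
  obtain ⟨i2, b2⟩ := Kop_bound h e hk.qnm hV hη hψ hM0 (fun y _ => hM y) x
  have e1 : ψ x - β (ψ x) = ((m - l : ℝ) : ℂ) • (β (Gop g V ψ x) - Gop g V ψ x) +
      Complex.I • (Kop e α q V ψ x - β (Kop e α q V ψ x)) := by
    rw [hfix x, Rop_eq hk i1 i2]
    simp only [map_add, map_smul, β_β h]
    push_cast
    module
  rw [e1]
  refine (norm_add_le _ _).trans ?_
  rw [norm_smul, norm_smul, Complex.norm_real, Real.norm_of_nonneg (by linarith), Complex.norm_I,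
    one_mul]
  have e2 := norm_sub_le (β (Gop g V ψ x)) (Gop g V ψ x)
  have e3 := norm_sub_le (Kop e α q V ψ x) (β (Kop e α q V ψ x))
  rw [norm_β_apply h] at e2 e3
  have : 0 ≤ m - l := by linarith
  nlinarith

/-- The alignment inequality. -/
lemma align (h : IsDiracRep α β) (e : OrthonormalBasis (Fin d) ℝ E) {m l : ℝ}
    {r : E → S →L[ℂ] S} {g q V : E → ℝ} (hk : Ker e α β m l r g q) (hV : Nice V)
    {γ η M κ ω gmin : ℝ} (hγ : Adm V g γ) (hη : Adm V (fun z => q z * ‖z‖) η) (hm : 0 < m)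
    (hl : 0 ≤ l) {ψ : E → S} (hψ : StronglyMeasurable ψ) (hfix : ∀ x, ψ x = Rop r V ψ x)
    (hM : ∀ x, ‖ψ x‖ ≤ M) (hκ0 : 0 ≤ κ) (hκ : ∀ x, ‖ψ x - β (ψ x)‖ ≤ κ * M)
    (hmax : ∀ f : E → S, Test f → Qf r V f ≤ Nf V f) {ξ₀ : S} (hξ : β ξ₀ = ξ₀) (hξ1 : ‖ξ₀‖ = 1)
    (hω : ∫ y, V y ≤ ω) (hg0 : 0 ≤ gmin)
    (hmin : ∀ x, V x ≠ 0 → ∀ᵐ y, V y ≠ 0 → gmin ≤ g (x - y)) :
    m * gmin * ((∫ y, V y * ‖ψ y‖) ^ 2 - ‖∫ y, (V y : ℂ) • ψ y‖ ^ 2) ≤
      ω * (M ^ 2 * (m * γ * κ + η)) := by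
  have hM0 : 0 ≤ M := (norm_nonneg _).trans (hM 0)
  have hγ0 : 0 ≤ γ := le_trans (integral_nonneg fun y =>
    mul_nonneg (hV.nonneg y) (hk.gnm.nonneg _)) (hγ.le 0)
  have hη0 : 0 ≤ η := le_trans (integral_nonneg fun y =>
    mul_nonneg (hV.nonneg y) (mul_nonneg (hk.qnm.nonneg _) (norm_nonneg _))) (hη.le 0)
  set n₁ := ∫ y, V y * ‖ψ y‖
  set Ψ := ∫ y, (V y : ℂ) • ψ y with hΨ
  set Er := M ^ 2 * (m * γ * κ + η) with hEr
  have hEr0 : 0 ≤ Er := by positivity
  set f : E → S := fun y => ((‖ψ y‖ : ℝ) : ℂ) • ξ₀ with hf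
  have hfm : StronglyMeasurable f :=
    (Complex.continuous_ofReal.comp_stronglyMeasurable hψ.norm).smul_const _
  have hfn : ∀ y, ‖f y‖ = ‖ψ y‖ := fun y => by
    simp [hf, norm_smul, hξ1]
  have hiψ : Integrable (fun y => V y * ‖ψ y‖) :=
    hV.integrable_mul hψ.norm.aestronglyMeasurable (M := M) fun y => by
      rw [abs_of_nonneg (norm_nonneg _)]; exact hM y
  have hiΨ : Integrable (fun y => (V y : ℂ) • ψ y) :=
    hiψ.mono' ((Complex.continuous_ofReal.measurable.comp hV.meas).stronglyMeasurable.smul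
      hψ).aestronglyMeasurable (Filter.Eventually.of_forall fun y => by
        rw [norm_smul, Complex.norm_real, Real.norm_of_nonneg (hV.nonneg y)])
  have hGψ := Gop_bound hk.gnm hV.nm hγ hψ hM0 (fun y _ => hM y)
  have hKψ := Kop_bound h e hk.qnm hV.nm hη hψ hM0 (fun y _ => hM y)
  have hGf := Gop_bound hk.gnm hV.nm hγ hfm hM0 (fun y _ => (hfn y).le.trans (hM y))
  have hKf := Kop_bound h e hk.qnm hV.nm hη hfm hM0 (fun y _ => (hfn y).le.trans (hM y))
  have hGχ := Gop_bound hk.gnm hV.nm hγ (hψ.sub (sm_β (β := β) hψ)) (mul_nonneg hκ0 hM0)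
    (fun y _ => hκ y)
  -- pointwise bound for the ground state
  have p1 : ∀ x, ‖ψ x‖ ^ 2 ≤ (m + l) * (inner ℂ (ψ x) (Gop g V ψ x)).re + Er := by
    intro x
    have e1 : ψ x = ((m + l : ℝ) : ℂ) • Gop g V ψ x -
        (m : ℂ) • Gop g V (fun y => ψ y - β (ψ y)) x + Complex.I • Kop e α q V ψ x := by
      rw [← Gop_sub_β (hGψ x).1]
      conv_lhs => rw [hfix x, Rop_eq hk (hGψ x).1 (hKψ x).1]
      push_cast
      module
    rw [← re_inner_self]
    nth_rewrite 2 [e1]
    rw [inner_add_right, inner_sub_right, Complex.add_re, Complex.sub_re, re_inner_real_smul,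
      re_inner_real_smul]
    have e2 := (abs_le.1 (abs_re_inner_le (ψ x) (Gop g V (fun y => ψ y - β (ψ y)) x))).1
    have e3 := re_inner_le (ψ x) (Complex.I • Kop e α q V ψ x)
    rw [norm_smul, Complex.norm_I, one_mul] at e3
    have e4 : ‖ψ x‖ * ‖Gop g V (fun y => ψ y - β (ψ y)) x‖ ≤ M * (γ * (κ * M)) :=
      mul_le_mul (hM x) (hGχ x).2 (norm_nonneg _) hM0
    have e5 : ‖ψ x‖ * ‖Kop e α q V ψ x‖ ≤ M * (η * M) :=
      mul_le_mul (hM x) (hKψ x).2 (norm_nonneg _) hM0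
    rw [hEr]
    nlinarith
  -- the form at the aligned test function
  have p2 : ∀ x, (inner ℂ (f x) (Rop r V f x)).re =
      (m + l) * (inner ℂ (f x) (Gop g V f x)).re := by
    intro x
    have e1 : β (Gop g V f x) = Gop g V f x := by
      have := Gop_sub_β (β := β) (hGf x).1
      have e2 : (fun y => f y - β (f y)) = fun _ => 0 := by
        funext y; simp [hf, hξ]
      rw [e2] at this
      simp only [Gop, smul_zero, integral_zero] at this
      exact (sub_eq_zero.1 this).symm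
    have e2 : inner ℂ (f x) (Kop e α q V f x) = 0 := by
      unfold Kop
      rw [← integral_inner (hKf x).1]
      simp only [hf, map_smul, inner_smul_left, inner_smul_right, inner_cl_upper h _ _ hξ,
        mul_zero, integral_zero]
    rw [Rop_eq hk (hGf x).1 (hKf x).1, e1, inner_add_right, inner_add_right, inner_smul_right _ _
      Complex.I, e2, mul_zero, add_zero, Complex.add_re, re_inner_real_smul, re_inner_real_smul]
    ring
  -- the pointwise gain
  have p3 : ∀ x, V x ≠ 0 → gmin * (‖ψ x‖ * n₁ - (inner ℂ (ψ x) Ψ).re) ≤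
      (inner ℂ (f x) (Gop g V f x)).re - (inner ℂ (ψ x) (Gop g V ψ x)).re := by
    intro x hx
    have j1 := Complex.reCLM.integrable_comp ((hGf x).1.const_inner (𝕜 := ℂ) (f x))
    have j2 := Complex.reCLM.integrable_comp ((hGψ x).1.const_inner (𝕜 := ℂ) (ψ x))
    have j3 := Complex.reCLM.integrable_comp (hiΨ.const_inner (𝕜 := ℂ) (ψ x))
    simp only [Complex.reCLM_apply] at j1 j2 j3
    unfold Gop
    rw [re_inner_integral (hGf x).1, re_inner_integral (hGψ x).1, hΨ, re_inner_integral hiΨ,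
      ← integral_const_mul, ← integral_sub (hiψ.const_mul _) j3, ← integral_const_mul,
      ← integral_sub j1 j2]
    refine integral_mono_ae (((hiψ.const_mul _).sub j3).const_mul _) (j1.sub j2) ?_
    filter_upwards [hmin x hx] with y hy
    rw [re_inner_real_smul (V y), re_inner_real_smul (V y * g (x - y)) (f x),
      re_inner_real_smul (V y * g (x - y)) (ψ x)]
    have e1 : (inner ℂ (f x) (f y)).re = ‖ψ x‖ * ‖ψ y‖ := by
      simp only [hf]
      rw [re_inner_real_smul, re_inner_real_smul_left, re_inner_self, hξ1]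
      ring
    rw [e1]
    by_cases hy0 : V y = 0
    · simp [hy0]
    · have e2 := re_inner_le (ψ x) (ψ y)
      have e3 := hy hy0
      have e4 := hV.nonneg y
      have : 0 ≤ V y * (g (x - y) - gmin) * (‖ψ x‖ * ‖ψ y‖ - (inner ℂ (ψ x) (ψ y)).re) :=
        mul_nonneg (mul_nonneg e4 (by linarith)) (by linarith)
      nlinarith
  have k1 : Integrable (fun x => V x * (inner ℂ (f x) (Gop g V f x)).re) :=
    hV.integrable_mul (sm_re_inner hfm (sm_Gop hk.gnm.meas hV.meas hfm)).aestronglyMeasurable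
      (M := M * (γ * M)) fun x => (abs_re_inner_le _ _).trans
        (mul_le_mul ((hfn x).le.trans (hM x)) (hGf x).2 (norm_nonneg _) hM0)
  have k2 : Integrable (fun x => V x * (inner ℂ (ψ x) (Gop g V ψ x)).re) :=
    hV.integrable_mul (sm_re_inner hψ (sm_Gop hk.gnm.meas hV.meas hψ)).aestronglyMeasurable
      (M := M * (γ * M)) fun x => (abs_re_inner_le _ _).trans
        (mul_le_mul (hM x) (hGψ x).2 (norm_nonneg _) hM0)
  have k3 : Integrable (fun x => V x * ‖ψ x‖ ^ 2) :=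
    hV.integrable_mul (hψ.norm.pow 2).aestronglyMeasurable (M := M ^ 2) fun x => by
      rw [abs_of_nonneg (sq_nonneg _)]
      exact pow_le_pow_left₀ (norm_nonneg _) (hM x) 2
  have k4 : Integrable (fun x => V x * (inner ℂ (ψ x) Ψ).re) :=
    hV.integrable_mul (sm_re_inner hψ stronglyMeasurable_const).aestronglyMeasurable
      (M := M * ‖Ψ‖) fun x => (abs_re_inner_le _ _).trans
        (mul_le_mul_of_nonneg_right (hM x) (norm_nonneg _))
  have q1 : (m + l) * ∫ x, V x * (inner ℂ (f x) (Gop g V f x)).re ≤ ∫ x, V x * ‖ψ x‖ ^ 2 := by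
    have := hmax f ⟨hfm, M, fun y => (hfn y).le.trans (hM y)⟩
    unfold Qf Nf at this
    simp only [p2, hfn, mul_left_comm _ (m + l)] at this
    rwa [integral_const_mul] at this
  have q2 : ∫ x, V x * ‖ψ x‖ ^ 2 ≤
      (m + l) * (∫ x, V x * (inner ℂ (ψ x) (Gop g V ψ x)).re) + ω * Er := by
    calc _ ≤ ∫ x, ((m + l) * (V x * (inner ℂ (ψ x) (Gop g V ψ x)).re) + V x * Er) :=
          integral_mono k3 ((k2.const_mul _).add (hV.integrable.mul_const _)) fun x => by
            have := mul_le_mul_of_nonneg_left (p1 x) (hV.nonneg x)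
            simp only
            linarith
      _ ≤ _ := by
          rw [integral_add (k2.const_mul _) (hV.integrable.mul_const _), integral_const_mul,
            integral_mul_const]
          gcongr
  have q3 : ∫ x, V x * (inner ℂ (ψ x) Ψ).re = ‖Ψ‖ ^ 2 := by
    rw [← re_inner_self]
    nth_rewrite 2 [hΨ]
    rw [re_inner_integral hiΨ]
    refine integral_congr_ae (Filter.Eventually.of_forall fun x => ?_)
    simp only
    rw [re_inner_real_smul]
    congr 1
    exact inner_re_symm (𝕜 := ℂ) _ _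
  have q4 : gmin * (n₁ ^ 2 - ‖Ψ‖ ^ 2) ≤ (∫ x, V x * (inner ℂ (f x) (Gop g V f x)).re) -
      ∫ x, V x * (inner ℂ (ψ x) (Gop g V ψ x)).re := by
    rw [← q3, sq, ← integral_mul_const, ← integral_sub (hiψ.mul_const _) k4, ← integral_const_mul,
      ← integral_sub k1 k2]
    refine integral_mono (((hiψ.mul_const _).sub k4).const_mul _) (k1.sub k2) fun x => ?_
    by_cases hx : V x = 0
    · simp [hx]
    · have := mul_le_mul_of_nonneg_left (p3 x hx) (hV.nonneg x)
      simp only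
      linarith
  have q5 : ‖Ψ‖ ≤ n₁ := norm_integral_le_of_norm_le hiψ (Filter.Eventually.of_forall fun y => by
    rw [norm_smul, Complex.norm_real, Real.norm_of_nonneg (hV.nonneg y)])
  have q6 : 0 ≤ gmin * (n₁ ^ 2 - ‖Ψ‖ ^ 2) :=
    mul_nonneg hg0 (by nlinarith [norm_nonneg Ψ])
  nlinarith

/-- Lower bound for the macroscopic field at the origin. -/
lemma field_ge {g V₀ V₁ : E → ℝ} (hg : NM g) (h₀ : Nice V₀) (h₁ : Nice V₁) {γ M ω₁ gmin gfar : ℝ}
    (hγ : Adm V₀ g γ) {ψ : E → S} (hψ : StronglyMeasurable ψ) (hM : ∀ x, ‖ψ x‖ ≤ M) {ξ₀ : S}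
    (hξ1 : ‖ξ₀‖ = 1) (hω : ∫ y, V₁ y ≤ ω₁) (hg0 : 0 ≤ gmin) (hg1 : 0 ≤ gfar)
    (hlow : ∀ᵐ y, V₀ y ≠ 0 → gmin ≤ g (0 - y)) (hup : ∀ y, V₀ y ≠ 0 → g (0 - y) ≤ gfar) :
    gmin * ((∫ y, (V₀ y + V₁ y) * ‖ψ y‖) - ω₁ * M) -
      gfar * ((∫ y, (V₀ y + V₁ y) * ‖ψ y‖) - ‖∫ y, ((V₀ y + V₁ y : ℝ) : ℂ) • ψ y‖) ≤
      ‖Gop g V₀ ψ 0‖ := by
  have hM0 : 0 ≤ M := (norm_nonneg _).trans (hM 0)
  set Ψ := ∫ y, ((V₀ y + V₁ y : ℝ) : ℂ) • ψ y with hΨ
  obtain ⟨u, hu1, hu⟩ : ∃ u : S, ‖u‖ = 1 ∧ (inner ℂ u Ψ).re = ‖Ψ‖ := by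
    by_cases h0 : Ψ = 0
    · exact ⟨ξ₀, hξ1, by simp [h0]⟩
    · have hp : 0 < ‖Ψ‖ := norm_pos_iff.2 h0
      refine ⟨((‖Ψ‖⁻¹ : ℝ) : ℂ) • Ψ, ?_, ?_⟩
      · rw [norm_smul, Complex.norm_real, Real.norm_of_nonneg (by positivity)]
        field_simp
      · rw [re_inner_real_smul_left, re_inner_self]
        field_simp
  have hb : ∀ y, |‖ψ y‖| ≤ M := fun y => by rw [abs_of_nonneg (norm_nonneg _)]; exact hM y
  have hb' : ∀ y, |(inner ℂ u (ψ y)).re| ≤ M := fun y => (abs_re_inner_le _ _).trans (by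
    rw [hu1, one_mul]; exact hM y)
  have hsm := (sm_re_inner (stronglyMeasurable_const (b := u)) hψ).aestronglyMeasurable
    (μ := (volume : Measure E))
  have i0 := h₀.integrable_mul hψ.norm.aestronglyMeasurable hb
  have i1 := h₁.integrable_mul hψ.norm.aestronglyMeasurable hb
  have j0 := h₀.integrable_mul hsm hb'
  have j1 := h₁.integrable_mul hsm hb'
  have i01 : Integrable (fun y => (V₀ y + V₁ y) * ‖ψ y‖) := by
    simp only [add_mul]; exact i0.add i1
  have j01 : Integrable (fun y => (V₀ y + V₁ y) * (inner ℂ u (ψ y)).re) := by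
    simp only [add_mul]; exact j0.add j1
  have hiΨ : Integrable (fun y => ((V₀ y + V₁ y : ℝ) : ℂ) • ψ y) :=
    i01.mono' ((Complex.continuous_ofReal.measurable.comp
      (h₀.meas.add h₁.meas)).stronglyMeasurable.smul hψ).aestronglyMeasurable
      (Filter.Eventually.of_forall fun y => by
        rw [norm_smul, Complex.norm_real,
          Real.norm_of_nonneg (add_nonneg (h₀.nonneg y) (h₁.nonneg y))])
  have hG := (Gop_bound hg h₀.nm hγ hψ hM0 (fun y _ => hM y) 0).1
  have jG := Complex.reCLM.integrable_comp (hG.const_inner (𝕜 := ℂ) u)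
  simp only [Complex.reCLM_apply] at jG
  have e1 : (inner ℂ u (Gop g V₀ ψ 0)).re ≤ ‖Gop g V₀ ψ 0‖ := by
    simpa [hu1] using re_inner_le u (Gop g V₀ ψ 0)
  refine le_trans ?_ e1
  have e2 : ‖Ψ‖ = ∫ y, (V₀ y + V₁ y) * (inner ℂ u (ψ y)).re := by
    rw [← hu, hΨ, re_inner_integral hiΨ]
    simp only [re_inner_real_smul]
  have e3 : (∫ y, (V₀ y + V₁ y) * ‖ψ y‖) - ω₁ * M ≤ ∫ y, V₀ y * ‖ψ y‖ := by
    simp only [add_mul]
    rw [integral_add i0 i1]
    have : ∫ y, V₁ y * ‖ψ y‖ ≤ ∫ y, V₁ y * M :=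
      integral_mono i1 (h₁.integrable.mul_const _) fun y =>
        mul_le_mul_of_nonneg_left (hM y) (h₁.nonneg y)
    rw [integral_mul_const] at this
    nlinarith
  refine le_trans (sub_le_sub_right (mul_le_mul_of_nonneg_left e3 hg0) _) ?_
  have k01 : Integrable (fun y => (V₀ y + V₁ y) * ‖ψ y‖ - (V₀ y + V₁ y) * (inner ℂ u (ψ y)).re) :=
    i01.sub j01
  unfold Gop
  rw [e2, re_inner_integral hG, ← integral_sub i01 j01, ← integral_const_mul, ← integral_const_mul,
    ← integral_sub (i0.const_mul _) (k01.const_mul _)]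
  refine integral_mono_ae ((i0.const_mul _).sub (k01.const_mul _)) jG ?_
  filter_upwards [hlow] with y hy
  rw [re_inner_real_smul]
  have a1 : (inner ℂ u (ψ y)).re ≤ ‖ψ y‖ := by simpa [hu1] using re_inner_le u (ψ y)
  have a2 := h₀.nonneg y
  have a3 := h₁.nonneg y
  have a4 : 0 ≤ gfar * (V₁ y * (‖ψ y‖ - (inner ℂ u (ψ y)).re)) :=
    mul_nonneg hg1 (mul_nonneg a3 (by linarith))
  by_cases hy0 : V₀ y = 0
  · simp only [hy0]
    nlinarith
  · have a5 : 0 ≤ V₀ y * (g (0 - y) - gmin) * ‖ψ y‖ :=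
      mul_nonneg (mul_nonneg a2 (by linarith [hy hy0])) (norm_nonneg _)
    have a6 : 0 ≤ V₀ y * (gfar - g (0 - y)) * (‖ψ y‖ - (inner ℂ u (ψ y)).re) :=
      mul_nonneg (mul_nonneg a2 (by linarith [hup y hy0])) (by linarith)
    nlinarith

end Pool.Agent.MP_0b7119_mp.G

end

section

/-! Expansion of the ground state near the microscopic structure. -/

open Set MeasureTheory Real
open scoped ENNReal

namespace Pool.Agent.MP_0b7119_mp.G

set_option linter.unusedSectionVars false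

variable {E S : Type} [NormedAddCommGroup E] [InnerProductSpace ℝ E] [FiniteDimensional ℝ E]
  [MeasurableSpace E] [BorelSpace E] [NormedAddCommGroup S] [InnerProductSpace ℂ S]
  [CompleteSpace S] [FiniteDimensional ℂ S] {d : ℕ} {α : Fin d → S →L[ℂ] S} {β : S →L[ℂ] S}

lemma first_order (h : IsDiracRep α β) (e : OrthonormalBasis (Fin d) ℝ E) {m l : ℝ}
    {r : E → S →L[ℂ] S} {g q a V₀ V₁ : E → ℝ} (hk : Ker e α β m l r g q) (ha : NM a)
    (h₀ : Nice V₀) (h₁ : NM V₁) {γ₀ γ₁ η₀ η₁ η₂ τ lip ω₀ M : ℝ} (hγ₀ : Adm V₀ g γ₀)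
    (hγ₁ : Adm V₁ g γ₁) (hη₀ : Adm V₀ (fun z => q z * ‖z‖) η₀)
    (hη₁ : Adm V₁ (fun z => q z * ‖z‖) η₁) (hτ : Adm V₁ (fun z => a z * ‖z‖) τ)
    (hη₂ : Adm V₁ (fun z => |q z - a z| * ‖z‖) η₂) (hω : ∫ y, V₀ y ≤ ω₀) (hl : 0 ≤ l)
    (hlm : l ≤ m) {ψ : E → S} (hψ : StronglyMeasurable ψ)
    (hfix : ∀ x, ψ x = Rop r (fun y => V₀ y + V₁ y) ψ x) (hM : ∀ x, ‖ψ x‖ ≤ M) {x : E}
    (hlip0 : 0 ≤ lip) (hlip : ∀ y, V₀ y ≠ 0 → |g (x - y) - g (0 - y)| ≤ lip) :
    ‖ψ x - (((m + l) / 2 : ℝ) : ℂ) • (Gop g V₀ ψ 0 + β (Gop g V₀ ψ 0)) -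
      Complex.I • Kop e α a V₁ ψ x‖ ≤
      ((m - l) * γ₀ + 2 * m * (lip * ω₀) + 2 * m * γ₁ + η₀ + η₂) * M := by
  have hM0 : 0 ≤ M := (norm_nonneg _).trans (hM x)
  have G0 := Gop_bound hk.gnm h₀.nm hγ₀ hψ hM0 (fun y _ => hM y)
  have G1 := Gop_bound hk.gnm h₁ hγ₁ hψ hM0 (fun y _ => hM y) x
  have K0 := Kop_bound h e hk.qnm h₀.nm hη₀ hψ hM0 (fun y _ => hM y) x
  have K1 := Kop_bound h e hk.qnm h₁ hη₁ hψ hM0 (fun y _ => hM y) x
  have Ka := Kop_bound h e ha h₁ hτ hψ hM0 (fun y _ => hM y) x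
  have eG : Gop g (fun y => V₀ y + V₁ y) ψ x = Gop g V₀ ψ x + Gop g V₁ ψ x := by
    unfold Gop
    rw [← integral_add (G0 x).1 G1.1]
    simp only [add_mul, Complex.ofReal_add, add_smul]
  have eK : Kop e α q (fun y => V₀ y + V₁ y) ψ x = Kop e α q V₀ ψ x + Kop e α q V₁ ψ x := by
    unfold Kop
    rw [← integral_add K0.1 K1.1]
    simp only [add_mul, Complex.ofReal_add, add_smul]
  have iG : Integrable (fun y => (((V₀ y + V₁ y) * g (x - y) : ℝ) : ℂ) • ψ y) := by
    simp only [add_mul, Complex.ofReal_add, add_smul]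
    exact (G0 x).1.add G1.1
  have iK : Integrable (fun y => (((V₀ y + V₁ y) * q (x - y) : ℝ) : ℂ) • cl e α (x - y) (ψ y)) := by
    simp only [add_mul, Complex.ofReal_add, add_smul]
    exact K0.1.add K1.1
  have b1 : ‖Gop g V₀ ψ x - Gop g V₀ ψ 0‖ ≤ lip * ω₀ * M := by
    unfold Gop
    rw [← integral_sub (G0 x).1 (G0 0).1]
    refine (norm_integral_le_of_norm_le (h₀.integrable.mul_const (lip * M))
      (Filter.Eventually.of_forall fun y => ?_)).trans ?_
    · rw [← sub_smul, ← Complex.ofReal_sub, ← mul_sub, norm_smul, Complex.norm_real, norm_mul,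
        Real.norm_of_nonneg (h₀.nonneg y), mul_assoc]
      by_cases hy : V₀ y = 0
      · simp [hy]
      · exact mul_le_mul_of_nonneg_left (mul_le_mul (hlip y hy) (hM y) (norm_nonneg _) hlip0)
          (h₀.nonneg y)
    · rw [integral_mul_const]
      nlinarith [mul_nonneg hlip0 hM0]
  have b2 : ‖Kop e α q V₁ ψ x - Kop e α a V₁ ψ x‖ ≤ η₂ * M := by
    unfold Kop
    rw [← integral_sub K1.1 Ka.1]
    refine (hη₂.bound x (K1.1.sub Ka.1).aestronglyMeasurable hM0
      (Filter.Eventually.of_forall fun y => ?_)).2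
    rw [Pi.sub_apply, ← sub_smul, ← Complex.ofReal_sub, ← mul_sub, norm_smul, Complex.norm_real,
      norm_mul, Real.norm_of_nonneg (h₁.nonneg y), norm_cl_apply h, Real.norm_eq_abs]
    have := h₁.nonneg y
    calc _ ≤ V₁ y * |q (x - y) - a (x - y)| * (‖x - y‖ * M) := by gcongr; exact hM y
      _ = _ := by ring
  have e1 : ψ x - (((m + l) / 2 : ℝ) : ℂ) • (Gop g V₀ ψ 0 + β (Gop g V₀ ψ 0)) -
      Complex.I • Kop e α a V₁ ψ x =
      (((m - l) / 2 : ℝ) : ℂ) • (β (Gop g V₀ ψ 0) - Gop g V₀ ψ 0) +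
      ((m : ℂ) • β (Gop g V₀ ψ x - Gop g V₀ ψ 0) + (l : ℂ) • (Gop g V₀ ψ x - Gop g V₀ ψ 0)) +
      ((m : ℂ) • β (Gop g V₁ ψ x) + (l : ℂ) • Gop g V₁ ψ x) + Complex.I • Kop e α q V₀ ψ x +
      Complex.I • (Kop e α q V₁ ψ x - Kop e α a V₁ ψ x) := by
    conv_lhs => rw [hfix x, Rop_eq hk iG iK, eG, eK]
    simp only [map_add, map_sub]
    push_cast
    module
  have mass : ∀ y : S, ‖(m : ℂ) • β y + (l : ℂ) • y‖ ≤ 2 * m * ‖y‖ := fun y => by
    refine (norm_add_le _ _).trans ?_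
    rw [norm_smul, norm_smul, Complex.norm_real, Complex.norm_real, norm_β_apply h,
      Real.norm_of_nonneg hl, Real.norm_of_nonneg (hl.trans hlm)]
    nlinarith [norm_nonneg y]
  have c1 : ‖(((m - l) / 2 : ℝ) : ℂ) • (β (Gop g V₀ ψ 0) - Gop g V₀ ψ 0)‖ ≤ (m - l) * (γ₀ * M) := by
    rw [norm_smul, Complex.norm_real, Real.norm_of_nonneg (by linarith)]
    have e2 := norm_sub_le (β (Gop g V₀ ψ 0)) (Gop g V₀ ψ 0)
    rw [norm_β_apply h] at e2
    have := (G0 0).2
    nlinarith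
  have hm : 0 ≤ m := hl.trans hlm
  have c2 := (mass (Gop g V₀ ψ x - Gop g V₀ ψ 0)).trans
    (mul_le_mul_of_nonneg_left b1 (by positivity))
  have c3 := (mass (Gop g V₁ ψ x)).trans (mul_le_mul_of_nonneg_left G1.2 (by positivity))
  have c4 : ‖Complex.I • Kop e α q V₀ ψ x‖ ≤ η₀ * M := by
    rw [norm_smul, Complex.norm_I, one_mul]; exact K0.2
  have c5 : ‖Complex.I • (Kop e α q V₁ ψ x - Kop e α a V₁ ψ x)‖ ≤ η₂ * M := by
    rw [norm_smul, Complex.norm_I, one_mul]; exact b2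
  rw [e1]
  refine (norm_add_le _ _).trans ((add_le_add ((norm_add_le _ _).trans (add_le_add
    ((norm_add₃_le).trans (add_le_add (add_le_add c1 c2) c3)) c4)) c5).trans (le_of_eq ?_))
  ring

/-- The massless kernel. -/
noncomputable def a0 (c : ℝ) (z : E) : ℝ := c * (‖z‖ ^ Module.finrank ℝ E)⁻¹

lemma nm_a0 {c : ℝ} (hc : 0 ≤ c) : NM (a0 c : E → ℝ) :=
  ⟨by unfold a0; fun_prop, fun z => by unfold a0; positivity⟩

lemma measurable_kN : Measurable (kN : E → E) := by unfold kN; fun_prop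

lemma integrable_fld {c τ : ℝ} (hc : 0 < c) {U : E → ℝ} (hU : NM U)
    (hτ : Adm U (fun z => a0 c z * ‖z‖) τ) (x : E) : Integrable (fun y => U y • kN (x - y)) := by
  refine (hτ.bound x (M := c⁻¹) (f := fun y => U y • kN (x - y)) (hU.meas.smul
    (measurable_kN.comp (measurable_const.sub measurable_id))).aestronglyMeasurable
    (by positivity) (Filter.Eventually.of_forall fun y => le_of_eq ?_)).1
  rw [norm_smul, Real.norm_of_nonneg (hU.nonneg y), kN, norm_smul,
    Real.norm_of_nonneg (by positivity), a0]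
  field_simp

lemma Kop_const (e : Fin d → E) {c τ : ℝ} (hc : 0 < c) {U : E → ℝ} (hU : NM U)
    (hτ : Adm U (fun z => a0 c z * ‖z‖) τ) (ξ : S) (x : E) :
    Kop e α (a0 c) U (fun _ => ξ) x = (c : ℂ) • cl e α (Fld U x) ξ := by
  have h1 := ((ContinuousLinearMap.apply ℂ S ξ).restrictScalars ℝ ∘L clL e α).integral_comp_comm
    (integrable_fld hc hU hτ x)
  simp only [ContinuousLinearMap.comp_apply, clL_apply, ContinuousLinearMap.coe_restrictScalars',
    ContinuousLinearMap.apply_apply] at h1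
  unfold Kop Fld
  rw [← h1, ← integral_smul]
  refine integral_congr_ae (Filter.Eventually.of_forall fun y => ?_)
  simp only [kN, cl_smul, a0, smul_apply, smul_smul]
  congr 1
  push_cast
  ring

lemma re_inner_second (h : IsDiracRep α β) (e : OrthonormalBasis (Fin d) ℝ E) {c τ : ℝ}
    (hc : 0 < c) {U : E → ℝ} (hU : NM U) (hτ : Adm U (fun z => a0 c z * ‖z‖) τ) (ξ : S) (x : E) :
    (inner ℂ ξ (Complex.I • Kop e α (a0 c) U
      (fun y => Complex.I • Kop e α (a0 c) U (fun _ => ξ) y) x)).re =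
      -(c ^ 2 * ‖ξ‖ ^ 2 * Trc U x) := by
  have hτ0 : 0 ≤ τ := le_trans (integral_nonneg fun y => mul_nonneg (hU.nonneg y)
    (mul_nonneg ((nm_a0 hc.le).nonneg _) (norm_nonneg _))) (hτ.le 0)
  have K1 := Kop_bound h e (nm_a0 hc.le) hU hτ (f := fun _ => ξ) stronglyMeasurable_const
    (norm_nonneg ξ) (fun _ _ => le_rfl)
  have K2 := Kop_bound h e (nm_a0 hc.le) hU hτ
    (f := fun y => Complex.I • Kop e α (a0 c) U (fun _ => ξ) y)
    ((sm_Kop e α (nm_a0 hc.le).meas hU.meas stronglyMeasurable_const).const_smul _)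
    (mul_nonneg hτ0 (norm_nonneg ξ))
    (fun y _ => by rw [norm_smul, Complex.norm_I, one_mul]; exact (K1 y).2) x
  have K3 : Integrable (fun y => Complex.I • (((U y * a0 c (x - y) : ℝ) : ℂ) • cl e α (x - y)
      (Complex.I • Kop e α (a0 c) U (fun _ => ξ) y))) := K2.1.smul Complex.I
  conv_lhs => rw [Kop]
  rw [← integral_smul, re_inner_integral K3, Trc, ← integral_const_mul, ← integral_neg]
  refine integral_congr_ae (Filter.Eventually.of_forall fun y => ?_)
  simp only [Kop_const e hc hU hτ]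
  have e1 : Complex.I • (((U y * a0 c (x - y) : ℝ) : ℂ) • cl e α (x - y)
      (Complex.I • (c : ℂ) • cl e α (Fld U y) ξ)) =
      ((-(U y * a0 c (x - y) * c) : ℝ) : ℂ) • cl e α (x - y) (cl e α (Fld U y) ξ) := by
    simp only [map_smul, smul_smul]
    congr 1
    push_cast
    linear_combination (U y * a0 c (x - y) * c : ℂ) * Complex.I_mul_I
  rw [e1, re_inner_real_smul, ← inner_cl h, re_inner_cl_cl h, kN, real_inner_smul_left, a0]
  ring

lemma second_order (h : IsDiracRep α β) (e : OrthonormalBasis (Fin d) ℝ E) {c τ η ρ M : ℝ}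
    (hc : 0 < c) {U : E → ℝ} (hU : NM U) (hτ : Adm U (fun z => a0 c z * ‖z‖) τ) (hτ1 : τ ≤ 1)
    (hη0 : 0 ≤ η) (hη : η ≤ τ ^ 2) (hρ : 0 < ρ) (hs : ∀ y, U y ≠ 0 → ‖y‖ < ρ) {ψ : E → S}
    (hψ : StronglyMeasurable ψ) (hM : ∀ x, ‖ψ x‖ ≤ M) {ξ : S} (hξ : β ξ = ξ)
    (H : ∀ x, ‖x‖ < ρ → ‖ψ x - ξ - Complex.I • Kop e α (a0 c) U ψ x‖ ≤ η * M) {P : Set E}
    (hP : MeasurableSet P) (hPρ : P ⊆ Metric.ball 0 ρ) :
    -(c ^ 2 * ‖ξ‖ ^ 2 * Icub U P) - volume.real P * ((188 * τ ^ 3 + 18 * η) * M ^ 2) ≤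
      ∫ x in P, ((inner ℂ (ψ x) (β (ψ (-x)))).re - ‖ψ x‖ ^ 2) := by
  have hM0 : 0 ≤ M := (norm_nonneg _).trans (hM 0)
  have hτ0 : 0 ≤ τ := le_trans (integral_nonneg fun y => mul_nonneg (hU.nonneg y)
    (mul_nonneg ((nm_a0 hc.le).nonneg _) (norm_nonneg _))) (hτ.le 0)
  have ha := nm_a0 (E := E) hc.le
  set X := ‖ξ‖ with hX
  have hX0 : 0 ≤ X := norm_nonneg _
  set a : E → S := fun y => Complex.I • Kop e α (a0 c) U (fun _ => ξ) y with ha'
  have ham : StronglyMeasurable a :=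
    (sm_Kop e α ha.meas hU.meas stronglyMeasurable_const).const_smul _
  set t : E → S := fun y => Complex.I • Kop e α (a0 c) U a y with ht'
  have htm : StronglyMeasurable t := (sm_Kop e α ha.meas hU.meas ham).const_smul _
  have Kψ := Kop_bound h e ha hU hτ hψ hM0 (fun y _ => hM y)
  have Kξ := Kop_bound h e ha hU hτ (f := fun _ => ξ) stronglyMeasurable_const hX0
    (fun _ _ => le_rfl)
  have nI : ∀ y : S, ‖Complex.I • y‖ = ‖y‖ := fun y => by rw [norm_smul, Complex.norm_I, one_mul]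
  have hab : ∀ y, ‖a y‖ ≤ τ * X := fun y => by rw [ha', nI]; exact (Kξ y).2
  have Ka := Kop_bound h e ha hU hτ ham (mul_nonneg hτ0 hX0) (fun y _ => hab y)
  have htb : ∀ y, ‖t y‖ ≤ τ * (τ * X) := fun y => by rw [ht', nI]; exact (Ka y).2
  have hη1 : η ≤ 1 := hη.trans (pow_le_one₀ hτ0 hτ1)
  have s1 : ∀ x, ‖x‖ < ρ → ‖ψ x - ξ‖ ≤ τ * M + η * M := fun x hx => by
    have e1 : ψ x - ξ = Complex.I • Kop e α (a0 c) U ψ x +
        (ψ x - ξ - Complex.I • Kop e α (a0 c) U ψ x) := by abel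
    rw [e1]
    exact (norm_add_le _ _).trans (add_le_add (by rw [nI]; exact (Kψ x).2) (H x hx))
  have hX3 : X ≤ 3 * M := by
    have e1 := s1 0 (by simpa using hρ)
    have e2 := norm_sub_norm_le ξ (ψ 0)
    rw [norm_sub_rev] at e2
    nlinarith [hM 0]
  have s2 : ∀ x, ‖x‖ < ρ → ‖ψ x - ξ - a x‖ ≤ τ * (τ * M + η * M) + η * M := fun x hx => by
    have K1 := Kop_bound h e ha hU hτ (f := fun y => ψ y - ξ) (hψ.sub stronglyMeasurable_const)
      (by positivity) (fun y hy => s1 y (hs y hy)) x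
    have e1 : ψ x - ξ - a x = Complex.I • Kop e α (a0 c) U (fun y => ψ y - ξ) x +
        (ψ x - ξ - Complex.I • Kop e α (a0 c) U ψ x) := by
      have : Kop e α (a0 c) U (fun y => ψ y - ξ) x =
          Kop e α (a0 c) U ψ x - Kop e α (a0 c) U (fun _ => ξ) x := by
        unfold Kop
        rw [← integral_sub (Kψ x).1 (Kξ x).1]
        simp only [map_sub, smul_sub]
      rw [this, ha', smul_sub]
      abel
    rw [e1]
    exact (norm_add_le _ _).trans (add_le_add (by rw [nI]; exact K1.2) (H x hx))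
  have s3 : ∀ x, ‖x‖ < ρ → ‖ψ x - ξ - a x - t x‖ ≤ (τ ^ 3 + 3 * η) * M := fun x hx => by
    have K1 := Kop_bound h e ha hU hτ (f := fun y => ψ y - ξ - a y)
      ((hψ.sub stronglyMeasurable_const).sub ham) (by positivity) (fun y hy => s2 y (hs y hy)) x
    have e1 : ψ x - ξ - a x - t x = Complex.I • Kop e α (a0 c) U (fun y => ψ y - ξ - a y) x +
        (ψ x - ξ - Complex.I • Kop e α (a0 c) U ψ x) := by
      have : Kop e α (a0 c) U (fun y => ψ y - ξ - a y) x =
          Kop e α (a0 c) U ψ x - Kop e α (a0 c) U (fun _ => ξ) x - Kop e α (a0 c) U a x := by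
        have i1 : Integrable (fun y => ((U y * a0 c (x - y) : ℝ) : ℂ) • cl e α (x - y) (ψ y) -
            ((U y * a0 c (x - y) : ℝ) : ℂ) • cl e α (x - y) ξ) := (Kψ x).1.sub (Kξ x).1
        unfold Kop
        rw [← integral_sub (Kψ x).1 (Kξ x).1, ← integral_sub i1 (Ka x).1]
        simp only [map_sub, smul_sub]
      rw [this, smul_sub, smul_sub]
      simp only [ha', ht']
      abel
    rw [e1]
    refine (norm_add_le _ _).trans ((add_le_add ((nI _).le.trans K1.2) (H x hx)).trans ?_)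
    have e2 : 0 ≤ η * M := mul_nonneg hη0 hM0
    have e3 : τ * (η * M) ≤ η * M := mul_le_of_le_one_left e2 hτ1
    have e4 : τ * (τ * (η * M)) ≤ η * M := (mul_le_of_le_one_left (by positivity) hτ1).trans e3
    nlinarith
  have haξ : ∀ y, (inner ℂ ξ (a y)).re = 0 := fun y => by
    simp only [ha', Kop_const e hc hU hτ, inner_smul_right, inner_cl_upper h _ _ hξ, mul_zero,
      Complex.zero_re]
  have haβ : ∀ y, β (a y) = -a y := fun y => by
    have := cl_β_apply h e (Fld U y) ξ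
    rw [hξ] at this
    simp only [ha', Kop_const e hc hU hτ, map_smul]
    rw [← smul_neg, ← smul_neg, ← neg_neg (β _), ← this]
  have haa : ∀ y y', (inner ℂ (a y) (a y')).re = c ^ 2 * X ^ 2 * inner ℝ (Fld U y) (Fld U y') := by
    intro y y'
    simp only [ha', Kop_const e hc hU hτ]
    rw [inner_smul_left, inner_smul_right, ← mul_assoc, Complex.conj_I, neg_mul, Complex.I_mul_I,
      neg_neg, one_mul, re_inner_real_smul, re_inner_real_smul_left, re_inner_cl_cl h]
    ring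
  have hξt : ∀ y, (inner ℂ ξ (t y)).re = -(c ^ 2 * X ^ 2 * Trc U y) := fun y =>
    re_inner_second h e hc hU hτ ξ y
  set J : E → ℝ := fun x => (inner ℂ (a x) (a x)).re + (inner ℂ (a x) (a (-x))).re +
    (inner ℂ ξ (t x)).re - (inner ℂ ξ (t (-x))).re with hJ
  have hJI : ∫ x in P, J x = c ^ 2 * X ^ 2 * Icub U P := by
    rw [Icub, ← integral_const_mul]
    refine integral_congr_ae (Filter.Eventually.of_forall fun x => ?_)
    simp only [hJ, haa, hξt, real_inner_self_eq_norm_sq]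
    ring
  have hfin : volume P ≠ ⊤ := ((measure_mono hPρ).trans_lt measure_ball_lt_top).ne
  have hneg : ∀ {f : E → S}, StronglyMeasurable f → StronglyMeasurable fun x => f (-x) :=
    fun hf => hf.comp_measurable measurable_neg
  have iJ : IntegrableOn J P := by
    refine Measure.integrableOn_of_bounded (M := τ * X * (τ * X) + τ * X * (τ * X) +
      X * (τ * (τ * X)) + X * (τ * (τ * X))) hfin ((((sm_re_inner ham ham).add
      (sm_re_inner ham (hneg ham))).add (sm_re_inner stronglyMeasurable_const htm)).sub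
      (sm_re_inner stronglyMeasurable_const (hneg htm))).aestronglyMeasurable
      (Filter.Eventually.of_forall fun x => ?_)
    have hp : 0 ≤ τ * X := by positivity
    refine (norm_sub_le _ _).trans (add_le_add ((norm_add₃_le).trans
      (add_le_add (add_le_add ?_ ?_) ?_)) ?_)
    · exact (abs_re_inner_le _ _).trans (mul_le_mul (hab _) (hab _) (norm_nonneg _) hp)
    · exact (abs_re_inner_le _ _).trans (mul_le_mul (hab _) (hab _) (norm_nonneg _) hp)
    · exact (abs_re_inner_le _ _).trans (mul_le_mul_of_nonneg_left (htb _) hX0)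
    · exact (abs_re_inner_le _ _).trans (mul_le_mul_of_nonneg_left (htb _) hX0)
  have iD : IntegrableOn (fun x => (inner ℂ (ψ x) (β (ψ (-x)))).re - ‖ψ x‖ ^ 2) P := by
    refine Measure.integrableOn_of_bounded (M := M * M + M ^ 2) hfin
      ((sm_re_inner hψ (sm_β (hneg hψ))).sub (hψ.norm.pow 2)).aestronglyMeasurable
      (Filter.Eventually.of_forall fun x => (norm_sub_le _ _).trans (add_le_add ?_ ?_))
    · refine (abs_re_inner_le _ _).trans ?_
      rw [norm_β_apply h]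
      exact mul_le_mul (hM _) (hM _) (norm_nonneg _) hM0
    · rw [Real.norm_of_nonneg (sq_nonneg _)]
      exact pow_le_pow_left₀ (norm_nonneg _) (hM x) 2
  rw [← hJI, ← smul_eq_mul, ← setIntegral_const, ← integral_neg,
    ← integral_sub iJ.neg' (integrableOn_const hfin)]
  refine setIntegral_mono_on (iJ.neg'.sub (integrableOn_const hfin)) iD hP fun x hx => ?_
  have hx1 : ‖x‖ < ρ := by simpa using hPρ hx
  have hx2 : ‖-x‖ < ρ := by rwa [norm_neg]
  set u := ψ x - ξ - a x - t x with hu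
  set u' := ψ (-x) - ξ - a (-x) - t (-x) with hu'
  have b1 := s3 x hx1
  have b2 := s3 (-x) hx2
  rw [← hu] at b1
  rw [← hu'] at b2
  have hτ3 : τ ^ 3 ≤ τ ^ 2 := pow_le_pow_of_le_one hτ0 hτ1 (by norm_num)
  have hσ : ∀ y, ∀ w : S, ‖w‖ ≤ (τ ^ 3 + 3 * η) * M → ‖t y + w‖ ≤ 7 * τ ^ 2 * M := by
    intro y w hw
    have e1 := norm_add_le (t y) w
    have e2 := htb y
    have e3 : τ * (τ * X) ≤ τ ^ 2 * (3 * M) := by rw [← mul_assoc, ← sq]; gcongr
    have e4 : (τ ^ 3 + 3 * η) * M ≤ (4 * τ ^ 2) * M :=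
      mul_le_mul_of_nonneg_right (by linarith) hM0
    linarith
  have haM : ∀ y, ‖a y‖ ≤ 3 * τ * M := fun y => (hab y).trans (by nlinarith)
  have f1 : ψ x = ξ + a x + (t x + u) := by rw [hu]; abel
  have f2 : β (ψ (-x)) = ξ - a (-x) + β (t (-x) + u') := by
    have : ψ (-x) = ξ + a (-x) + (t (-x) + u') := by rw [hu']; abel
    rw [this, map_add, map_add, hξ, haβ]
    abel
  have g1 := hσ x u b1
  have g2 := hσ (-x) u' b2
  set s := t x + u with hs'
  set s' := t (-x) + u' with hs''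
  have f3 : (inner ℂ (ψ x) (β (ψ (-x)))).re - ‖ψ x‖ ^ 2 =
      (inner ℂ ξ s').re - (inner ℂ ξ s).re - (inner ℂ (a x) (a x)).re -
      (inner ℂ (a x) (a (-x))).re + (inner ℂ (a x) (β s' - s)).re +
      (inner ℂ s (β s' - s - a x - a (-x))).re := by
    rw [← re_inner_self, ← Complex.sub_re, ← inner_sub_right, f2]
    nth_rewrite 2 [f1]
    have e1 : ξ - a (-x) + β s' - (ξ + a x + s) = β s' - s - a x - a (-x) := by abel
    rw [e1]
    nth_rewrite 1 [f1]
    have e2 : inner ℂ ξ (β s') = inner ℂ ξ s' := by rw [← inner_β h, hξ]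
    rw [inner_add_left, inner_add_left, inner_sub_right ξ, inner_sub_right ξ, inner_sub_right ξ, e2,
      inner_sub_right (a x), inner_sub_right (a x)]
    simp only [Complex.add_re, Complex.sub_re, haξ]
    ring
  have n1 : ‖β s' - s‖ ≤ 14 * τ ^ 2 * M := by
    have := norm_sub_le (β s') s
    rw [norm_β_apply h] at this
    linarith
  have n2 : ‖β s' - s - a x - a (-x)‖ ≤ 14 * τ ^ 2 * M + 6 * τ * M := by
    have e1 := norm_sub_le (β s' - s - a x) (a (-x))
    have e2 := norm_sub_le (β s' - s) (a x)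
    linarith [haM x, haM (-x)]
  have m1 := (abs_le.1 ((abs_re_inner_le (a x) (β s' - s)).trans
    (mul_le_mul (haM x) n1 (norm_nonneg _) (by positivity)))).1
  have m2 := (abs_le.1 ((abs_re_inner_le s (β s' - s - a x - a (-x))).trans
    (mul_le_mul g1 n2 (norm_nonneg _) (by positivity)))).1
  have m3 := (abs_le.1 ((abs_re_inner_le ξ u').trans
    (mul_le_mul hX3 b2 (norm_nonneg _) (by positivity)))).1
  have m4 := (abs_le.1 ((abs_re_inner_le ξ u).trans
    (mul_le_mul hX3 b1 (norm_nonneg _) (by positivity)))).2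
  have m5 : τ ^ 4 * M ^ 2 ≤ τ ^ 3 * M ^ 2 :=
    mul_le_mul_of_nonneg_right (pow_le_pow_of_le_one hτ0 hτ1 (by norm_num)) (sq_nonneg M)
  rw [f3, hs', hs'', inner_add_right ξ, inner_add_right ξ, Complex.add_re, Complex.add_re]
  simp only [hJ]
  nlinarith

end Pool.Agent.MP_0b7119_mp.G

end

section

/-! Parity and the criterion for the midpoint potential. -/

open Set MeasureTheory Real
open scoped ENNReal

namespace Pool.Agent.MP_0b7119_mp.G

set_option linter.unusedSectionVars false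

variable {E S : Type} [NormedAddCommGroup E] [InnerProductSpace ℝ E] [FiniteDimensional ℝ E]
  [MeasurableSpace E] [BorelSpace E] [NormedAddCommGroup S] [InnerProductSpace ℂ S]
  [CompleteSpace S] [FiniteDimensional ℂ S] {d : ℕ} {α : Fin d → S →L[ℂ] S} {β : S →L[ℂ] S}

lemma β_integral (h : IsDiracRep α β) (f : E → S) : β (∫ y, f y) = ∫ y, β (f y) :=
  ((⟨β.toLinearMap, norm_β_apply h⟩ : S →ₗᵢ[ℂ] S).integral_comp_comm f).symm

lemma Rop_parity (h : IsDiracRep α β) {r : E → S →L[ℂ] S}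
    (hr : ∀ z ξ, β (r (-z) ξ) = r z (β ξ)) (V : E → ℝ) (ψ : E → S) (x : E) :
    Rop r (fun y => V (-y)) (fun y => β (ψ (-y))) x = β (Rop r V ψ (-x)) := by
  unfold Rop
  rw [β_integral h, ← integral_neg_eq_self]
  refine integral_congr_ae (Filter.Eventually.of_forall fun y => ?_)
  simp only [neg_neg, map_smul]
  rw [← hr]
  congr 3
  abel

lemma Sol.parity (h : IsDiracRep α β) {r : E → S →L[ℂ] S}
    (hr : ∀ z ξ, β (r (-z) ξ) = r z (β ξ)) {V : E → ℝ} {ψ : E → S} (hψ : Sol r V ψ) :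
    Sol r (fun y => V (-y)) (fun y => β (ψ (-y))) := by
  have hq := Measure.measurePreserving_neg (volume : Measure E)
  refine ⟨β.comp_memLp' (hψ.1.comp_measurePreserving hq), fun h0 => hψ.2.1 ?_, ?_⟩
  · filter_upwards [hq.quasiMeasurePreserving.ae h0] with x hx
    simp only [neg_neg, Pi.zero_apply] at hx ⊢
    rw [← β_β h (ψ x), hx, map_zero]
  · filter_upwards [hq.quasiMeasurePreserving.ae hψ.2.2] with x hx
    rw [Rop_parity h hr, ← hx]

lemma Nice.neg {V : E → ℝ} (h : Nice V) : Nice (fun y => V (-y)) := by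
  obtain ⟨C, hC⟩ := h.bdd
  obtain ⟨R, hR⟩ := h.supp
  exact ⟨h.meas.comp measurable_neg, fun y => h.nonneg _, ⟨C, fun y => hC _⟩,
    ⟨R, fun y hy => hR _ (by rwa [norm_neg])⟩⟩

lemma Nice.add {V W : E → ℝ} (h : Nice V) (h' : Nice W) : Nice (fun y => V y + W y) := by
  obtain ⟨C, hC⟩ := h.bdd
  obtain ⟨R, hR⟩ := h.supp
  obtain ⟨C', hC'⟩ := h'.bdd
  obtain ⟨R', hR'⟩ := h'.supp
  exact ⟨h.meas.add h'.meas, fun y => add_nonneg (h.nonneg y) (h'.nonneg y),
    ⟨C + C', fun y => add_le_add (hC y) (hC' y)⟩, ⟨max R R', fun y hy => by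
      rw [hR y ((le_max_left _ _).trans hy), hR' y ((le_max_right _ _).trans hy), add_zero]⟩⟩

lemma Nice.const_mul {V : E → ℝ} (h : Nice V) {c : ℝ} (hc : 0 ≤ c) : Nice (fun y => c * V y) := by
  obtain ⟨C, hC⟩ := h.bdd
  obtain ⟨R, hR⟩ := h.supp
  exact ⟨h.meas.const_mul c, fun y => mul_nonneg hc (h.nonneg y),
    ⟨c * C, fun y => mul_le_mul_of_nonneg_left (hC y) hc⟩, ⟨R, fun y hy => by
      rw [hR y hy, mul_zero]⟩⟩

lemma Rop_bound {r : E → S →L[ℂ] S} (hrm : StronglyMeasurable r) (hri : Integrable r)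
    {V : E → ℝ} (hV : Nice V) {f : E → S} (hf : StronglyMeasurable f) {M : ℝ}
    (hM : ∀ y, ‖f y‖ ≤ M) (x : E) : Integrable (fun y => (V y : ℂ) • r (x - y) (f y)) := by
  obtain ⟨C, hC⟩ := hV.bdd
  refine ((adm_of_integrable hV.meas hV.nonneg hC hri.norm fun z => norm_nonneg _).bound x
    (f := fun y => (V y : ℂ) • r (x - y) (f y)) ((sm_apply hrm hV.meas hf).comp_measurable
    (measurable_prodMk_left (x := x))).aestronglyMeasurable ((norm_nonneg _).trans (hM 0))
    (Filter.Eventually.of_forall fun y => ?_)).1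
  exact (norm_Rop_integrand_le (fun _ => le_rfl) hV.nonneg f x y).trans
    (mul_le_mul_of_nonneg_left (hM y) (mul_nonneg (hV.nonneg y) (norm_nonneg _)))

lemma criterion (h : IsDiracRep α β) {r : E → S →L[ℂ] S} (hrm : StronglyMeasurable r)
    (hri : Integrable r) (hr : ∀ z ξ, β (r (-z) ξ) = r z (β ξ)) {V : E → ℝ} (hV : Nice V)
    {P : Set E} (hP : MeasurableSet P) {ρ s : ℝ} (hPρ : P ⊆ Metric.ball 0 ρ) (hs : 0 < s)
    (h1 : ∀ x ∈ P, V x = s ∧ V (-x) = 0 ∧ -x ∉ P) (h2 : ∀ x, x ∉ P → -x ∉ P → V (-x) = V x)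
    {ψ : E → S} (hψ : StronglyMeasurable ψ) (hfix : ∀ x, ψ x = Rop r V ψ x) {M : ℝ}
    (hM : ∀ x, ‖ψ x‖ ≤ M)
    (hD : 0 < ∫ x in P, ((inner ℂ (ψ x) (β (ψ (-x)))).re - ‖ψ x‖ ^ 2)) :
    ∃ f : E → S, Test f ∧ Nf (fun x => 1 / 2 * V x + 1 / 2 * V (-x)) f <
      Qf r (fun x => 1 / 2 * V x + 1 / 2 * V (-x)) f := by
  classical
  have hM0 : 0 ≤ M := (norm_nonneg _).trans (hM 0)
  set W : E → ℝ := fun x => 1 / 2 * V x + 1 / 2 * V (-x) with hW
  have hWn : Nice W := (hV.const_mul (by norm_num)).add (hV.neg.const_mul (by norm_num))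
  set φ : E → S := fun x => β (ψ (-x)) with hφ
  have hφm : StronglyMeasurable φ := sm_β (hψ.comp_measurable measurable_neg)
  have hφM : ∀ x, ‖φ x‖ ≤ M := fun x => by rw [hφ]; simp only [norm_β_apply h]; exact hM _
  set χ : E → S := fun x => ((1 / 2 : ℝ) : ℂ) • (ψ x + φ x) with hχ
  have hχm : StronglyMeasurable χ := (hψ.add hφm).const_smul _
  have hχM : ∀ x, ‖χ x‖ ≤ M := fun x => by
    simp only [hχ]
    rw [norm_smul, Complex.norm_real, Real.norm_of_nonneg (by norm_num)]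
    linarith [norm_add_le (ψ x) (φ x), hM x, hφM x]
  have hP' : MeasurableSet {x : E | -x ∈ P} := measurable_neg hP
  set f : E → S := fun x => if x ∈ P then ψ x else if -x ∈ P then φ x else χ x with hf
  have hfm : StronglyMeasurable f :=
    StronglyMeasurable.ite hP hψ (StronglyMeasurable.ite hP' hφm hχm)
  have hfM : ∀ x, ‖f x‖ ≤ M := fun x => by
    simp only [hf]
    split_ifs
    exacts [hM x, hφM x, hχM x]
  have hR : ∀ x, Rop r W f x = χ x := by
    intro x
    have i1 := Rop_bound hrm hri hV hψ hM x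
    have i2 := Rop_bound hrm hri hV.neg hφm hφM x
    have e1 : φ x = Rop r (fun y => V (-y)) φ x := by
      rw [hφ, Rop_parity h hr, ← hfix]
    simp only [hχ]
    rw [hfix x, e1]
    unfold Rop
    rw [← integral_add i1 i2, ← integral_smul]
    refine integral_congr_ae (Filter.Eventually.of_forall fun y => ?_)
    simp only [hW, hf, hχ]
    split_ifs with a1 a2
    · rw [(h1 y a1).1, (h1 y a1).2.1]
      push_cast
      module
    · have := h1 (-y) a2
      rw [neg_neg] at this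
      rw [this.1, this.2.1]
      push_cast
      module
    · rw [h2 y a1 a2, map_smul, map_add]
      push_cast
      module
  set D : E → ℝ := fun x => (inner ℂ (ψ x) (β (ψ (-x)))).re - ‖ψ x‖ ^ 2 with hD'
  have hfin : volume P ≠ ⊤ := ((measure_mono hPρ).trans_lt measure_ball_lt_top).ne
  have iD : IntegrableOn D P := by
    refine Measure.integrableOn_of_bounded (M := M * M + M ^ 2) hfin
      ((sm_re_inner hψ hφm).sub (hψ.norm.pow 2)).aestronglyMeasurable
      (Filter.Eventually.of_forall fun x => (norm_sub_le _ _).trans (add_le_add ?_ ?_))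
    · exact (abs_re_inner_le _ _).trans (mul_le_mul (hM _) (hφM _) (norm_nonneg _) hM0)
    · rw [Real.norm_of_nonneg (sq_nonneg _)]
      exact pow_le_pow_left₀ (norm_nonneg _) (hM x) 2
  have iD1 : Integrable (P.indicator D) := (integrable_indicator_iff hP).2 iD
  have iD2 : Integrable (fun x => P.indicator D (-x)) := iD1.comp_neg
  have k1 : Integrable (fun x => W x * (inner ℂ (f x) (χ x)).re) :=
    hWn.integrable_mul (sm_re_inner hfm hχm).aestronglyMeasurable (M := M * M) fun x =>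
      (abs_re_inner_le _ _).trans (mul_le_mul (hfM x) (hχM x) (norm_nonneg _) hM0)
  have k2 : Integrable (fun x => W x * ‖f x‖ ^ 2) :=
    hWn.integrable_mul (hfm.norm.pow 2).aestronglyMeasurable (M := M ^ 2) fun x => by
      rw [abs_of_nonneg (sq_nonneg _)]
      exact pow_le_pow_left₀ (norm_nonneg _) (hfM x) 2
  refine ⟨f, ⟨hfm, M, hfM⟩, ?_⟩
  rw [← sub_pos]
  unfold Qf Nf
  simp only [hR]
  rw [← integral_sub k1 k2]
  have key : ∀ x, W x * (inner ℂ (f x) (χ x)).re - W x * ‖f x‖ ^ 2 =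
      s / 4 * P.indicator D x + s / 4 * P.indicator D (-x) := by
    intro x
    simp only [hW, hf, hχ]
    split_ifs with a1 a2
    · rw [(h1 x a1).1, (h1 x a1).2.1, indicator_of_mem a1, indicator_of_notMem (h1 x a1).2.2,
        re_inner_real_smul, inner_add_right, Complex.add_re, re_inner_self]
      simp only [hD', hφ]
      ring
    · have := h1 (-x) a2
      rw [neg_neg] at this
      rw [this.1, this.2.1, indicator_of_mem a2, indicator_of_notMem a1,
        re_inner_real_smul, inner_add_right, Complex.add_re, re_inner_self]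
      simp only [hD', hφ, neg_neg, norm_β_apply h, inner_β h]
      ring
    · rw [indicator_of_notMem a1, indicator_of_notMem a2, re_inner_self]
      ring
  simp only [key]
  rw [integral_add (iD1.const_mul _) (iD2.const_mul _), integral_const_mul, integral_const_mul,
    integral_neg_eq_self, integral_indicator hP]
  positivity

end Pool.Agent.MP_0b7119_mp.G

end
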