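import Pool.Agent.Mg.F0b7119.G3b52f0
import Pool.Agent.MP_0b7119_mp.Kern
import Pool.Agent.MP_0b7119_mp.Kern2
import Pool.Agent.MP_0b7119_mp.Ops
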